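import Pool.Agent.Lib.MP_b525bf_ag_E.PDefs

/-!
# Theorem E, projective part, row AWI: the ideals of the homogeneous localizations
-/

set_option autoImplicit false
set_option linter.unusedSectionVars false

namespace Pool.Agent.MP_b525bf_ag_E

open Pool.Agent.LU2 Pool.Agent.MP_b525bf_ag

open HomogeneousLocalization

variable {k A : Type} [Field k] [CommRing A] [IsDomain A] [Algebra k A]
  (𝒜 : ℕ → Submodule k A) [GradedAlgebra 𝒜]

namespace AWI

theorem away_mul {f : A} {d : ℕ} (hf : f ∈ 𝒜 d) {n : ℕ} {a : A} (ha : a ∈ 𝒜 (n • d)) :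
    algebraMap (Away 𝒜 f) (Localization.Away f) (Away.mk 𝒜 hf n a ha) *
      algebraMap A (Localization.Away f) (f ^ n) = algebraMap A (Localization.Away f) a := by
  rw [HomogeneousLocalization.algebraMap_apply, Away.val_mk, Localization.mk_eq_mk']
  exact IsLocalization.mk'_spec (Localization.Away f) a (⟨f ^ n, n, rfl⟩ : Submonoid.powers f)

theorem algebraMap_inj {f : A} (hf : f ≠ 0) : Function.Injective (algebraMap A (Localization.Away f)) :=
  IsLocalization.injective _ (powers_le_nonZeroDivisors_of_noZeroDivisors hf)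

theorem isUnit_pow (f : A) (n : ℕ) : IsUnit (algebraMap A (Localization.Away f) (f ^ n)) :=
  IsLocalization.map_units (Localization.Away f) (⟨f ^ n, n, rfl⟩ : Submonoid.powers f)

theorem away_ext {f : A} {z w : Away 𝒜 f} (n : ℕ)
    (h : algebraMap (Away 𝒜 f) (Localization.Away f) z *
      algebraMap A (Localization.Away f) (f ^ n) =
      algebraMap (Away 𝒜 f) (Localization.Away f) w *
        algebraMap A (Localization.Away f) (f ^ n)) : z = w := by
  have h1 := (isUnit_pow f n).mul_right_cancel h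
  exact val_injective _ h1

end AWI

open AWI

/-- row AWI -/
theorem mem_awayIdeal {I : Ideal A} {f : A} {d : ℕ} (hf : f ∈ 𝒜 d) (z : Away 𝒜 f) :
    z ∈ awayIdeal 𝒜 I f ↔
      ∃ (n : ℕ) (a : A) (ha : a ∈ 𝒜 (n • d)), a ∈ I ∧ z = Away.mk 𝒜 hf n a ha := by
  constructor
  · intro hz
    rw [awayIdeal, Ideal.mem_comap, IsLocalization.mem_map_algebraMap_iff (Submonoid.powers f)] at hz
    obtain ⟨⟨⟨a, ha⟩, ⟨t, l, rfl⟩⟩, h⟩ := hz
    obtain ⟨m, c, hc, rfl⟩ := Away.mk_surjective 𝒜 hf z
    simp only at h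
    have h1 : algebraMap A (Localization.Away f) (c * f ^ l) =
        algebraMap A (Localization.Away f) (a * f ^ m) := by
      rw [map_mul, ← away_mul 𝒜 hf hc, mul_right_comm, h, ← map_mul]
    rw [IsLocalization.eq_iff_exists (Submonoid.powers f)] at h1
    obtain ⟨⟨u, j, rfl⟩, h2⟩ := h1
    simp only at h2
    have h3 : f ^ (j + l) * c ∈ I := by
      have h4 : f ^ (j + l) * c = f ^ j * f ^ m * a := by
        rw [pow_add]
        linear_combination h2
      rw [h4]
      exact I.mul_mem_left _ ha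
    have h5 : f ^ (j + l) * c ∈ 𝒜 ((m + (j + l)) • d) := by
      rw [add_smul, add_comm]
      exact SetLike.mul_mem_graded (SetLike.pow_mem_graded _ hf) hc
    refine ⟨m + (j + l), f ^ (j + l) * c, h5, h3, ?_⟩
    refine away_ext 𝒜 (m + (j + l)) ?_
    rw [away_mul, pow_add f m, map_mul, ← mul_assoc, away_mul, ← map_mul, mul_comm]
  · rintro ⟨n, a, ha, haI, rfl⟩
    rw [awayIdeal, Ideal.mem_comap, IsLocalization.mem_map_algebraMap_iff (Submonoid.powers f)]
    exact ⟨⟨⟨a, haI⟩, ⟨f ^ n, n, rfl⟩⟩, away_mul 𝒜 hf ha⟩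

/-- row AWI -/
theorem toFrac_mk {f : A} (hf0 : f ≠ 0) {d : ℕ} (hf : f ∈ 𝒜 d) (n : ℕ) (a : A)
    (ha : a ∈ 𝒜 (n • d)) : toFrac 𝒜 hf0 (Away.mk 𝒜 hf n a ha) =
      algebraMap A (FractionRing A) a / algebraMap A (FractionRing A) f ^ n := by
  have hf' : algebraMap A (FractionRing A) f ≠ 0 := fun h =>
    hf0 (IsFractionRing.injective A (FractionRing A) (by rw [h, map_zero]))
  rw [eq_div_iff (pow_ne_zero n hf')]
  have h1 := congrArg (IsLocalization.Away.lift (S := Localization.Away f) f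
    (g := algebraMap A (FractionRing A)) (IsUnit.mk0 _ hf')) (away_mul 𝒜 hf ha)
  rw [map_mul, IsLocalization.Away.lift_eq, IsLocalization.Away.lift_eq, map_pow] at h1
  exact h1

/-- row AWI -/
theorem toFrac_injective {f : A} (hf0 : f ≠ 0) : Function.Injective (toFrac 𝒜 hf0) := by
  have hf' : algebraMap A (FractionRing A) f ≠ 0 := fun h =>
    hf0 (IsFractionRing.injective A (FractionRing A) (by rw [h, map_zero]))
  rw [injective_iff_map_eq_zero]
  intro z hz
  apply val_injective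
  rw [← HomogeneousLocalization.algebraMap_apply, ← HomogeneousLocalization.algebraMap_apply, map_zero]
  obtain ⟨⟨a, ⟨t, l, rfl⟩⟩, h⟩ := IsLocalization.surj (Submonoid.powers f)
    (algebraMap (Away 𝒜 f) (Localization.Away f) z)
  simp only at h
  have h1 := congrArg (IsLocalization.Away.lift (S := Localization.Away f) f
    (g := algebraMap A (FractionRing A)) (IsUnit.mk0 _ hf')) h
  have h2 : (IsLocalization.Away.lift (S := Localization.Away f) f
    (g := algebraMap A (FractionRing A)) (IsUnit.mk0 _ hf'))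
      (algebraMap (Away 𝒜 f) (Localization.Away f) z) = 0 := hz
  rw [map_mul, h2, zero_mul, IsLocalization.Away.lift_eq] at h1
  have h3 : a = 0 := IsFractionRing.injective A (FractionRing A) (by rw [← h1, map_zero])
  rw [h3, map_zero] at h
  exact (isUnit_pow f l).mul_left_eq_zero.1 h

/-- row AWI -/
theorem awayIdeal_map {I : Ideal A} {f g : A} (hf : f ∈ 𝒜 1) (hg : g ∈ 𝒜 1) :
    (awayIdeal 𝒜 I f).map (awayMap 𝒜 hg (rfl : f * g = f * g)) = awayIdeal 𝒜 I (f * g) := by
  have hfg : f * g ∈ 𝒜 (1 + 1) := SetLike.mul_mem_graded hf hg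
  apply le_antisymm
  · rw [Ideal.map_le_iff_le_comap]
    intro z hz
    obtain ⟨n, a, ha, haI, rfl⟩ := (mem_awayIdeal 𝒜 hf z).1 hz
    rw [Ideal.mem_comap, awayMap_mk, mem_awayIdeal 𝒜 hfg]
    exact ⟨n, _, _, I.mul_mem_right _ haI, rfl⟩
  · intro w hw
    obtain ⟨n, a, ha, haI, rfl⟩ := (mem_awayIdeal 𝒜 hfg w).1 hw
    have ha' : a ∈ 𝒜 ((2 * n) • 1) := by
      convert ha using 2
      simp [mul_comm]
    have hf' : f ^ (2 * n) ∈ 𝒜 (n • (1 + 1)) := by
      have h1 := SetLike.pow_mem_graded (2 * n) hf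
      convert h1 using 2
      simp [mul_comm]
    have h1 : Away.mk 𝒜 hf (2 * n) a ha' ∈ awayIdeal 𝒜 I f :=
      (mem_awayIdeal 𝒜 hf _).2 ⟨_, _, _, haI, rfl⟩
    have h2 : Away.mk 𝒜 hfg n a ha = awayMap 𝒜 hg (rfl : f * g = f * g)
        (Away.mk 𝒜 hf (2 * n) a ha') * Away.mk 𝒜 hfg n (f ^ (2 * n)) hf' := by
      refine away_ext 𝒜 (2 * n + n) ?_
      rw [map_mul, awayMap_mk, pow_add, map_mul, mul_mul_mul_comm, away_mul, away_mul,
        ← mul_assoc, mul_comm _ (algebraMap A (Localization.Away (f * g)) ((f * g) ^ (2 * n))),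
        mul_assoc, away_mul, ← map_mul, ← map_mul]
      congr 1
      ring
    rw [h2]
    exact Ideal.mul_mem_right _ _ (Ideal.mem_map_of_mem _ h1)

end Pool.Agent.MP_b525bf_ag_E
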