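import Pool.Agent.Lib.MP_b525bf_ag_E.Defs
import Pool.Agent.Lib.MP_b525bf_ag_P.SmoothTor

/-!
# Theorem E, row SMT

`C ≅ P ⊗ B` over `R = k[X_1..X_n]`, where `P` is the localisation of the polynomial ring in the
`r_i, x'_l`. For the injectivity `P` is embedded in the Laurent polynomial ring `L` in all variables.
-/

set_option autoImplicit false
set_option linter.unusedVariables false
set_option linter.unusedSectionVars false

namespace Pool.Agent.MP_b525bf_ag_E

open Pool.Agent.LU2 Pool.Agent.MP_b525bf_ag Pool.Agent.MP_b525bf_ag_W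

variable {k K : Type} [Field k] [Field K] [Algebra k K] {G : Subgroup (K ≃ₐ[k] K)}
  {A : Subalgebra k K}

variable {V : ValuationSubring K} {B : Subalgebra k K} {n : ℕ} {x z : Fin n → K}

namespace SMT

open TensorProduct MvPolynomial

/-- The Laurent polynomial ring. -/
abbrev Lau (k : Type) [Field k] (J : Type) (n : ℕ) : Type :=
  AddMonoidAlgebra k ((J → ℤ) × (Fin n → ℤ))

variable {J : Type}

theorem mon_add (hx : ∀ i, x i ≠ 0) (e e' : Fin n → ℤ) : mon x (e + e') = mon x e * mon x e' := by
  unfold mon
  rw [← Finset.prod_mul_distrib]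
  exact Finset.prod_congr rfl fun i _ => zpow_add₀ (hx i) _ _

theorem mon_zero : mon x (0 : Fin n → ℤ) = 1 := by simp [mon]

theorem mon_single (l : Fin n) : mon x (Pi.single l 1) = x l := by
  classical
  unfold mon
  rw [Finset.prod_eq_single l]
  · simp
  · intro i _ hi
    rw [Pi.single_eq_of_ne hi, zpow_zero]
  · intro h
    exact absurd (Finset.mem_univ _) h

/-- The homomorphism from the Laurent polynomial ring: `(m, e) ↦ x ^ e` in degree `m`. -/
noncomputable def delta (hx : ∀ i, x i ≠ 0) : Lau k J n →ₐ[k] AddMonoidAlgebra K (J → ℤ) :=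
  AddMonoidAlgebra.lift k _ _
    { toFun := fun a => AddMonoidAlgebra.single a.toAdd.1 (mon x a.toAdd.2)
      map_one' := by
        change AddMonoidAlgebra.single 0 (mon x 0) = _
        rw [mon_zero]
        rfl
      map_mul' := fun a b => by
        rw [AddMonoidAlgebra.single_mul_single, ← mon_add hx]
        rfl }

theorem delta_single (hx : ∀ i, x i ≠ 0) (a : (J → ℤ) × (Fin n → ℤ)) (c : k) :
    delta hx (AddMonoidAlgebra.single a c) =
      AddMonoidAlgebra.single a.1 (algebraMap k K c * mon x a.2) := by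
  unfold delta
  rw [AddMonoidAlgebra.lift_single]
  change c • AddMonoidAlgebra.single a.1 (mon x a.2) = _
  rw [AddMonoidAlgebra.smul_single, Algebra.smul_def]

/-- `single a 1` in the Laurent polynomial ring. -/
noncomputable def sg (a : (J → ℤ) × (Fin n → ℤ)) : Lau k J n := AddMonoidAlgebra.single a 1

theorem sg_add (a b : (J → ℤ) × (Fin n → ℤ)) : (sg (a + b) : Lau k J n) = sg a * sg b := by
  unfold sg
  rw [AddMonoidAlgebra.single_mul_single, one_mul]

theorem sg_zero : (sg 0 : Lau k J n) = 1 := rfl

theorem isUnit_sg (a : (J → ℤ) × (Fin n → ℤ)) : IsUnit (sg a : Lau k J n) :=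
  IsUnit.of_mul_eq_one (sg (-a)) (by rw [← sg_add, add_neg_cancel, sg_zero])

section P

variable [DecidableEq J] (v : Fin n → J → ℤ)

/-- The exponents of the images of the variables. -/
def gen : J ⊕ Fin n → (J → ℤ) × (Fin n → ℤ) :=
  Sum.elim (fun i => (-(Pi.single i 1), 0)) (fun l => (v l, Pi.single l 1))

/-- The embedding of the polynomial ring. -/
noncomputable def lam0 : MvPolynomial (J ⊕ Fin n) k →ₐ[k] Lau k J n := aeval fun t => sg (gen v t)

/-- The map of exponents. -/
noncomputable def expo : ((J ⊕ Fin n) →₀ ℕ) →+ (J → ℤ) × (Fin n → ℤ) :=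
  Finsupp.liftAddHom fun t => (smulAddHom ℕ _).flip (gen v t)

theorem expo_single (t : J ⊕ Fin n) (m : ℕ) : expo v (Finsupp.single t m) = m • gen v t := by
  unfold expo
  rw [Finsupp.liftAddHom_apply_single]
  rfl

theorem lam0_monomial (s : (J ⊕ Fin n) →₀ ℕ) (c : k) :
    lam0 v (monomial s c) = AddMonoidAlgebra.single (expo v s) c := by
  have h1 : ∀ s : (J ⊕ Fin n) →₀ ℕ, lam0 (k := k) v (monomial s 1) = sg (expo v s) := by
    intro s
    induction s using Finsupp.induction_linear with
    | zero =>
      rw [map_zero, sg_zero]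
      exact map_one _
    | add f g hf hg =>
      have : (monomial (f + g) (1 : k) : MvPolynomial (J ⊕ Fin n) k) =
          monomial f 1 * monomial g 1 := by
        rw [monomial_mul, one_mul]
      rw [this, map_mul, hf, hg, map_add, sg_add]
    | single t m =>
      rw [← X_pow_eq_monomial, map_pow]
      have h2 : lam0 (k := k) v (X t) = sg (gen v t) := aeval_X _ _
      rw [h2, expo_single]
      unfold sg
      rw [AddMonoidAlgebra.single_pow, one_pow]
  have h2 : (monomial s c : MvPolynomial (J ⊕ Fin n) k) = c • monomial s 1 := by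
    rw [smul_monomial, smul_eq_mul, mul_one]
  rw [h2, map_smul, h1]
  unfold sg
  rw [AddMonoidAlgebra.smul_single, smul_eq_mul, mul_one]

theorem expo_apply [Fintype J] (s : (J ⊕ Fin n) →₀ ℕ) :
    expo v s = (fun i => -(s (Sum.inl i) : ℤ) + ∑ l, (s (Sum.inr l) : ℤ) * v l i,
      fun l => (s (Sum.inr l) : ℤ)) := by
  induction s using Finsupp.induction_linear with
  | zero =>
    rw [map_zero]
    refine Prod.ext ?_ ?_
    · funext i
      simp
    · funext l
      simp
  | add f g hf hg =>
    rw [map_add, hf, hg]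
    refine Prod.ext ?_ ?_
    · funext i
      simp only [Prod.fst_add, Pi.add_apply, Finsupp.add_apply, Nat.cast_add]
      simp only [add_mul, Finset.sum_add_distrib]
      ring
    · funext l
      simp
  | single t m =>
    rw [expo_single]
    cases t with
    | inl i0 =>
      refine Prod.ext ?_ ?_
      · funext i
        simp only [gen, Sum.elim_inl, Prod.smul_fst, Pi.smul_apply, Pi.neg_apply]
        by_cases h : i = i0
        · subst h
          simp
        · rw [Pi.single_eq_of_ne h, Finsupp.single_eq_of_ne (by simpa using h)]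
          simp
      · funext l
        simp [gen]
    | inr l0 =>
      refine Prod.ext ?_ ?_
      · funext i
        simp only [gen, Sum.elim_inr, Prod.smul_fst, Pi.smul_apply]
        rw [Finsupp.single_eq_of_ne (by simp), Finset.sum_eq_single l0]
        · simp
        · intro l _ hl
          rw [Finsupp.single_eq_of_ne (by simpa using hl)]
          simp
        · intro h
          exact absurd (Finset.mem_univ _) h
      · funext l
        simp only [gen, Sum.elim_inr, Prod.smul_snd, Pi.smul_apply]
        by_cases h : l = l0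
        · subst h
          simp
        · rw [Pi.single_eq_of_ne h, Finsupp.single_eq_of_ne (by simpa using h)]
          simp

theorem expo_injective [Fintype J] : Function.Injective (expo (J := J) v) := by
  intro s s' h
  rw [expo_apply, expo_apply] at h
  have h2 : ∀ l, s (Sum.inr l) = s' (Sum.inr l) := fun l => by
    have h3 : (s (Sum.inr l) : ℤ) = s' (Sum.inr l) := congrFun (congrArg Prod.snd h) l
    exact_mod_cast h3
  refine Finsupp.ext fun t => ?_
  cases t with
  | inl i =>
    have h3 := congrFun (congrArg Prod.fst h) i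
    simp only [h2] at h3
    have h4 : -(s (Sum.inl i) : ℤ) = -(s' (Sum.inl i) : ℤ) := add_right_cancel h3
    exact_mod_cast neg_injective h4
  | inr l => exact h2 l

theorem lam0_injective [Fintype J] : Function.Injective (lam0 (k := k) (J := J) v) := by
  rw [injective_iff_map_eq_zero]
  intro p hp
  have key : ∀ (p : MvPolynomial (J ⊕ Fin n) k) (s : (J ⊕ Fin n) →₀ ℕ),
      (lam0 v p).coeff (expo v s) = p.coeff s := by
    intro p s
    induction p using MvPolynomial.induction_on' with
    | monomial u a =>
      rw [lam0_monomial, AddMonoidAlgebra.coeff_single, Finsupp.single_apply, coeff_monomial]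
      simp only [(expo_injective v).eq_iff]
    | add p q hp hq =>
      rw [map_add, AddMonoidAlgebra.coeff_add, Finsupp.add_apply, hp, hq, coeff_add]
  refine MvPolynomial.ext _ _ fun s => ?_
  rw [← key, hp]
  rfl

/-- The variables which are inverted. -/
noncomputable def inv (T : Set J) : Submonoid (MvPolynomial (J ⊕ Fin n) k) :=
  Submonoid.closure ({p | ∃ i, i ∉ T ∧ p = X (Sum.inl i)} ∪ {p | ∃ l, p = X (Sum.inr l)})

theorem isUnit_lam0 (T : Set J) (y : inv (k := k) (n := n) T) : IsUnit (lam0 v y.1) := by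
  have h : inv (k := k) (n := n) T ≤ (IsUnit.submonoid (Lau k J n)).comap (lam0 v) := by
    unfold inv
    rw [Submonoid.closure_le]
    rintro p (⟨i, _, rfl⟩ | ⟨l, rfl⟩)
    · change IsUnit (lam0 v (X (Sum.inl i)))
      have : lam0 (k := k) v (X (Sum.inl i)) = sg (gen v (Sum.inl i)) := aeval_X _ _
      rw [this]
      exact isUnit_sg _
    · change IsUnit (lam0 v (X (Sum.inr l)))
      have : lam0 (k := k) v (X (Sum.inr l)) = sg (gen v (Sum.inr l)) := aeval_X _ _
      rw [this]
      exact isUnit_sg _
  exact h y.2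

/-- The embedding of the localisation. -/
noncomputable def lam (T : Set J) : Localization (inv (k := k) (n := n) T) →ₐ[k] Lau k J n :=
  IsLocalization.liftAlgHom (M := inv (k := k) (n := n) T) (f := lam0 v) (isUnit_lam0 v T)

theorem lam_algebraMap (T : Set J) (p : MvPolynomial (J ⊕ Fin n) k) :
    lam v T (algebraMap _ _ p) = lam0 v p :=
  IsLocalization.lift_eq (isUnit_lam0 v T) p

theorem lam_injective [Fintype J] (T : Set J) : Function.Injective (lam (k := k) v T) := by
  change Function.Injective (IsLocalization.lift (M := inv (k := k) (n := n) T)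
    (S := Localization (inv (k := k) (n := n) T)) (g := (lam0 v).toRingHom) (isUnit_lam0 v T))
  rw [IsLocalization.lift_injective_iff]
  intro p q
  constructor
  · intro h
    have := congrArg (lam v T) h
    rwa [lam_algebraMap, lam_algebraMap] at this
  · intro h
    rw [lam0_injective v h]

/-- The units which are in the image. -/
theorem sg_mem_range (T : Set J) :
    (∀ t, sg (gen v t) ∈ (lam (k := k) v T).range) ∧
      (∀ i, i ∉ T → sg (-(gen v (Sum.inl i))) ∈ (lam (k := k) v T).range) ∧
      ∀ l, sg (-(gen v (Sum.inr l))) ∈ (lam (k := k) v T).range := by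
  have h1 : ∀ t, lam (k := k) v T (algebraMap _ _ (X t)) = sg (gen v t) := fun t => by
    rw [lam_algebraMap]
    exact aeval_X _ _
  have h2 : ∀ t, (X t : MvPolynomial (J ⊕ Fin n) k) ∈ inv (k := k) (n := n) T →
      sg (-(gen v t)) ∈ (lam (k := k) v T).range := by
    intro t ht
    obtain ⟨w, hw⟩ := isUnit_iff_exists_inv.1
      (IsLocalization.map_units (Localization (inv (k := k) (n := n) T)) ⟨X t, ht⟩)
    refine ⟨w, ?_⟩
    change lam v T w = _
    have h3 := congrArg (lam (k := k) v T) hw
    rw [map_mul, map_one, h1] at h3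
    calc lam v T w = sg (-(gen v t)) * (sg (gen v t) * lam v T w) := by
          rw [← mul_assoc, ← sg_add, neg_add_cancel, sg_zero, one_mul]
      _ = sg (-(gen v t)) := by rw [h3, mul_one]
  refine ⟨fun t => ⟨_, h1 t⟩, fun i hi => h2 _ (Submonoid.subset_closure (Or.inl ⟨i, hi, rfl⟩)),
    fun l => h2 _ (Submonoid.subset_closure (Or.inr ⟨l, rfl⟩))⟩

theorem sg_mem [Fintype J] {T : Set J} (hv : ∀ l, ∀ i ∈ T, 0 ≤ v l i) (l : Fin n) :
    sg (0, Pi.single l 1) ∈ (lam (k := k) v T).range := by
  obtain ⟨h1, h2, h3⟩ := sg_mem_range (k := k) v T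
  let E : AddSubmonoid ((J → ℤ) × (Fin n → ℤ)) :=
    { carrier := {a | sg a ∈ (lam (k := k) v T).range}
      zero_mem' := by
        change sg 0 ∈ (lam (k := k) v T).range
        rw [sg_zero]
        exact Subalgebra.one_mem _
      add_mem' := by
        intro a b ha hb
        change sg (a + b) ∈ (lam (k := k) v T).range
        rw [sg_add]
        exact Subalgebra.mul_mem _ ha hb }
  have h4 : ((0 : J → ℤ), (Pi.single l 1 : Fin n → ℤ)) =
      gen v (Sum.inr l) + ∑ i, (-(Pi.single i (v l i)), 0) := by
    refine Prod.ext ?_ ?_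
    · rw [Prod.fst_add, Prod.fst_sum]
      simp only [gen, Sum.elim_inr]
      rw [Finset.sum_neg_distrib, Finset.univ_sum_single, add_neg_cancel]
    · rw [Prod.snd_add, Prod.snd_sum]
      simp [gen]
  have h5 : ((0 : J → ℤ), (Pi.single l 1 : Fin n → ℤ)) ∈ E := by
    rw [h4]
    refine E.add_mem (h1 _) (E.sum_mem fun i _ => ?_)
    rcases le_or_gt 0 (v l i) with h | h
    · have h6 : ((-(Pi.single i (v l i)) : J → ℤ), (0 : Fin n → ℤ)) =
          (v l i).toNat • gen v (Sum.inl i) := by
        refine Prod.ext ?_ (by simp [gen])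
        simp only [gen, Sum.elim_inl, Prod.smul_fst]
        rw [smul_neg, ← Pi.single_smul]
        congr 2
        simp [h]
      rw [h6]
      exact E.nsmul_mem (h1 _) _
    · have hi : i ∉ T := fun hi => absurd (hv l i hi) (not_le.2 h)
      have h6 : ((-(Pi.single i (v l i)) : J → ℤ), (0 : Fin n → ℤ)) =
          (-(v l i)).toNat • (-(gen v (Sum.inl i))) := by
        refine Prod.ext ?_ (by simp [gen])
        simp only [gen, Sum.elim_inl, Prod.smul_fst, Prod.fst_neg, neg_neg]
        rw [← Pi.single_smul, ← Pi.single_neg]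
        congr 1
        simp [h.le]
      rw [h6]
      exact E.nsmul_mem (h2 i hi) _
  exact h5

end P

/-! ### Injectivity -/

section Inj

variable {R : Type} [CommRing R] [Algebra R B] [Algebra R (Lau k J n)]
  [Algebra R (AddMonoidAlgebra K (J → ℤ))]

/-- The map `w ↦ ∑ w m ⊗ m`. -/
noncomputable def omg (R : Type) [CommRing R] [Algebra R B] [Algebra R (Lau k J n)] :
    ((J → ℤ) →₀ B) →+ B ⊗[R] (Lau k J n) :=
  Finsupp.liftAddHom fun m => (TensorProduct.mk R B (Lau k J n)).flip (sg (m, 0)) |>.toAddMonoidHom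

theorem omg_single (m : J → ℤ) (b : B) :
    omg (k := k) (n := n) R (Finsupp.single m b) = b ⊗ₜ sg (m, 0) := by
  unfold omg
  rw [Finsupp.liftAddHom_apply_single]
  rfl

theorem lift_inj (hx : ∀ i, x i ≠ 0) (jB : B →ₐ[R] AddMonoidAlgebra K (J → ℤ))
    (hjB : ∀ b : B, jB b = AddMonoidAlgebra.single 0 (b : K))
    (jL : Lau k J n →ₐ[R] AddMonoidAlgebra K (J → ℤ)) (hjL : ∀ F, jL F = delta hx F)
    (hR : ∀ (e : Fin n → ℕ) (c : k), ∃ r : R,
      algebraMap R (Lau k J n) r = AddMonoidAlgebra.single (0, zx e) c) :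
    Function.Injective (Algebra.TensorProduct.lift jB jL fun _ _ => Commute.all _ _) := by
  classical
  set Φ := Algebra.TensorProduct.lift jB jL fun _ _ => Commute.all _ _ with hΦ
  -- the values on the range of `omg`
  have h1 : ∀ (w : (J → ℤ) →₀ B) (m : J → ℤ), (Φ (omg R w)).coeff m = (w m : K) := by
    intro w m
    induction w using Finsupp.induction_linear with
    | zero =>
      rw [map_zero, map_zero]
      rfl
    | add f g hf hg =>
      rw [map_add, map_add, AddMonoidAlgebra.coeff_add, Finsupp.add_apply, hf, hg,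
        Finsupp.add_apply]
      rfl
    | single m' b =>
      rw [omg_single, hΦ, Algebra.TensorProduct.lift_tmul, hjB, hjL]
      unfold sg
      rw [delta_single, AddMonoidAlgebra.single_mul_single, AddMonoidAlgebra.coeff_single,
        Finsupp.single_apply, Finsupp.single_apply]
      simp only [zero_add, map_one, mon_zero, mul_one]
      split_ifs <;> rfl
  have h2 : ∀ w : (J → ℤ) →₀ B, Φ (omg R w) = 0 → omg (k := k) (n := n) R w = 0 := by
    intro w hw
    have : w = 0 := by
      refine Finsupp.ext fun m => Subtype.ext ?_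
      rw [← h1, hw]
      rfl
    rw [this, map_zero]
  -- multiply by a power of the product of the variables
  have h3 : ∀ z : B ⊗[R] (Lau k J n), ∃ N : ℕ, ∀ N' : ℕ, N ≤ N' →
      z * (1 ⊗ₜ sg (0, fun _ => (N' : ℤ))) ∈ (omg (k := k) (n := n) (B := B) R).range := by
    intro z
    induction z with
    | zero => exact ⟨0, fun N' _ => by rw [zero_mul]; exact AddSubgroup.zero_mem _⟩
    | add a b ha hb =>
      obtain ⟨N, hN⟩ := ha
      obtain ⟨M, hM⟩ := hb
      refine ⟨max N M, fun N' h => ?_⟩
      rw [add_mul]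
      exact AddSubgroup.add_mem _ (hN N' ((le_max_left _ _).trans h))
        (hM N' ((le_max_right _ _).trans h))
    | tmul b F =>
      induction F using AddMonoidAlgebra.induction_linear with
      | zero =>
        refine ⟨0, fun N' _ => ?_⟩
        rw [tmul_zero, zero_mul]
        exact AddSubgroup.zero_mem _
      | add F F' hF hF' =>
        obtain ⟨N, hN⟩ := hF
        obtain ⟨M, hM⟩ := hF'
        refine ⟨max N M, fun N' h => ?_⟩
        rw [tmul_add, add_mul]
        exact AddSubgroup.add_mem _ (hN N' ((le_max_left _ _).trans h))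
          (hM N' ((le_max_right _ _).trans h))
      | single a c =>
        obtain ⟨m, e⟩ := a
        refine ⟨∑ l, (-(e l)).toNat, fun N' h => ?_⟩
        have h4 : ∀ l, 0 ≤ e l + N' := by
          intro l
          have h5 : (-(e l)).toNat ≤ ∑ l, (-(e l)).toNat :=
            Finset.single_le_sum (f := fun l => (-(e l)).toNat) (fun _ _ => Nat.zero_le _)
              (Finset.mem_univ l)
          have h6 := Int.self_le_toNat (-(e l))
          have h7 : ((-(e l)).toNat : ℤ) ≤ N' := by exact_mod_cast h5.trans h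
          linarith
        obtain ⟨r, hr⟩ := hR (fun l => (e l + N').toNat) c
        have h5 : (zx fun l => (e l + N').toNat) = e + fun _ => (N' : ℤ) := by
          funext l
          exact Int.toNat_of_nonneg (h4 l)
        rw [Algebra.TensorProduct.tmul_mul_tmul, mul_one]
        have h6 : (AddMonoidAlgebra.single (m, e) c : Lau k J n) * sg (0, fun _ => (N' : ℤ)) =
            r • sg (m, 0) := by
          rw [Algebra.smul_def, hr, h5]
          unfold sg
          rw [AddMonoidAlgebra.single_mul_single, AddMonoidAlgebra.single_mul_single,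
            Prod.mk_add_mk, Prod.mk_add_mk, add_zero, zero_add, add_zero]
        rw [h6, ← TensorProduct.smul_tmul, ← omg_single]
        exact ⟨_, rfl⟩
  rw [injective_iff_map_eq_zero]
  intro z hz
  obtain ⟨N, hN⟩ := h3 z
  obtain ⟨w, hw⟩ := hN N le_rfl
  have h4 : omg (k := k) (n := n) R w = 0 := by
    apply h2
    rw [hw, map_mul, hz, zero_mul]
  rw [hw] at h4
  calc z = z * (1 ⊗ₜ sg (0, fun _ => (N : ℤ))) * (1 ⊗ₜ sg (0, fun _ => -(N : ℤ))) := by
        rw [mul_assoc, Algebra.TensorProduct.tmul_mul_tmul, mul_one, ← sg_add]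
        have : ((0 : J → ℤ), fun _ : Fin n => (N : ℤ)) + (0, fun _ => -(N : ℤ)) = 0 := by
          refine Prod.ext (by simp) ?_
          funext l
          simp
        rw [this, sg_zero]
        exact (mul_one z).symm
    _ = 0 := by rw [h4, zero_mul]

end Inj

/-! ### The image -/

section Image

variable [DecidableEq J]

theorem mem_of_lam (v : Fin n → J → ℤ) (T : Set J) (C : Subalgebra k (Lau k J n))
    (h1 : ∀ t, sg (gen v t) ∈ C) (h2 : ∀ i, i ∉ T → sg (-(gen v (Sum.inl i))) ∈ C)
    (h3 : ∀ l, sg (-(gen v (Sum.inr l))) ∈ C) (p : Localization (inv (k := k) (n := n) T)) :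
    lam v T p ∈ C := by
  have h4 : ∀ a : MvPolynomial (J ⊕ Fin n) k, lam0 v a ∈ C := by
    intro a
    induction a using MvPolynomial.induction_on with
    | C c =>
      have : lam0 v (MvPolynomial.C c) = algebraMap k (Lau k J n) c := aeval_C _ _
      rw [this]
      exact C.algebraMap_mem c
    | add a b ha hb =>
      rw [map_add]
      exact C.add_mem ha hb
    | mul_X a t ha =>
      rw [map_mul]
      refine C.mul_mem ha ?_
      have : lam0 (k := k) v (X t) = sg (gen v t) := aeval_X _ _
      rw [this]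
      exact h1 t
  have h5 : ∀ a ∈ inv (k := k) (n := n) T, ∃ w ∈ C, lam0 v a * w = 1 := by
    intro a ha
    unfold inv at ha
    induction ha using Submonoid.closure_induction with
    | mem a ha =>
      rcases ha with ⟨i, hi, rfl⟩ | ⟨l, rfl⟩
      · refine ⟨_, h2 i hi, ?_⟩
        have : lam0 (k := k) v (X (Sum.inl i)) = sg (gen v (Sum.inl i)) := aeval_X _ _
        rw [this, ← sg_add, add_neg_cancel, sg_zero]
      · refine ⟨_, h3 l, ?_⟩
        have : lam0 (k := k) v (X (Sum.inr l)) = sg (gen v (Sum.inr l)) := aeval_X _ _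
        rw [this, ← sg_add, add_neg_cancel, sg_zero]
    | one => exact ⟨1, C.one_mem, by rw [map_one, mul_one]⟩
    | mul a b _ _ ha hb =>
      obtain ⟨w, hw, hw'⟩ := ha
      obtain ⟨w', hw1, hw1'⟩ := hb
      refine ⟨w * w', C.mul_mem hw hw1, ?_⟩
      rw [map_mul, mul_mul_mul_comm, hw', hw1', mul_one]
  obtain ⟨⟨a, s⟩, hs⟩ := IsLocalization.surj (inv (k := k) (n := n) T) p
  obtain ⟨w, hw, hw'⟩ := h5 s.1 s.2
  have h6 := congrArg (lam v T) hs
  rw [map_mul, lam_algebraMap, lam_algebraMap] at h6
  have h7 : lam v T p = lam0 v a * w := by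
    rw [← h6, mul_assoc, hw', mul_one]
  rw [h7]
  exact C.mul_mem (h4 a) hw

end Image

/-! ### The base change -/

section Core

variable {R P L D B' : Type} [CommRing R] [CommRing P] [CommRing L] [CommRing D] [CommRing B']
  [Algebra k R] [Algebra k P] [Algebra k L] [Algebra k D] [Algebra k B']

theorem flat_of (β : R →ₐ[k] B') [IsNoetherianRing R] [Algebra.FiniteType k B']
    (hβ : β.toRingHom.FormallySmooth) :
    letI := β.toRingHom.toAlgebra
    Module.Flat R B' := by
  let _ : Algebra R B' := β.toRingHom.toAlgebra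
  have i2 : IsScalarTower k R B' := IsScalarTower.of_algebraMap_eq fun r => (β.commutes r).symm
  have i3 : Algebra.FormallySmooth R B' := hβ
  have i5 : Algebra.FiniteType R B' := Algebra.FiniteType.of_restrictScalars_finiteType k _ _
  have i6 : Algebra.FinitePresentation R B' := Algebra.FinitePresentation.of_finiteType.1 i5
  have i7 : Algebra.Smooth R B' := { }
  exact inferInstance

/-- The map from the tensor product. -/
theorem core1 [Algebra R P] [Algebra R B'] [Algebra R L] [Algebra R D] [IsScalarTower k R P]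
    [Module.Flat R B'] [Algebra.FormallySmooth R B'] [Algebra.FormallySmooth k P]
    (i : P →ₐ[R] L) (hi : Function.Injective i) (jL : L →ₐ[R] D) (jB : B' →ₐ[R] D)
    (hinj : Function.Injective (Algebra.TensorProduct.lift jB jL fun _ _ => Commute.all _ _))
    (hk : ∀ r : k, jL (i (algebraMap k P r)) = algebraMap k D r) (C : Subalgebra k D)
    (h1 : ∀ a, jL (i a) ∈ C) (h2 : ∀ b, jB b ∈ C)
    (h3 : ∀ c ∈ C, c ∈ (Algebra.TensorProduct.lift (jL.comp i) jB
      fun _ _ => Commute.all _ _).range) :
    Algebra.FormallySmooth k C := by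
  have hinj' : Function.Injective (Algebra.TensorProduct.lift jB (jL.comp i)
      fun _ _ => Commute.all _ _) :=
    MP_b525bf_ag_P.lift_injective_of_flat i hi jB jL hinj (jL.comp i) fun _ => rfl
  let Φ : P ⊗[R] B' →ₐ[k] D :=
    { (Algebra.TensorProduct.lift (jL.comp i) jB fun _ _ => Commute.all _ _).toRingHom with
      commutes' := fun r => by
        change Algebra.TensorProduct.lift (jL.comp i) jB (fun _ _ => Commute.all _ _)
          ((algebraMap k P r) ⊗ₜ 1) = _
        rw [Algebra.TensorProduct.lift_tmul, map_one, mul_one]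
        exact hk r }
  have hΦ0 : ∀ z, Φ z = Algebra.TensorProduct.lift (jL.comp i) jB (fun _ _ => Commute.all _ _) z :=
    fun _ => rfl
  have hΦt : ∀ (a : P) (b : B'), Φ (a ⊗ₜ b) = jL (i a) * jB b := fun a b => by
    rw [hΦ0, Algebra.TensorProduct.lift_tmul]
    rfl
  have hΦ : Function.Injective Φ := by
    have hcomm : ∀ z : P ⊗[R] B', Algebra.TensorProduct.lift jB (jL.comp i)
        (fun _ _ => Commute.all _ _) (Algebra.TensorProduct.comm R P B' z) = Φ z := by
      intro z
      induction z with
      | zero => simp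
      | add a b ha hb => rw [map_add, map_add, map_add, ha, hb]
      | tmul a b =>
        rw [Algebra.TensorProduct.comm_tmul, Algebra.TensorProduct.lift_tmul, hΦt, mul_comm]
        rfl
    intro z w hzw
    apply (Algebra.TensorProduct.comm R P B').injective
    apply hinj'
    rw [hcomm, hcomm, hzw]
  have hrange : Φ.range = C := by
    refine le_antisymm ?_ ?_
    · rintro _ ⟨z, rfl⟩
      change Φ z ∈ _
      induction z with
      | zero =>
        rw [map_zero]
        exact Subalgebra.zero_mem _
      | add a b ha hb =>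
        rw [map_add]
        exact Subalgebra.add_mem _ ha hb
      | tmul a b =>
        rw [hΦt]
        exact Subalgebra.mul_mem _ (h1 a) (h2 b)
    · intro c hc
      obtain ⟨z, hz⟩ := h3 c hc
      exact ⟨z, hz⟩
  have s2 : Algebra.FormallySmooth P (P ⊗[R] B') := inferInstance
  have s3 : Algebra.FormallySmooth k (P ⊗[R] B') := Algebra.FormallySmooth.comp k P _
  rw [← hrange]
  exact Algebra.FormallySmooth.of_equiv (AlgEquiv.ofInjective Φ hΦ)

theorem core (θ : R →ₐ[k] P) (β : R →ₐ[k] B') (lm : P →ₐ[k] L) (δ : L →ₐ[k] D)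
    (ν : B' →ₐ[k] D) (hc : ∀ r, ν (β r) = δ (lm (θ r))) (hlm : Function.Injective lm)
    [Algebra.FormallySmooth k P] [IsNoetherianRing R] [Algebra.FiniteType k B']
    (hβ : β.toRingHom.FormallySmooth)
    (hinj : letI := β.toRingHom.toAlgebra
      letI := (lm.comp θ).toRingHom.toAlgebra
      letI := (δ.comp (lm.comp θ)).toRingHom.toAlgebra
      ∀ (jB : B' →ₐ[R] D) (jL : L →ₐ[R] D), (∀ b, jB b = ν b) → (∀ F, jL F = δ F) →
        Function.Injective (Algebra.TensorProduct.lift jB jL fun _ _ => Commute.all _ _))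
    (C : Subalgebra k D) (h1 : ∀ a, δ (lm a) ∈ C) (h2 : ∀ b, ν b ∈ C)
    (h3 : C ≤ (δ.comp lm).range ⊔ ν.range) : Algebra.FormallySmooth k C := by
  have hfl := flat_of β hβ
  let _ : Algebra R P := θ.toRingHom.toAlgebra
  let _ : Algebra R B' := β.toRingHom.toAlgebra
  let _ : Algebra R L := (lm.comp θ).toRingHom.toAlgebra
  let _ : Algebra R D := (δ.comp (lm.comp θ)).toRingHom.toAlgebra
  have i2' : IsScalarTower k R P := IsScalarTower.of_algebraMap_eq fun r => (θ.commutes r).symm
  have i3 : Algebra.FormallySmooth R B' := hβ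
  let jL : L →ₐ[R] D := { δ.toRingHom with commutes' := fun r => rfl }
  let i : P →ₐ[R] L := { lm.toRingHom with commutes' := fun r => rfl }
  let jB : B' →ₐ[R] D := { ν.toRingHom with commutes' := hc }
  have hk : ∀ r : k, jL (i (algebraMap k P r)) = algebraMap k D r := fun r => by
    change δ (lm (algebraMap k P r)) = _
    rw [AlgHom.commutes, AlgHom.commutes]
  refine core1 i hlm jL jB (hinj jB jL (fun _ => rfl) fun _ => rfl) hk C h1 h2 ?_
  let T : Subalgebra k D :=
    { carrier := {c | c ∈ (Algebra.TensorProduct.lift (jL.comp i) jB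
        fun _ _ => Commute.all _ _).range}
      mul_mem' := fun {a b} ha hb => by
        change a * b ∈ (Algebra.TensorProduct.lift (jL.comp i) jB
          fun _ _ => Commute.all _ _).range
        exact Subalgebra.mul_mem _ ha hb
      add_mem' := fun {a b} ha hb => by
        change a + b ∈ (Algebra.TensorProduct.lift (jL.comp i) jB
          fun _ _ => Commute.all _ _).range
        exact Subalgebra.add_mem _ ha hb
      algebraMap_mem' := fun r => by
        refine ⟨(algebraMap k P r) ⊗ₜ 1, ?_⟩
        change Algebra.TensorProduct.lift (jL.comp i) jB (fun _ _ => Commute.all _ _)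
          ((algebraMap k P r) ⊗ₜ 1) = _
        rw [Algebra.TensorProduct.lift_tmul, map_one, mul_one]
        exact hk r }
  have hT : (δ.comp lm).range ⊔ ν.range ≤ T := by
    refine sup_le ?_ ?_
    · rintro _ ⟨a, rfl⟩
      refine ⟨a ⊗ₜ 1, ?_⟩
      change Algebra.TensorProduct.lift (jL.comp i) jB (fun _ _ => Commute.all _ _)
        (a ⊗ₜ 1) = _
      rw [Algebra.TensorProduct.lift_tmul, map_one, mul_one]
      rfl
    · rintro _ ⟨b, rfl⟩
      refine ⟨1 ⊗ₜ b, ?_⟩
      change Algebra.TensorProduct.lift (jL.comp i) jB (fun _ _ => Commute.all _ _)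
        (1 ⊗ₜ b) = _
      rw [Algebra.TensorProduct.lift_tmul, map_one, one_mul]
      rfl
  exact fun c hc' => hT (h3 hc')

end Core

end SMT

open SMT TensorProduct MvPolynomial in
theorem smooth_sgens {J : Type} [DecidableEq J] [Fintype J] (hB : B.FG) (hx : ∀ i, x i ≠ 0)
    (hsm : SmOver B x) (T : Set J) (v : Fin n → J → ℤ) (hv : ∀ l, ∀ i ∈ T, 0 ≤ v l i) :
    Algebra.FormallySmooth k (Algebra.adjoin k (sgens B x T v)) := by
  classical
  obtain ⟨hxB, hsm⟩ := hsm
  have hp : ∀ l : Fin n, ∃ p : Localization (inv (k := k) (n := n) T),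
      lam v T p = sg (0, Pi.single l 1) := fun l => sg_mem v hv l
  choose p hp using hp
  have i4 : Algebra.FiniteType k B := (Subalgebra.fg_iff_finiteType _).1 hB
  have hθ : ∀ l, (aeval p : MvPolynomial (Fin n) k →ₐ[k] _) (X l) = p l := fun l => aeval_X _ _
  -- the exponents
  have h0 : ∀ l, (lam v T).comp (aeval p) (X l) = sg (0, Pi.single l 1) := fun l => by
    rw [AlgHom.comp_apply, hθ, hp]
  have h1 : ∀ s : Fin n →₀ ℕ, (lam v T).comp (aeval p) (monomial s 1) = sg (0, zx s) := by
    intro s
    induction s using Finsupp.induction_linear with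
    | zero =>
      have : ((0 : J → ℤ), zx ((0 : Fin n →₀ ℕ) : Fin n → ℕ)) = 0 := rfl
      rw [this, sg_zero]
      exact map_one _
    | add f g hf hg =>
      have : (monomial (f + g) (1 : k) : MvPolynomial (Fin n) k) =
          monomial f 1 * monomial g 1 := by
        rw [monomial_mul, one_mul]
      rw [this, map_mul, hf, hg, ← sg_add]
      have h2 : ((0 : J → ℤ), zx (f + g : Fin n →₀ ℕ)) = (0, zx f) + (0, zx g) := by
        refine Prod.ext (by simp) ?_
        funext l
        simp [zx]
      rw [h2]
    | single l m =>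
      rw [← X_pow_eq_monomial, map_pow, h0]
      unfold sg
      rw [AddMonoidAlgebra.single_pow, one_pow]
      congr 1
      refine Prod.ext (by simp) ?_
      funext l'
      simp only [zx, Prod.smul_snd, Pi.smul_apply]
      by_cases h : l' = l
      · subst h
        simp
      · rw [Pi.single_eq_of_ne h, Finsupp.single_eq_of_ne (by simpa using h)]
        simp
  have hR : ∀ (e : Fin n → ℕ) (c : k), ∃ r : MvPolynomial (Fin n) k,
      (lam v T).comp (aeval p) r = AddMonoidAlgebra.single (0, zx e) c := by
    intro e c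
    refine ⟨c • monomial (Finsupp.equivFunOnFinite.symm e) 1, ?_⟩
    rw [map_smul, h1]
    unfold sg
    rw [AddMonoidAlgebra.smul_single, smul_eq_mul, mul_one]
    rfl
  -- the commutative square
  let ν : B →ₐ[k] AddMonoidAlgebra K (J → ℤ) :=
    { (AddMonoidAlgebra.singleZeroRingHom : K →+* AddMonoidAlgebra K (J → ℤ)).comp
        (B.val : B →ₐ[k] K).toRingHom with
      commutes' := fun r => rfl }
  have hc : ∀ r, ν ((aeval fun i => (⟨x i, hxB i⟩ : B)) r) =
      delta hx (lam v T ((aeval p : MvPolynomial (Fin n) k →ₐ[k] _) r)) := by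
    have h2 : ν.comp (aeval fun i => (⟨x i, hxB i⟩ : B)) =
        (delta hx).comp ((lam v T).comp (aeval p : MvPolynomial (Fin n) k →ₐ[k] _)) := by
      refine MvPolynomial.algHom_ext fun l => ?_
      have h3 : (aeval fun i => (⟨x i, hxB i⟩ : B) : MvPolynomial (Fin n) k →ₐ[k] B) (X l) =
        ⟨x l, hxB l⟩ := aeval_X _ _
      rw [AlgHom.comp_apply, h3, AlgHom.comp_apply, h0]
      change AddMonoidAlgebra.single 0 (x l) = _
      unfold sg
      rw [delta_single, mon_single, map_one, one_mul]
    exact AlgHom.congr_fun h2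
  -- the image
  obtain ⟨g1, g2, g3⟩ := sg_mem_range (k := k) v T
  have e1 : ∀ i, delta (k := k) hx (sg (gen v (Sum.inl i))) =
      AddMonoidAlgebra.single (-(Pi.single i 1)) 1 := fun i => by
    unfold sg
    rw [delta_single]
    change AddMonoidAlgebra.single (-(Pi.single i 1)) (algebraMap k K 1 * mon x 0) = _
    rw [mon_zero, map_one, mul_one]
  have e2 : ∀ l, delta (k := k) hx (sg (gen v (Sum.inr l))) =
      AddMonoidAlgebra.single (v l) (x l) := fun l => by
    unfold sg
    rw [delta_single]
    change AddMonoidAlgebra.single (v l) (algebraMap k K 1 * mon x (Pi.single l 1)) = _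
    rw [mon_single, map_one, one_mul]
  have e3 : ∀ i, delta (k := k) hx (sg (-(gen v (Sum.inl i)))) =
      AddMonoidAlgebra.single (Pi.single i 1) 1 := fun i => by
    unfold sg
    rw [delta_single]
    change AddMonoidAlgebra.single (-(-(Pi.single i 1))) (algebraMap k K 1 * mon x (-0)) = _
    rw [neg_zero, mon_zero, map_one, mul_one, neg_neg]
  have e4 : ∀ l, delta (k := k) hx (sg (-(gen v (Sum.inr l)))) =
      AddMonoidAlgebra.single (-(v l)) (x l)⁻¹ := fun l => by
    unfold sg
    rw [delta_single]
    change AddMonoidAlgebra.single (-(v l)) (algebraMap k K 1 * mon x (-(Pi.single l 1))) = _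
    have h1 : mon x (-(Pi.single l 1)) = (x l)⁻¹ := by
      have h2 := mon_add hx (Pi.single l 1) (-(Pi.single l 1))
      rw [add_neg_cancel, mon_zero, mon_single] at h2
      exact eq_inv_of_mul_eq_one_right h2.symm
    rw [h1, map_one, one_mul]
  refine core (aeval p : MvPolynomial (Fin n) k →ₐ[k] _)
    (aeval fun i => (⟨x i, hxB i⟩ : B)) (lam v T) (delta hx) ν hc (lam_injective v T) hsm ?_
    (Algebra.adjoin k (sgens B x T v)) ?_ ?_ ?_
  · let _ := (aeval fun i => (⟨x i, hxB i⟩ : B) : MvPolynomial (Fin n) k →ₐ[k] B).toRingHom.toAlgebra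
    let _ := ((lam v T).comp (aeval p : MvPolynomial (Fin n) k →ₐ[k] _)).toRingHom.toAlgebra
    let _ := ((delta hx).comp
      ((lam v T).comp (aeval p : MvPolynomial (Fin n) k →ₐ[k] _))).toRingHom.toAlgebra
    exact fun jB jL hjB hjL => lift_inj hx jB hjB jL hjL hR
  · intro a
    have h1 := mem_of_lam v T ((Algebra.adjoin k (sgens B x T v)).comap (delta hx))
      (fun t => ?_) (fun i hi => ?_) (fun l => ?_) a
    · exact h1
    · rw [Subalgebra.mem_comap]
      cases t with
      | inl i =>
        rw [e1]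
        exact Algebra.subset_adjoin (Or.inl (Or.inl (Or.inl (Or.inr ⟨i, rfl⟩))))
      | inr l =>
        rw [e2]
        exact Algebra.subset_adjoin (Or.inl (Or.inr ⟨l, rfl⟩))
    · rw [Subalgebra.mem_comap, e3]
      exact Algebra.subset_adjoin (Or.inl (Or.inl (Or.inr ⟨i, hi, rfl⟩)))
    · rw [Subalgebra.mem_comap, e4]
      exact Algebra.subset_adjoin (Or.inr ⟨l, rfl⟩)
  · intro b
    exact Algebra.subset_adjoin (Or.inl (Or.inl (Or.inl (Or.inl ⟨b, b.2, rfl⟩))))
  · refine Algebra.adjoin_le ?_
    have hmem : ∀ F ∈ (lam (k := k) v T).range, delta hx F ∈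
        ((delta hx).comp (lam v T)).range ⊔ ν.range := by
      rintro _ ⟨a, rfl⟩
      exact Algebra.mem_sup_left ⟨a, rfl⟩
    rintro F ((((⟨b, hb, rfl⟩ | ⟨i, rfl⟩) | ⟨i, hi, rfl⟩) | ⟨l, rfl⟩) | ⟨l, rfl⟩)
    · exact Algebra.mem_sup_right ⟨⟨b, hb⟩, rfl⟩
    · rw [← e1]
      exact hmem _ (g1 _)
    · rw [← e3]
      exact hmem _ (g2 i hi)
    · rw [← e2]
      exact hmem _ (g1 _)
    · rw [← e4]
      exact hmem _ (g3 l)

end Pool.Agent.MP_b525bf_ag_E
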