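import Pool.Agent.Lib.MP_b525bf_ag_E.Defs
import Pool.Agent.Lib.MP_b525bf_ag_P.Laur

/-!
# Theorem E, row TW
Recipe. `(tw M f hf).alg` is isomorphic to the Laurent polynomial ring `M.alg[ℤ^N]`: the map
`single (t, d) z ↦ (single d (z * mon f (-t))) t` is an isomorphism of algebras
`(tw M f hf).alg ≃ AddMonoidAlgebra M.alg (Fin N → ℤ)`. So it is generated by the image of `M.alg`
(degree `(0, d)`) and the units `single (± e_j, 0) (f j)^{±1}`; formally smooth over `M.alg` (Laurent
polynomials, a localisation of a polynomial ring; see `formallySmooth_laurent` in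
`MP_b525bf_ag_helper30/Laurent.lean` and `MP_b525bf_ag_P/Laur.lean` for one variable; induction on `N`
is also possible), hence over `k`.
-/

set_option autoImplicit false
set_option linter.unusedVariables false

namespace Pool.Agent.MP_b525bf_ag_E

open Pool.Agent.LU2 Pool.Agent.MP_b525bf_ag Pool.Agent.MP_b525bf_ag_W

variable {k K : Type} [Field k] [Field K] [Algebra k K] {G : Subgroup (K ≃ₐ[k] K)}
  {A : Subalgebra k K}

variable {ι : Type} [AddCommGroup ι] {M : Fam k K ι}

section TWrow

/-- Restriction of an isomorphism of algebras to subalgebras. -/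
private noncomputable def twRestr {X Y : Type} [CommRing X] [CommRing Y] [Algebra k X]
    [Algebra k Y] (Φ : X ≃ₐ[k] Y) (S : Subalgebra k X) (T : Subalgebra k Y)
    (h : ∀ x, x ∈ S ↔ Φ x ∈ T) : S ≃ₐ[k] T :=
  AlgEquiv.ofBijective ((Φ.toAlgHom.comp S.val).codRestrict T fun x => (h x).1 x.2) (by
    constructor
    · intro x y hxy
      apply Subtype.ext
      apply Φ.injective
      exact congrArg Subtype.val hxy
    · intro y
      refine ⟨⟨Φ.symm y, (h _).2 ?_⟩, ?_⟩
      · rw [AlgEquiv.apply_symm_apply]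
        exact y.2
      · apply Subtype.ext
        exact Φ.apply_symm_apply _)

private theorem tw_transfer {X Y : Type} [CommRing X] [CommRing Y] [Algebra k X]
    [Algebra k Y] (Φ : X ≃ₐ[k] Y) (S : Subalgebra k X) (T : Subalgebra k Y)
    (h : ∀ x, x ∈ S ↔ Φ x ∈ T) :
    (T.FG → S.FG) ∧ (Algebra.FormallySmooth k T → Algebra.FormallySmooth k S) := by
  have e : S ≃ₐ[k] T := twRestr Φ S T h
  refine ⟨fun hT => ?_, fun hT => Algebra.FormallySmooth.of_equiv e.symm⟩
  have h1 : Algebra.FiniteType k T := (Subalgebra.fg_iff_finiteType T).1 hT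
  exact (Subalgebra.fg_iff_finiteType S).2 (h1.equiv e.symm)

/-- Reindexing of families. -/
private theorem tw_comap_equiv {ι' : Type} [AddCommGroup ι'] (e : ι' ≃+ ι) (M : Fam k K ι) :
    (M.alg.FG → (M.comap (e : ι' →+ ι)).alg.FG) ∧
      (Algebra.FormallySmooth k M.alg →
        Algebra.FormallySmooth k (M.comap (e : ι' →+ ι)).alg) := by
  refine tw_transfer (AddMonoidAlgebra.domCongr k K e) _ _ fun F => ?_
  rw [Fam.mem_alg, Fam.mem_alg]
  constructor
  · intro h a
    have := h (e.symm a)
    rw [Fam.comap_s] at this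
    simpa using this
  · intro h a
    have := h (e a)
    rw [Fam.comap_s]
    simpa using this

/-- One variable. -/
private theorem tw_lau_smooth (M : Fam k K ι) (h : Algebra.FormallySmooth k M.alg) :
    Algebra.FormallySmooth k (MP_b525bf_ag_P.lau M).alg := by
  let f : MvPolynomial Empty k →ₐ[k] M.alg := MvPolynomial.aeval fun i => i.elim
  have hC : (MvPolynomial.C : k →+* MvPolynomial Empty k).FormallySmooth :=
    RingHom.FormallySmooth.of_bijective
      ⟨MvPolynomial.C_injective Empty k, MvPolynomial.C_surjective Empty⟩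
  have hf : f.toRingHom.FormallySmooth := by
    have h1 : f.toRingHom = (algebraMap k M.alg).comp
        (MvPolynomial.isEmptyRingEquiv k Empty : MvPolynomial Empty k →+* k) := by
      apply MvPolynomial.ringHom_ext
      · intro r
        change f (MvPolynomial.C r) = algebraMap k M.alg (MvPolynomial.isEmptyRingEquiv k Empty
          (MvPolynomial.C r))
        rw [← MvPolynomial.algebraMap_eq, AlgHom.commutes, MvPolynomial.algebraMap_eq,
          ← MvPolynomial.isEmptyRingEquiv_symm_apply, RingEquiv.apply_symm_apply]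
      · intro i
        exact i.elim
    rw [h1]
    exact (RingHom.FormallySmooth.of_bijective
      (MvPolynomial.isEmptyRingEquiv k Empty).bijective).comp
        (RingHom.formallySmooth_algebraMap.2 h)
  have h2 := MP_b525bf_ag_P.smooth_gamHom M f hf
  have h3 := (hC.comp (MP_b525bf_ag_P.smooth_laurent (MvPolynomial Empty k))).comp h2
  have h4 : (MP_b525bf_ag_P.gamHom M f).comp
      ((AddMonoidAlgebra.singleZeroRingHom : MvPolynomial Empty k →+*
        AddMonoidAlgebra (MvPolynomial Empty k) ℤ).comp MvPolynomial.C) =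
      algebraMap k (MP_b525bf_ag_P.lau M).alg := by
    refine RingHom.ext fun r => ?_
    change MP_b525bf_ag_P.gamHom M f (AddMonoidAlgebra.single 0 (MvPolynomial.C r)) = _
    rw [MP_b525bf_ag_P.gamHom_single]
    have : (MP_b525bf_ag_P.lau M).el (MP_b525bf_ag_P.one_lau M 0) = 1 := rfl
    rw [this, mul_one, ← MvPolynomial.algebraMap_eq, AlgHom.commutes, AlgHom.commutes]
  rw [h4] at h3
  exact RingHom.formallySmooth_algebraMap.1 h3

/-- The group `(Fin (N + 1) → ℤ) × ι`. -/
private def twIdx (N : ℕ) (ι : Type) [AddCommGroup ι] :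
    ((Fin (N + 1) → ℤ) × ι) ≃+ (((Fin N → ℤ) × ι) × ℤ) where
  toFun c := ((Fin.tail c.1, c.2), c.1 0)
  invFun c := (Fin.cons c.2 c.1.1, c.1.2)
  left_inv c := by
    apply Prod.ext
    · exact Fin.cons_self_tail c.1
    · rfl
  right_inv c := by
    apply Prod.ext
    · apply Prod.ext
      · exact Fin.tail_cons (α := fun _ => ℤ) c.2 c.1.1
      · rfl
    · exact Fin.cons_zero (α := fun _ => ℤ) c.2 c.1.1
  map_add' c c' := rfl

/-- Several variables. -/
private theorem tw_const (N : ℕ) (M : Fam k K ι) :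
    (M.alg.FG → (M.comap (AddMonoidHom.snd (Fin N → ℤ) ι)).alg.FG) ∧
      (Algebra.FormallySmooth k M.alg →
        Algebra.FormallySmooth k (M.comap (AddMonoidHom.snd (Fin N → ℤ) ι)).alg) := by
  induction N with
  | zero =>
    let e : ((Fin 0 → ℤ) × ι) ≃+ ι :=
      { toFun := fun c => c.2
        invFun := fun d => (0, d)
        left_inv := fun c => Prod.ext (Subsingleton.elim _ _) rfl
        right_inv := fun d => rfl
        map_add' := fun c c' => rfl }
    have h1 : M.comap (AddMonoidHom.snd (Fin 0 → ℤ) ι) = M.comap (e : _ →+ ι) := rfl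
    rw [h1]
    exact tw_comap_equiv e M
  | succ N ih =>
    have h1 : M.comap (AddMonoidHom.snd (Fin (N + 1) → ℤ) ι) =
        (MP_b525bf_ag_P.lau (M.comap (AddMonoidHom.snd (Fin N → ℤ) ι))).comap
          (twIdx N ι : _ →+ _) := rfl
    rw [h1]
    have h2 := tw_comap_equiv (twIdx N ι)
      (MP_b525bf_ag_P.lau (M.comap (AddMonoidHom.snd (Fin N → ℤ) ι)))
    exact ⟨fun h => h2.1 (MP_b525bf_ag_P.lau_fg (ih.1 h)),
      fun h => h2.2 (tw_lau_smooth _ (ih.2 h))⟩

/-- The twist by a character. -/
private noncomputable def twPsi {Λ : Type} [AddCommGroup Λ] (χ : Multiplicative Λ →* K) :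
    AddMonoidAlgebra K Λ →ₐ[K] AddMonoidAlgebra K Λ :=
  AddMonoidAlgebra.lift K (AddMonoidAlgebra K Λ) Λ
    { toFun := fun c => AddMonoidAlgebra.single c.toAdd (χ c)
      map_one' := by
        change AddMonoidAlgebra.single (0 : Λ) (χ 1) = 1
        rw [χ.map_one]
        rfl
      map_mul' := fun a b => by
        rw [χ.map_mul, AddMonoidAlgebra.single_mul_single]
        rfl }

private theorem twPsi_single {Λ : Type} [AddCommGroup Λ] (χ : Multiplicative Λ →* K) (c : Λ)
    (r : K) : twPsi χ (AddMonoidAlgebra.single c r) =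
      AddMonoidAlgebra.single c (r * χ (Multiplicative.ofAdd c)) := by
  rw [twPsi, AddMonoidAlgebra.lift_single]
  change r • AddMonoidAlgebra.single c (χ (Multiplicative.ofAdd c)) = _
  rw [AddMonoidAlgebra.smul_single]
  rfl

private theorem twPsi_coeff {Λ : Type} [AddCommGroup Λ] (χ : Multiplicative Λ →* K)
    (F : AddMonoidAlgebra K Λ) (c : Λ) :
    (twPsi χ F).coeff c = F.coeff c * χ (Multiplicative.ofAdd c) := by
  classical
  induction F using AddMonoidAlgebra.induction_linear with
  | zero => simp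
  | add x y hx hy =>
    rw [map_add, AddMonoidAlgebra.coeff_add, Finsupp.add_apply, hx, hy,
      AddMonoidAlgebra.coeff_add, Finsupp.add_apply, add_mul]
  | single n r =>
    rw [twPsi_single, AddMonoidAlgebra.coeff_single, AddMonoidAlgebra.coeff_single,
      Finsupp.single_apply, Finsupp.single_apply]
    split_ifs with h
    · rw [h]
    · rw [zero_mul]

private noncomputable def twEquiv {Λ : Type} [AddCommGroup Λ] (χ χ' : Multiplicative Λ →* K)
    (h : ∀ c, χ c * χ' c = 1) : AddMonoidAlgebra K Λ ≃ₐ[K] AddMonoidAlgebra K Λ :=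
  AlgEquiv.ofAlgHom (twPsi χ) (twPsi χ')
    (AlgHom.ext fun F => AddMonoidAlgebra.ext (Finsupp.ext fun c => by
      change (twPsi χ (twPsi χ' F)).coeff c = F.coeff c
      rw [twPsi_coeff, twPsi_coeff, mul_assoc, mul_comm (χ' _), h, mul_one]))
    (AlgHom.ext fun F => AddMonoidAlgebra.ext (Finsupp.ext fun c => by
      change (twPsi χ' (twPsi χ F)).coeff c = F.coeff c
      rw [twPsi_coeff, twPsi_coeff, mul_assoc, h, mul_one]))

private theorem mon_add' {N : ℕ} (f : Fin N → K) (hf : ∀ j, f j ≠ 0) (a b : Fin N → ℤ) :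
    mon f (a + b) = mon f a * mon f b := by
  rw [mon, mon, mon, ← Finset.prod_mul_distrib]
  refine Finset.prod_congr rfl fun j _ => ?_
  rw [← zpow_add₀ (hf j)]
  rfl

/-- The character `(t, d) ↦ f ^ (s t)`. -/
private noncomputable def twChi {N : ℕ} (f : Fin N → K) (hf : ∀ j, f j ≠ 0) (ι : Type)
    [AddCommGroup ι] (s : ℤ) : Multiplicative ((Fin N → ℤ) × ι) →* K where
  toFun c := mon f (s • (c.toAdd).1)
  map_one' := by
    change mon f (s • (0 : Fin N → ℤ)) = 1
    simp [mon]
  map_mul' a b := by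
    change mon f (s • ((a.toAdd).1 + (b.toAdd).1)) = _
    rw [smul_add, mon_add' f hf]

private theorem tw_both {N : ℕ} (f : Fin N → K) (hf : ∀ j, f j ≠ 0) :
    (M.alg.FG → (tw M f hf).alg.FG) ∧
      (Algebra.FormallySmooth k M.alg → Algebra.FormallySmooth k (tw M f hf).alg) := by
  have hχ : ∀ c, twChi f hf ι (-1) c * twChi f hf ι 1 c = 1 := by
    intro c
    change mon f ((-1 : ℤ) • (c.toAdd).1) * mon f ((1 : ℤ) • (c.toAdd).1) = 1
    rw [← mon_add' f hf]
    have : (-1 : ℤ) • (c.toAdd).1 + (1 : ℤ) • (c.toAdd).1 = 0 := by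
      rw [← add_smul]
      simp
    rw [this]
    simp [mon]
  have h1 := tw_transfer ((twEquiv _ _ hχ).restrictScalars k) (tw M f hf).alg
    (M.comap (AddMonoidHom.snd (Fin N → ℤ) ι)).alg (by
      intro F
      rw [Fam.mem_alg, Fam.mem_alg]
      refine forall_congr' fun c => ?_
      have h2 : (((twEquiv _ _ hχ).restrictScalars k) F).coeff c = F.coeff c * mon f (-c.1) := by
        change (twPsi _ F).coeff c = _
        rw [twPsi_coeff]
        change F.coeff c * mon f ((-1 : ℤ) • c.1) = _
        rw [neg_smul, one_smul]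
      rw [h2]
      exact Iff.rfl)
  have h2 := tw_const N M
  exact ⟨fun h => h1.1 (h2.1 h), fun h => h1.2 (h2.2 h)⟩

end TWrow

theorem tw_fg {N : ℕ} (f : Fin N → K) (hf : ∀ j, f j ≠ 0) (h : M.alg.FG) :
    (tw M f hf).alg.FG :=
  (tw_both f hf).1 h

theorem tw_smooth {N : ℕ} (f : Fin N → K) (hf : ∀ j, f j ≠ 0)
    (h : Algebra.FormallySmooth k M.alg) : Algebra.FormallySmooth k (tw M f hf).alg :=
  (tw_both f hf).2 h

end Pool.Agent.MP_b525bf_ag_E
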