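import Pool.Agent.Lib.MP_b525bf_ag_E.Defs

/-!
# Theorem E, row CMB

Combinatorial data: the rays are the vectors `v : Fin N → ℕ` which are not sums of two nonzero
vectors on which all `d ∈ D` have the same weak sign.
-/

set_option autoImplicit false
set_option linter.unusedVariables false

namespace Pool.Agent.MP_b525bf_ag_E

open Pool.Agent.LU2 Pool.Agent.MP_b525bf_ag Pool.Agent.MP_b525bf_ag_W

section CMB

variable {N : ℕ}

theorem CMB_pr_add (a b : Fin N → ℕ) (d : Fin N → ℤ) : pr (a + b) d = pr a d + pr b d := by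
  simp only [pr, Pi.add_apply, Nat.cast_add, add_mul, Finset.sum_add_distrib]

/-- The sum of the absolute values. -/
def CMBpsi (D : Finset (Fin N → ℤ)) (v : Fin N → ℕ) : ℕ := ∑ d ∈ D, (pr v d).natAbs

/-- The irreducible vectors. -/
def CMBIrr (D : Finset (Fin N → ℤ)) (v : Fin N → ℕ) : Prop :=
  v ≠ 0 ∧ ∀ a b : Fin N → ℕ, a ≠ 0 → b ≠ 0 → v = a + b →
    ∃ d ∈ D, (pr v d).natAbs ≠ (pr a d).natAbs + (pr b d).natAbs

theorem CMB_finite (D : Finset (Fin N → ℤ)) : {v | CMBIrr D v}.Finite := by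
  classical
  by_contra hinf
  have hinf : {v | CMBIrr D v}.Infinite := hinf
  let f := hinf.natEmbedding
  let F : (Fin N → ℕ) → (Fin N ⊕ (D ⊕ D)) → ℕ := fun v => Sum.elim v
    (Sum.elim (fun d => (pr v d.1).toNat) (fun d => (-(pr v d.1)).toNat))
  obtain ⟨m, n, hmn, hle⟩ := (wellQuasiOrdered_le (α := (Fin N ⊕ (D ⊕ D)) → ℕ))
    (fun n => F (f n).1)
  have hne : (f m).1 ≠ (f n).1 := by
    intro h
    exact hmn.ne (f.injective (Subtype.ext h))
  have hle1 : ∀ j, (f m).1 j ≤ (f n).1 j := fun j => hle (Sum.inl j)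
  obtain ⟨d, hd, hdne⟩ := (f n).2.2 (f m).1 ((f n).1 - (f m).1) (f m).2.1 (by
      intro h
      apply hne
      refine le_antisymm hle1 ?_
      intro j
      have := congrFun h j
      simp only [Pi.sub_apply, Pi.zero_apply] at this
      show (f n).1 j ≤ (f m).1 j
      omega) (by
      funext j
      have := hle1 j
      simp only [Pi.sub_apply, Pi.add_apply]
      omega)
  apply hdne
  have h1 : pr (f n).1 d = pr (f m).1 d + pr ((f n).1 - (f m).1) d := by
    rw [← CMB_pr_add]
    congr 1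
    funext j
    have := hle1 j
    simp only [Pi.sub_apply, Pi.add_apply]
    omega
  have h2 : (pr (f m).1 d).toNat ≤ (pr (f n).1 d).toNat := hle (Sum.inr (Sum.inl ⟨d, hd⟩))
  have h3 : (-(pr (f m).1 d)).toNat ≤ (-(pr (f n).1 d)).toNat := hle (Sum.inr (Sum.inr ⟨d, hd⟩))
  omega

theorem CMB_exists (D : Finset (Fin N → ℤ)) {m : ℕ} (u : Fin m → Fin N → ℕ)
    (hu : ∀ v, CMBIrr D v → ∃ i, u i = v) (k : ℕ) : ∀ v : Fin N → ℕ, ∑ j, v j = k →
    ∃ c : Fin m → ℕ, v = ∑ i, c i • u i ∧ CMBpsi D v = ∑ i, c i * CMBpsi D (u i) := by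
  classical
  induction k using Nat.strong_induction_on with
  | _ k ih =>
    intro v hv
    by_cases h0 : v = 0
    · refine ⟨0, ?_, ?_⟩
      · simp [h0]
      · simp [h0, CMBpsi, pr]
    by_cases hirr : CMBIrr D v
    · obtain ⟨i, hi⟩ := hu v hirr
      refine ⟨Pi.single i 1, ?_, ?_⟩
      · rw [Finset.sum_eq_single i]
        · rw [Pi.single_eq_same, one_smul, hi]
        · intro j _ hj
          rw [Pi.single_eq_of_ne hj, zero_smul]
        · intro h
          exact absurd (Finset.mem_univ _) h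
      · rw [Finset.sum_eq_single i]
        · rw [Pi.single_eq_same, one_mul, hi]
        · intro j _ hj
          rw [Pi.single_eq_of_ne hj, zero_mul]
        · intro h
          exact absurd (Finset.mem_univ _) h
    · have : ∃ a b : Fin N → ℕ, a ≠ 0 ∧ b ≠ 0 ∧ v = a + b ∧
          ∀ d ∈ D, (pr v d).natAbs = (pr a d).natAbs + (pr b d).natAbs := by
        by_contra hcon
        apply hirr
        refine ⟨h0, fun a b ha hb hab => ?_⟩
        by_contra hcon2
        push Not at hcon2
        exact hcon ⟨a, b, ha, hb, hab, hcon2⟩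
      obtain ⟨a, b, ha, hb, hab, hd⟩ := this
      have hpos : ∀ w : Fin N → ℕ, w ≠ 0 → 0 < ∑ j, w j := by
        intro w hw
        rw [Nat.pos_iff_ne_zero]
        intro h
        apply hw
        funext j
        exact (Finset.sum_eq_zero_iff.1 h) j (Finset.mem_univ _)
      have hsum : ∑ j, a j + ∑ j, b j = k := by
        rw [← hv, hab, ← Finset.sum_add_distrib]
        rfl
      have ha' := hpos a ha
      have hb' := hpos b hb
      obtain ⟨c1, h1, h1'⟩ := ih (∑ j, a j) (by omega) a rfl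
      obtain ⟨c2, h2, h2'⟩ := ih (∑ j, b j) (by omega) b rfl
      refine ⟨c1 + c2, ?_, ?_⟩
      · rw [hab]
        conv_lhs => rw [h1, h2]
        rw [← Finset.sum_add_distrib]
        refine Finset.sum_congr rfl fun i _ => ?_
        rw [Pi.add_apply, add_smul]
      · have : CMBpsi D v = CMBpsi D a + CMBpsi D b := by
          rw [CMBpsi, CMBpsi, CMBpsi, ← Finset.sum_add_distrib]
          exact Finset.sum_congr rfl hd
        rw [this, h1', h2', ← Finset.sum_add_distrib]
        refine Finset.sum_congr rfl fun i _ => ?_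
        rw [Pi.add_apply, add_mul]

/-- Generic heights. -/
theorem CMB_generic {m : ℕ} (u : Fin m → Fin N → ℕ) (ψ : Fin m → ℕ) :
    ∃ t : ℕ, 2 ≤ t ∧ ∀ Q : Set (Fin m),
      ¬ LinearIndependent ℚ (fun i : Q => fun j => (u i.1 j : ℚ)) →
      ∃ l : Fin m → ℚ, (∀ i, i ∉ Q → l i = 0) ∧ (∀ j, ∑ i, l i * (u i j : ℚ) = 0) ∧
        ∑ i, l i * ((t : ℚ) ^ (i.1 + 1) - 3 * (t : ℚ) ^ (m + 2) * ψ i) ≠ 0 := by
  classical
  -- the relations
  have hrel : ∀ Q : Set (Fin m), ∃ l : Fin m → ℚ,
      ¬ LinearIndependent ℚ (fun i : Q => fun j => (u i.1 j : ℚ)) →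
      (∀ i, i ∉ Q → l i = 0) ∧ (∀ j, ∑ i, l i * (u i j : ℚ) = 0) ∧ l ≠ 0 := by
    intro Q
    by_cases hQ : LinearIndependent ℚ (fun i : Q => fun j => (u i.1 j : ℚ))
    · exact ⟨0, fun h => absurd hQ h⟩
    · have hQ' := hQ
      rw [Fintype.not_linearIndependent_iff] at hQ'
      obtain ⟨g, hg, i0, hi0⟩ := hQ'
      refine ⟨fun i => if h : i ∈ Q then g ⟨i, h⟩ else 0, fun _ => ⟨?_, ?_, ?_⟩⟩
      · intro i hi
        simp [hi]
      · intro j
        have h1 := congrFun hg j
        rw [Finset.sum_apply] at h1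
        simp only [Pi.smul_apply, smul_eq_mul, Pi.zero_apply] at h1
        have h2 : ∑ x : Q, g x * (u x.1 j : ℚ) =
            ∑ x : Q, (fun i => (if h : i ∈ Q then g ⟨i, h⟩ else 0) * (u i j : ℚ)) x.1 :=
          Finset.sum_congr rfl fun x _ => by simp
        rw [h2, ← Finset.sum_subtype (Finset.univ.filter (· ∈ Q)) (p := fun i => i ∈ Q)
          (by simp) (fun i => (if h : i ∈ Q then g ⟨i, h⟩ else 0) * (u i j : ℚ))] at h1
        refine Eq.trans ?_ h1
        rw [Finset.sum_filter]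
        refine Finset.sum_congr rfl fun i _ => ?_
        by_cases hi : i ∈ Q <;> simp [hi]
      · intro h
        apply hi0
        have := congrFun h i0.1
        simpa using this
  choose l hl using hrel
  let p : Set (Fin m) → Polynomial ℚ := fun Q =>
    ∑ i, Polynomial.C (l Q i) * (Polynomial.X ^ (i.1 + 1) -
      Polynomial.C (3 * (ψ i : ℚ)) * Polynomial.X ^ (m + 2))
  have hp : ∀ Q : Set (Fin m), ¬ LinearIndependent ℚ (fun i : Q => fun j => (u i.1 j : ℚ)) →
      p Q ≠ 0 := by
    intro Q hQ h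
    apply (hl Q hQ).2.2
    funext i0
    have h1 := congrArg (fun q => Polynomial.coeff q (i0.1 + 1)) h
    simp only [p, Polynomial.finsetSum_coeff, Polynomial.coeff_C_mul, Polynomial.coeff_sub,
      Polynomial.coeff_X_pow, Polynomial.coeff_zero] at h1
    rw [Finset.sum_eq_single i0] at h1
    · have h2 : ¬ (i0.1 + 1 = m + 2) := by have := i0.2; omega
      rw [if_pos rfl, if_neg h2, mul_zero, sub_zero, mul_one] at h1
      exact h1
    · intro i _ hi
      have h2 : ¬ (i0.1 + 1 = m + 2) := by have := i0.2; omega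
      have h3 : ¬ (i0.1 + 1 = i.1 + 1) := by
        intro h
        apply hi
        exact Fin.ext (by omega)
      rw [if_neg h3, if_neg h2, mul_zero, sub_zero, mul_zero]
    · intro h
      exact absurd (Finset.mem_univ _) h
  let P : Polynomial ℚ := ∏ Q : Set (Fin m),
    if LinearIndependent ℚ (fun i : Q => fun j => (u i.1 j : ℚ)) then 1 else p Q
  have hP : P ≠ 0 := by
    rw [Finset.prod_ne_zero_iff]
    intro Q _
    split_ifs with h
    · exact one_ne_zero
    · exact hp Q h
  have hfin : {t : ℕ | P.eval (t : ℚ) = 0}.Finite := by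
    have h1 : (P.roots.toFinset : Set ℚ).Finite := Finset.finite_toSet _
    refine (h1.preimage (f := fun t : ℕ => (t : ℚ)) (Nat.cast_injective.injOn)).subset ?_
    intro t ht
    simp only [Set.mem_preimage, Finset.mem_coe, Multiset.mem_toFinset]
    rw [Polynomial.mem_roots hP]
    exact ht
  obtain ⟨t, ht, ht2⟩ := (Set.infinite_of_finite_compl (s := {t : ℕ | P.eval (t : ℚ) = 0}ᶜ)
    (by rwa [compl_compl])).exists_gt 2
  refine ⟨t, ht2.le, fun Q hQ => ⟨l Q, (hl Q hQ).1, (hl Q hQ).2.1, ?_⟩⟩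
  intro h
  apply ht
  show P.eval (t : ℚ) = 0
  rw [Polynomial.eval_prod]
  refine Finset.prod_eq_zero (Finset.mem_univ Q) ?_
  rw [if_neg hQ]
  simp only [p, Polynomial.eval_finsetSum, Polynomial.eval_mul, Polynomial.eval_C,
    Polynomial.eval_sub, Polynomial.eval_pow, Polynomial.eval_X]
  rw [← h]
  refine Finset.sum_congr rfl fun i _ => ?_
  ring

end CMB

theorem exists_comb {N : ℕ} (D : Set (Fin N → ℤ)) (hD : D.Finite) :
    ∃ (m : ℕ) (u : Fin m → Fin N → ℕ) (θ : Fin m → ℕ), Comb D u θ := by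
  classical
  lift D to Finset (Fin N → ℤ) using hD
  have hfin := CMB_finite D
  let H := hfin.toFinset
  let m := H.card
  let u : Fin m → Fin N → ℕ := fun i => (H.equivFin.symm i).1
  have hmemH : ∀ v, v ∈ H ↔ CMBIrr D v := fun v => by simp [H]
  have huI : ∀ i, CMBIrr D (u i) := fun i => (hmemH _).1 (H.equivFin.symm i).2
  have hu : ∀ v, CMBIrr D v → ∃ i, u i = v := fun v hv =>
    ⟨H.equivFin ⟨v, (hmemH v).2 hv⟩, by simp [u]⟩
  let ψ : Fin m → ℕ := fun i => CMBpsi D (u i)
  obtain ⟨t, ht2, ht⟩ := CMB_generic u ψ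
  let L : ℕ := 3 * t ^ (m + 2)
  let S : ℕ := ∑ i, ψ i
  let Λ : ℕ := L * S + 1
  have hψS : ∀ i, ψ i ≤ S := fun i =>
    Finset.single_le_sum (f := ψ) (fun _ _ => Nat.zero_le _) (Finset.mem_univ i)
  have hupos : ∀ i, 0 < ∑ j, u i j := by
    intro i
    rw [Nat.pos_iff_ne_zero]
    intro h
    apply (huI i).1
    funext j
    exact (Finset.sum_eq_zero_iff.1 h) j (Finset.mem_univ _)
  -- heights
  let θ : Fin m → ℕ := fun i => Λ * (∑ j, u i j) - L * ψ i + t ^ (i.1 + 1)
  have hθ : ∀ i, θ i + L * ψ i = Λ * (∑ j, u i j) + t ^ (i.1 + 1) := by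
    intro i
    have h1 : L * ψ i ≤ Λ * (∑ j, u i j) := by
      calc L * ψ i ≤ L * S := Nat.mul_le_mul_left _ (hψS i)
        _ ≤ Λ * 1 := by simp only [Λ]; omega
        _ ≤ _ := Nat.mul_le_mul_left _ (hupos i)
    simp only [θ]
    omega
  have hη : ∀ i : Fin m, t ^ (i.1 + 1) ≤ t ^ (m + 1) := fun i =>
    Nat.pow_le_pow_right (by omega) (by have := i.2; omega)
  have hL : 2 * t ^ (m + 1) < L := by
    have h1 : 0 < t ^ (m + 1) := Nat.pow_pos (by omega)
    have h2 : t ^ (m + 2) = t ^ (m + 1) * t := pow_succ _ _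
    simp only [L]
    rw [h2]
    nlinarith
  refine ⟨m, u, θ, ⟨?_, fun i => (huI i).1, ?_, ?_, ?_⟩⟩
  · intro i
    have : 0 < t ^ (i.1 + 1) := Nat.pow_pos (by omega)
    simp only [θ]
    omega
  · intro j
    refine hu _ ⟨?_, ?_⟩
    · intro h
      have := congrFun h j
      simp at this
    · intro a b ha hb hab
      exfalso
      have hpos : ∀ w : Fin N → ℕ, w ≠ 0 → 0 < ∑ j, w j := by
        intro w hw
        rw [Nat.pos_iff_ne_zero]
        intro h
        apply hw
        funext j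
        exact (Finset.sum_eq_zero_iff.1 h) j (Finset.mem_univ _)
      have h1 := hpos a ha
      have h2 := hpos b hb
      have h3 : ∑ i, (Pi.single j 1 : Fin N → ℕ) i = ∑ i, a i + ∑ i, b i := by
        rw [hab, ← Finset.sum_add_distrib]
        rfl
      rw [Finset.sum_pi_single'] at h3
      simp at h3
      omega
  · -- linear independence
    intro n b hn hb
    by_contra hcon
    obtain ⟨l, hl0, hl1, hl2⟩ := ht {i | n * θ i = ∑ j, b j * u i j} hcon
    apply hl2
    have h1 : ∑ i, l i * (θ i : ℚ) = 0 := by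
      have h2 : (n : ℚ) * ∑ i, l i * (θ i : ℚ) = 0 := by
        calc (n : ℚ) * ∑ i, l i * (θ i : ℚ) = ∑ i, l i * ∑ j, (b j : ℚ) * (u i j : ℚ) := by
              rw [Finset.mul_sum]
              refine Finset.sum_congr rfl fun i _ => ?_
              by_cases hi : n * θ i = ∑ j, b j * u i j
              · have h3 : (n : ℚ) * (θ i : ℚ) = ∑ j, (b j : ℚ) * (u i j : ℚ) := by
                  exact_mod_cast hi
                rw [← h3]
                ring
              · rw [hl0 i hi]
                ring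
          _ = ∑ j, (b j : ℚ) * ∑ i, l i * (u i j : ℚ) := by
              simp only [Finset.mul_sum]
              rw [Finset.sum_comm]
              refine Finset.sum_congr rfl fun j _ => Finset.sum_congr rfl fun i _ => ?_
              ring
          _ = 0 := by
              refine Finset.sum_eq_zero fun j _ => ?_
              rw [hl1 j, mul_zero]
      rcases mul_eq_zero.1 h2 with h3 | h3
      · exfalso
        have : n = 0 := by exact_mod_cast h3
        omega
      · exact h3
    have h2 : ∑ i, l i * ((∑ j, u i j : ℕ) : ℚ) = 0 := by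
      calc ∑ i, l i * ((∑ j, u i j : ℕ) : ℚ) = ∑ j, ∑ i, l i * (u i j : ℚ) := by
            rw [Finset.sum_comm]
            refine Finset.sum_congr rfl fun i _ => ?_
            rw [Nat.cast_sum, Finset.mul_sum]
        _ = 0 := Finset.sum_eq_zero fun j _ => hl1 j
    have h3 : ∀ i, l i * ((t : ℚ) ^ (i.1 + 1) - 3 * (t : ℚ) ^ (m + 2) * ψ i) =
        l i * (θ i : ℚ) - (Λ : ℚ) * (l i * ((∑ j, u i j : ℕ) : ℚ)) := by
      intro i
      have h4 : (θ i : ℚ) + (L : ℚ) * (ψ i : ℚ) =
          (Λ : ℚ) * ((∑ j, u i j : ℕ) : ℚ) + (t : ℚ) ^ (i.1 + 1) := by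
        exact_mod_cast hθ i
      have h5 : (L : ℚ) = 3 * (t : ℚ) ^ (m + 2) := by
        simp only [L]
        push_cast
        ring
      rw [h5] at h4
      have h6 : (t : ℚ) ^ (i.1 + 1) - 3 * (t : ℚ) ^ (m + 2) * ψ i =
          (θ i : ℚ) - (Λ : ℚ) * ((∑ j, u i j : ℕ) : ℚ) := by linarith
      rw [h6]
      ring
    rw [Finset.sum_congr rfl fun i _ => h3 i, Finset.sum_sub_distrib, h1, ← Finset.mul_sum, h2]
    ring
  · -- signs
    intro n b hn hb d hd
    by_contra hcon
    rw [not_or] at hcon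
    obtain ⟨hc1, hc2⟩ := hcon
    push Not at hc1 hc2
    obtain ⟨i, hi, hi'⟩ := hc1
    obtain ⟨i', hj, hj'⟩ := hc2
    obtain ⟨c, hc, hcψ⟩ := CMB_exists D u hu _ (u i + u i') rfl
    -- the pairing
    have h1 : ∑ j, b j * (u i + u i') j = n * θ i + n * θ i' := by
      rw [hi, hj, ← Finset.sum_add_distrib]
      refine Finset.sum_congr rfl fun j _ => ?_
      rw [Pi.add_apply]
      ring
    have h2 : ∑ j, b j * (u i + u i') j = ∑ k, c k * ∑ j, b j * u k j := by
      rw [hc]
      simp only [Finset.sum_apply, Pi.smul_apply, smul_eq_mul, Finset.mul_sum]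
      rw [Finset.sum_comm]
      refine Finset.sum_congr rfl fun k _ => Finset.sum_congr rfl fun j _ => ?_
      ring
    have h3 : n * ∑ k, c k * θ k ≤ n * (θ i + θ i') := by
      rw [mul_add, ← h1, h2, Finset.mul_sum]
      refine Finset.sum_le_sum fun k _ => ?_
      calc n * (c k * θ k) = c k * (n * θ k) := by ring
        _ ≤ _ := Nat.mul_le_mul_left _ (hb k)
    have h4 : ∑ k, c k * θ k ≤ θ i + θ i' := Nat.le_of_mul_le_mul_left h3 hn
    have h5 : ∑ j, (u i + u i') j = ∑ k, c k * ∑ j, u k j := by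
      rw [hc]
      simp only [Finset.sum_apply, Pi.smul_apply, smul_eq_mul, Finset.mul_sum]
      rw [Finset.sum_comm]
    have h6 : ∑ k, c k * θ k + L * CMBpsi D (u i + u i') ≥ Λ * ∑ j, (u i + u i') j := by
      rw [hcψ, h5, Finset.mul_sum, Finset.mul_sum, ← Finset.sum_add_distrib]
      refine Finset.sum_le_sum fun k _ => ?_
      have := hθ k
      calc Λ * (c k * ∑ j, u k j) = c k * (Λ * ∑ j, u k j) := by ring
        _ ≤ c k * (θ k + L * ψ k) := Nat.mul_le_mul_left _ (by omega)
        _ = _ := by simp only [ψ]; ring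
    have h7 : ∑ j, (u i + u i') j = ∑ j, u i j + ∑ j, u i' j := by
      rw [← Finset.sum_add_distrib]
      rfl
    have h8 : CMBpsi D (u i + u i') + 1 ≤ CMBpsi D (u i) + CMBpsi D (u i') := by
      rw [CMBpsi, CMBpsi, CMBpsi, ← Finset.sum_add_distrib, Nat.add_one_le_iff]
      refine Finset.sum_lt_sum (fun e _ => ?_) ⟨d, hd, ?_⟩
      · rw [CMB_pr_add]
        exact Int.natAbs_add_le _ _
      · rw [CMB_pr_add]
        omega
    have h9 := hθ i
    have h10 := hθ i'
    have h11 := hη i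
    have h12 := hη i'
    have h13 : L * (CMBpsi D (u i + u i') + 1) ≤ L * (CMBpsi D (u i) + CMBpsi D (u i')) :=
      Nat.mul_le_mul_left _ h8
    rw [h7] at h6
    have h14 : Λ * (∑ j, u i j + ∑ j, u i' j) = Λ * (∑ j, u i j) + Λ * (∑ j, u i' j) := by ring
    have h15 : L * (CMBpsi D (u i + u i') + 1) = L * CMBpsi D (u i + u i') + L := by ring
    have h16 : L * (CMBpsi D (u i) + CMBpsi D (u i')) = L * ψ i + L * ψ i' := by
      simp only [ψ]; ring
    omega

end Pool.Agent.MP_b525bf_ag_E
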