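import Pool.Agent.Lib.MP_b525bf_ag_E.X1

/-!
# Theorem E, row CMP
Recipe. `O := {r + μ : r ∈ R, W'.valuation μ < 1}` is a `G`-stable subring of `W'` that contains
`R` and is local: if `r` is a unit of `R` then `r + μ` is a unit (its inverse is
`r⁻¹ + μ'` with `μ' = (r+μ)⁻¹ - r⁻¹` of value `< 1`); the nonunits are the `r + μ` with `r` a nonunit
of `R` or ... careful: `r + μ = r' + μ'` with `r - r'` of value `< 1`; `r` unit iff `r'` unit, since
an element of `R` of `W'`-value `< 1` is a nonunit of the local ring `R`. Apply row X1 to `O`: `W`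
dominates `O`. `W ≤ W'`: if `z ∈ W`, `z ∉ W'` then `W'.valuation z⁻¹ < 1`, `z⁻¹ ∈ O` is a nonunit of
`O`, so `W.valuation z⁻¹ < 1`, contradiction with `z ∈ W`. `Dom W R`: a nonunit of `R` is a nonunit of
`O`.
-/

set_option autoImplicit false
set_option linter.unusedVariables false

namespace Pool.Agent.MP_b525bf_ag_E

open Pool.Agent.LU2 Pool.Agent.MP_b525bf_ag Pool.Agent.MP_b525bf_ag_W

variable {k K : Type} [Field k] [Field K] [Algebra k K] {G : Subgroup (K ≃ₐ[k] K)}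
  {A : Subalgebra k K}

private theorem cmp_unit (R : Subalgebra k K) (hloc : IsLocalRing R) {r : K} (hr : r ∈ R) :
    (r ≠ 0 ∧ r⁻¹ ∈ R) ∨ (1 - r ≠ 0 ∧ (1 - r)⁻¹ ∈ R) := by
  have key : ∀ s : R, IsUnit s → (s : K) ≠ 0 ∧ (s : K)⁻¹ ∈ R := by
    intro s hs
    obtain ⟨t, ht⟩ := hs.exists_right_inv
    have h1 : (s : K) * (t : K) = 1 := congrArg Subtype.val ht
    have h2 : (s : K) ≠ 0 := left_ne_zero_of_mul_eq_one h1
    refine ⟨h2, ?_⟩
    rw [inv_eq_of_mul_eq_one_right h1]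
    exact t.2
  rcases IsLocalRing.isUnit_or_isUnit_one_sub_self (⟨r, hr⟩ : R) with h | h
  · exact Or.inl (key _ h)
  · exact Or.inr (key _ h)

/-- a ring of the form `R + m` -/
private def cmpO (R : Subalgebra k K) (W' : ValuationSubring K) (hRW : ∀ f ∈ R, f ∈ W') :
    Subalgebra k K where
  carrier := {z | ∃ r ∈ R, ∃ μ : K, W'.valuation μ < 1 ∧ z = r + μ}
  mul_mem' := by
    rintro _ _ ⟨r, hr, μ, hμ, rfl⟩ ⟨r', hr', μ', hμ', rfl⟩
    refine ⟨r * r', R.mul_mem hr hr', r * μ' + r' * μ + μ * μ', ?_, by ring⟩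
    have h1 : W'.valuation r ≤ 1 := (W'.valuation_le_one_iff r).2 (hRW r hr)
    have h2 : W'.valuation r' ≤ 1 := (W'.valuation_le_one_iff r').2 (hRW r' hr')
    refine (W'.valuation.map_add_lt (W'.valuation.map_add_lt ?_ ?_) ?_)
    · rw [map_mul]
      exact (mul_le_of_le_one_left' h1).trans_lt hμ'
    · rw [map_mul]
      exact (mul_le_of_le_one_left' h2).trans_lt hμ
    · rw [map_mul]
      exact (mul_le_of_le_one_left' hμ.le).trans_lt hμ'
  add_mem' := by
    rintro _ _ ⟨r, hr, μ, hμ, rfl⟩ ⟨r', hr', μ', hμ', rfl⟩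
    exact ⟨r + r', R.add_mem hr hr', μ + μ', W'.valuation.map_add_lt hμ hμ', by ring⟩
  algebraMap_mem' := by
    intro c
    exact ⟨algebraMap k K c, R.algebraMap_mem c, 0, by simp, by simp⟩

theorem exists_dom_le (h : Hyp G A) (R : Subalgebra k K) (hAR : A ≤ R)
    (hst : ∀ g ∈ G, ∀ z ∈ R, g z ∈ R) (hloc : IsLocalRing R) {W' : ValuationSubring K}
    (hW' : Inv G A W') (hRW : ∀ f ∈ R, f ∈ W') :
    ∃ W : ValuationSubring K, Inv G A W ∧ W ≤ W' ∧ Dom W R := by
  set v := W'.valuation with hv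
  have hmem : ∀ {r μ : K}, r ∈ R → v μ < 1 → r + μ ∈ cmpO R W' hRW :=
    fun {r μ} hr hμ => ⟨r, hr, μ, hμ, rfl⟩
  have hRO : R ≤ cmpO R W' hRW := by
    intro r hr
    have := hmem hr (show v (0 : K) < 1 by simp)
    rwa [add_zero] at this
  have hOW : ∀ z ∈ cmpO R W' hRW, z ∈ W' := by
    rintro _ ⟨r, hr, μ, hμ, rfl⟩
    exact W'.add_mem _ _ (hRW r hr) ((W'.valuation_le_one_iff μ).1 hμ.le)
  -- units of `R` have value one
  have hval : ∀ r ∈ R, r ≠ 0 → r⁻¹ ∈ R → v r = 1 := by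
    intro r hr h0 hr'
    refine le_antisymm ((W'.valuation_le_one_iff r).2 (hRW r hr)) ?_
    have h1 := (W'.valuation_le_one_iff _).2 (hRW _ hr')
    rw [← hv, map_inv₀] at h1
    exact (inv_le_one₀ (zero_lt_iff.2 ((Valuation.ne_zero_iff _).2 h0))).1 h1
  have hinv : ∀ r ∈ R, r ≠ 0 → r⁻¹ ∈ R → ∀ μ, v μ < 1 → r + μ ≠ 0 ∧
      (r + μ)⁻¹ ∈ cmpO R W' hRW := by
    intro r hr h0 hr' μ hμ
    have h1 := hval r hr h0 hr'
    have h2 : v (r + μ) = 1 := by
      rw [v.map_add_eq_of_lt_left (by rw [h1]; exact hμ), h1]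
    have h3 : r + μ ≠ 0 := by
      intro h4
      rw [h4, map_zero] at h2
      exact zero_ne_one h2
    refine ⟨h3, ?_⟩
    have h4 : (r + μ)⁻¹ = r⁻¹ + (-(μ * (r⁻¹ * (r + μ)⁻¹))) := by
      field_simp
      ring
    rw [h4]
    refine hmem hr' ?_
    rw [Valuation.map_neg, map_mul, map_mul, map_inv₀, map_inv₀, h1, h2, inv_one, mul_one,
      mul_one]
    exact hμ
  have hOloc : IsLocalRing (cmpO R W' hRW) := by
    refine IsLocalRing.of_isUnit_or_isUnit_one_sub_self fun z => ?_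
    have key : ∀ z : cmpO R W' hRW, (z : K) ≠ 0 → (z : K)⁻¹ ∈ cmpO R W' hRW → IsUnit z := by
      intro z hz hz'
      exact IsUnit.of_mul_eq_one (⟨_, hz'⟩ : cmpO R W' hRW) (Subtype.ext (mul_inv_cancel₀ hz))
    obtain ⟨z, r, hr, μ, hμ, rfl⟩ := z
    rcases cmp_unit R hloc hr with ⟨h0, h1⟩ | ⟨h0, h1⟩
    · left
      obtain ⟨h2, h3⟩ := hinv r hr h0 h1 μ hμ
      exact key _ h2 h3
    · right
      obtain ⟨h2, h3⟩ := hinv (1 - r) (R.sub_mem R.one_mem hr) h0 h1 (-μ)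
        (by rw [Valuation.map_neg]; exact hμ)
      have h4 : 1 - r + -μ = 1 - (r + μ) := by ring
      rw [h4] at h2 h3
      exact key _ h2 h3
  obtain ⟨W, hW, hdom⟩ := exists_dom h (cmpO R W' hRW) (hAR.trans hRO) (by
    rintro g hg _ ⟨r, hr, μ, hμ, rfl⟩
    rw [map_add]
    refine hmem (hst g hg r hr) ?_
    rw [hv, hW'.inv g hg μ]
    exact hμ) hOloc
  refine ⟨W, hW, ?_, ⟨fun f hf => hdom.le f (hRO hf), ?_⟩⟩
  · intro z hz
    by_contra hzW
    have h1 : 1 < v z := by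
      rw [← not_le]
      exact fun h => hzW ((W'.valuation_le_one_iff z).1 h)
    have hz0 : z ≠ 0 := by
      intro h0
      rw [h0] at hzW
      exact hzW W'.zero_mem
    have h2 : v z⁻¹ < 1 := by
      rw [map_inv₀]
      exact inv_lt_one_of_one_lt₀ h1
    have h3 : z⁻¹ ∈ cmpO R W' hRW := by
      have := hmem R.zero_mem h2
      rwa [zero_add] at this
    have h4 : W.valuation z⁻¹ = 1 := by
      refine le_antisymm ((W.valuation_le_one_iff _).2 (hdom.le _ h3)) ?_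
      have h5 := (W.valuation_le_one_iff z).2 hz
      rw [map_inv₀]
      exact (one_le_inv₀ (zero_lt_iff.2 ((Valuation.ne_zero_iff _).2 hz0))).2 h5
    have h5 := hdom.inv _ h3 h4
    rw [inv_inv] at h5
    exact hzW (hOW z h5)
  · intro f hf hf1
    have hf0 : f ≠ 0 := by
      intro h0
      rw [h0, map_zero] at hf1
      exact zero_ne_one hf1
    obtain ⟨r, hr, μ, hμ, he⟩ := hdom.inv f (hRO hf) hf1
    rcases cmp_unit R hloc (R.mul_mem hf hr) with ⟨h0, h1⟩ | ⟨h0, h1⟩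
    · have h2 : f⁻¹ = r * (f * r)⁻¹ := by
        have hr0 : r ≠ 0 := right_ne_zero_of_mul h0
        field_simp
      rw [h2]
      exact R.mul_mem hr h1
    · exfalso
      have h2 := hval (1 - f * r) (R.sub_mem R.one_mem (R.mul_mem hf hr)) h0 h1
      have h3 : 1 - f * r = f * μ := by
        have h4 : f * (r + μ) = 1 := by rw [← he, mul_inv_cancel₀ hf0]
        rw [← h4]
        ring
      rw [h3, map_mul] at h2
      have h5 : v f ≤ 1 := (W'.valuation_le_one_iff f).2 (hRW f hf)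
      exact absurd h2 ((mul_le_of_le_one_left' h5).trans_lt hμ).ne

end Pool.Agent.MP_b525bf_ag_E
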