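import Pool.Agent.Lib.MP_b525bf_ag_E.Defs

/-!
# Theorem E, row CPT
Recipe. Suppose not. On the type `{W // Inv G A W}` the sets `{W | ¬ ∀ e ∈ E V, e ∈ W}`,
`V ∈ Inv`, have the finite intersection property (`m = 0` included: the type is nonempty or the
statement is trivial with `m = 0`), so there is an ultrafilter `𝓤` containing all of them. Let
`V∞ := {z | ∀ᶠ W in 𝓤, z ∈ W}`: a valuation subring of `K` (`Ultrafilter.eventually_or`,
`eventually_not`), it contains `A`, and is invariant: `Inv.inv` is equivalent to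
`∀ z ≠ 0, g z / z ∈ W` (for all `g ∈ G`), which passes to `V∞`. `E V∞` is a finite subset of `V∞`, so
`∀ᶠ W in 𝓤, ∀ e ∈ E V∞, e ∈ W`: contradiction.
-/

set_option autoImplicit false
set_option linter.unusedVariables false

namespace Pool.Agent.MP_b525bf_ag_E

open Pool.Agent.LU2 Pool.Agent.MP_b525bf_ag Pool.Agent.MP_b525bf_ag_W

variable {k K : Type} [Field k] [Field K] [Algebra k K] {G : Subgroup (K ≃ₐ[k] K)}
  {A : Subalgebra k K}

/-- The limit of a family of valuation rings along an ultrafilter. -/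
private def ulim {X : Type} (v : X → ValuationSubring K) (U : Ultrafilter X) :
    ValuationSubring K where
  carrier := {z | ∀ᶠ W in (U : Filter X), z ∈ v W}
  mul_mem' := by
    intro a b ha hb
    exact (Filter.Eventually.and ha hb).mono fun W h => mul_mem h.1 h.2
  one_mem' := Filter.Eventually.of_forall fun W => one_mem _
  add_mem' := by
    intro a b ha hb
    exact (Filter.Eventually.and ha hb).mono fun W h => add_mem h.1 h.2
  zero_mem' := Filter.Eventually.of_forall fun W => zero_mem _
  neg_mem' := by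
    intro a ha
    exact Filter.Eventually.mono ha fun W h => neg_mem h
  mem_or_inv_mem' := by
    intro z
    have h : ∀ᶠ W in (U : Filter X), z ∈ v W ∨ z⁻¹ ∈ v W :=
      Filter.Eventually.of_forall fun W => (v W).mem_or_inv_mem z
    exact Ultrafilter.eventually_or.1 h

private theorem mem_ulim {X : Type} (v : X → ValuationSubring K) (U : Ultrafilter X) (z : K) :
    z ∈ ulim v U ↔ ∀ᶠ W in (U : Filter X), z ∈ v W := Iff.rfl

theorem exists_cover (E : ValuationSubring K → Finset K)
    (hE : ∀ V : ValuationSubring K, Inv G A V → ∀ e ∈ E V, e ∈ V) :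
    ∃ (m : ℕ) (V : Fin m → ValuationSubring K), (∀ i, Inv G A (V i)) ∧
      ∀ W : ValuationSubring K, Inv G A W → ∃ i, ∀ e ∈ E (V i), e ∈ W := by
  classical
  by_contra hcon
  push Not at hcon
  let X := {W : ValuationSubring K // Inv G A W}
  let S : X → Set X := fun V => {W | ∀ e ∈ E V.1, e ∈ W.1}
  have hfin : ∀ F : Finset X, ∃ W : X, ∀ V ∈ F, W ∉ S V := by
    intro F
    obtain ⟨W, hW, h⟩ := hcon F.card (fun i => (F.equivFin.symm i).1.1)
      (fun i => (F.equivFin.symm i).1.2)
    refine ⟨⟨W, hW⟩, fun V hV hS => ?_⟩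
    obtain ⟨e, he, heW⟩ := h (F.equivFin ⟨V, hV⟩)
    simp only [Equiv.symm_apply_apply] at he
    exact heW (hS e he)
  have hne : (Filter.generate (Set.range fun V : X => (S V)ᶜ)).NeBot := by
    rw [Filter.generate_neBot_iff]
    intro t ht htf
    have h1 : ∀ a : Set X, a ∈ t → ∃ V : X, (S V)ᶜ = a := fun a ha => ht ha
    choose g hg using h1
    let g' : htf.toFinset → X := fun a => g a.1 (htf.mem_toFinset.1 a.2)
    obtain ⟨W, hW⟩ := hfin (Finset.univ.image g')
    refine ⟨W, ?_⟩
    intro a ha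
    rw [← hg a ha]
    refine hW _ ?_
    rw [Finset.mem_image]
    exact ⟨⟨a, htf.mem_toFinset.2 ha⟩, Finset.mem_univ _, rfl⟩
  let U : Ultrafilter X := @Ultrafilter.of X _ hne
  have hU : ∀ V : X, (S V)ᶜ ∈ (U : Filter X) := by
    intro V
    exact Ultrafilter.of_le _ (Filter.mem_generate_of_mem ⟨V, rfl⟩)
  have hdiv : ∀ g ∈ G, ∀ z : K, z ≠ 0 → ∀ W : X, g z / z ∈ W.1 := by
    intro g hg z hz W
    rw [← W.1.valuation_le_one_iff, map_div₀, W.2.inv g hg z]
    exact (div_self ((W.1.valuation.ne_zero_iff).2 hz)).le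
  have hdiv' : ∀ g ∈ G, ∀ z : K, z ≠ 0 →
      (ulim (fun W : X => W.1) U).valuation (g z) ≤ (ulim (fun W : X => W.1) U).valuation z := by
    intro g hg z hz
    have h : g z / z ∈ ulim (fun W : X => W.1) U :=
      (mem_ulim _ _ _).2 (Filter.Eventually.of_forall fun W => hdiv g hg z hz W)
    rw [← ValuationSubring.valuation_le_one_iff, map_div₀] at h
    exact (div_le_one₀ (zero_lt_iff.2 ((Valuation.ne_zero_iff _).2 hz))).1 h
  have hinv : Inv G A (ulim (fun W : X => W.1) U) := by
    refine ⟨fun a ha => (mem_ulim _ _ _).2 (Filter.Eventually.of_forall fun W => W.2.le a ha),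
      fun g hg z => ?_⟩
    by_cases hz : z = 0
    · subst hz
      simp
    · refine le_antisymm (hdiv' g hg z hz) ?_
      have h := hdiv' g⁻¹ (inv_mem hg) (g z) (by simpa using hz)
      have h2 : g⁻¹ (g z) = z := by
        change g.symm (g z) = z
        simp
      rwa [h2] at h
  have h1 : ∀ᶠ W in (U : Filter X), ∀ e ∈ E (ulim (fun W : X => W.1) U), e ∈ W.1 := by
    rw [Filter.eventually_all_finset]
    intro e he
    exact hE _ hinv e he
  have h2 := hU ⟨_, hinv⟩
  obtain ⟨W, hW1, hW2⟩ := (h1.and h2).exists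
  exact hW2 hW1

end Pool.Agent.MP_b525bf_ag_E
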