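import Pool.Agent.Lib.MP_b525bf_ag_E.Defs

/-!
# Theorem E, row EFB
Recipe. `EF G A f u = Fam.ofSub (Algebra.adjoin k (egens G A f u))`.
`EF_le`: all coefficients of the generators are in `A` (`orb G A (f j) ≤ A`): the elements of
`AddMonoidAlgebra K _` with all coefficients in `A` form a subalgebra (e.g. the `alg` of the family
`s d = A`; `Fam.le_alg_of_adjoin`). `EF_zero`: `≤` by `EF_le`, `≥` because `single 0 a` is a generator.
`EF_fg`: generators `single 0 a` (`a` in a finite generating set of `A`), `single (dF m j) y` (`y`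
in a finite set generating the `A`-module `orb G A (f j)`; `A` is Noetherian and the orbit module is
contained in `A`), the `single (dS u j) 1`, `single (dR N i) 1`; and `(EF ..).alg` is the adjoin
itself: every element of the adjoin has all homogeneous parts in it (`Fam.le_alg_of_adjoin` and its
converse: `F = ∑ single a (F a)`). `EF_stab`: `g` acts on coefficients
(`AddMonoidAlgebra.mapRangeRingHom` or so), maps generators to generators. `EF_neg`: product of the
`single (dR N i) 1 ^ (n * θ i)`. `EF_ne`: for `d = (t, w)` take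
`y = ∏ (f j)^(a j)` with `a j - b j = t j`, `b j ≥ 0` large and `c i = ∑ j, b j * u i j - w i ≥ 0`
(possible as `u i ≠ 0` for all `i`): product of `f j` in degree `dF m j` (`a j` times), `1` in degree
`dS u j` (`b j` times), `1` in degree `dR N i` (`c i` times).
-/

set_option autoImplicit false
set_option linter.unusedVariables false

namespace Pool.Agent.MP_b525bf_ag_E

open Pool.Agent.LU2 Pool.Agent.MP_b525bf_ag Pool.Agent.MP_b525bf_ag_W

variable {k K : Type} [Field k] [Field K] [Algebra k K] {G : Subgroup (K ≃ₐ[k] K)}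
  {A : Subalgebra k K}

variable {N m : ℕ} {f : Fin N → K} {u : Fin m → Fin N → ℕ} {θ : Fin m → ℕ}
  {D : Set (Fin N → ℤ)}

open AddMonoidAlgebra in
private theorem efb_alg {ι : Type} [AddCommGroup ι] (S : Set (AddMonoidAlgebra K ι))
    (hS : ∀ F ∈ S, ∃ a x, F = single a x) :
    (Fam.ofSub (Algebra.adjoin k S)).alg = Algebra.adjoin k S := by
  apply le_antisymm
  · intro F hF
    rw [Fam.eq_sum F]
    exact Subalgebra.sum_mem _ fun a _ => hF a
  · refine Algebra.adjoin_le fun F hF => ?_
    obtain ⟨a, x, rfl⟩ := hS F hF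
    exact Fam.single_mem_alg.2 (Algebra.subset_adjoin hF)

private theorem efb_orb_le (h : Hyp G A) {z : K} (hz : z ∈ A) {y : K} (hy : y ∈ orb G A z) :
    y ∈ A := by
  induction hy using Submodule.span_induction with
  | mem x hx =>
    obtain ⟨g, hg, rfl⟩ := hx
    exact h.stab g hg z hz
  | zero => exact A.zero_mem
  | add x y _ _ hx hy => exact A.add_mem hx hy
  | smul a x _ hx => exact A.mul_mem a.2 hx

private theorem efb_orb_stab (h : Hyp G A) {z : K} {g : K ≃ₐ[k] K} (hg : g ∈ G) {y : K}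
    (hy : y ∈ orb G A z) : g y ∈ orb G A z := by
  induction hy using Submodule.span_induction with
  | mem x hx =>
    obtain ⟨g', hg', rfl⟩ := hx
    exact Submodule.subset_span ⟨g * g', G.mul_mem hg hg', rfl⟩
  | zero => rw [map_zero]; exact Submodule.zero_mem _
  | add x y _ _ hx hy => rw [map_add]; exact Submodule.add_mem _ hx hy
  | smul a x _ hx =>
    have h1 : g (a • x) = (⟨g a, h.stab g hg _ a.2⟩ : A) • g x := by
      change g ((a : K) * x) = g a * g x
      rw [map_mul]
    rw [h1]
    exact Submodule.smul_mem _ _ hx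

private theorem efb_self (z : K) : z ∈ orb G A z :=
  Submodule.subset_span ⟨1, G.one_mem, rfl⟩

private theorem efb_mem {d : Ix N m} {x : K}
    (hx : (AddMonoidAlgebra.single d x : AddMonoidAlgebra K (Ix N m)) ∈ egens G A f u) :
    x ∈ (EF G A f u).s d := Algebra.subset_adjoin hx

private theorem efb_memF (j : Fin N) {y : K} (hy : y ∈ orb G A (f j)) :
    y ∈ (EF G A f u).s (dF m j) := efb_mem (Or.inl (Or.inl (Or.inr ⟨j, y, hy, rfl⟩)))

private theorem efb_memS (j : Fin N) : (1 : K) ∈ (EF G A f u).s (dS u j) :=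
  efb_mem (Or.inl (Or.inr ⟨j, rfl⟩))

private theorem efb_memR (i : Fin m) : (1 : K) ∈ (EF G A f u).s (dR N i) :=
  efb_mem (Or.inr ⟨i, rfl⟩)

private theorem efb_prod {ι σ : Type} [AddCommGroup ι] (M : Fam k K ι) (s : Finset σ) (d : σ → ι)
    (x : σ → K) (c : σ → ℕ) (h : ∀ i, x i ∈ M.s (d i)) :
    ∏ i ∈ s, x i ^ c i ∈ M.s (∑ i ∈ s, c i • d i) := by
  classical
  induction s using Finset.induction_on with
  | empty => simpa using M.one'
  | insert a s ha ih =>
    rw [Finset.prod_insert ha, Finset.sum_insert ha]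
    exact M.mul' (M.pow' (h a) _) ih

theorem EF_le (h : Hyp G A) (hf : ∀ j, f j ∈ A) (d : Ix N m) :
    (EF G A f u).s d ≤ Subalgebra.toSubmodule A := by
  let cA : Fam k K (Ix N m) :=
    { s := fun _ => Subalgebra.toSubmodule A
      one' := A.one_mem
      mul' := fun hx hy => A.mul_mem hx hy }
  have h1 : Algebra.adjoin k (egens G A f u) ≤ cA.alg := by
    refine Fam.le_alg_of_adjoin ?_
    rintro F (((⟨a, ha, rfl⟩ | ⟨j, y, hy, rfl⟩) | ⟨j, rfl⟩) | ⟨i, rfl⟩)
    · exact Fam.single_mem_alg.2 ha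
    · exact Fam.single_mem_alg.2 (efb_orb_le h (hf j) hy)
    · exact Fam.single_mem_alg.2 A.one_mem
    · exact Fam.single_mem_alg.2 A.one_mem
  intro x hx
  exact (Fam.single_mem_alg (M := cA)).1 (h1 hx)

theorem EF_zero (h : Hyp G A) (hf : ∀ j, f j ∈ A) :
    (EF G A f u).s 0 = Subalgebra.toSubmodule A :=
  le_antisymm (EF_le h hf 0) fun a ha => efb_mem (Or.inl (Or.inl (Or.inl ⟨a, ha, rfl⟩)))

theorem EF_fg (h : Hyp G A) (hf : ∀ j, f j ∈ A) : (EF G A f u).alg.FG := by
  classical
  have hhom : ∀ F ∈ egens G A f u, ∃ a x, F = AddMonoidAlgebra.single a x := by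
    rintro F (((⟨a, ha, rfl⟩ | ⟨j, y, hy, rfl⟩) | ⟨j, rfl⟩) | ⟨i, rfl⟩) <;> exact ⟨_, _, rfl⟩
  have e1 : (EF G A f u).alg = Algebra.adjoin k (egens G A f u) := efb_alg _ hhom
  obtain ⟨SA, hSA⟩ := h.fg
  have hN : IsNoetherianRing A := isNoetherianRing_of_fg h.fg
  have hT : ∀ j, ∃ T : Finset K, Submodule.span A (T : Set K) = orb G A (f j) := by
    intro j
    have h1 : orb G A (f j) ≤ LinearMap.range (Algebra.linearMap A K) := by
      intro y hy
      exact ⟨⟨y, efb_orb_le h (hf j) hy⟩, rfl⟩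
    have h2 : IsNoetherian A (LinearMap.range (Algebra.linearMap A K)) := inferInstance
    exact isNoetherian_submodule.1 h2 _ h1
  choose T hT using hT
  set G0 : Set (AddMonoidAlgebra K (Ix N m)) :=
    ((fun a => AddMonoidAlgebra.single 0 a) '' (SA : Set K)) ∪
      (⋃ j, (fun y => AddMonoidAlgebra.single (dF m j) y) '' (T j : Set K)) ∪
      Set.range (fun j => AddMonoidAlgebra.single (dS u j) 1) ∪
      Set.range (fun i => AddMonoidAlgebra.single (dR N i) 1) with hG0
  have hfin : G0.Finite :=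
    ((((SA.finite_toSet.image _).union (Set.finite_iUnion fun j =>
      (T j).finite_toSet.image _)).union (Set.finite_range _)).union (Set.finite_range _))
  have hA : ∀ a ∈ A, (AddMonoidAlgebra.single 0 a : AddMonoidAlgebra K (Ix N m)) ∈
      Algebra.adjoin k G0 := by
    intro a ha
    rw [← hSA] at ha
    induction ha using Algebra.adjoin_induction with
    | mem x hx => exact Algebra.subset_adjoin (Or.inl (Or.inl (Or.inl ⟨x, hx, rfl⟩)))
    | algebraMap r =>
      have : (AddMonoidAlgebra.single 0 (algebraMap k K r) : AddMonoidAlgebra K (Ix N m)) =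
          algebraMap k _ r := by
        rw [AddMonoidAlgebra.coe_algebraMap]; rfl
      rw [this]
      exact Subalgebra.algebraMap_mem _ r
    | add x y _ _ hx hy =>
      rw [AddMonoidAlgebra.single_add]
      exact Subalgebra.add_mem _ hx hy
    | mul x y _ _ hx hy =>
      have := Subalgebra.mul_mem _ hx hy
      rwa [AddMonoidAlgebra.single_mul_single, add_zero] at this
  have e2 : Algebra.adjoin k (egens G A f u) = Algebra.adjoin k G0 := by
    apply le_antisymm
    · refine Algebra.adjoin_le ?_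
      rintro F (((⟨a, ha, rfl⟩ | ⟨j, y, hy, rfl⟩) | ⟨j, rfl⟩) | ⟨i, rfl⟩)
      · exact hA a ha
      · rw [← hT j] at hy
        induction hy using Submodule.span_induction with
        | mem x hx =>
          exact Algebra.subset_adjoin (Or.inl (Or.inl (Or.inr (Set.mem_iUnion.2 ⟨j, x, hx, rfl⟩))))
        | zero =>
          rw [AddMonoidAlgebra.single_zero]
          exact Subalgebra.zero_mem _
        | add x y _ _ hx hy =>
          rw [AddMonoidAlgebra.single_add]
          exact Subalgebra.add_mem _ hx hy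
        | smul a x _ hx =>
          have := Subalgebra.mul_mem _ (hA a a.2) hx
          rwa [AddMonoidAlgebra.single_mul_single, zero_add] at this
      · exact Algebra.subset_adjoin (Or.inl (Or.inr ⟨j, rfl⟩))
      · exact Algebra.subset_adjoin (Or.inr ⟨i, rfl⟩)
    · refine Algebra.adjoin_mono ?_
      rintro F (((⟨a, ha, rfl⟩ | hF) | ⟨j, rfl⟩) | ⟨i, rfl⟩)
      · refine Or.inl (Or.inl (Or.inl ⟨a, ?_, rfl⟩))
        rw [← hSA]
        exact Algebra.subset_adjoin ha
      · obtain ⟨j, y, hy, rfl⟩ := Set.mem_iUnion.1 hF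
        refine Or.inl (Or.inl (Or.inr ⟨j, y, ?_, rfl⟩))
        rw [← hT j]
        exact Submodule.subset_span hy
      · exact Or.inl (Or.inr ⟨j, rfl⟩)
      · exact Or.inr ⟨i, rfl⟩
  rw [e1, e2]
  exact ⟨hfin.toFinset, by rw [Set.Finite.coe_toFinset]⟩

theorem EF_stab (h : Hyp G A) : FStab G (EF G A f u) := by
  intro g hg d x hx
  let M' : Fam k K (Ix N m) :=
    { s := fun d => ((EF G A f u).s d).comap g.toLinearMap
      one' := by
        change g 1 ∈ (EF G A f u).s 0
        rw [map_one]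
        exact (EF G A f u).one'
      mul' := by
        intro a b x y hx hy
        change g (x * y) ∈ (EF G A f u).s (a + b)
        rw [map_mul]
        exact (EF G A f u).mul' hx hy }
  have h1 : Algebra.adjoin k (egens G A f u) ≤ M'.alg := by
    refine Fam.le_alg_of_adjoin ?_
    rintro F (((⟨a, ha, rfl⟩ | ⟨j, y, hy, rfl⟩) | ⟨j, rfl⟩) | ⟨i, rfl⟩)
    · refine Fam.single_mem_alg.2 ?_
      change g a ∈ (EF G A f u).s 0
      exact efb_mem (Or.inl (Or.inl (Or.inl ⟨g a, h.stab g hg a ha, rfl⟩)))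
    · refine Fam.single_mem_alg.2 ?_
      change g y ∈ (EF G A f u).s _
      exact efb_memF j (efb_orb_stab h hg hy)
    · refine Fam.single_mem_alg.2 ?_
      change g 1 ∈ (EF G A f u).s _
      rw [map_one]
      exact efb_memS j
    · refine Fam.single_mem_alg.2 ?_
      change g 1 ∈ (EF G A f u).s _
      rw [map_one]
      exact efb_memR i
  exact (Fam.single_mem_alg (M := M')).1 (h1 hx)

theorem EF_neg (hθ : Comb D u θ) (n : ℕ) : (1 : K) ∈ (EF G A f u).s (-(n • amp N θ)) := by
  have h1 := efb_prod (EF G A f u) Finset.univ (fun i : Fin m => dR N i) (fun _ => 1)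
    (fun i => n * θ i) (fun i => efb_memR i)
  simp only [one_pow, Finset.prod_const_one] at h1
  have h2 : ∑ i : Fin m, (n * θ i) • dR N i = -(n • amp N θ) := by
    refine Prod.ext ?_ ?_
    · rw [Prod.fst_sum]
      simp [dR, amp]
    · rw [Prod.snd_sum]
      funext i
      rw [Finset.sum_apply]
      simp [dR, amp, Pi.single_apply]
  rwa [h2] at h1

theorem EF_ne (hθ : Comb D u θ) (hf0 : ∀ j, f j ≠ 0) (d : Ix N m) :
    ∃ y ∈ (EF G A f u).s d, y ≠ 0 := by
  set B : ℕ := ∑ j, (d.1 j).natAbs + ∑ i, (d.2 i).natAbs with hB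
  have hB1 : ∀ j, ((d.1 j).natAbs : ℤ) ≤ B := by
    intro j
    have h1 : (d.1 j).natAbs ≤ ∑ j, (d.1 j).natAbs :=
      Finset.single_le_sum (f := fun j => (d.1 j).natAbs) (fun _ _ => Nat.zero_le _)
        (Finset.mem_univ j)
    exact_mod_cast h1.trans (Nat.le_add_right _ _)
  have hB2 : ∀ i, ((d.2 i).natAbs : ℤ) ≤ B := by
    intro i
    have h1 : (d.2 i).natAbs ≤ ∑ i, (d.2 i).natAbs :=
      Finset.single_le_sum (f := fun i => (d.2 i).natAbs) (fun _ _ => Nat.zero_le _)
        (Finset.mem_univ i)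
    exact_mod_cast h1.trans (Nat.le_add_left _ _)
  have hu : ∀ i, 1 ≤ ∑ j, u i j := by
    intro i
    by_contra hc
    apply hθ.ne i
    funext j
    have h1 : ∑ j, u i j = 0 := by omega
    exact (Finset.sum_eq_zero_iff.1 h1) j (Finset.mem_univ j)
  -- the exponents
  set a : Fin N → ℕ := fun j => (d.1 j + B).toNat with ha
  set c : Fin m → ℕ := fun i => ((∑ j, (B : ℤ) * u i j) - d.2 i).toNat with hc
  have ha' : ∀ j, (a j : ℤ) = d.1 j + B := by
    intro j
    refine Int.toNat_of_nonneg ?_
    have := hB1 j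
    have h2 : -((d.1 j).natAbs : ℤ) ≤ d.1 j := by omega
    omega
  have hc' : ∀ i, (c i : ℤ) = (∑ j, (B : ℤ) * u i j) - d.2 i := by
    intro i
    refine Int.toNat_of_nonneg ?_
    have h1 := hB2 i
    have h2 : d.2 i ≤ ((d.2 i).natAbs : ℤ) := by omega
    have h3 : (B : ℤ) ≤ ∑ j, (B : ℤ) * u i j := by
      rw [← Finset.mul_sum]
      have h4 : (1 : ℤ) ≤ ∑ j, (u i j : ℤ) := by exact_mod_cast hu i
      nlinarith
    omega
  have h1 := efb_prod (EF G A f u) Finset.univ (fun j : Fin N => dF m j) f a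
    (fun j => efb_memF j (efb_self (f j)))
  have h2 := efb_prod (EF G A f u) Finset.univ (fun j : Fin N => dS u j) (fun _ => 1)
    (fun _ => B) (fun j => efb_memS j)
  have h3 := efb_prod (EF G A f u) Finset.univ (fun i : Fin m => dR N i) (fun _ => 1)
    c (fun i => efb_memR i)
  have h4 := (EF G A f u).mul' ((EF G A f u).mul' h1 h2) h3
  have h5 : (∑ j : Fin N, a j • dF m j) + (∑ j : Fin N, B • dS u j) + ∑ i : Fin m, c i • dR N i
      = d := by
    refine Prod.ext ?_ ?_
    · rw [Prod.fst_add, Prod.fst_add, Prod.fst_sum, Prod.fst_sum, Prod.fst_sum]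
      funext j
      simp only [Pi.add_apply, Finset.sum_apply]
      simp [dF, dS, dR, Pi.single_apply, ha' j]
    · rw [Prod.snd_add, Prod.snd_add, Prod.snd_sum, Prod.snd_sum, Prod.snd_sum]
      funext i
      simp only [Pi.add_apply, Finset.sum_apply]
      simp [dF, dS, dR, Pi.single_apply, hc' i]
  rw [h5] at h4
  refine ⟨_, h4, ?_⟩
  simp only [one_pow, Finset.prod_const_one, mul_one]
  exact Finset.prod_ne_zero_iff.2 fun j _ => pow_ne_zero _ (hf0 j)

end Pool.Agent.MP_b525bf_ag_E
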