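import Pool.Agent.Lib.LU2_h15.StatementDefs

/-!
# Resolution for group actions of complexity zero: the definitions used in the final statement
-/

set_option autoImplicit false

namespace Pool.Agent.MP_b525bf_ag_E

open Pool.Agent.LU2

section Defs

variable {k A : Type} [Field k] [CommRing A] [IsDomain A] [Algebra k A]

/-- The valuation ring `V` of the field of fractions of `A` contains `A`, and its valuation is
invariant under the group `G` of automorphisms of `A`. -/
def IsInvariant (G : Subgroup (A ≃ₐ[k] A)) (V : ValuationSubring (FractionRing A)) : Prop :=
  (∀ a : A, algebraMap A (FractionRing A) a ∈ V) ∧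
    ∀ g ∈ G, ∀ a : A, V.valuation (algebraMap A (FractionRing A) (g a)) =
      V.valuation (algebraMap A (FractionRing A) a)

/-- All `G`-invariant valuations are Abhyankar valuations: the rational rank of the value group and
the transcendence degree over `k` of the residue field add up to that of the field of fractions
of `A`. -/
def AllAbhyankar (G : Subgroup (A ≃ₐ[k] A)) : Prop :=
  ∀ (V : ValuationSubring (FractionRing A)) (hV : IsInvariant G V),
    rationalRank V + residueDegree k V hV.1 = Algebra.trdeg k A

/-- The set of the local rings, of the blowing up of `Spec A` in the ideal `I`, at the centers of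
the `G`-invariant valuations. -/
def invariantCenters (G : Subgroup (A ≃ₐ[k] A)) (I : Ideal A) :
    Set (Subalgebra A (FractionRing A)) :=
  {O | ∃ V : ValuationSubring (FractionRing A), IsInvariant G V ∧ ∃ b ∈ I, b ≠ 0 ∧
    (∀ a ∈ I, V.valuation (algebraMap A (FractionRing A) a) ≤
      V.valuation (algebraMap A (FractionRing A) b)) ∧ O = centerRing V (chart I b)}

end Defs

end Pool.Agent.MP_b525bf_ag_E
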