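import Pool.Agent.Lib.MP_b525bf_ag_E.Defs
import Pool.Agent.Lib.MP_b525bf_ag_E.StmtDefs
import Pool.Agent.Lib.LU2_h15.StatementA

/-!
# Theorem E, row FH1 and row FH2: the hypotheses of the final theorem, on the level of fields

Recipe. `liftG G` is the image of `G` in the automorphism group of the field of fractions,
`fieldEquivOfAlgEquiv` extends an automorphism of `A` (`fieldEquivOfAlgEquiv_algebraMap`), `rangeA`
is the image of `A`. `hyp_liftG`: `Algebra.FiniteType` gives `fg`; `idx`: a subgroup of finite index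
of the image of `G` has a preimage of finite index in `G`. `inv_iff`: `V.valuation (g z) =
V.valuation z` for `z = a / b`. `defLE_of_inv`: `defLE_of` (`LU2_h15/StatementA.lean`) with `δ = 0`.
-/

set_option autoImplicit false
set_option linter.unusedVariables false

namespace Pool.Agent.MP_b525bf_ag_E

open Pool.Agent.LU2

variable {k A : Type} [Field k] [CommRing A] [IsDomain A] [Algebra k A]

/-- The image of `A` in its field of fractions. -/
noncomputable def rangeA (k A : Type) [Field k] [CommRing A] [IsDomain A] [Algebra k A] :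
    Subalgebra k (FractionRing A) := (IsScalarTower.toAlgHom k A (FractionRing A)).range

/-- The group of automorphisms of the field of fractions induced by `G`. -/
noncomputable def liftG (G : Subgroup (A ≃ₐ[k] A)) :
    Subgroup (FractionRing A ≃ₐ[k] FractionRing A) :=
  G.map (IsFractionRing.fieldEquivOfAlgEquivHom k (FractionRing A))

private theorem FH1_apply (g : A ≃ₐ[k] A) (a : A) :
    IsFractionRing.fieldEquivOfAlgEquivHom k (FractionRing A) g
      (algebraMap A (FractionRing A) a) = algebraMap A (FractionRing A) (g a) := by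
  rw [IsFractionRing.fieldEquivOfAlgEquivHom_apply]
  exact IsFractionRing.fieldEquivOfAlgEquiv_algebraMap k (FractionRing A) (FractionRing A) g a

private theorem FH1_mem {z : FractionRing A} :
    z ∈ rangeA k A ↔ ∃ a : A, algebraMap A (FractionRing A) a = z := Iff.rfl

private theorem FH1_idx {G G' : Type} [Group G] [Group G'] (φ : G →* G')
    (hs : Function.Surjective φ) (hG : ∀ H : Subgroup G, H.FiniteIndex → H = ⊤) :
    ∀ H : Subgroup G', H.FiniteIndex → H = ⊤ := by
  intro H hH
  have h1 : H.comap φ = ⊤ := by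
    refine hG _ ⟨?_⟩
    rw [Subgroup.index_comap_of_surjective H hs]
    exact hH.index_ne_zero
  rw [Subgroup.eq_top_iff']
  intro x
  obtain ⟨y, rfl⟩ := hs x
  have h2 : y ∈ H.comap φ := by
    rw [h1]; trivial
  exact h2

/-- row FH1 -/
theorem hyp_liftG [Algebra.FiniteType k A] (G : Subgroup (A ≃ₐ[k] A))
    (hG : ∀ H : Subgroup G, H.FiniteIndex → H = ⊤) : Hyp (liftG G) (rangeA k A) where
  fg := by
    rw [rangeA, ← Algebra.map_top]
    exact Subalgebra.FG.map _ Algebra.FiniteType.out
  frac := by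
    intro f
    obtain ⟨a, b, hb, rfl⟩ := IsFractionRing.div_surjective A f
    refine ⟨_, FH1_mem.2 ⟨a, rfl⟩, _, FH1_mem.2 ⟨b, rfl⟩, ?_, rfl⟩
    exact IsFractionRing.to_map_ne_zero_of_mem_nonZeroDivisors hb
  stab := by
    rintro g ⟨g, hg, rfl⟩ a ha
    obtain ⟨a, rfl⟩ := FH1_mem.1 ha
    exact FH1_mem.2 ⟨g a, (FH1_apply g a).symm⟩
  idx := FH1_idx (MonoidHom.subgroupMap
    (IsFractionRing.fieldEquivOfAlgEquivHom k (FractionRing A)) G)
    (MonoidHom.subgroupMap_surjective _ G) hG

/-- row FH1 -/
theorem inv_iff (G : Subgroup (A ≃ₐ[k] A)) (V : ValuationSubring (FractionRing A)) :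
    Inv (liftG G) (rangeA k A) V ↔ IsInvariant G V := by
  constructor
  · intro h
    refine ⟨fun a => h.le _ (FH1_mem.2 ⟨a, rfl⟩), fun g hg a => ?_⟩
    rw [← FH1_apply g a]
    exact h.inv _ ⟨g, hg, rfl⟩ _
  · intro h
    refine ⟨fun a ha => ?_, ?_⟩
    · obtain ⟨a, rfl⟩ := FH1_mem.1 ha
      exact h.1 a
    · rintro g ⟨g, hg, rfl⟩ z
      obtain ⟨a, b, hb, rfl⟩ := IsFractionRing.div_surjective A z
      rw [map_div₀, FH1_apply, FH1_apply, map_div₀, map_div₀, h.2 g hg a, h.2 g hg b]

/-- row FH1 -/
theorem defLE_of_inv [Algebra.FiniteType k A] (G : Subgroup (A ≃ₐ[k] A)) (hA : AllAbhyankar G)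
    (V : ValuationSubring (FractionRing A)) (hV : Inv (liftG G) (rangeA k A) V) :
    DefLE k V 0 := by
  have h := (inv_iff G V).1 hV
  refine defLE_of k A V h.1 0 ?_
  rw [hA V h, Nat.cast_zero, add_zero]

end Pool.Agent.MP_b525bf_ag_E
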