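import Pool.Agent.Lib.MP_b525bf_ag_E.FH1
import Pool.Agent.Lib.LU2G.StatementE

/-!
# Theorem E, row FH3: finitely many centers on the equivariant blowing ups imply finitely many
centers on all models

`B` is generated over `k` by finitely many `c_i / d_i`, `c_i, d_i ∈ A` nonzero. For `c ∈ A` let
`I_c` be the ideal of `A` generated by the orbit of `c`. Let `I := ∏_i I_{c_i} I_{d_i} (I_{c_i} + I_{d_i})`, a
nonzero `G`-stable ideal. Let `V` be invariant with `B ⊆ V`, `b ∈ I` an element of largest
`V.valuation` and `O := centerRing V (chart I b)`. CLAIM: `c_i / d_i ∈ O`. Hence `B ⊆ O`, and the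
center of `V` on `B` is `{b ∈ B : b is not a unit of O}`.
-/

set_option autoImplicit false
set_option linter.unusedSectionVars false

namespace Pool.Agent.MP_b525bf_ag_E

open Pool.Agent.LU2

variable {k A : Type} [Field k] [CommRing A] [IsDomain A] [Algebra k A]

namespace FH3

/-- The ideal generated by the orbit of `c`. -/
def orbI (G : Subgroup (A ≃ₐ[k] A)) (c : A) : Ideal A := Ideal.span {x | ∃ g ∈ G, x = g c}

/-- The induced automorphism. -/
noncomputable def lft (g : A ≃ₐ[k] A) : FractionRing A ≃ₐ[k] FractionRing A :=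
  IsFractionRing.fieldEquivOfAlgEquiv k (FractionRing A) (FractionRing A) g

theorem lft_algebraMap (g : A ≃ₐ[k] A) (a : A) :
    lft g (algebraMap A (FractionRing A) a) = algebraMap A (FractionRing A) (g a) := by
  rw [lft, IsFractionRing.fieldEquivOfAlgEquiv_algebraMap]

theorem valuation_lft {G : Subgroup (A ≃ₐ[k] A)} {V : ValuationSubring (FractionRing A)}
    (hV : IsInvariant G V) {g : A ≃ₐ[k] A} (hg : g ∈ G) (z : FractionRing A) :
    V.valuation (lft g z) = V.valuation z := by
  obtain ⟨a, b, hb, rfl⟩ := IsFractionRing.div_surjective (A := A) z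
  rw [map_div₀, lft_algebraMap, lft_algebraMap, map_div₀, map_div₀, hV.2 g hg, hV.2 g hg]

variable {I : Ideal A} {V : ValuationSubring (FractionRing A)}

theorem chart_le_center (S : Subalgebra A (FractionRing A)) {z : FractionRing A} (hz : z ∈ S) :
    z ∈ centerRing V S := ⟨z, hz, 1, S.one_mem, map_one _, by rw [div_one]⟩

theorem center_inv (S : Subalgebra A (FractionRing A)) {z : FractionRing A}
    (hz : z ∈ centerRing V S) (hv : V.valuation z = 1) : z⁻¹ ∈ centerRing V S := by
  obtain ⟨a, ha, b, hb, hvb, rfl⟩ := hz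
  refine ⟨b, hb, a, ha, ?_, by rw [inv_div]⟩
  rw [map_div₀, hvb, div_one] at hv
  exact hv

theorem center_le (S : Subalgebra A (FractionRing A)) (hS : ∀ z ∈ S, z ∈ V) {z : FractionRing A}
    (hz : z ∈ centerRing V S) : z ∈ V := by
  obtain ⟨a, ha, b, hb, hvb, rfl⟩ := hz
  rw [← V.valuation_le_one_iff, map_div₀, hvb, div_one, V.valuation_le_one_iff]
  exact hS a ha

theorem chart_le (hV : ∀ a : A, algebraMap A (FractionRing A) a ∈ V) {b : A} (hb0 : b ≠ 0)
    (hmin : ∀ a ∈ I, V.valuation (algebraMap A (FractionRing A) a) ≤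
      V.valuation (algebraMap A (FractionRing A) b)) : ∀ z ∈ chart I b, z ∈ V := by
  intro z hz
  refine Algebra.adjoin_induction ?_ (fun r => hV r) (fun x y _ _ hx hy => V.add_mem _ _ hx hy)
    (fun x y _ _ hx hy => V.mul_mem _ _ hx hy) hz
  rintro x ⟨a, ha, rfl⟩
  have hb : V.valuation (algebraMap A (FractionRing A) b) ≠ 0 := by
    rw [Ne, Valuation.zero_iff]
    exact fun h => hb0 (IsFractionRing.injective A (FractionRing A) (by rw [h, map_zero]))
  rw [← V.valuation_le_one_iff, map_div₀]
  exact div_le_one_of_le₀ (hmin a ha) zero_le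

theorem stab {G : Subgroup (A ≃ₐ[k] A)} (hV : IsInvariant G V)
    (hI : ∀ g ∈ G, ∀ a ∈ I, g a ∈ I) {b : A} (hb : b ∈ I) (hb0 : b ≠ 0) {g : A ≃ₐ[k] A}
    (hg : g ∈ G) {z : FractionRing A} (hz : z ∈ centerRing V (chart I b)) :
    lft g z ∈ centerRing V (chart I b) := by
  have hb' : algebraMap A (FractionRing A) b ≠ 0 := fun h =>
    hb0 (IsFractionRing.injective A (FractionRing A) (by rw [h, map_zero]))
  have hgb' : algebraMap A (FractionRing A) (g b) ≠ 0 := fun h => by
    have h1 : g b = 0 := IsFractionRing.injective A (FractionRing A) (by rw [h, map_zero])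
    exact hb0 (by simpa using h1)
  have hgen : ∀ a ∈ I, algebraMap A (FractionRing A) a / algebraMap A (FractionRing A) b ∈
      chart I b := fun a ha => Algebra.subset_adjoin ⟨a, ha, rfl⟩
  have h1 : ∀ z ∈ chart I b, lft g z ∈ centerRing V (chart I b) := by
    intro z hz
    refine Algebra.adjoin_induction ?_ ?_ ?_ ?_ hz
    · rintro x ⟨a, ha, rfl⟩
      refine ⟨_, hgen _ (hI g hg a ha), _, hgen _ (hI g hg b hb), ?_, ?_⟩
      · rw [map_div₀, hV.2 g hg, div_self]
        rwa [Ne, Valuation.zero_iff]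
      · rw [map_div₀, lft_algebraMap, lft_algebraMap]
        field_simp
    · intro r
      rw [lft_algebraMap]
      exact Subalgebra.algebraMap_mem _ _
    · intro x y _ _ hx hy
      rw [map_add]
      exact Subalgebra.add_mem _ hx hy
    · intro x y _ _ hx hy
      rw [map_mul]
      exact Subalgebra.mul_mem _ hx hy
  obtain ⟨p, hp, q, hq, hvq, rfl⟩ := hz
  rw [map_div₀, div_eq_mul_inv]
  refine Subalgebra.mul_mem _ (h1 p hp) (center_inv _ (h1 q hq) ?_)
  rw [valuation_lft hV hg, hvq]

/-- If the product of the ideals `J`, `J'` becomes principal in the local ring `O`, so does `J`,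
generated by one of the given generators. -/
theorem exists_gen {O : Subalgebra A (FractionRing A)} (hOV : ∀ z ∈ O, z ∈ V)
    (hOu : ∀ z ∈ O, V.valuation z = 1 → z⁻¹ ∈ O) {S : Set A} {J' : Ideal A} {b : A} (hb0 : b ≠ 0)
    (hb : b ∈ Ideal.span S * J') (hO : ∀ a ∈ Ideal.span S * J',
      algebraMap A (FractionRing A) a / algebraMap A (FractionRing A) b ∈ O) :
    ∃ x ∈ S, x ≠ 0 ∧ ∀ a ∈ Ideal.span S,
      algebraMap A (FractionRing A) a / algebraMap A (FractionRing A) x ∈ O := by
  have hb' : algebraMap A (FractionRing A) b ≠ 0 := fun h =>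
    hb0 (IsFractionRing.injective A (FractionRing A) (by rw [h, map_zero]))
  have hbv : V.valuation (algebraMap A (FractionRing A) b) ≠ 0 := by
    rwa [Ne, Valuation.zero_iff]
  by_cases hex : ∃ x ∈ S, ∃ y ∈ J', V.valuation (algebraMap A (FractionRing A) b) ≤
      V.valuation (algebraMap A (FractionRing A) (x * y))
  · obtain ⟨x, hx, y, hy, hxy⟩ := hex
    have hxy0 : x * y ≠ 0 := by
      intro h
      rw [h, map_zero, map_zero, le_zero_iff] at hxy
      exact hbv hxy
    have hx0 : x ≠ 0 := left_ne_zero_of_mul hxy0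
    have hy0 : y ≠ 0 := right_ne_zero_of_mul hxy0
    have hx' : algebraMap A (FractionRing A) x ≠ 0 := fun h =>
      hx0 (IsFractionRing.injective A (FractionRing A) (by rw [h, map_zero]))
    have hy' : algebraMap A (FractionRing A) y ≠ 0 := fun h =>
      hy0 (IsFractionRing.injective A (FractionRing A) (by rw [h, map_zero]))
    have h1 : algebraMap A (FractionRing A) (x * y) / algebraMap A (FractionRing A) b ∈ O :=
      hO _ (Ideal.mul_mem_mul (Ideal.subset_span hx) hy)
    have h2 : V.valuation (algebraMap A (FractionRing A) (x * y) /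
        algebraMap A (FractionRing A) b) = 1 := by
      apply le_antisymm
      · exact (V.valuation_le_one_iff _).2 (hOV _ h1)
      · rw [map_div₀]
        exact (one_le_div₀ (zero_lt_iff.2 hbv)).2 hxy
    have h3 := hOu _ h1 h2
    refine ⟨x, hx, hx0, fun a ha => ?_⟩
    have h4 : algebraMap A (FractionRing A) (a * y) / algebraMap A (FractionRing A) b ∈ O :=
      hO _ (Ideal.mul_mem_mul ha hy)
    have h5 := O.mul_mem h4 h3
    convert h5 using 1
    rw [inv_div, map_mul, map_mul]
    field_simp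
  · exfalso
    push Not at hex
    let L : Ideal A :=
      { carrier := {a | V.valuation (algebraMap A (FractionRing A) a) <
          V.valuation (algebraMap A (FractionRing A) b)}
        add_mem' := by
          intro x y hx hy
          change V.valuation (algebraMap A (FractionRing A) (x + y)) < _
          rw [map_add]
          exact (V.valuation.map_add _ _).trans_lt (max_lt hx hy)
        zero_mem' := by
          change V.valuation (algebraMap A (FractionRing A) 0) < _
          rw [map_zero, map_zero]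
          exact zero_lt_iff.2 hbv
        smul_mem' := by
          intro c x hx
          change V.valuation (algebraMap A (FractionRing A) (c * x)) < _
          rw [map_mul, map_mul]
          have hc : V.valuation (algebraMap A (FractionRing A) c) ≤ 1 :=
            (V.valuation_le_one_iff _).2 (hOV _ (O.algebraMap_mem c))
          exact (mul_le_of_le_one_left' hc).trans_lt hx }
    have hle : Ideal.span S * J' ≤ L := by
      rw [Ideal.mul_le]
      intro r hr s hs
      refine Submodule.span_induction (p := fun r _ => r * s ∈ L) ?_ ?_ ?_ ?_ hr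
      · intro x hx
        exact hex x hx s hs
      · rw [zero_mul]
        exact L.zero_mem
      · intro x y _ _ hx hy
        rw [add_mul]
        exact L.add_mem hx hy
      · intro a x _ hx
        rw [smul_eq_mul, mul_assoc]
        exact L.mul_mem_left _ hx
    have hlt : V.valuation (algebraMap A (FractionRing A) b) <
        V.valuation (algebraMap A (FractionRing A) b) := hle hb
    exact lt_irrefl _ hlt

theorem mem_orbI (G : Subgroup (A ≃ₐ[k] A)) (c : A) : c ∈ orbI G c :=
  Ideal.subset_span ⟨1, G.one_mem, rfl⟩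

theorem orbI_stab (G : Subgroup (A ≃ₐ[k] A)) (c : A) {g : A ≃ₐ[k] A} (hg : g ∈ G) :
    orbI G c ≤ (orbI G c).comap g := by
  rw [orbI, Ideal.span_le]
  rintro x ⟨h, hh, rfl⟩
  exact Ideal.subset_span ⟨g * h, G.mul_mem hg hh, rfl⟩

theorem stab_sup {I J : Ideal A} {g : A ≃ₐ[k] A} (hI : I ≤ I.comap g) (hJ : J ≤ J.comap g) :
    I ⊔ J ≤ (I ⊔ J).comap g :=
  sup_le (hI.trans (Ideal.comap_mono le_sup_left)) (hJ.trans (Ideal.comap_mono le_sup_right))

theorem stab_mul {I J : Ideal A} {g : A ≃ₐ[k] A} (hI : I ≤ I.comap g) (hJ : J ≤ J.comap g) :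
    I * J ≤ (I * J).comap g := by
  rw [Ideal.mul_le]
  intro r hr s hs
  rw [Ideal.mem_comap, map_mul]
  exact Ideal.mul_mem_mul (hI hr) (hJ hs)

theorem stab_prod {α : Type} (s : Finset α) (f : α → Ideal A) {g : A ≃ₐ[k] A}
    (hf : ∀ i ∈ s, f i ≤ (f i).comap g) : ∏ i ∈ s, f i ≤ (∏ i ∈ s, f i).comap g := by
  classical
  induction s using Finset.induction_on with
  | empty =>
    rw [Finset.prod_empty, Ideal.one_eq_top, Ideal.comap_top]
  | insert i s hi ih =>
    rw [Finset.prod_insert hi]
    exact stab_mul (hf i (Finset.mem_insert_self _ _))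
      (ih fun j hj => hf j (Finset.mem_insert_of_mem hj))

/-- The ideal for one quotient. -/
def one (G : Subgroup (A ≃ₐ[k] A)) (c d : A) : Ideal A :=
  orbI G c * (orbI G d * (orbI G c ⊔ orbI G d))

theorem one_stab (G : Subgroup (A ≃ₐ[k] A)) (c d : A) {g : A ≃ₐ[k] A} (hg : g ∈ G) :
    one G c d ≤ (one G c d).comap g :=
  stab_mul (orbI_stab G c hg) (stab_mul (orbI_stab G d hg)
    (stab_sup (orbI_stab G c hg) (orbI_stab G d hg)))

theorem orbI_ne (G : Subgroup (A ≃ₐ[k] A)) {c : A} (hc : c ≠ 0) : orbI G c ≠ ⊥ := by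
  intro h
  have := mem_orbI G c
  rw [h, Ideal.mem_bot] at this
  exact hc this

theorem one_ne (G : Subgroup (A ≃ₐ[k] A)) {c d : A} (hc : c ≠ 0) (hd : d ≠ 0) :
    one G c d ≠ ⊥ := by
  have h1 := orbI_ne G hc
  have h2 := orbI_ne G hd
  have h3 : orbI G c ⊔ orbI G d ≠ ⊥ := fun h => h1 (eq_bot_iff.2 (h ▸ le_sup_left))
  exact mul_ne_zero h1 (mul_ne_zero h2 h3)

/-- The orbit of `c` differs by units of `O` from `c`. -/
theorem unit_orb {G : Subgroup (A ≃ₐ[k] A)} (hV : IsInvariant G V)
    (hI : ∀ g ∈ G, ∀ a ∈ I, g a ∈ I) {b : A} (hb : b ∈ I) (hb0 : b ≠ 0)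
    (hmin : ∀ a ∈ I, V.valuation (algebraMap A (FractionRing A) a) ≤
      V.valuation (algebraMap A (FractionRing A) b)) {c : A} {J' : Ideal A}
    (hJ : I = orbI G c * J') {g : A ≃ₐ[k] A} (hg : g ∈ G) :
    algebraMap A (FractionRing A) (g c) / algebraMap A (FractionRing A) c ∈
      centerRing V (chart I b) := by
  have hOV : ∀ z ∈ centerRing V (chart I b), z ∈ V := fun z hz =>
    center_le _ (chart_le hV.1 hb0 hmin) hz
  have hOu : ∀ z ∈ centerRing V (chart I b), V.valuation z = 1 → z⁻¹ ∈ centerRing V (chart I b) :=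
    fun z hz h => center_inv _ hz h
  have hO : ∀ a ∈ I, algebraMap A (FractionRing A) a / algebraMap A (FractionRing A) b ∈
      centerRing V (chart I b) := fun a ha =>
    chart_le_center _ (Algebra.subset_adjoin ⟨a, ha, rfl⟩)
  have hJ2 : I = Ideal.span {x | ∃ g ∈ G, x = g c} * J' := hJ
  obtain ⟨x, ⟨h, hh, rfl⟩, hx0, hx⟩ := exists_gen (J' := J') hOV hOu hb0
    (by rw [← hJ2]; exact hb) (by rw [← hJ2]; exact hO)
  have h1 := hx (h (g c)) (Ideal.subset_span ⟨h * g, G.mul_mem hh hg, rfl⟩)
  have h2 := stab hV hI hb hb0 (G.inv_mem hh) h1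
  rw [map_div₀, lft_algebraMap, lft_algebraMap] at h2
  have e1 : (h⁻¹ : A ≃ₐ[k] A) (h (g c)) = g c := AlgEquiv.symm_apply_apply h _
  have e2 : (h⁻¹ : A ≃ₐ[k] A) (h c) = c := AlgEquiv.symm_apply_apply h _
  rwa [e1, e2] at h2

/-- The claim. -/
theorem mem_center {G : Subgroup (A ≃ₐ[k] A)} (hV : IsInvariant G V)
    (hI : ∀ g ∈ G, ∀ a ∈ I, g a ∈ I) {b : A} (hb : b ∈ I) (hb0 : b ≠ 0)
    (hmin : ∀ a ∈ I, V.valuation (algebraMap A (FractionRing A) a) ≤
      V.valuation (algebraMap A (FractionRing A) b)) {c d : A} (hc : c ≠ 0) (hd : d ≠ 0)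
    (hcd : algebraMap A (FractionRing A) c / algebraMap A (FractionRing A) d ∈ V)
    (hdvd : one G c d ∣ I) :
    algebraMap A (FractionRing A) c / algebraMap A (FractionRing A) d ∈
      centerRing V (chart I b) := by
  obtain ⟨J, hJ⟩ := hdvd
  have hOV : ∀ z ∈ centerRing V (chart I b), z ∈ V := fun z hz =>
    center_le _ (chart_le hV.1 hb0 hmin) hz
  have hOu : ∀ z ∈ centerRing V (chart I b), V.valuation z = 1 → z⁻¹ ∈ centerRing V (chart I b) :=
    fun z hz h => center_inv _ hz h
  have hO : ∀ a ∈ I, algebraMap A (FractionRing A) a / algebraMap A (FractionRing A) b ∈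
      centerRing V (chart I b) := fun a ha =>
    chart_le_center _ (Algebra.subset_adjoin ⟨a, ha, rfl⟩)
  have hc' : algebraMap A (FractionRing A) c ≠ 0 := fun h =>
    hc (IsFractionRing.injective A (FractionRing A) (by rw [h, map_zero]))
  have hd' : algebraMap A (FractionRing A) d ≠ 0 := fun h =>
    hd (IsFractionRing.injective A (FractionRing A) (by rw [h, map_zero]))
  have hcu : ∀ g ∈ G, algebraMap A (FractionRing A) (g c) / algebraMap A (FractionRing A) c ∈
      centerRing V (chart I b) := fun g hg =>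
    unit_orb hV hI hb hb0 hmin (J' := orbI G d * (orbI G c ⊔ orbI G d) * J)
      (by rw [hJ, one]; ring) hg
  have hdu : ∀ g ∈ G, algebraMap A (FractionRing A) (g d) / algebraMap A (FractionRing A) d ∈
      centerRing V (chart I b) := fun g hg =>
    unit_orb hV hI hb hb0 hmin (J' := orbI G c * (orbI G c ⊔ orbI G d) * J)
      (by rw [hJ, one]; ring) hg
  have hsp : orbI G c ⊔ orbI G d =
      Ideal.span ({x | ∃ g ∈ G, x = g c} ∪ {x | ∃ g ∈ G, x = g d}) := by
    rw [Ideal.span_union, orbI, orbI]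
  have hJ2 : I = Ideal.span ({x | ∃ g ∈ G, x = g c} ∪ {x | ∃ g ∈ G, x = g d}) *
      (orbI G c * orbI G d * J) := by
    rw [hJ, one, hsp]
    ring
  obtain ⟨x, hxS, hx0, hx⟩ := exists_gen (J' := orbI G c * orbI G d * J) hOV hOu hb0
    (by rw [← hJ2]; exact hb) (by rw [← hJ2]; exact hO)
  rw [← hsp] at hx
  rcases hxS with ⟨g, hg, rfl⟩ | ⟨g, hg, rfl⟩
  · -- `x = g c`
    have h1 : algebraMap A (FractionRing A) d / algebraMap A (FractionRing A) (g c) ∈
      centerRing V (chart I b) := hx d (Ideal.mem_sup_right (mem_orbI G d))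
    have h2 := Subalgebra.mul_mem _ h1 (hcu g hg)
    have hgc' : algebraMap A (FractionRing A) (g c) ≠ 0 := fun h =>
      hx0 (IsFractionRing.injective A (FractionRing A) (by rw [h, map_zero]))
    have h3 : algebraMap A (FractionRing A) d / algebraMap A (FractionRing A) c ∈
        centerRing V (chart I b) := by
      convert h2 using 1
      field_simp
    have h4 : V.valuation (algebraMap A (FractionRing A) d / algebraMap A (FractionRing A) c) =
        1 := by
      have h5 := (V.valuation_le_one_iff _).2 (hOV _ h3)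
      have h6 := (V.valuation_le_one_iff _).2 hcd
      apply le_antisymm h5
      rw [map_div₀] at h5 h6 ⊢
      have hvc : V.valuation (algebraMap A (FractionRing A) c) ≠ 0 := by
        rwa [Ne, Valuation.zero_iff]
      have hvd : V.valuation (algebraMap A (FractionRing A) d) ≠ 0 := by
        rwa [Ne, Valuation.zero_iff]
      rw [div_le_one₀ (zero_lt_iff.2 hvd)] at h6
      exact (one_le_div₀ (zero_lt_iff.2 hvc)).2 h6
    have h7 := hOu _ h3 h4
    rwa [inv_div] at h7
  · -- `x = g d`
    have h1 : algebraMap A (FractionRing A) c / algebraMap A (FractionRing A) (g d) ∈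
      centerRing V (chart I b) := hx c (Ideal.mem_sup_left (mem_orbI G c))
    have h2 := Subalgebra.mul_mem _ h1 (hdu g hg)
    have hgd' : algebraMap A (FractionRing A) (g d) ≠ 0 := fun h =>
      hx0 (IsFractionRing.injective A (FractionRing A) (by rw [h, map_zero]))
    convert h2 using 1
    field_simp

end FH3

open FH3 in
/-- row FH3 -/
theorem finC_of_centers [Algebra.FiniteType k A] (G : Subgroup (A ≃ₐ[k] A))
    (hF : ∀ I : Ideal A, I ≠ ⊥ → (∀ g ∈ G, ∀ a ∈ I, g a ∈ I) → (invariantCenters G I).Finite) :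
    FinC (liftG G) (rangeA k A) := by
  classical
  intro B hB hAB
  have hN : IsNoetherianRing A := Algebra.FiniteType.isNoetherianRing k A
  obtain ⟨T, hT⟩ := hB
  -- the quotients
  have hfrac : ∀ z : FractionRing A, ∃ c d : A, z ≠ 0 → c ≠ 0 ∧ d ≠ 0 ∧
      z = algebraMap A (FractionRing A) c / algebraMap A (FractionRing A) d := by
    intro z
    obtain ⟨c, d, hd, rfl⟩ := IsFractionRing.div_surjective (A := A) z
    refine ⟨c, d, fun hz => ⟨?_, nonZeroDivisors.ne_zero hd, rfl⟩⟩
    rintro rfl
    rw [map_zero, zero_div] at hz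
    exact hz rfl
  choose c d hcd using hfrac
  let I : Ideal A := ∏ z ∈ T.filter (· ≠ 0), one G (c z) (d z)
  have hI0 : I ≠ ⊥ := by
    change ∏ z ∈ T.filter (· ≠ 0), one G (c z) (d z) ≠ 0
    rw [Finset.prod_ne_zero_iff]
    intro z hz
    obtain ⟨h1, h2, -⟩ := hcd z (Finset.mem_filter.1 hz).2
    exact one_ne G h1 h2
  have hIs : ∀ g ∈ G, ∀ a ∈ I, g a ∈ I := by
    intro g hg a ha
    exact (stab_prod (T.filter (· ≠ 0)) (fun z => one G (c z) (d z)) (g := g)
      (fun z _ => one_stab G _ _ hg)) ha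
  refine (((hF I hI0 hIs).image fun O => {z : FractionRing A | z ∈ B ∧ (z = 0 ∨ z⁻¹ ∉ O)})).subset ?_
  rintro P ⟨V, hV, hBV, rfl⟩
  have hVi := (inv_iff G V).1 hV
  obtain ⟨s, hs, b, hb, hb0, hmin⟩ := LU2G.C9e.exists_least V hVi.1 I hI0
  have hbI : b ∈ I := by rw [← hs]; exact Ideal.subset_span hb
  refine ⟨centerRing V (chart I b), ⟨V, hVi, b, hbI, hb0, hmin, rfl⟩, ?_⟩
  -- `B ≤ O`
  have hBO : ∀ z ∈ B, z ∈ centerRing V (chart I b) := by
    intro z hz
    rw [← hT] at hz
    refine Algebra.adjoin_induction ?_ ?_ (fun x y _ _ hx hy => Subalgebra.add_mem _ hx hy)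
      (fun x y _ _ hx hy => Subalgebra.mul_mem _ hx hy) hz
    · intro x hx
      by_cases hx0 : x = 0
      · rw [hx0]
        exact Subalgebra.zero_mem _
      · obtain ⟨h1, h2, h3⟩ := hcd x hx0
        have hxB : x ∈ V := by
          apply hBV
          rw [← hT]
          exact Algebra.subset_adjoin hx
        rw [h3]
        refine mem_center hVi hIs hbI hb0 hmin h1 h2 (h3 ▸ hxB) ?_
        exact Finset.dvd_prod_of_mem _ (Finset.mem_filter.2 ⟨hx, hx0⟩)
    · intro r
      rw [IsScalarTower.algebraMap_apply k A (FractionRing A)]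
      exact Subalgebra.algebraMap_mem _ _
  ext z
  simp only [Set.mem_ofPred_eq]
  constructor
  · rintro ⟨hz, hz'⟩
    refine ⟨hz, ?_⟩
    rcases hz' with rfl | hz'
    · rw [map_zero]
      exact zero_lt_one
    · refine lt_of_le_of_ne ((V.valuation_le_one_iff _).2 (hBV z hz)) fun h => ?_
      exact hz' (center_inv _ (hBO z hz) h)
  · rintro ⟨hz, hz'⟩
    refine ⟨hz, ?_⟩
    by_cases hz0 : z = 0
    · exact Or.inl hz0
    · refine Or.inr fun h => ?_
      have h1 := (V.valuation_le_one_iff _).2 (center_le _ (chart_le hVi.1 hb0 hmin) h)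
      rw [map_inv₀] at h1
      have h2 : V.valuation z ≠ 0 := by rwa [Ne, Valuation.zero_iff]
      rw [inv_le_one₀ (zero_lt_iff.2 h2)] at h1
      exact absurd hz' (not_lt.2 h1)

end Pool.Agent.MP_b525bf_ag_E
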