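import Pool.Agent.Lib.MP_b525bf_ag_E.Defs
import Pool.Agent.Lib.LU2G.Smooth

/-!
# Theorem E, row SB1
Recipe. Choose a counterexample (`S`, `c`) with `S` of minimal cardinality (strong induction on the
cardinality; `S.card ≥ 2` because one term has value one). Translate and divide: fix `m₀ ∈ S`,
replace `c m * x^m` by `(c m / c m₀) * x^(m - m₀)` (all values stay one): so `0 ∈ S`, `c 0 = 1`. Let
`g ∈ G`. `g (x^m) = u * x^m` with `u ∈ R` a unit of `R := locV V B` (`h.par`, `g` preserves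
the valuation of `W`; `Dom.inv`). Put `c' m = g (c m) * u_m` (unit of `R`, `h.stab`), `c' 0 = 1`:
`∑ c' m x^m = g (∑ c m x^m)` has value `< 1`. Subtract: `∑_{m ≠ 0} (c m - c' m) x^m` has value
`< 1`. The terms with `W.valuation (c m - c' m) < 1` can be dropped; if some `c m - c' m` has value
one, the remaining sum is a smaller counterexample, and (induction hypothesis) we get the conclusion
from it. Otherwise for ALL `g` and `m` the difference `c m - c' m` has value `< 1`: fix
`m ∈ S`, `m ≠ 0`; `c₀ := c m`, `g (c₀ x^m) = c' m x^m = c₀ x^m (1 + μ)`,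
`μ = (c' m - c m) / c m ∈ R`, value `< 1`. (Do the induction inside the statement: either the
smaller set gives the conclusion, or this case.)
-/

set_option autoImplicit false
set_option linter.unusedVariables false

namespace Pool.Agent.MP_b525bf_ag_E

open Pool.Agent.LU2 Pool.Agent.MP_b525bf_ag Pool.Agent.MP_b525bf_ag_W

variable {k K : Type} [Field k] [Field K] [Algebra k K] {G : Subgroup (K ≃ₐ[k] K)}
  {A : Subalgebra k K}

variable {V : ValuationSubring K} {B : Subalgebra k K} {n : ℕ} {x z : Fin n → K}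


private theorem sb1_mon_add (hx : ∀ i, x i ≠ 0) (a b : Fin n → ℤ) :
    mon x (a + b) = mon x a * mon x b := by
  unfold mon
  rw [← Finset.prod_mul_distrib]
  exact Finset.prod_congr rfl fun i _ => zpow_add₀ (hx i) _ _

private theorem sb1_mon_ne (hx : ∀ i, x i ≠ 0) (a : Fin n → ℤ) : mon x a ≠ 0 :=
  Finset.prod_ne_zero_iff.2 fun i _ => zpow_ne_zero _ (hx i)

private theorem sb1_zpow {W : ValuationSubring K} {R : Subalgebra k K} (hD : Dom W R) {a : K}
    (ha : a ∈ R) (h1 : W.valuation a = 1) (e : ℤ) : a ^ e ∈ R ∧ W.valuation (a ^ e) = 1 := by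
  refine ⟨?_, by rw [map_zpow₀, h1, one_zpow]⟩
  rcases Int.eq_nat_or_neg e with ⟨m, rfl | rfl⟩
  · rw [zpow_natCast]; exact R.pow_mem ha m
  · rw [zpow_neg, zpow_natCast, ← inv_pow]; exact R.pow_mem (hD.inv a ha h1) m

/-- the action on monomials -/
private theorem sb1_act (h : ChartAt G A V B x) {W : ValuationSubring K} (hW : Inv G A W)
    (hD : Dom W (locV V B)) {g : K ≃ₐ[k] K} (hg : g ∈ G) (m : Fin n → ℤ) :
    ∃ u ∈ locV V B, W.valuation u = 1 ∧ g (mon x m) = u * mon x m := by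
  refine ⟨∏ i, (g (x i) / x i) ^ m i, ?_, ?_, ?_⟩
  · refine Subalgebra.prod_mem _ fun i _ => (sb1_zpow hD (h.par g hg i) ?_ _).1
    rw [map_div₀, hW.inv g hg, div_self]
    exact (Valuation.ne_zero_iff _).2 (h.ne i)
  · rw [map_prod]
    refine Finset.prod_eq_one fun i _ => (sb1_zpow hD (h.par g hg i) ?_ _).2
    rw [map_div₀, hW.inv g hg, div_self]
    exact (Valuation.ne_zero_iff _).2 (h.ne i)
  · unfold mon
    rw [map_prod, ← Finset.prod_mul_distrib]
    refine Finset.prod_congr rfl fun i _ => ?_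
    rw [map_zpow₀, ← mul_zpow, div_mul_cancel₀ _ (h.ne i)]

theorem ChartAt.exists_theta (h : ChartAt G A V B x) {W : ValuationSubring K} (hW : Inv G A W)
    (hD : Dom W (locV V B)) (S : Finset (Fin n → ℤ)) (hS : S.Nonempty)
    (hval : ∀ m ∈ S, W.valuation (mon x m) = 1) (c : (Fin n → ℤ) → K)
    (hc : ∀ m ∈ S, c m ∈ locV V B) (hc1 : ∀ m ∈ S, W.valuation (c m) = 1)
    (hlt : W.valuation (∑ m ∈ S, c m * mon x m) < 1) :
    ∃ (m : Fin n → ℤ) (c₀ : K), m ≠ 0 ∧ W.valuation (mon x m) = 1 ∧ c₀ ∈ locV V B ∧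
      W.valuation c₀ = 1 ∧ ∀ g ∈ G, ∃ μ ∈ locV V B, W.valuation μ < 1 ∧
        g (c₀ * mon x m) = c₀ * mon x m * (1 + μ) := by
  classical
  induction hN : S.card using Nat.strong_induction_on generalizing S c with
  | _ N ih =>
  subst hN
  set R := locV V B with hR
  obtain ⟨m₀, hm₀⟩ := hS
  have hne : ∀ m ∈ S, c m ≠ 0 := by
    intro m hm h0
    have := hc1 m hm
    rw [h0, map_zero] at this
    exact zero_ne_one this
  -- a second exponent
  obtain ⟨m₁, hm₁, h10⟩ : ∃ m₁ ∈ S, m₁ ≠ m₀ := by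
    by_contra hcon
    push Not at hcon
    have hS1 : S = {m₀} := Finset.eq_singleton_iff_unique_mem.2 ⟨hm₀, hcon⟩
    rw [hS1, Finset.sum_singleton, map_mul, hc1 m₀ hm₀, hval m₀ hm₀, one_mul] at hlt
    exact lt_irrefl _ hlt
  -- the multipliers
  have hmul : ∀ g ∈ G, ∃ (u : (Fin n → ℤ) → K), (∀ m, u m ∈ R) ∧
      (∀ m, W.valuation (u m) = 1) ∧ ∀ m, g (mon x m) = u m * mon x m := by
    intro g hg
    choose u h1 h2 h3 using fun m => sb1_act h hW hD hg m
    exact ⟨u, h1, h2, h3⟩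
  by_cases hall : ∀ g ∈ G, ∀ u : (Fin n → ℤ) → K, (∀ m, u m ∈ R) →
      (∀ m, W.valuation (u m) = 1) → (∀ m, g (mon x m) = u m * mon x m) →
      W.valuation (g (c m₀) * u m₀ / c m₀ * c m₁ - g (c m₁) * u m₁) < 1
  · refine ⟨m₁ - m₀, c m₁ / c m₀, sub_ne_zero.2 h10, ?_, ?_, ?_, fun g hg => ?_⟩
    · have e : mon x (m₁ - m₀) = mon x m₁ * (mon x m₀)⁻¹ := by
        rw [eq_mul_inv_iff_mul_eq₀ (sb1_mon_ne h.ne _), ← sb1_mon_add h.ne]
        simp
      rw [e, map_mul, map_inv₀, hval m₁ hm₁, hval m₀ hm₀, inv_one, one_mul]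
    · rw [div_eq_mul_inv]
      exact R.mul_mem (hc m₁ hm₁) (hD.inv _ (hc m₀ hm₀) (hc1 m₀ hm₀))
    · rw [map_div₀, hc1 m₁ hm₁, hc1 m₀ hm₀, div_one]
    · obtain ⟨u, hu1, hu2, hu3⟩ := hmul g hg
      have hd := hall g hg u hu1 hu2 hu3
      set lam := g (c m₀) * u m₀ / c m₀ with hlam
      set δ := lam * c m₁ - g (c m₁) * u m₁ with hδ
      have hgc0 : W.valuation (g (c m₀)) = 1 := by rw [hW.inv g hg, hc1 m₀ hm₀]
      have hgc1 : W.valuation (g (c m₁)) = 1 := by rw [hW.inv g hg, hc1 m₁ hm₁]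
      have hlam1 : W.valuation lam = 1 := by
        rw [hlam, map_div₀, map_mul, hgc0, hu2, hc1 m₀ hm₀, mul_one, div_one]
      have hlamR : lam ∈ R := by
        rw [hlam, div_eq_mul_inv]
        exact R.mul_mem (R.mul_mem (h.stab g hg _ (hc m₀ hm₀)) (hu1 _))
          (hD.inv _ (hc m₀ hm₀) (hc1 m₀ hm₀))
      have hlc1 : W.valuation (lam * c m₁) = 1 := by rw [map_mul, hlam1, hc1 m₁ hm₁, one_mul]
      have hδR : δ ∈ R := R.sub_mem (R.mul_mem hlamR (hc m₁ hm₁))
        (R.mul_mem (h.stab g hg _ (hc m₁ hm₁)) (hu1 _))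
      have hlam0 : lam ≠ 0 := by
        intro h0
        rw [h0, map_zero] at hlam1
        exact zero_ne_one hlam1
      have hu0 : ∀ m, u m ≠ 0 := by
        intro m h0
        have := hu2 m
        rw [h0, map_zero] at this
        exact zero_ne_one this
      have hc0 := hne m₀ hm₀
      have hc1' := hne m₁ hm₁
      refine ⟨-(δ * (lam * c m₁)⁻¹), R.neg_mem (R.mul_mem hδR (hD.inv _
        (R.mul_mem hlamR (hc m₁ hm₁)) hlc1)), ?_, ?_⟩
      · rw [Valuation.map_neg, map_mul, map_inv₀, hlc1, inv_one, mul_one]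
        exact hd
      · have e : mon x (m₁ - m₀) = mon x m₁ / mon x m₀ := by
          rw [eq_div_iff (sb1_mon_ne h.ne _), ← sb1_mon_add h.ne]
          simp
        have hx0 := sb1_mon_ne h.ne m₀
        have hx1 := sb1_mon_ne h.ne m₁
        have hgc0' : g (c m₀) ≠ 0 := by
          intro h0
          rw [h0, map_zero] at hgc0
          exact zero_ne_one hgc0
        have e2 : 1 + -(δ * (lam * c m₁)⁻¹) = (g (c m₁) * u m₁) / (lam * c m₁) := by
          rw [hδ]
          field_simp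
          ring
        rw [e2, e, map_mul, map_div₀, map_div₀, hu3, hu3]
        have e3 : lam * c m₀ = g (c m₀) * u m₀ := by
          rw [hlam, div_mul_cancel₀ _ hc0]
        have hu00 := hu0 m₀
        have e4 : g (c m₁) / g (c m₀) * (u m₁ * mon x m₁ / (u m₀ * mon x m₀)) =
            g (c m₁) * u m₁ * mon x m₁ / ((g (c m₀) * u m₀) * mon x m₀) := by
          field_simp
        rw [e4, ← e3]
        field_simp
  · push Not at hall
    obtain ⟨g, hg, u, hu1, hu2, hu3, hge⟩ := hall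
    set lam := g (c m₀) * u m₀ / c m₀ with hlam
    have hgc0 : W.valuation (g (c m₀)) = 1 := by rw [hW.inv g hg, hc1 m₀ hm₀]
    have hlamR : lam ∈ R := by
      rw [hlam, div_eq_mul_inv]
      exact R.mul_mem (R.mul_mem (h.stab g hg _ (hc m₀ hm₀)) (hu1 _))
        (hD.inv _ (hc m₀ hm₀) (hc1 m₀ hm₀))
    have hlam1 : W.valuation lam = 1 := by
      rw [hlam, map_div₀, map_mul, hgc0, hu2, hc1 m₀ hm₀, mul_one, div_one]
    let d : (Fin n → ℤ) → K := fun m => lam * c m - g (c m) * u m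
    have hdR : ∀ m ∈ S, d m ∈ R := fun m hm => R.sub_mem (R.mul_mem hlamR (hc m hm))
      (R.mul_mem (h.stab g hg _ (hc m hm)) (hu1 _))
    have hd0 : d m₀ = 0 := by
      simp only [d]
      rw [hlam, div_mul_cancel₀ _ (hne m₀ hm₀), sub_self]
    have hdle : ∀ m ∈ S, W.valuation (d m) ≤ 1 := fun m hm =>
      (ValuationSubring.valuation_le_one_iff _ _).2 (hD.le _ (hdR m hm))
    have hsum : W.valuation (∑ m ∈ S, d m * mon x m) < 1 := by
      have e : ∑ m ∈ S, d m * mon x m = lam * (∑ m ∈ S, c m * mon x m) -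
          g (∑ m ∈ S, c m * mon x m) := by
        rw [map_sum, Finset.mul_sum, ← Finset.sum_sub_distrib]
        refine Finset.sum_congr rfl fun m _ => ?_
        rw [map_mul, hu3]
        simp only [d]
        ring
      rw [e]
      refine (Valuation.map_sub_lt _ ?_ ?_)
      · rw [map_mul, hlam1, one_mul]
        exact hlt
      · rw [hW.inv g hg]
        exact hlt
    let S' := S.filter fun m => W.valuation (d m) = 1
    have hS' : S'.card < S.card := by
      refine Finset.card_lt_card (Finset.filter_ssubset.2 ⟨m₀, hm₀, ?_⟩)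
      rw [hd0, map_zero]
      exact zero_ne_one
    have hm₁' : m₁ ∈ S' := Finset.mem_filter.2 ⟨hm₁, le_antisymm (hdle m₁ hm₁) hge⟩
    refine ih S'.card hS' S' ⟨m₁, hm₁'⟩ (fun m hm => hval m (Finset.mem_filter.1 hm).1) d
      (fun m hm => hdR m (Finset.mem_filter.1 hm).1) (fun m hm => (Finset.mem_filter.1 hm).2)
      ?_ rfl
    have e : ∑ m ∈ S', d m * mon x m = ∑ m ∈ S, d m * mon x m -
        ∑ m ∈ S.filter (fun m => ¬ W.valuation (d m) = 1), d m * mon x m := by
      rw [← Finset.sum_filter_add_sum_filter_not S (fun m => W.valuation (d m) = 1)]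
      ring
    rw [e]
    refine Valuation.map_sub_lt _ hsum (Valuation.map_sum_lt _ one_ne_zero fun m hm => ?_)
    rw [Finset.mem_filter] at hm
    rw [map_mul, hval m hm.1, mul_one]
    exact lt_of_le_of_ne (hdle m hm.1) hm.2

end Pool.Agent.MP_b525bf_ag_E
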