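import Pool.Agent.Lib.MP_b525bf_ag_E.X1

/-!
# Theorem E, row X2
Recipe. Finitely many minimal primes over `I` in the Noetherian ring `S`; at least one; `G` permutes
them (`g` induces an automorphism of `S`; `h.idx`: stabilisers of finite index are everything), so a
minimal prime `P ⊇ I` is `G`-stable. `O := {a / b : a, b ∈ S, b ∉ P}` is a `G`-stable local subring
of `K` that contains `A`; apply row X1 (`exists_dom`). Elements of `P` are nonunits of `O`, so their
value is `< 1` (`Dom.inv`).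
-/

set_option autoImplicit false
set_option linter.unusedVariables false

namespace Pool.Agent.MP_b525bf_ag_E

open Pool.Agent.LU2 Pool.Agent.MP_b525bf_ag Pool.Agent.MP_b525bf_ag_W

variable {k K : Type} [Field k] [Field K] [Algebra k K] {G : Subgroup (K ≃ₐ[k] K)}
  {A : Subalgebra k K}

namespace X2h

/-- The local ring of `S` at the prime `P`. -/
def lo (S : Subalgebra k K) (P : Ideal S) [hP : P.IsPrime] : Subalgebra k K where
  carrier := {z | ∃ a b : S, b ∉ P ∧ z = (a : K) / b}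
  mul_mem' := by
    rintro _ _ ⟨a, b, hb, rfl⟩ ⟨c, d, hd, rfl⟩
    refine ⟨a * c, b * d, fun h => (hP.mem_or_mem h).elim hb hd, ?_⟩
    push_cast
    rw [div_mul_div_comm]
  add_mem' := by
    rintro _ _ ⟨a, b, hb, rfl⟩ ⟨c, d, hd, rfl⟩
    have hb0 : (b : K) ≠ 0 := by
      intro h
      apply hb
      rw [show b = 0 from Subtype.ext h]
      exact P.zero_mem
    have hd0 : (d : K) ≠ 0 := by
      intro h
      apply hd
      rw [show d = 0 from Subtype.ext h]
      exact P.zero_mem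
    refine ⟨a * d + b * c, b * d, fun h => (hP.mem_or_mem h).elim hb hd, ?_⟩
    push_cast
    rw [div_add_div _ _ hb0 hd0]
  algebraMap_mem' := by
    intro r
    refine ⟨algebraMap k S r, 1, fun h => hP.ne_top ((Ideal.eq_top_iff_one P).mpr h), ?_⟩
    simp

theorem le_lo (S : Subalgebra k K) (P : Ideal S) [hP : P.IsPrime] : S ≤ lo S P := by
  intro z hz
  refine ⟨⟨z, hz⟩, 1, fun h => hP.ne_top ((Ideal.eq_top_iff_one P).mpr h), ?_⟩
  simp

end X2h

theorem exists_inv_ideal (h : Hyp G A) (S : Subalgebra k K) (hAS : A ≤ S)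
    (hst : ∀ g ∈ G, ∀ z ∈ S, g z ∈ S) (hN : IsNoetherianRing S) (I : Ideal S) (hI : I ≠ ⊤)
    (hIst : ∀ g ∈ G, ∀ (s : K) (hs : s ∈ S) (hgs : g s ∈ S), (⟨s, hs⟩ : S) ∈ I →
      (⟨g s, hgs⟩ : S) ∈ I) :
    ∃ W : ValuationSubring K, Inv G A W ∧ (∀ s ∈ S, s ∈ W) ∧
      ∀ s ∈ I, W.valuation (s : K) < 1 := by
  have hIst' : ∀ g : G, I ≤ I.comap (X1h.act S hst g) := by
    rintro g ⟨s, hs⟩ hsI
    exact hIst g.1 g.2 s hs (hst g.1 g.2 s hs) hsI
  obtain ⟨P, hP⟩ : I.minimalPrimes.Nonempty := by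
    obtain ⟨M, hM, hIM⟩ := Ideal.exists_le_maximal I hI
    obtain ⟨P, hP, _⟩ := Ideal.exists_minimalPrimes_le (J := M) (I := I) hIM
    exact ⟨P, hP⟩
  have hPp : P.IsPrime := hP.1.1
  have hPst : ∀ g : G, P ≤ P.comap (X1h.act S hst g) := fun g =>
    X1h.minPrime_stable h.idx (X1h.act S hst) I hIst'
      (Ideal.finite_minimalPrimes_of_isNoetherianRing S I) hP g
  have hPst' : ∀ (g : G) (s : S), X1h.act S hst g s ∈ P → s ∈ P := by
    intro g s hs
    have h1 := hPst g⁻¹ hs
    have h2 : X1h.act S hst g⁻¹ (X1h.act S hst g s) = s := by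
      have : (X1h.act S hst g⁻¹ * X1h.act S hst g) s = s := by
        rw [← map_mul, inv_mul_cancel, map_one]; rfl
      exact this
    change X1h.act S hst g⁻¹ (X1h.act S hst g s) ∈ P at h1
    rwa [h2] at h1
  have hne : ∀ b : S, b ∉ P → (b : K) ≠ 0 := by
    intro b hb h0
    apply hb
    rw [show b = 0 from Subtype.ext h0]
    exact P.zero_mem
  have hlo : X1h.Lo G (X2h.lo S P) := by
    refine ⟨?_, ?_⟩
    · rintro g hg _ ⟨a, b, hb, rfl⟩
      refine ⟨X1h.act S hst ⟨g, hg⟩ a, X1h.act S hst ⟨g, hg⟩ b, fun h => hb (hPst' _ _ h), ?_⟩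
      rw [map_div₀]
      rfl
    · rintro _ ⟨a, b, hb, rfl⟩
      have hb0 := hne b hb
      by_cases h1 : a ∈ P
      · right
        refine ⟨b, b - a, ?_, ?_⟩
        · intro h2
          apply hb
          have := P.add_mem h2 h1
          rwa [sub_add_cancel] at this
        · push_cast
          rw [one_sub_div hb0, inv_div]
      · left
        exact ⟨b, a, h1, by rw [inv_div]⟩
  obtain ⟨W, hW, hD⟩ := exists_dom h (X2h.lo S P) (hAS.trans (X2h.le_lo S P)) hlo.st
    hlo.isLocalRing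
  refine ⟨W, hW, fun s hs => hD.le s (X2h.le_lo S P hs), ?_⟩
  intro s hs
  have hsP : s ∈ P := hP.1.2 hs
  have hsW : W.valuation (s : K) ≤ 1 :=
    (W.valuation_le_one_iff _).mpr (hD.le s (X2h.le_lo S P s.2))
  refine lt_of_le_of_ne hsW fun h1 => ?_
  obtain ⟨a, b, hb, he⟩ := hD.inv s (X2h.le_lo S P s.2) h1
  have hs0 : (s : K) ≠ 0 := by
    intro h0
    rw [h0, map_zero] at h1
    exact zero_ne_one h1
  have hb0 := hne b hb
  apply hb
  have : b = s * a := by
    apply Subtype.ext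
    push_cast
    rw [eq_div_iff hb0] at he
    rw [← he, mul_inv_cancel_left₀ hs0]
  rw [this]
  exact P.mul_mem_right _ hsP

end Pool.Agent.MP_b525bf_ag_E
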