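import Pool.Agent.Lib.MP_b525bf_ag_E.ML
import Pool.Agent.Lib.MP_b525bf_ag_E.X2
import Pool.Agent.Lib.LU2_h15.Stage3B

/-!
# Theorem E, row SB2

An invariant direction gives infinitely many centers.
-/

set_option autoImplicit false
set_option linter.unusedVariables false

namespace Pool.Agent.MP_b525bf_ag_E

open Pool.Agent.LU2 Pool.Agent.MP_b525bf_ag Pool.Agent.MP_b525bf_ag_W

variable {k K : Type} [Field k] [Field K] [Algebra k K] {G : Subgroup (K ≃ₐ[k] K)}
  {A : Subalgebra k K}

variable {V : ValuationSubring K} {B : Subalgebra k K} {n : ℕ} {x z : Fin n → K}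

theorem SB2_val (hB : ∀ b ∈ B, b ∈ V) {W : ValuationSubring K} (hD : Dom W (locV V B)) {f : K}
    (hf : f ∈ locV V B) : V.valuation f < 1 ↔ W.valuation f < 1 := by
  have key : ∀ {V W : ValuationSubring K}, (f⁻¹ ∈ V) → V.valuation f < 1 → W.valuation f = 1 →
      False := by
    intro V W h1 h2 h3
    have h0 : f ≠ 0 := by
      rintro rfl
      rw [map_zero] at h3
      exact zero_ne_one h3
    have h4 : V.valuation f⁻¹ ≤ 1 := (V.valuation_le_one_iff _).2 h1
    have h5 : V.valuation (f⁻¹ * f) < 1 := by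
      rw [map_mul]
      exact mul_lt_one_of_nonneg_of_lt_one_right h4 zero_le h2
    rw [inv_mul_cancel₀ h0, map_one] at h5
    exact lt_irrefl _ h5
  constructor
  · intro h
    refine lt_of_le_of_ne ((W.valuation_le_one_iff _).2 (hD.le f hf)) fun h1 => ?_
    exact key (locV_mem hB _ (hD.inv f hf h1)) h h1
  · intro h
    refine lt_of_le_of_ne ((V.valuation_le_one_iff _).2 (locV_mem hB f hf)) fun h1 => ?_
    exact key (hD.le _ (locV_inv hf h1)) h h1

theorem SB2_mon_add {x : Fin n → K} (h : ∀ i, x i ≠ 0) (e f : Fin n → ℤ) :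
    mon x (e + f) = mon x e * mon x f := by
  rw [mon, mon, mon, ← Finset.prod_mul_distrib]
  exact Finset.prod_congr rfl fun i _ => zpow_add₀ (h i) _ _

theorem SB2_mon_nsmul {x : Fin n → K} (i : ℕ) (e : Fin n → ℤ) :
    mon x (i • e) = mon x e ^ i := by
  rw [mon, mon, ← Finset.prod_pow]
  refine Finset.prod_congr rfl fun j _ => ?_
  rw [Pi.smul_apply, nsmul_eq_mul, mul_comm, zpow_mul, zpow_natCast]

theorem SB2_core (hL : Loc V B x) {m : Fin n → ℤ} (hpm : ∃ j, 0 < m j) (hnm : ∃ j, m j < 0)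
    {c₀ : K} (hc₀ : c₀ ∈ locV V B) (hc₀' : c₀⁻¹ ∈ locV V B) (hc0 : c₀ ≠ 0)
    (F : Polynomial (locV V B)) (hF : Polynomial.aeval (c₀ * mon x m) F = 0) (i₀ : ℕ)
    (hi₀ : ((F.coeff i₀ : locV V B) : K)⁻¹ ∈ locV V B)
    (hne : ((F.coeff i₀ : locV V B) : K) ≠ 0) : False := by
  classical
  obtain ⟨j1, hj1⟩ := hpm
  obtain ⟨j2, hj2⟩ := hnm
  let N := F.natDegree
  let mp : Fin n → ℕ := fun j => (m j).toNat
  let mn : Fin n → ℕ := fun j => (-(m j)).toNat
  let e : ℕ → Fin n → ℕ := fun i j => i * mp j + (N - i) * mn j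
  have hi₀N : i₀ ≤ N := by
    by_contra hcon
    apply hne
    rw [Polynomial.coeff_eq_zero_of_natDegree_lt (by simp only [N] at hcon; omega)]
    rfl
  -- the relation
  have hrel : ∑ i ∈ Finset.range (N + 1), ((F.coeff i : locV V B) : K) * c₀ ^ i *
      mon x (zx (e i)) = 0 := by
    have h1 : (∑ i ∈ Finset.range (N + 1), ((F.coeff i : locV V B) : K) *
        (c₀ * mon x m) ^ i) * mon x (fun j => (N : ℤ) * (mn j : ℤ)) = 0 := by
      rw [Polynomial.aeval_eq_sum_range] at hF
      have h2 : ∑ i ∈ Finset.range (N + 1), ((F.coeff i : locV V B) : K) *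
        (c₀ * mon x m) ^ i = 0 := hF
      rw [h2, zero_mul]
    rw [← h1, Finset.sum_mul]
    refine Finset.sum_congr rfl fun i hi => ?_
    have hiN : i ≤ N := by
      have := Finset.mem_range.1 hi
      omega
    have h3 : zx (e i) = i • m + fun j => (N : ℤ) * (mn j : ℤ) := by
      funext j
      simp only [zx, e, Pi.add_apply, Pi.smul_apply]
      rw [nsmul_eq_mul]
      push_cast [hiN]
      have h4 : m j = (mp j : ℤ) - (mn j : ℤ) := by simp only [mp, mn]; omega
      rw [h4]
      ring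
    rw [h3, SB2_mon_add hL.ne, SB2_mon_nsmul, mul_pow]
    ring
  let T := (Finset.range (N + 1)).erase i₀
  let d : ℕ → K := fun i => -(((F.coeff i : locV V B) : K) * c₀ ^ i *
    (((F.coeff i₀ : locV V B) : K)⁻¹ * c₀⁻¹ ^ i₀))
  have hd : ∀ i, d i ∈ locV V B := fun i =>
    Subalgebra.neg_mem _ (Subalgebra.mul_mem _ (Subalgebra.mul_mem _ (F.coeff i).2
      (Subalgebra.pow_mem _ hc₀ _)) (Subalgebra.mul_mem _ hi₀ (Subalgebra.pow_mem _ hc₀' _)))
  have hsum : mon x (zx (e i₀)) = ∑ i ∈ T, d i * mon x (zx (e i)) := by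
    rw [← Finset.add_sum_erase _ _ (Finset.mem_range.2 (by omega : i₀ < N + 1))] at hrel
    have h1 : ∑ i ∈ T, d i * mon x (zx (e i)) =
        -(∑ i ∈ T, ((F.coeff i : locV V B) : K) * c₀ ^ i * mon x (zx (e i))) *
          (((F.coeff i₀ : locV V B) : K)⁻¹ * c₀⁻¹ ^ i₀) := by
      rw [neg_mul, Finset.sum_mul, ← Finset.sum_neg_distrib]
      refine Finset.sum_congr rfl fun i _ => ?_
      simp only [d]
      ring
    have h2 : -(∑ i ∈ T, ((F.coeff i : locV V B) : K) * c₀ ^ i * mon x (zx (e i))) =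
        ((F.coeff i₀ : locV V B) : K) * c₀ ^ i₀ * mon x (zx (e i₀)) := by
      rw [neg_eq_iff_add_eq_zero, add_comm]
      exact hrel
    rw [h1, h2, inv_pow]
    field_simp
  let E : Finset (Fin n → ℕ) := T.image e
  let b : (Fin n → ℕ) → K := fun α => ∑ i ∈ T.filter (fun i => e i = α), d i
  obtain ⟨α, hα, hle⟩ := hL.monomial_mem E (e i₀) b
    (fun α _ => Subalgebra.sum_mem _ fun i _ => hd i) (by
      rw [hsum, ← Finset.sum_fiberwise_of_maps_to (s := T) (t := E) (g := e)
        (fun i hi => Finset.mem_image_of_mem _ hi)]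
      refine Finset.sum_congr rfl fun α _ => ?_
      simp only [b]
      rw [Finset.sum_mul]
      refine Finset.sum_congr rfl fun i hi => ?_
      rw [(Finset.mem_filter.1 hi).2])
  obtain ⟨i, hi, rfl⟩ := Finset.mem_image.1 hα
  have hine : i ≠ i₀ := (Finset.mem_erase.1 hi).1
  have hiN : i ≤ N := by
    have := Finset.mem_range.1 (Finset.mem_erase.1 hi).2
    omega
  have h1 : e i j1 ≤ e i₀ j1 := hle j1
  have h2 : e i j2 ≤ e i₀ j2 := hle j2
  have h3 : mn j1 = 0 := by simp only [mn]; omega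
  have h4 : mp j2 = 0 := by simp only [mp]; omega
  have h5 : 0 < mp j1 := by simp only [mp]; omega
  have h6 : 0 < mn j2 := by simp only [mn]; omega
  simp only [e, h3, h4, mul_zero, add_zero, zero_add] at h1 h2
  have h7 := Nat.le_of_mul_le_mul_right h1 h5
  have h8 := Nat.le_of_mul_le_mul_right h2 h6
  omega

theorem SB2_aeval {θ : K} {R : Subalgebra k K} {s : K}
    (hs : s ∈ Algebra.adjoin k ((R : Set K) ∪ {θ})) : ∃ P : Polynomial R,
      Polynomial.aeval θ P = s := by
  refine Algebra.adjoin_induction (p := fun s _ => ∃ P : Polynomial R,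
      Polynomial.aeval θ P = s) ?_ ?_ ?_ ?_ hs
  · rintro s (hs | hs)
    · refine ⟨Polynomial.C ⟨s, hs⟩, ?_⟩
      rw [Polynomial.aeval_C]
      rfl
    · refine ⟨Polynomial.X, ?_⟩
      rw [Polynomial.aeval_X]
      exact hs.symm
  · intro r
    refine ⟨Polynomial.C ⟨_, R.algebraMap_mem r⟩, ?_⟩
    rw [Polynomial.aeval_C]
    rfl
  · rintro s t _ _ ⟨P, rfl⟩ ⟨Q, rfl⟩
    exact ⟨P + Q, map_add _ _ _⟩
  · rintro s t _ _ ⟨P, rfl⟩ ⟨Q, rfl⟩
    exact ⟨P * Q, map_mul _ _ _⟩

theorem SB2_eval_mem {R : Subalgebra k K} (hR : ∀ f ∈ R, f ∈ V) (P : R) :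
    V.valuation (P : K) ≤ 1 := (V.valuation_le_one_iff _).2 (hR _ P.2)

/-- The ideal. -/
def SB2I (V : ValuationSubring K) (B : Subalgebra k K) (θ : K) (c : k) :
    Ideal (Algebra.adjoin k ((locV V B : Set K) ∪ {θ})) :=
  Ideal.span {s | ((s : K) ∈ locV V B ∧ V.valuation (s : K) < 1) ∨
    (s : K) = θ - algebraMap k K c}

theorem SB2_mem_I (hB : ∀ b ∈ B, b ∈ V) {θ : K} {c : k}
    {s : Algebra.adjoin k ((locV V B : Set K) ∪ {θ})} (hs : s ∈ SB2I V B θ c) :
    ∃ P : Polynomial (locV V B), Polynomial.aeval θ P = (s : K) ∧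
      V.valuation ((P.eval (algebraMap k (locV V B) c) : locV V B) : K) < 1 := by
  have hR : ∀ f ∈ locV V B, f ∈ V := locV_mem hB
  refine Submodule.span_induction
    (p := fun (s : Algebra.adjoin k ((locV V B : Set K) ∪ {θ})) _ => ∃ P : Polynomial (locV V B),
    Polynomial.aeval θ P = (s : K) ∧
      V.valuation ((P.eval (algebraMap k (locV V B) c) : locV V B) : K) < 1) ?_ ?_ ?_ ?_ hs
  · rintro s (⟨h1, h2⟩ | h1)
    · refine ⟨Polynomial.C ⟨s, h1⟩, ?_, ?_⟩
      · rw [Polynomial.aeval_C]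
        rfl
      · rw [Polynomial.eval_C]
        exact h2
    · refine ⟨Polynomial.X - Polynomial.C (algebraMap k (locV V B) c), ?_, ?_⟩
      · rw [map_sub, Polynomial.aeval_X, Polynomial.aeval_C, h1]
        rfl
      · rw [Polynomial.eval_sub, Polynomial.eval_X, Polynomial.eval_C, sub_self]
        change V.valuation (0 : K) < 1
        rw [map_zero]
        exact zero_lt_one
  · refine ⟨0, by rw [map_zero]; rfl, ?_⟩
    rw [Polynomial.eval_zero]
    change V.valuation (0 : K) < 1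
    rw [map_zero]
    exact zero_lt_one
  · rintro s t _ _ ⟨P, hP, hP'⟩ ⟨Q, hQ, hQ'⟩
    refine ⟨P + Q, by rw [map_add, hP, hQ]; rfl, ?_⟩
    rw [Polynomial.eval_add]
    exact lt_of_le_of_lt (V.valuation.map_add _ _) (max_lt hP' hQ')
  · rintro a s _ ⟨P, hP, hP'⟩
    obtain ⟨Q, hQ⟩ := SB2_aeval a.2
    refine ⟨Q * P, by rw [map_mul, hP, hQ]; rfl, ?_⟩
    rw [Polynomial.eval_mul]
    change V.valuation (((Q.eval (algebraMap k (locV V B) c) : locV V B) : K) *
      ((P.eval (algebraMap k (locV V B) c) : locV V B) : K)) < 1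
    rw [map_mul]
    exact mul_lt_one_of_nonneg_of_lt_one_right (SB2_eval_mem hR _) zero_le hP'

theorem SB2_ne_top (hL : Loc V B x) {m : Fin n → ℤ} (hpm : ∃ j, 0 < m j) (hnm : ∃ j, m j < 0)
    {c₀ : K} (hc₀ : c₀ ∈ locV V B) (hc₀' : c₀⁻¹ ∈ locV V B) (hc0 : c₀ ≠ 0) (c : k) :
    SB2I V B (c₀ * mon x m) c ≠ ⊤ := by
  intro htop
  have hR : ∀ f ∈ locV V B, f ∈ V := locV_mem hL.mem
  have h1 : (1 : Algebra.adjoin k ((locV V B : Set K) ∪ {c₀ * mon x m})) ∈
      SB2I V B (c₀ * mon x m) c := by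
    rw [htop]
    trivial
  obtain ⟨P, hP, hP'⟩ := SB2_mem_I hL.mem h1
  have hF : Polynomial.aeval (c₀ * mon x m) (1 - P) = 0 := by
    rw [map_sub, map_one, hP]
    exact sub_self 1
  have h2 : ∃ i, V.valuation (((1 - P).coeff i : locV V B) : K) = 1 := by
    by_contra hcon
    push Not at hcon
    have h3 : ∀ i, V.valuation (((1 - P).coeff i : locV V B) : K) < 1 := fun i =>
      lt_of_le_of_ne (SB2_eval_mem hR _) (hcon i)
    have h4 : V.valuation ((((1 - P).eval (algebraMap k (locV V B) c)) : locV V B) : K) < 1 := by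
      rw [Polynomial.eval_eq_sum_range, AddSubmonoidClass.coe_finsetSum]
      refine V.valuation.map_sum_lt one_ne_zero fun i _ => ?_
      change V.valuation (((((1 - P).coeff i) : locV V B) : K) *
        ((algebraMap k (locV V B) c ^ i : locV V B) : K)) < 1
      rw [map_mul, mul_comm]
      exact mul_lt_one_of_nonneg_of_lt_one_right (SB2_eval_mem hR _) zero_le (h3 i)
    have h5 : V.valuation (1 : K) < 1 := by
      have h6 : (1 : K) = ((((1 - P).eval (algebraMap k (locV V B) c)) : locV V B) : K) +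
          ((P.eval (algebraMap k (locV V B) c) : locV V B) : K) := by
        rw [Polynomial.eval_sub, Polynomial.eval_one]
        change (1 : K) = (1 - _) + _
        ring
      rw [h6]
      exact lt_of_le_of_lt (V.valuation.map_add _ _) (max_lt h4 hP')
    rw [map_one] at h5
    exact lt_irrefl _ h5
  obtain ⟨i₀, hi₀⟩ := h2
  refine SB2_core hL hpm hnm hc₀ hc₀' hc0 (1 - P) hF i₀ (locV_inv ((1 - P).coeff i₀).2 hi₀) ?_
  intro h
  rw [h, map_zero] at hi₀
  exact zero_ne_one hi₀

theorem SB2_mon_lt {W : ValuationSubring K} (hx : ∀ i, W.valuation (x i) < 1) (hx0 : ∀ i, x i ≠ 0)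
    {m : Fin n → ℤ} (hm : m ≠ 0) (hm1 : W.valuation (mon x m) = 1) : ∃ j, m j < 0 := by
  by_contra hcon
  push Not at hcon
  obtain ⟨j, hj⟩ : ∃ j, m j ≠ 0 := by
    by_contra h
    push Not at h
    exact hm (funext h)
  have h1 : W.valuation (mon x m) < 1 := by
    rw [mon, map_prod]
    have h2 : ∀ i, W.valuation (x i ^ m i) ≤ 1 := by
      intro i
      obtain ⟨a, ha⟩ := Int.eq_ofNat_of_zero_le (hcon i)
      rw [ha, zpow_natCast, map_pow]
      exact pow_le_one' (hx i).le a
    rw [← Finset.mul_prod_erase Finset.univ _ (Finset.mem_univ j)]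
    have h3 : W.valuation (x j ^ m j) < 1 := by
      obtain ⟨a, ha⟩ := Int.eq_ofNat_of_zero_le (hcon j)
      rw [ha, zpow_natCast, map_pow]
      refine pow_lt_one' (hx j) ?_
      rintro rfl
      exact hj ha
    rw [mul_comm]
    exact mul_lt_one_of_nonneg_of_lt_one_right (Finset.prod_le_one' fun i _ => h2 i) zero_le h3
  rw [hm1] at h1
  exact lt_irrefl _ h1

theorem ChartAt.not_theta [Infinite k] (h : Hyp G A) (hF : FinC G A) (hc : ChartAt G A V B x)
    {W : ValuationSubring K} (hW : Inv G A W) (hD : Dom W (locV V B)) {m : Fin n → ℤ} {c₀ : K}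
    (hm : m ≠ 0) (hm1 : W.valuation (mon x m) = 1) (hc₀ : c₀ ∈ locV V B)
    (hc1 : W.valuation c₀ = 1) (hθ : ∀ g ∈ G, ∃ μ ∈ locV V B, W.valuation μ < 1 ∧
      g (c₀ * mon x m) = c₀ * mon x m * (1 + μ)) : False := by
  classical
  have hR : ∀ f ∈ locV V B, f ∈ V := locV_mem hc.mem
  have hc0 : c₀ ≠ 0 := by
    rintro rfl
    rw [map_zero] at hc1
    exact zero_ne_one hc1
  have hc₀' := hD.inv c₀ hc₀ hc1
  have hxB : ∀ i, x i ∈ B := fun i => hc.sm.choose i
  have hxW : ∀ i, W.valuation (x i) < 1 := fun i =>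
    (SB2_val hc.mem hD (le_locV B (hxB i))).1 (hc.pos i)
  have hnm : ∃ j, m j < 0 := SB2_mon_lt hxW hc.ne hm hm1
  have hpm : ∃ j, 0 < m j := by
    obtain ⟨j, hj⟩ := SB2_mon_lt (m := -m) hxW hc.ne (neg_ne_zero.2 hm) (by
      have h1 : mon x (-m) * mon x m = 1 := by
        rw [← SB2_mon_add hc.ne, neg_add_cancel]
        simp [mon]
      have h2 := congrArg W.valuation h1
      rwa [map_mul, hm1, mul_one, map_one] at h2)
    exact ⟨j, by rw [Pi.neg_apply] at hj; omega⟩
  set θ := c₀ * mon x m with hθdef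
  set S := Algebra.adjoin k ((locV V B : Set K) ∪ {θ}) with hS
  have hRS : locV V B ≤ S := fun y hy => Algebra.subset_adjoin (Or.inl hy)
  have hθS : θ ∈ S := Algebra.subset_adjoin (Or.inr rfl)
  have hAR : A ≤ locV V B := hc.le.trans (le_locV B)
  have hSst : ∀ g ∈ G, ∀ y ∈ S, g y ∈ S := by
    intro g hg y hy
    refine Algebra.adjoin_induction (p := fun y _ => g y ∈ S) ?_ ?_ ?_ ?_ hy
    · rintro y (hy | hy)
      · exact hRS (hc.stab g hg y hy)
      · rw [Set.mem_singleton_iff] at hy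
        obtain ⟨μ, hμ, -, h1⟩ := hθ g hg
        rw [hy, h1]
        exact S.mul_mem hθS (S.add_mem S.one_mem (hRS hμ))
    · intro r
      rw [AlgEquiv.commutes]
      exact S.algebraMap_mem r
    · intro a b _ _ ha hb
      rw [map_add]
      exact S.add_mem ha hb
    · intro a b _ _ ha hb
      rw [map_mul]
      exact S.mul_mem ha hb
  have hnoe : IsNoetherianRing S := by
    have h1 : IsNoetherianRing (locV V B) := locV_noeth V B hc.mem hc.fg
    refine isNoetherianRing_of_surjective (Polynomial (locV V B)) S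
      (Polynomial.eval₂RingHom (Subalgebra.inclusion hRS).toRingHom (⟨θ, hθS⟩ : S)) ?_
    rintro ⟨s, hs⟩
    obtain ⟨P, hP⟩ := SB2_aeval hs
    refine ⟨P, Subtype.ext ?_⟩
    refine Eq.trans ?_ hP
    change S.val (Polynomial.eval₂ _ _ P) = _
    rw [Polynomial.aeval_def]
    exact Polynomial.hom_eval₂ P (Subalgebra.inclusion hRS).toRingHom S.val.toRingHom ⟨θ, hθS⟩
  have hex : ∀ c : k, ∃ W' : ValuationSubring K, Inv G A W' ∧ (∀ s ∈ S, s ∈ W') ∧
      W'.valuation (θ - algebraMap k K c) < 1 := by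
    intro c
    obtain ⟨W', h1, h2, h3⟩ := exists_inv_ideal h S (hAR.trans hRS) hSst hnoe (SB2I V B θ c)
      (SB2_ne_top hc.toLoc hpm hnm hc₀ hc₀' hc0 c) (by
        intro g hg s hs hgs hsI
        have hgen : ∀ t : S, t ∈ SB2I V B θ c → (⟨g t, hSst g hg t t.2⟩ : S) ∈ SB2I V B θ c := by
          intro t ht
          refine Submodule.span_induction (p := fun (t : S) _ =>
            (⟨g t, hSst g hg t t.2⟩ : S) ∈ SB2I V B θ c) ?_ ?_ ?_ ?_ ht
          · rintro t (⟨h1, h2⟩ | h1)
            · refine Ideal.subset_span (Or.inl ⟨hc.stab g hg _ h1, ?_⟩)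
              refine (SB2_val hc.mem hD (hc.stab g hg _ h1)).2 ?_
              rw [hW.inv g hg]
              exact (SB2_val hc.mem hD h1).1 h2
            · obtain ⟨μ, hμ, hμ1, hμ2⟩ := hθ g hg
              have h3 : (⟨g t, hSst g hg t t.2⟩ : S) =
                  ⟨θ - algebraMap k K c, S.sub_mem hθS (S.algebraMap_mem c)⟩ +
                  ⟨θ, hθS⟩ * ⟨μ, hRS hμ⟩ := by
                refine Subtype.ext ?_
                change g t = (θ - algebraMap k K c) + θ * μ
                rw [h1, map_sub, AlgEquiv.commutes, hμ2]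
                ring
              rw [h3]
              refine Ideal.add_mem _ (Ideal.subset_span (Or.inr rfl))
                (Ideal.mul_mem_left _ _ (Ideal.subset_span (Or.inl ⟨hμ, ?_⟩)))
              exact (SB2_val hc.mem hD hμ).2 hμ1
          · have h3 : (⟨g ((0 : S) : K), hSst g hg _ (0 : S).2⟩ : S) = 0 :=
              Subtype.ext (map_zero g)
            rw [h3]
            exact Ideal.zero_mem _
          · intro a b _ _ ha hb
            have h3 : (⟨g ((a + b : S) : K), hSst g hg _ (a + b : S).2⟩ : S) =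
                ⟨g a, hSst g hg a a.2⟩ + ⟨g b, hSst g hg b b.2⟩ :=
              Subtype.ext (map_add g _ _)
            rw [h3]
            exact Ideal.add_mem _ ha hb
          · intro a b _ hb
            have h3 : (⟨g ((a • b : S) : K), hSst g hg _ (a • b : S).2⟩ : S) =
                ⟨g a, hSst g hg a a.2⟩ * ⟨g b, hSst g hg b b.2⟩ :=
              Subtype.ext (map_mul g _ _)
            rw [h3]
            exact Ideal.mul_mem_left _ _ hb
        exact hgen ⟨s, hs⟩ hsI)
    exact ⟨W', h1, h2, h3 ⟨_, S.sub_mem hθS (S.algebraMap_mem c)⟩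
      (Ideal.subset_span (Or.inr rfl))⟩
  choose W' hW1 hW2 hW3 using hex
  -- infinitely many centers
  let B' := Algebra.adjoin k ((B : Set K) ∪ {θ})
  have hB'S : B' ≤ S := Algebra.adjoin_mono
    (Set.union_subset_union_left _ fun y hy => le_locV B hy)
  have hfgB' : B'.FG := by
    obtain ⟨s, hs⟩ := hc.fg
    refine ⟨s ∪ {θ}, le_antisymm (Algebra.adjoin_le ?_) (Algebra.adjoin_le ?_)⟩
    · intro y hy
      rw [Finset.coe_union, Finset.coe_singleton] at hy
      rcases hy with hy | hy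
      · refine Algebra.subset_adjoin (Or.inl ?_)
        rw [← hs]
        exact Algebra.subset_adjoin hy
      · exact Algebra.subset_adjoin (Or.inr hy)
    · rintro y (hy | hy)
      · have h1 : B ≤ Algebra.adjoin k (↑(s ∪ {θ}) : Set K) := by
          rw [← hs]
          refine Algebra.adjoin_mono ?_
          rw [Finset.coe_union]
          exact Set.subset_union_left
        exact h1 hy
      · refine Algebra.subset_adjoin ?_
        rw [Finset.coe_union, Finset.coe_singleton]
        exact Or.inr hy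
  have hAB' : A ≤ B' := fun y hy => Algebra.subset_adjoin (Or.inl (hc.le hy))
  have hθB' : θ ∈ B' := Algebra.subset_adjoin (Or.inr rfl)
  have hfin := hF B' hfgB' hAB'
  let f : k → Set K := fun c => {b | b ∈ B' ∧ (W' c).valuation b < 1}
  have hf : ∀ c, f c ∈ {P : Set K | ∃ W : ValuationSubring K, Inv G A W ∧ (∀ b ∈ B', b ∈ W) ∧
      P = {b | b ∈ B' ∧ W.valuation b < 1}} := fun c =>
    ⟨W' c, hW1 c, fun b hb => hW2 c b (hB'S hb), rfl⟩
  have hinj : Function.Injective f := by
    intro c d hcd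
    by_contra hne
    have h1 : θ - algebraMap k K c ∈ f d := by
      rw [← hcd]
      exact ⟨B'.sub_mem hθB' (B'.algebraMap_mem c), hW3 c⟩
    have h2 : (W' d).valuation (algebraMap k K (c - d)) < 1 := by
      have h3 : algebraMap k K (c - d) = (θ - algebraMap k K d) - (θ - algebraMap k K c) := by
        rw [map_sub]
        ring
      rw [h3]
      exact lt_of_le_of_lt ((W' d).valuation.map_sub _ _) (max_lt (hW3 d) h1.2)
    have h3 : (W' d).valuation (algebraMap k K (c - d)⁻¹) ≤ 1 :=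
      ((W' d).valuation_le_one_iff _).2 (hW2 d _ (S.algebraMap_mem _))
    have h4 : (W' d).valuation (algebraMap k K ((c - d)⁻¹ * (c - d))) < 1 := by
      rw [map_mul, map_mul]
      exact mul_lt_one_of_nonneg_of_lt_one_right h3 zero_le h2
    rw [inv_mul_cancel₀ (sub_ne_zero.2 hne), map_one, map_one] at h4
    exact lt_irrefl _ h4
  have h1 : Finite k := by
    have : Finite {P : Set K | ∃ W : ValuationSubring K, Inv G A W ∧ (∀ b ∈ B', b ∈ W) ∧
      P = {b | b ∈ B' ∧ W.valuation b < 1}} := hfin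
    exact Finite.of_injective (fun c => (⟨f c, hf c⟩ : {P : Set K | ∃ W : ValuationSubring K,
      Inv G A W ∧ (∀ b ∈ B', b ∈ W) ∧ P = {b | b ∈ B' ∧ W.valuation b < 1}}))
      fun c d hcd => hinj (congrArg Subtype.val hcd)
  exact not_finite k

end Pool.Agent.MP_b525bf_ag_E
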