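import Pool.Agent.Lib.MP_b525bf_ag_E.CMP
import Pool.Agent.Lib.MP_b525bf_ag_E.SB1
import Pool.Agent.Lib.MP_b525bf_ag_E.SB2

/-!
# Theorem E, row MONO
-/

set_option autoImplicit false

namespace Pool.Agent.MP_b525bf_ag_E

open Pool.Agent.LU2 Pool.Agent.MP_b525bf_ag Pool.Agent.MP_b525bf_ag_W

variable {k K : Type} [Field k] [Field K] [Algebra k K] {G : Subgroup (K ≃ₐ[k] K)}
  {A : Subalgebra k K}

variable {V : ValuationSubring K} {B : Subalgebra k K} {n : ℕ} {x z : Fin n → K}

private theorem mon_ne_zero (hx : ∀ i, x i ≠ 0) (e : Fin n → ℤ) : mon x e ≠ 0 :=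
  Finset.prod_ne_zero_iff.2 fun i _ => zpow_ne_zero _ (hx i)

private theorem mon_add (hx : ∀ i, x i ≠ 0) (e e' : Fin n → ℤ) :
    mon x (e + e') = mon x e * mon x e' := by
  rw [mon, mon, mon, ← Finset.prod_mul_distrib]
  exact Finset.prod_congr rfl fun i _ => zpow_add₀ (hx i) _ _

private theorem mon_neg (e : Fin n → ℤ) : mon x (-e) = (mon x e)⁻¹ := by
  rw [mon, mon, ← Finset.prod_inv_distrib]
  exact Finset.prod_congr rfl fun i _ => zpow_neg _ _

private theorem mon_sub (hx : ∀ i, x i ≠ 0) (e e' : Fin n → ℤ) :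
    mon x (e - e') = mon x e / mon x e' := by
  rw [sub_eq_add_neg, mon_add hx, mon_neg, div_eq_mul_inv]

private theorem mon_zero : mon x 0 = 1 := by simp [mon]

/-- Units of a ring dominated by `W` or contained in `W` have value one. -/
private theorem val_unit {W : ValuationSubring K} {c : K} (h0 : c ≠ 0) (h : c ∈ W) (h' : c⁻¹ ∈ W) :
    W.valuation c = 1 := by
  refine le_antisymm ((W.valuation_le_one_iff c).2 h) ?_
  have h1 := (W.valuation_le_one_iff c⁻¹).2 h'
  rw [map_inv₀] at h1
  exact (inv_le_one₀ (by rwa [Valuation.pos_iff])).1 h1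

/-- The value of a sum of monomials with unit coefficients if there is no cancellation. -/
private theorem val_rep_dom [Infinite k] (h : Hyp G A) (hF : FinC G A) (hc : ChartAt G A V B x) {f : K}
    {S : Finset (Fin n → ℕ)} {c : (Fin n → ℕ) → K} (hrep : Rep (locV V B) x f S c)
    {W : ValuationSubring K} (hW : Inv G A W) (hD : Dom W (locV V B)) :
    (∃ α ∈ S, W.valuation (mon x (zx α)) = W.valuation f) ∧
      ∀ α ∈ S, W.valuation (mon x (zx α)) ≤ W.valuation f := by
  classical
  have hcv : ∀ α ∈ S, W.valuation (c α) = 1 := fun α hα =>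
    val_unit (hrep.ne0 α hα) (hD.le _ (hrep.mem α hα)) (hD.le _ (hrep.inv α hα))
  have hx : ∀ e : Fin n → ℤ, mon x e ≠ 0 := mon_ne_zero hc.ne
  obtain ⟨β, hβ, hmax⟩ := S.exists_max_image (fun α => W.valuation (mon x (zx α))) hrep.ne
  have hle : W.valuation f ≤ W.valuation (mon x (zx β)) := by
    rw [hrep.sum]
    refine Valuation.map_sum_le _ fun α hα => ?_
    rw [map_mul, hcv α hα, one_mul]
    exact hmax α hα
  have hge : W.valuation (mon x (zx β)) ≤ W.valuation f := by
    by_contra hlt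
    push Not at hlt
    -- the terms of largest value
    let S₀ : Finset (Fin n → ℕ) :=
      S.filter fun α => W.valuation (mon x (zx α)) = W.valuation (mon x (zx β))
    have hβ0 : β ∈ S₀ := Finset.mem_filter.2 ⟨hβ, rfl⟩
    have hinj : Function.Injective fun α : Fin n → ℕ => zx α - zx β := by
      intro α α' hαα
      have h1 : zx α = zx α' := sub_left_injective hαα
      funext i
      have := congrFun h1 i
      simpa [zx] using this
    let S₁ : Finset (Fin n → ℤ) := S₀.image fun α => zx α - zx β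
    let c₁ : (Fin n → ℤ) → K := fun m => c fun i => (m i + zx β i).toNat
    have hc₁ : ∀ α : Fin n → ℕ, c₁ (zx α - zx β) = c α := by
      intro α
      change c _ = c α
      congr 1
      funext i
      simp [zx]
    have hval : ∀ m ∈ S₁, W.valuation (mon x m) = 1 := by
      intro m hm
      obtain ⟨α, hα, rfl⟩ := Finset.mem_image.1 hm
      rw [mon_sub hc.ne, map_div₀, (Finset.mem_filter.1 hα).2, div_self]
      exact (Valuation.ne_zero_iff _).2 (hx _)
    have hlt1 : W.valuation (∑ m ∈ S₁, c₁ m * mon x m) < 1 := by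
      have e1 : ∑ m ∈ S₁, c₁ m * mon x m = (∑ α ∈ S₀, c α * mon x (zx α)) / mon x (zx β) := by
        rw [Finset.sum_image fun α _ α' _ hαα => hinj hαα, Finset.sum_div]
        refine Finset.sum_congr rfl fun α _ => ?_
        rw [hc₁, mon_sub hc.ne, mul_div_assoc]
      rw [e1, map_div₀, div_lt_one₀ (by rw [Valuation.pos_iff]; exact hx _)]
      have e2 : ∑ α ∈ S₀, c α * mon x (zx α) = f - ∑ α ∈ S.filter
          (fun α => ¬ W.valuation (mon x (zx α)) = W.valuation (mon x (zx β))),
            c α * mon x (zx α) := by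
        rw [hrep.sum, eq_sub_iff_add_eq, Finset.sum_filter_add_sum_filter_not]
      rw [e2]
      refine Valuation.map_sub_lt _ hlt ?_
      refine Valuation.map_sum_lt _ ((Valuation.ne_zero_iff _).2 (hx _)) fun α hα => ?_
      obtain ⟨hα1, hα2⟩ := Finset.mem_filter.1 hα
      rw [map_mul, hcv α hα1, one_mul]
      exact lt_of_le_of_ne (hmax α hα1) hα2
    obtain ⟨m, c₀, hm, hm1, hc₀, hc1, hθ⟩ := hc.exists_theta hW hD S₁
      ⟨_, Finset.mem_image_of_mem _ hβ0⟩ hval c₁ (by
        intro m hm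
        obtain ⟨α, hα, rfl⟩ := Finset.mem_image.1 hm
        rw [hc₁]
        exact hrep.mem α (Finset.mem_filter.1 hα).1) (by
        intro m hm
        obtain ⟨α, hα, rfl⟩ := Finset.mem_image.1 hm
        rw [hc₁]
        exact hcv α (Finset.mem_filter.1 hα).1) hlt1
    exact hc.not_theta h hF hW hD hm hm1 hc₀ hc1 hθ
  exact ⟨⟨β, hβ, le_antisymm hge hle⟩, fun α hα => (hmax α hα).trans hge⟩

/-- row MONO -/
theorem ChartAt.mono [Infinite k] (h : Hyp G A) (hF : FinC G A) (hc : ChartAt G A V B x) {f : K}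
    {S : Finset (Fin n → ℕ)} {c : (Fin n → ℕ) → K} (hrep : Rep (locV V B) x f S c)
    {W : ValuationSubring K} (hW : Inv G A W) (hR : ∀ f ∈ locV V B, f ∈ W) :
    (∃ α ∈ S, W.valuation (mon x (zx α)) = W.valuation f) ∧
      ∀ α ∈ S, W.valuation (mon x (zx α)) ≤ W.valuation f := by
  obtain ⟨W₁, hW₁, hle, hD⟩ := exists_dom_le h (locV V B) (hc.le.trans (le_locV _)) hc.stab
    (locV_local V B hc.mem) hW hR
  obtain ⟨⟨β, hβ, hβf⟩, hall⟩ := val_rep_dom h hF hc hrep hW₁ hD
  have hx : ∀ e : Fin n → ℤ, mon x e ≠ 0 := mon_ne_zero hc.ne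
  have hf0 : f ≠ 0 := by
    rintro rfl
    rw [map_zero] at hβf
    exact (Valuation.ne_zero_iff _).2 (hx _) hβf
  have key : ∀ a : K, W₁.valuation a ≤ W₁.valuation f → W.valuation a ≤ W.valuation f := by
    intro a ha
    have h1 : W₁.valuation (a / f) ≤ 1 := by
      rw [map_div₀]
      exact div_le_one_of_le₀ ha zero_le
    have h2 := val_le_one_of_le hle h1
    rwa [map_div₀, div_le_one₀ (by rwa [Valuation.pos_iff])] at h2
  refine ⟨⟨β, hβ, le_antisymm (key _ (hall β hβ)) ?_⟩, fun α hα => key _ (hall α hα)⟩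
  have h1 : W₁.valuation (f / mon x (zx β)) ≤ 1 := by
    rw [map_div₀, hβf]
    exact (div_self ((Valuation.ne_zero_iff _).2 hf0)).le
  have h2 := val_le_one_of_le hle h1
  rwa [map_div₀, div_le_one₀ (by rw [Valuation.pos_iff]; exact hx _)] at h2

end Pool.Agent.MP_b525bf_ag_E
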