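import Pool.Agent.Lib.MP_b525bf_ag_E.REP
import Pool.Agent.Lib.MP_b525bf_ag_E.MONO

/-!
# Theorem E, row GOOD
-/

set_option autoImplicit false

namespace Pool.Agent.MP_b525bf_ag_E

open Pool.Agent.LU2 Pool.Agent.MP_b525bf_ag Pool.Agent.MP_b525bf_ag_W

variable {k K : Type} [Field k] [Field K] [Algebra k K] {G : Subgroup (K ≃ₐ[k] K)}
  {A : Subalgebra k K}

variable {V : ValuationSubring K} {B : Subalgebra k K} {n : ℕ} {x z : Fin n → K}

/-- Inverting an element preserves smoothness over the polynomial ring. -/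
theorem SmOver.adjoin_inv (hsm : SmOver B x) {t : K} (ht : t ∈ B) (h0 : t ≠ 0) :
    SmOver (Algebra.adjoin k ((B : Set K) ∪ {t⁻¹})) x := by
  obtain ⟨B', hB'⟩ : ∃ B' : Subalgebra k K, B' = Algebra.adjoin k ((B : Set K) ∪ {t⁻¹}) :=
    ⟨_, rfl⟩
  rw [← hB']
  have hle : B ≤ B' := fun x hx => hB' ▸ Algebra.subset_adjoin (Or.inl hx)
  have hinv : t⁻¹ ∈ B' := hB' ▸ Algebra.subset_adjoin (Or.inr rfl)
  obtain ⟨hx, hfs⟩ := hsm
  refine ⟨fun i => hle (hx i), ?_⟩
  let _ : Algebra B B' := (Subalgebra.inclusion hle).toRingHom.toAlgebra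
  have hloc : IsLocalization.Away (⟨t, ht⟩ : B) B' := by
    refine ⟨⟨?_, ?_, ?_⟩⟩
    · rintro ⟨y, m, rfl⟩
      have h1 : IsUnit (algebraMap B B' ⟨t, ht⟩) := by
        refine IsUnit.of_mul_eq_one ⟨t⁻¹, hinv⟩ ?_
        apply Subtype.ext
        change t * t⁻¹ = 1
        exact mul_inv_cancel₀ h0
      change IsUnit (algebraMap B B' (⟨t, ht⟩ ^ m))
      rw [map_pow]
      exact h1.pow m
    · rintro ⟨z, hz⟩
      obtain ⟨m, hm⟩ := LU2G.mem_adjoin_inv B ht h0 z (hB' ▸ hz)
      refine ⟨(⟨_, hm⟩, ⟨(⟨t, ht⟩ : B) ^ m, m, rfl⟩), ?_⟩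
      apply Subtype.ext
      change z * (((⟨t, ht⟩ : B) ^ m : B) : K) = z * t ^ m
      push_cast
      rfl
    · intro x y hxy
      refine ⟨1, ?_⟩
      have : (x : K) = y := congrArg (fun b : B' => (b : K)) hxy
      rw [Subtype.ext this]
  have h1 : (algebraMap B B').FormallySmooth := by
    have : Algebra.FormallySmooth B B' :=
      Algebra.FormallySmooth.of_isLocalization (Submonoid.powers (⟨t, ht⟩ : B))
    exact RingHom.formallySmooth_algebraMap.2 this
  have h2 := hfs.comp h1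
  have h3 : (MvPolynomial.aeval (fun i => (⟨x i, hle (hx i)⟩ : B')) :
      MvPolynomial (Fin n) k →ₐ[k] B').toRingHom =
      (algebraMap B B').comp (MvPolynomial.aeval (fun i => (⟨x i, hx i⟩ : B)) :
        MvPolynomial (Fin n) k →ₐ[k] B).toRingHom := by
    have h4 : (MvPolynomial.aeval (fun i => (⟨x i, hle (hx i)⟩ : B')) :
        MvPolynomial (Fin n) k →ₐ[k] B') = (Subalgebra.inclusion hle).comp
          (MvPolynomial.aeval (fun i => (⟨x i, hx i⟩ : B))) := by
      refine MvPolynomial.algHom_ext fun i => ?_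
      rw [AlgHom.comp_apply, MvPolynomial.aeval_X, MvPolynomial.aeval_X]
      rfl
    rw [h4]
    rfl
  rw [h3]
  exact h2

/-- row GOOD -/
theorem ChartAt.good [Infinite k] (h : Hyp G A) (hF : FinC G A) (hc : ChartAt G A V B x) :
    Good G A (locV V B) x := by
  classical
  have hmem : ∀ i, x i ∈ B := hc.sm.1
  refine ⟨hc.le.trans (le_locV _), hc.ne, fun i => le_locV _ (hmem i), hc.stab, hc.par, ?_, ?_, ?_⟩
  · obtain ⟨F, hF'⟩ := hc.fg
    refine ⟨F, ?_, ?_⟩
    · intro f hf
      exact le_locV _ (hF' ▸ Algebra.subset_adjoin hf)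
    · rintro f ⟨a, ha, b, hb, hvb, rfl⟩
      rw [hF']
      refine ⟨a, ha, b, hb, ?_, locV_inv (le_locV _ hb) hvb, rfl⟩
      rintro rfl
      rw [map_zero] at hvb
      exact zero_ne_one hvb
  · intro E hE
    obtain ⟨t, ht, ht1, hcom⟩ := LU2G.exists_commonV V B (fun e : E => (e : K))
      fun e => hE e.2
    have ht0 : t ≠ 0 := by
      rintro rfl
      rw [map_zero] at ht1
      exact zero_ne_one ht1
    refine ⟨Algebra.adjoin k ((B : Set K) ∪ {t⁻¹}), ?_, ?_, ?_, hc.sm.adjoin_inv ht ht0⟩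
    · obtain ⟨F, hF'⟩ := hc.fg
      refine ⟨F ∪ {t⁻¹}, ?_⟩
      apply le_antisymm
      · rw [Algebra.adjoin_le_iff]
        intro y hy
        rw [Finset.coe_union, Finset.coe_singleton] at hy
        rcases hy with hy | hy
        · exact Algebra.subset_adjoin (Or.inl (hF' ▸ Algebra.subset_adjoin hy))
        · exact Algebra.subset_adjoin (Or.inr hy)
      · rw [Algebra.adjoin_le_iff]
        rintro y (hy | hy)
        · have h1 : B ≤ Algebra.adjoin k ((F ∪ {t⁻¹} : Finset K) : Set K) := by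
            rw [← hF']
            refine Algebra.adjoin_mono ?_
            rw [Finset.coe_union]
            exact Set.subset_union_left
          exact h1 hy
        · refine Algebra.subset_adjoin ?_
          rw [Finset.coe_union, Finset.coe_singleton]
          exact Or.inr hy
    · intro e he
      have h1 : t * e ∈ B := hcom ⟨e, he⟩
      have h2 : e = t⁻¹ * (t * e) := by rw [inv_mul_cancel_left₀ ht0]
      rw [h2]
      exact Subalgebra.mul_mem _ (Algebra.subset_adjoin (Or.inr rfl))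
        (Algebra.subset_adjoin (Or.inl h1))
    · rw [Algebra.adjoin_le_iff]
      rintro y (hy | hy)
      · exact le_locV _ hy
      · rw [Set.mem_singleton_iff.1 hy]
        exact locV_inv (le_locV _ ht) ht1
  · intro f hf hf0
    obtain ⟨S, c, hrep⟩ := hc.toLoc.exists_rep hf hf0
    exact ⟨S, c, hrep, fun W hW hR => hc.mono h hF hrep hW hR⟩

end Pool.Agent.MP_b525bf_ag_E
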