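import Pool.Agent.Lib.MP_b525bf_ag_E.Defs
import Pool.Agent.Lib.LU2G.Smooth
import Pool.Agent.Lib.MP_b525bf_ag_P.SmoothTor

/-!
# Theorem E, row TB

Toric base change of a chart.
-/

set_option autoImplicit false
set_option linter.unusedVariables false

namespace Pool.Agent.MP_b525bf_ag_E

open Pool.Agent.LU2 Pool.Agent.MP_b525bf_ag Pool.Agent.MP_b525bf_ag_W

section Abstract

open TensorProduct

theorem TB_abstract {R R' A A' : Type} [CommRing R] [CommRing R'] [IsDomain R'] [CommRing A]
    [CommRing A'] (φ : R →+* A) (hsm : φ.FormallySmooth) (hflat : φ.Flat) (θ : R →+* R') (ζ : R)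
    (hζ : θ ζ ≠ 0) (hθ : ∀ r' : R', ∃ (N : ℕ) (r : R), θ ζ ^ N * r' = θ r)
    (j : A →+* A') (ρ : R' →+* A') (hcomm : ∀ r, j (φ r) = ρ (θ r))
    (hinj : Function.Injective j)
    (hsurj : Subring.closure ((j.range : Set A') ∪ (ρ.range : Set A')) = ⊤) :
    ρ.FormallySmooth := by
  algebraize [φ, θ, ρ, ρ.comp θ]
  let j' : A →ₐ[R] A' := { j with commutes' := hcomm }
  let L : R' ⊗[R] A →ₐ[R'] A' := Algebra.TensorProduct.lift (Algebra.ofId R' A') j'
      fun _ _ => Commute.all _ _
  have hL : ∀ (r : R') (a : A), L (r ⊗ₜ a) = ρ r * j a := fun r a => by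
    rw [Algebra.TensorProduct.lift_tmul]
    rfl
  have key : ∀ w : R' ⊗[R] A, ∃ (N : ℕ) (a : A), (((θ ζ) ^ N) ⊗ₜ[R] (1 : A)) * w = 1 ⊗ₜ a := by
    intro w
    induction w with
    | zero => exact ⟨0, 0, by simp⟩
    | tmul r' a =>
      obtain ⟨N, r, hr⟩ := hθ r'
      refine ⟨N, r • a, ?_⟩
      rw [Algebra.TensorProduct.tmul_mul_tmul, one_mul, hr, TensorProduct.tmul_smul,
        TensorProduct.smul_tmul']
      congr 1
      rw [Algebra.smul_def, mul_one]
      rfl
    | add w1 w2 h1 h2 =>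
      obtain ⟨N1, a1, h1⟩ := h1
      obtain ⟨N2, a2, h2⟩ := h2
      refine ⟨N1 + N2, ζ ^ N2 • a1 + ζ ^ N1 • a2, ?_⟩
      have h3 : ∀ (N : ℕ) (a : A), (((θ ζ) ^ N) ⊗ₜ[R] (1 : A)) * ((1 : R') ⊗ₜ[R] a) =
          (1 : R') ⊗ₜ (ζ ^ N • a) := by
        intro N a
        rw [Algebra.TensorProduct.tmul_mul_tmul, one_mul, mul_one, TensorProduct.tmul_smul,
          TensorProduct.smul_tmul']
        congr 1
        rw [Algebra.smul_def, mul_one, map_pow]
        rfl
      have h4 : (((θ ζ) ^ (N1 + N2)) ⊗ₜ[R] (1 : A)) =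
          (((θ ζ) ^ N1) ⊗ₜ[R] (1 : A)) * (((θ ζ) ^ N2) ⊗ₜ[R] (1 : A)) := by
        rw [Algebra.TensorProduct.tmul_mul_tmul, one_mul, pow_add]
      rw [mul_add, TensorProduct.tmul_add, ← h3 N2 a1, ← h3 N1 a2, ← h1, ← h2, h4]
      ring
  have hreg : ∀ (N : ℕ) (w : R' ⊗[R] A), (((θ ζ) ^ N) ⊗ₜ[R] (1 : A)) * w = 0 → w = 0 := by
    intro N w hw
    have h1 : Function.Injective (LinearMap.mulLeft R ((θ ζ) ^ N) : R' →ₗ[R] R') := by
      intro x y hxy
      exact mul_left_cancel₀ (pow_ne_zero N hζ) hxy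
    have h2 := Module.Flat.rTensor_preserves_injective_linearMap (M := A) _ h1
    apply h2
    rw [map_zero, ← hw]
    clear hw
    induction w with
    | zero => simp
    | tmul r' a =>
      rw [LinearMap.rTensor_tmul, Algebra.TensorProduct.tmul_mul_tmul, one_mul]
      rfl
    | add w1 w2 h1 h2 => rw [map_add, h1, h2, mul_add]
  have hinj' : Function.Injective L := by
    rw [injective_iff_map_eq_zero]
    intro w hw
    obtain ⟨N, a, ha⟩ := key w
    have h1 : L (1 ⊗ₜ a) = 0 := by rw [← ha, map_mul, hw, mul_zero]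
    rw [hL, map_one, one_mul] at h1
    have h2 : a = 0 := by
      apply hinj
      rw [h1, map_zero]
    refine hreg N w ?_
    rw [ha, h2, TensorProduct.tmul_zero]
  have hsurj' : Function.Surjective L := by
    intro y
    have hy : y ∈ Subring.closure ((j.range : Set A') ∪ (ρ.range : Set A')) := by
      rw [hsurj]
      trivial
    have h1 : Subring.closure ((j.range : Set A') ∪ (ρ.range : Set A')) ≤ L.toRingHom.range := by
      rw [Subring.closure_le]
      rintro z (⟨a, rfl⟩ | ⟨r, rfl⟩)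
      · refine ⟨1 ⊗ₜ a, ?_⟩
        change L (1 ⊗ₜ a) = _
        rw [hL, map_one, one_mul]
      · refine ⟨r ⊗ₜ 1, ?_⟩
        change L (r ⊗ₜ 1) = _
        rw [hL, map_one, mul_one]
    exact h1 hy
  have hfs : Algebra.FormallySmooth R A := hsm
  exact MP_b525bf_ag_P.formallySmooth_of_bijective_lift (R := R) (R' := R') (A' := A') j'
    ⟨hinj', hsurj'⟩

end Abstract

variable {k K : Type} [Field k] [Field K] [Algebra k K] {G : Subgroup (K ≃ₐ[k] K)}
  {A : Subalgebra k K}

theorem TB_mon_add {n : ℕ} {x : Fin n → K} (h : ∀ i, x i ≠ 0) (e f : Fin n → ℤ) :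
    mon x (e + f) = mon x e * mon x f := by
  rw [mon, mon, mon, ← Finset.prod_mul_distrib]
  exact Finset.prod_congr rfl fun i _ => zpow_add₀ (h i) _ _

theorem TB_zpow_sum {ι : Type} (s : Finset ι) (f : ι → ℤ) {y : K} (hy : y ≠ 0) :
    y ^ (∑ i ∈ s, f i) = ∏ i ∈ s, y ^ f i := by
  classical
  induction s using Finset.induction_on with
  | empty => simp
  | insert i s hi ih => rw [Finset.sum_insert hi, Finset.prod_insert hi, zpow_add₀ hy, ih]

theorem TB_mon_sum {n m : ℕ} {z : Fin n → K} (h : ∀ i, z i ≠ 0) (b : Fin m → Fin n → ℤ)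
    (e : Fin m → ℤ) : mon (fun i => mon z (b i)) e = mon z (∑ i, e i • b i) := by
  simp only [mon, ← Finset.prod_zpow, ← zpow_mul]
  rw [Finset.prod_comm]
  refine Finset.prod_congr rfl fun j _ => ?_
  rw [Finset.sum_apply, TB_zpow_sum _ _ (h j)]
  refine Finset.prod_congr rfl fun i _ => ?_
  rw [Pi.smul_apply, smul_eq_mul, mul_comm]

theorem TB_mon_single {n : ℕ} (x : Fin n → K) (i : Fin n) : mon x (Pi.single i 1) = x i := by
  classical
  rw [mon, Finset.prod_eq_single i]
  · rw [Pi.single_eq_same, zpow_one]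
  · intro j _ hj
    rw [Pi.single_eq_of_ne hj, zpow_zero]
  · intro h
    exact absurd (Finset.mem_univ _) h

theorem TB_flat {B : Subalgebra k K} (hfg : B.FG) {n : ℕ} (φ : MvPolynomial (Fin n) k →ₐ[k] B)
    (h : φ.toRingHom.FormallySmooth) : φ.toRingHom.Flat := by
  let _ : Algebra (MvPolynomial (Fin n) k) B := φ.toRingHom.toAlgebra
  have i2 : IsScalarTower k (MvPolynomial (Fin n) k) B :=
    IsScalarTower.of_algebraMap_eq fun r => (φ.commutes r).symm
  have i3 : Algebra.FormallySmooth (MvPolynomial (Fin n) k) B := h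
  have i4 : Algebra.FiniteType k B := (Subalgebra.fg_iff_finiteType _).1 hfg
  have i5 : Algebra.FiniteType (MvPolynomial (Fin n) k) B :=
    Algebra.FiniteType.of_restrictScalars_finiteType k _ _
  have i6 : Algebra.FinitePresentation (MvPolynomial (Fin n) k) B :=
    Algebra.FinitePresentation.of_finiteType.1 i5
  have i7 : Algebra.Smooth (MvPolynomial (Fin n) k) B := { }
  have i8 : Module.Flat (MvPolynomial (Fin n) k) B := inferInstance
  exact i8

/-- The homomorphism `Z_j ↦ X^(a j)`. -/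
noncomputable def TBth (k : Type) [Field k] {n : ℕ} (a : Fin n → Fin n → ℕ) :
    MvPolynomial (Fin n) k →ₐ[k] MvPolynomial (Fin n) k :=
  MvPolynomial.aeval fun j => ∏ i, MvPolynomial.X i ^ a j i

theorem TB_th_pow (k : Type) [Field k] {n : ℕ} (a : Fin n → Fin n → ℕ) (c : Fin n → ℕ) :
    TBth k a (∏ j, MvPolynomial.X j ^ c j) =
      ∏ l, (MvPolynomial.X l : MvPolynomial (Fin n) k) ^ (∑ j, a j l * c j) := by
  rw [map_prod]
  have h1 : ∀ j, TBth k a (MvPolynomial.X j ^ c j) =
      ∏ l, (MvPolynomial.X l : MvPolynomial (Fin n) k) ^ (a j l * c j) := by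
    intro j
    rw [map_pow, TBth, MvPolynomial.aeval_X, ← Finset.prod_pow]
    refine Finset.prod_congr rfl fun l _ => ?_
    rw [pow_mul]
  rw [Finset.prod_congr rfl fun j _ => h1 j, Finset.prod_comm]
  refine Finset.prod_congr rfl fun l _ => ?_
  rw [Finset.prod_pow_eq_pow_sum]

theorem TB_th_exists (k : Type) [Field k] {n : ℕ} (a : Fin n → Fin n → ℕ)
    (b : Fin n → Fin n → ℤ) (hba : ∀ i l, ∑ j, b i j * (a j l : ℤ) = if i = l then 1 else 0)
    (r' : MvPolynomial (Fin n) k) : ∃ (N : ℕ) (r : MvPolynomial (Fin n) k),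
      TBth k a (∏ j, MvPolynomial.X j) ^ N * r' = TBth k a r := by
  classical
  induction r' using MvPolynomial.induction_on with
  | C c => exact ⟨0, MvPolynomial.C c, by
      rw [pow_zero, one_mul]
      exact ((TBth k a).commutes c).symm⟩
  | add p q hp hq =>
    obtain ⟨N1, r1, h1⟩ := hp
    obtain ⟨N2, r2, h2⟩ := hq
    refine ⟨N1 + N2, (∏ j, MvPolynomial.X j) ^ N2 * r1 + (∏ j, MvPolynomial.X j) ^ N1 * r2, ?_⟩
    rw [map_add, map_mul, map_mul, map_pow, map_pow, ← h1, ← h2]
    ring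
  | mul_X p i hp =>
    obtain ⟨N, r, h⟩ := hp
    let M : ℕ := ∑ j, (b i j).natAbs
    have hM : ∀ j, 0 ≤ b i j + M := by
      intro j
      have h1 : (b i j).natAbs ≤ M := Finset.single_le_sum (f := fun j => (b i j).natAbs)
        (fun _ _ => Nat.zero_le _) (Finset.mem_univ j)
      omega
    have h1 : TBth k a (∏ j, MvPolynomial.X j) ^ M * MvPolynomial.X i =
        TBth k a (∏ j, MvPolynomial.X j ^ (b i j + M).toNat) := by
      rw [← map_pow, ← Finset.prod_pow, TB_th_pow, TB_th_pow]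
      have h2 : (MvPolynomial.X i : MvPolynomial (Fin n) k) =
          ∏ l, MvPolynomial.X l ^ (if i = l then 1 else 0) := by
        rw [Finset.prod_eq_single i]
        · rw [if_pos rfl, pow_one]
        · intro l _ hl
          rw [if_neg (Ne.symm hl), pow_zero]
        · intro h
          exact absurd (Finset.mem_univ _) h
      conv_lhs => rw [h2]
      rw [← Finset.prod_mul_distrib]
      refine Finset.prod_congr rfl fun l _ => ?_
      rw [← pow_add]
      congr 1
      have h3 : ((∑ j, a j l * (b i j + M).toNat : ℕ) : ℤ) =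
          ((∑ j, a j l * M + if i = l then 1 else 0 : ℕ) : ℤ) := by
        push_cast
        rw [← hba i l, ← Finset.sum_add_distrib]
        refine Finset.sum_congr rfl fun j _ => ?_
        rw [Int.toNat_of_nonneg (hM j)]
        ring
      exact_mod_cast h3.symm
    refine ⟨N + M, r * ∏ j, MvPolynomial.X j ^ (b i j + M).toNat, ?_⟩
    rw [map_mul, ← h, ← h1]
    ring

variable {V : ValuationSubring K} {B : Subalgebra k K} {n : ℕ} {x z : Fin n → K}

theorem TB_smooth (hfg : B.FG) (hz : SmOver B z) {b : Fin n → Fin n → ℤ}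
    {a : Fin n → Fin n → ℕ} (ht : Toric V z x b a) :
    SmOver (Algebra.adjoin k ((B : Set K) ∪ Set.range x)) x := by
  classical
  obtain ⟨hzB, hsm⟩ := hz
  have hz0 : ∀ j, z j ≠ 0 := by
    intro j
    rw [ht.za j, mon, Finset.prod_ne_zero_iff]
    exact fun i _ => zpow_ne_zero _ (ht.ne i)
  have hxB : ∀ i, x i ∈ Algebra.adjoin k ((B : Set K) ∪ Set.range x) := fun i =>
    Algebra.subset_adjoin (Or.inr ⟨i, rfl⟩)
  have hBB : B ≤ Algebra.adjoin k ((B : Set K) ∪ Set.range x) := fun y hy =>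
    Algebra.subset_adjoin (Or.inl hy)
  refine ⟨hxB, ?_⟩
  have hba : ∀ i l, ∑ j, b i j * (a j l : ℤ) = if i = l then 1 else 0 := by
    intro i l
    have h1 : mon x (∑ j, b i j • zx (a j) - Pi.single i 1) = 1 := by
      have h2 : x i = mon x (∑ j, b i j • zx (a j)) := by
        rw [← TB_mon_sum ht.ne (fun j => zx (a j)) (b i)]
        have h3 : (fun j => mon x (zx (a j))) = z := funext fun j => (ht.za j).symm
        rw [h3]
        exact ht.xb i
      have h4 := TB_mon_add ht.ne (∑ j, b i j • zx (a j) - Pi.single i 1) (Pi.single i 1)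
      rw [sub_add_cancel, ← h2, TB_mon_single] at h4
      exact mul_right_cancel₀ (ht.ne i) (by rw [← h4, one_mul])
    have h2 := congrFun (ht.ind _ (by rw [h1, map_one])) l
    rw [Pi.sub_apply, Finset.sum_apply, Pi.zero_apply, sub_eq_zero] at h2
    simp only [Pi.smul_apply, smul_eq_mul, zx] at h2
    rw [h2, Pi.single_apply]
    simp only [eq_comm]
  refine TB_abstract (MvPolynomial.aeval (fun i => (⟨z i, hzB i⟩ : B))).toRingHom hsm
    (TB_flat hfg _ hsm) (TBth k a).toRingHom (∏ j, MvPolynomial.X j) ?_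
    (fun r' => TB_th_exists k a b hba r') (Subalgebra.inclusion hBB).toRingHom _ ?_
    (Subalgebra.inclusion_injective hBB) ?_
  · have h1 := TB_th_pow k a (fun _ => 1)
    simp only [pow_one, mul_one] at h1
    change TBth k a (∏ j, MvPolynomial.X j) ≠ 0
    rw [h1, Finset.prod_ne_zero_iff]
    exact fun l _ => pow_ne_zero _ (MvPolynomial.X_ne_zero l)
  · intro r
    have h1 : (Subalgebra.inclusion hBB).comp
        (MvPolynomial.aeval (fun i => (⟨z i, hzB i⟩ : B))) =
        (MvPolynomial.aeval (fun i => (⟨x i, hxB i⟩ :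
          (Algebra.adjoin k ((B : Set K) ∪ Set.range x) : Subalgebra k K)))).comp (TBth k a) := by
      refine MvPolynomial.algHom_ext fun j => Subtype.ext ?_
      rw [AlgHom.comp_apply, AlgHom.comp_apply, MvPolynomial.aeval_X, TBth, MvPolynomial.aeval_X,
        map_prod]
      change z j = _
      rw [ht.za j, mon]
      simp only [map_pow, MvPolynomial.aeval_X]
      rw [SubmonoidClass.coe_finsetProd]
      exact Finset.prod_congr rfl fun i _ => by simp [zx]
    exact AlgHom.congr_fun h1 r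
  · rw [eq_top_iff]
    rintro ⟨y, hy⟩ -
    have hy' := hy
    revert hy'
    refine Algebra.adjoin_induction (p := fun y hy => ∀ hy' : y ∈ Algebra.adjoin k
      ((B : Set K) ∪ Set.range x), (⟨y, hy'⟩ : (Algebra.adjoin k
      ((B : Set K) ∪ Set.range x) : Subalgebra k K)) ∈ _) ?_ ?_ ?_ ?_ hy
    · rintro y (hy | ⟨i, rfl⟩) hy'
      · exact Subring.subset_closure (Or.inl ⟨⟨y, hy⟩, rfl⟩)
      · exact Subring.subset_closure (Or.inr ⟨MvPolynomial.X i, MvPolynomial.aeval_X _ _⟩)
    · intro r hy'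
      exact Subring.subset_closure (Or.inl ⟨algebraMap k B r, rfl⟩)
    · intro y w hy hw h1 h2 hyw
      exact Subring.add_mem _ (h1 hy) (h2 hw)
    · intro y w hy hw h1 h2 hyw
      exact Subring.mul_mem _ (h1 hy) (h2 hw)


theorem Loc.toric (h : Loc V B z) (hind : Ind V z) {b : Fin n → Fin n → ℤ}
    {a : Fin n → Fin n → ℕ} (ht : Toric V z x b a) :
    Loc V (Algebra.adjoin k ((B : Set K) ∪ Set.range x)) x := by
  classical
  have hBB : B ≤ Algebra.adjoin k ((B : Set K) ∪ Set.range x) := fun y hy =>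
    Algebra.subset_adjoin (Or.inl hy)
  have hxB : ∀ i, x i ∈ Algebra.adjoin k ((B : Set K) ∪ Set.range x) := fun i =>
    Algebra.subset_adjoin (Or.inr ⟨i, rfl⟩)
  have hself : ∀ y ∈ Algebra.adjoin k ((B : Set K) ∪ Set.range x),
      y ∈ locV V (Algebra.adjoin k ((B : Set K) ∪ Set.range x)) := fun y hy =>
    ⟨y, hy, 1, Subalgebra.one_mem _, map_one _, (div_one y).symm⟩
  have hmem : ∀ y ∈ Algebra.adjoin k ((B : Set K) ∪ Set.range x), y ∈ V := by
    intro y hy
    refine Algebra.adjoin_induction (p := fun y _ => y ∈ V) ?_ ?_ ?_ ?_ hy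
    · rintro y (hy | ⟨i, rfl⟩)
      · exact h.mem y hy
      · exact (V.valuation_le_one_iff _).1 (ht.pos i).le
    · intro r
      exact h.mem _ (B.algebraMap_mem r)
    · intro y w _ _ hy hw
      exact V.add_mem _ _ hy hw
    · intro y w _ _ hy hw
      exact V.mul_mem _ _ hy hw
  refine ⟨?_, hmem, ht.ne, ht.pos, ?_, TB_smooth h.fg h.sm ht⟩
  · obtain ⟨s, hs⟩ := h.fg
    refine ⟨s ∪ Finset.univ.image x, le_antisymm (Algebra.adjoin_le ?_) (Algebra.adjoin_le ?_)⟩
    · intro y hy
      rw [Finset.coe_union, Finset.coe_image, Finset.coe_univ, Set.image_univ] at hy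
      rcases hy with hy | hy
      · refine hBB ?_
        rw [← hs]
        exact Algebra.subset_adjoin hy
      · exact Algebra.subset_adjoin (Or.inr hy)
    · rintro y (hy | hy)
      · have h1 : B ≤ Algebra.adjoin k (↑(s ∪ Finset.univ.image x) : Set K) := by
          rw [← hs]
          refine Algebra.adjoin_mono ?_
          rw [Finset.coe_union]
          exact Set.subset_union_left
        exact h1 hy
      · refine Algebra.subset_adjoin ?_
        rw [Finset.coe_union, Finset.coe_image, Finset.coe_univ, Set.image_univ]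
        exact Or.inr hy
  · -- generators of the maximal ideal
    set B' := Algebra.adjoin k ((B : Set K) ∪ Set.range x) with hB'
    let J : Submodule (locV V B') K := Submodule.span (locV V B') (Set.range x)
    have hJ : ∀ f ∈ J, ∃ a : Fin n → K, (∀ i, a i ∈ locV V B') ∧ f = ∑ i, a i * x i := by
      intro f hf
      obtain ⟨c, hc⟩ := (Submodule.mem_span_range_iff_exists_fun (locV V B')).1 hf
      exact ⟨fun i => (c i : K), fun i => (c i).2, hc.symm⟩
    have hJmul : ∀ c ∈ locV V B', ∀ f ∈ J, c * f ∈ J := fun c hc f hf =>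
      J.smul_mem ⟨c, hc⟩ hf
    have hxJ : ∀ i, x i ∈ J := fun i => Submodule.subset_span ⟨i, rfl⟩
    -- decomposition
    have hdec : ∀ y ∈ B', ∃ b₀ ∈ B, y - b₀ ∈ J := by
      intro y hy
      refine Algebra.adjoin_induction (p := fun y _ => ∃ b₀ ∈ B, y - b₀ ∈ J) ?_ ?_ ?_ ?_ hy
      · rintro y (hy | ⟨i, rfl⟩)
        · exact ⟨y, hy, by rw [sub_self]; exact J.zero_mem⟩
        · exact ⟨0, B.zero_mem, by rw [sub_zero]; exact hxJ i⟩
      · intro r
        exact ⟨_, B.algebraMap_mem r, by rw [sub_self]; exact J.zero_mem⟩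
      · rintro y w _ _ ⟨b1, hb1, h1⟩ ⟨b2, hb2, h2⟩
        refine ⟨b1 + b2, B.add_mem hb1 hb2, ?_⟩
        rw [add_sub_add_comm]
        exact J.add_mem h1 h2
      · rintro y w hy hw ⟨b1, hb1, h1⟩ ⟨b2, hb2, h2⟩
        refine ⟨b1 * b2, B.mul_mem hb1 hb2, ?_⟩
        have h3 : y * w - b1 * b2 = y * (w - b2) + b2 * (y - b1) := by ring
        rw [h3]
        exact J.add_mem (hJmul _ (hself _ hy) _ h2) (hJmul _ (hself _ (hBB hb2)) _ h1)
    have hzJ : ∀ j, z j ∈ J := by
      intro j
      have h1 : ∃ i, a j i ≠ 0 := by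
        by_contra hcon
        push Not at hcon
        have h2 : z j = 1 := by
          rw [ht.za j, mon]
          refine Finset.prod_eq_one fun i _ => ?_
          rw [zx, hcon i]
          simp
        have h3 := h.pos j
        rw [h2, map_one] at h3
        exact lt_irrefl _ h3
      obtain ⟨i, hi⟩ := h1
      have h2 : z j = mon x (zx (a j - Pi.single i 1)) * x i := by
        rw [← TB_mon_single x i, ← TB_mon_add ht.ne, ht.za j]
        congr 1
        funext l
        simp only [zx, Pi.sub_apply, Pi.add_apply]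
        by_cases hl : l = i
        · subst hl
          rw [Pi.single_eq_same, Pi.single_eq_same]
          push_cast [Nat.one_le_iff_ne_zero.2 hi]
          ring
        · rw [Pi.single_eq_of_ne hl, Pi.single_eq_of_ne hl]
          simp
      rw [h2]
      refine hJmul _ (hself _ ?_) _ (hxJ i)
      rw [mon]
      refine Subalgebra.prod_mem _ fun l _ => ?_
      rw [zx, zpow_natCast]
      exact Subalgebra.pow_mem _ (hxB l) _
    rintro f ⟨p, hp, q, hq, hvq, rfl⟩ hf
    have hq0 : q ≠ 0 := by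
      rintro rfl
      rw [map_zero] at hvq
      exact zero_ne_one hvq
    have hvp : V.valuation p < 1 := by
      rw [map_div₀, hvq, div_one] at hf
      exact hf
    obtain ⟨b₀, hb₀, hpb⟩ := hdec p hp
    have hval : ∀ y ∈ J, V.valuation y < 1 := by
      intro y hy
      obtain ⟨c, hc, rfl⟩ := hJ y hy
      have hlt : ∀ i ∈ Finset.univ, V.valuation (c i * x i) < 1 := by
        intro i _
        obtain ⟨p, hp, q, hq, hvq, hpq⟩ := hc i
        rw [map_mul, hpq, map_div₀, hvq, div_one]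
        exact mul_lt_one_of_nonneg_of_lt_one_right
          ((V.valuation_le_one_iff _).2 (hmem p hp)) zero_le (ht.pos i)
      exact V.valuation.map_sum_lt (one_ne_zero) hlt
    have hb1 : V.valuation b₀ < 1 := by
      have h1 : b₀ = p - (p - b₀) := by ring
      rw [h1]
      exact lt_of_le_of_lt (V.valuation.map_sub _ _) (max_lt hvp (hval _ hpb))
    obtain ⟨c, hc, hbc⟩ := h.gen b₀ ⟨b₀, hb₀, 1, B.one_mem, map_one _, (div_one _).symm⟩ hb1
    have hbJ : b₀ ∈ J := by
      rw [hbc]
      refine J.sum_mem fun j _ => ?_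
      refine hJmul _ ?_ _ (hzJ j)
      obtain ⟨p, hp, q, hq, hvq, hpq⟩ := hc j
      exact ⟨p, hBB hp, q, hBB hq, hvq, hpq⟩
    apply hJ
    have h1 : p / q = (1 / q) * ((p - b₀) + b₀) := by
      rw [sub_add_cancel]
      ring
    rw [h1]
    refine hJmul _ ⟨1, Subalgebra.one_mem _, q, hq, hvq, rfl⟩ _ (J.add_mem hpb hbJ)

end Pool.Agent.MP_b525bf_ag_E
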