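import Pool.Agent.Lib.MP_b525bf_ag_E.Defs

/-!
# Theorem E, row US
Recipe (totally ordered groups are ultrasimplicial, elementary). By induction it suffices to find
for ONE exponent `e` with `V.valuation (mon z e) ≤ 1` a finite sequence of substitutions
`z i := z i' * z j` (for `i ≠ j`, `V.valuation (z i) < V.valuation (z j)`, so
`z i' = z i / z j` has value `< 1`) after which `e` has exponents `≥ 0`; exponents which are already
`≥ 0` stay `≥ 0`, because the new exponents are `e j' = e j + e i`, the others are unchanged
(`Toric` is transitive). For one `e`: if `e` has both signs, let `i` be an index with `|e i|`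
maximal and `j` an index with `e j` of the opposite sign. `V.valuation (z i) ≠ V.valuation (z j)` by
`hind`. If `V.valuation (z j) < V.valuation (z i)` replace `z j` by `z j / z i`: `e i' = e i + e j`
has smaller absolute value; otherwise replace `z i` by `z i / z j`: `e j' = e i + e j`, which has the
sign of `e i` or is zero. The triple (max |e|, number of indices with maximal |e|, number of indices
with sign opposite to the sign of e i [keep i]) decreases lexicographically. If all exponents have
the same sign then they are `≥ 0`, unless `e ≤ 0`, `e ≠ 0`, where the value would be `> 1`.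
-/

set_option autoImplicit false
set_option linter.unusedVariables false

namespace Pool.Agent.MP_b525bf_ag_E

open Pool.Agent.LU2 Pool.Agent.MP_b525bf_ag Pool.Agent.MP_b525bf_ag_W

variable {k K : Type} [Field k] [Field K] [Algebra k K] {G : Subgroup (K ≃ₐ[k] K)}
  {A : Subalgebra k K}

variable {V : ValuationSubring K} {B : Subalgebra k K} {n : ℕ} {x z : Fin n → K}

namespace US

private lemma mon_ne {x : Fin n → K} (h : ∀ i, x i ≠ 0) (e : Fin n → ℤ) : mon x e ≠ 0 :=
  Finset.prod_ne_zero_iff.mpr fun i _ => zpow_ne_zero _ (h i)

private lemma mon_zero (x : Fin n → K) : mon x 0 = 1 := by simp [mon]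

private lemma mon_add {x : Fin n → K} (h : ∀ i, x i ≠ 0) (e f : Fin n → ℤ) :
    mon x (e + f) = mon x e * mon x f := by
  unfold mon
  rw [← Finset.prod_mul_distrib]
  exact Finset.prod_congr rfl fun i _ => zpow_add₀ (h i) _ _

private lemma mon_neg {x : Fin n → K} (e : Fin n → ℤ) : mon x (-e) = (mon x e)⁻¹ := by
  unfold mon
  rw [← Finset.prod_inv_distrib]
  exact Finset.prod_congr rfl fun i _ => by rw [Pi.neg_apply, zpow_neg]

private lemma mon_sub {x : Fin n → K} (h : ∀ i, x i ≠ 0) (e f : Fin n → ℤ) :
    mon x (e - f) = mon x e / mon x f := by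
  rw [sub_eq_add_neg, mon_add h, mon_neg, div_eq_mul_inv]

private lemma mon_zsmul {x : Fin n → K} (c : ℤ) (e : Fin n → ℤ) :
    mon x (c • e) = mon x e ^ c := by
  unfold mon
  rw [← Finset.prod_zpow]
  refine Finset.prod_congr rfl fun i _ => ?_
  rw [Pi.smul_apply, smul_eq_mul, mul_comm, zpow_mul]

private lemma mon_sum {x : Fin n → K} (h : ∀ i, x i ≠ 0) {ι : Type*} (s : Finset ι)
    (f : ι → Fin n → ℤ) : mon x (∑ j ∈ s, f j) = ∏ j ∈ s, mon x (f j) := by
  classical
  induction s using Finset.induction_on with
  | empty => simp [mon_zero]
  | insert a s ha ih => rw [Finset.sum_insert ha, Finset.prod_insert ha, mon_add h, ih]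

private lemma mon_single {x : Fin n → K} (i : Fin n) : mon x (Pi.single i 1) = x i := by
  classical
  unfold mon
  rw [Finset.prod_eq_single i]
  · rw [Pi.single_eq_same, zpow_one]
  · intro l _ hl
    rw [Pi.single_eq_of_ne hl, zpow_zero]
  · intro h
    exact absurd (Finset.mem_univ i) h

private lemma mon_step {x : Fin n → K} (h : ∀ i, x i ≠ 0) {i j : Fin n} (hij : i ≠ j)
    (β : Fin n → ℤ) :
    mon x β = mon (Function.update x i (x i / x j)) (Function.update β j (β j + β i)) := by
  classical
  unfold mon
  have hx' : ∀ l, Function.update x i (x i / x j) l ≠ 0 := by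
    intro l
    by_cases hl : l = i
    · subst hl
      rw [Function.update_self]
      exact div_ne_zero (h _) (h _)
    · rw [Function.update_of_ne hl]
      exact h l
  rw [← div_eq_one_iff_eq (Finset.prod_ne_zero_iff.mpr fun l _ => zpow_ne_zero _ (hx' l)),
    ← Finset.prod_div_distrib]
  rw [Finset.prod_eq_mul i j hij]
  · rw [Function.update_self, Function.update_of_ne hij, Function.update_of_ne hij.symm,
      Function.update_self, div_zpow, zpow_add₀ (h j)]
    have h1 := zpow_ne_zero (β i) (h i)
    have h2 := zpow_ne_zero (β i) (h j)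
    have h3 := zpow_ne_zero (β j) (h j)
    field_simp
  · rintro l _ ⟨h1, h2⟩
    rw [Function.update_of_ne h1, Function.update_of_ne h2]
    exact div_self (zpow_ne_zero _ (h l))
  · intro h'
    exact absurd (Finset.mem_univ i) h'
  · intro h'
    exact absurd (Finset.mem_univ j) h'

/-- reachable systems -/
private def St (V : ValuationSubring K) (z x : Fin n → K) : Prop :=
  ∃ (b : Fin n → Fin n → ℤ) (a : Fin n → Fin n → ℕ), Toric V z x b a

private lemma St.refl (h0 : ∀ i, z i ≠ 0) (hpos : ∀ i, V.valuation (z i) < 1) (hind : Ind V z) :
    St V z z := by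
  classical
  refine ⟨fun i => Pi.single i 1, fun i => Pi.single i 1, fun i => (mon_single i).symm, ?_, h0,
    hpos, hind⟩
  intro j
  have : zx (Pi.single j 1 : Fin n → ℕ) = Pi.single j 1 := by
    ext l
    by_cases hl : l = j
    · subst hl; simp [zx]
    · simp [zx, Pi.single_eq_of_ne hl]
  rw [this, mon_single]

private lemma St.step {x : Fin n → K} (hx : St V z x) {i j : Fin n} (hij : i ≠ j)
    (hv : V.valuation (x i) < V.valuation (x j)) :
    St V z (Function.update x i (x i / x j)) := by
  classical
  obtain ⟨b, a, hT⟩ := hx
  have hz0 : ∀ i, z i ≠ 0 := by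
    intro l
    rw [hT.za l]
    exact mon_ne hT.ne _
  refine ⟨Function.update b i (b i - b j), fun l => Function.update (a l) j (a l j + a l i),
    ?_, ?_, ?_, ?_, ?_⟩
  · intro l
    by_cases hl : l = i
    · subst hl
      rw [Function.update_self, Function.update_self, mon_sub hz0, ← hT.xb, ← hT.xb]
    · rw [Function.update_of_ne hl, Function.update_of_ne hl]
      exact hT.xb l
  · intro l
    rw [hT.za l, mon_step hT.ne hij]
    congr 1
    ext m
    by_cases hm : m = j
    · subst hm
      simp [zx]
    · simp [zx, Function.update_of_ne hm]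
  · intro l
    by_cases hl : l = i
    · subst hl
      rw [Function.update_self]
      exact div_ne_zero (hT.ne _) (hT.ne _)
    · rw [Function.update_of_ne hl]
      exact hT.ne l
  · intro l
    by_cases hl : l = i
    · subst hl
      rw [Function.update_self, map_div₀]
      have h1 : 0 < V.valuation (x j) := by
        rw [zero_lt_iff]
        exact (map_ne_zero _).mpr (hT.ne j)
      exact (div_lt_one₀ h1).mpr hv
    · rw [Function.update_of_ne hl]
      exact hT.pos l
  · intro e he
    have h1 := mon_step hT.ne hij (Function.update e j (e j - e i))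
    rw [Function.update_self, Function.update_of_ne hij, sub_add_cancel,
      Function.update_idem, Function.update_eq_self] at h1
    rw [← h1] at he
    have h2 := hT.ind _ he
    have h3 : e i = 0 := by
      have := congrFun h2 i
      rwa [Function.update_of_ne hij] at this
    ext l
    by_cases hl : l = j
    · subst hl
      have := congrFun h2 l
      rw [Function.update_self, h3, sub_zero] at this
      exact this
    · have := congrFun h2 l
      rwa [Function.update_of_ne hl] at this

/-- nonnegative exponents stay nonnegative -/
private def Up (x x' : Fin n → K) : Prop :=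
  ∀ β : Fin n → ℕ, ∃ β' : Fin n → ℕ, mon x (zx β) = mon x' (zx β')

private lemma Up.step {x : Fin n → K} (h : ∀ i, x i ≠ 0) {i j : Fin n} (hij : i ≠ j) :
    Up x (Function.update x i (x i / x j)) := by
  classical
  intro β
  refine ⟨Function.update β j (β j + β i), ?_⟩
  rw [mon_step h hij]
  congr 1
  ext m
  by_cases hm : m = j
  · subst hm
    simp [zx]
  · simp [zx, Function.update_of_ne hm]

/-- the statement for one exponent vector -/
private def Con (V : ValuationSubring K) (z x : Fin n → K) (e : Fin n → ℤ) : Prop :=
  ∃ x' : Fin n → K, St V z x' ∧ Up x x' ∧ ∃ α : Fin n → ℕ, mon x e = mon x' (zx α)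

private lemma Con.step {x : Fin n → K} (hx : ∀ i, x i ≠ 0) {i j : Fin n} (hij : i ≠ j)
    {e : Fin n → ℤ}
    (h : Con V z (Function.update x i (x i / x j)) (Function.update e j (e j + e i))) :
    Con V z x e := by
  obtain ⟨x', h1, h2, α, h3⟩ := h
  refine ⟨x', h1, fun β => ?_, α, ?_⟩
  · obtain ⟨β', hβ'⟩ := Up.step hx hij β
    obtain ⟨β'', hβ''⟩ := h2 β'
    exact ⟨β'', hβ'.trans hβ''⟩
  · rw [mon_step hx hij, h3]

private lemma con_nonneg {x : Fin n → K} (hx : St V z x) {e : Fin n → ℤ} (he : ∀ l, 0 ≤ e l) :
    Con V z x e := by
  refine ⟨x, hx, fun β => ⟨β, rfl⟩, fun l => (e l).toNat, ?_⟩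
  congr 1
  ext l
  exact (Int.toNat_of_nonneg (he l)).symm

private lemma val_mon_le {x : Fin n → K} (hx : ∀ i, V.valuation (x i) < 1) {e : Fin n → ℤ}
    (he : ∀ l, 0 ≤ e l) : V.valuation (mon x e) ≤ 1 := by
  unfold mon
  rw [map_prod]
  refine Finset.prod_le_one' fun l _ => ?_
  obtain ⟨m, hm⟩ := Int.eq_ofNat_of_zero_le (he l)
  rw [hm, zpow_natCast, map_pow]
  exact pow_le_one' (hx l).le m

open Classical in
private lemma inner (M c : ℕ) (i : Fin n)
    (ih : ∀ (x : Fin n → K) (e : Fin n → ℤ), St V z x → V.valuation (mon x e) ≤ 1 →
      (∀ l, (e l).natAbs ≤ M) →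
      (Finset.univ.filter fun l => (e l).natAbs = M).card < c → Con V z x e) :
    ∀ (d : ℕ) (x : Fin n → K) (e : Fin n → ℤ), St V z x → V.valuation (mon x e) ≤ 1 →
      (∀ l, (e l).natAbs ≤ M) → (Finset.univ.filter fun l => (e l).natAbs = M).card ≤ c →
      (e i).natAbs = M → (Finset.univ.filter fun l => e l * e i < 0).card ≤ d → 0 < M →
      Con V z x e := by
  intro d
  induction d with
  | zero =>
    intro x e hx hv hM hc hi hd hM0
    have hd' : ∀ l, 0 ≤ e l * e i := by
      intro l
      by_contra hl
      have : l ∈ Finset.univ.filter fun l => e l * e i < 0 :=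
        Finset.mem_filter.mpr ⟨Finset.mem_univ _, not_le.mp hl⟩
      have h1 := Finset.card_pos.mpr ⟨l, this⟩
      omega
    rcases lt_trichotomy (e i) 0 with h | h | h
    · exfalso
      obtain ⟨b, a, hT⟩ := hx
      have h1 : ∀ l, 0 ≤ (-e) l := by
        intro l
        have := hd' l
        rw [Pi.neg_apply]
        nlinarith
      have h2 := val_mon_le hT.pos h1
      rw [mon_neg, map_inv₀] at h2
      have h3 : V.valuation (mon x e) = 1 := by
        refine le_antisymm hv ?_
        have h4 : V.valuation (mon x e) ≠ 0 := (map_ne_zero _).mpr (mon_ne hT.ne e)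
        exact (inv_le_one₀ (zero_lt_iff.mpr h4)).mp h2
      have h5 := hT.ind e h3
      rw [h5] at h
      exact lt_irrefl _ h
    · rw [h] at hi
      simp at hi
      omega
    · refine con_nonneg hx fun l => ?_
      have := hd' l
      by_contra hl
      nlinarith [not_le.mp hl]
  | succ d ihd =>
    intro x e hx hv hM hc hi hd hM0
    by_cases hop : ∃ j, e j * e i < 0
    swap
    · refine ihd x e hx hv hM hc hi ?_ hM0
      have : (Finset.univ.filter fun l => e l * e i < 0) = ∅ := by
        rw [Finset.eq_empty_iff_forall_notMem]
        intro l hl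
        exact hop ⟨l, (Finset.mem_filter.mp hl).2⟩
      rw [this, Finset.card_empty]
      exact Nat.zero_le _
    obtain ⟨j, hj⟩ := hop
    have hij : i ≠ j := by
      rintro rfl
      nlinarith [mul_self_nonneg (e i)]
    obtain ⟨b, a, hT⟩ := id hx
    have habs : (e i + e j).natAbs < M := by
      have h1 := hM j
      rcases lt_trichotomy (e i) 0 with h | h | h
      · have h2 : 0 < e j := by by_contra h3; nlinarith [not_lt.mp h3]
        omega
      · rw [h] at hj; simp at hj
      · have h2 : e j < 0 := by by_contra h3; nlinarith [not_lt.mp h3]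
        omega
    have hne : V.valuation (x i) ≠ V.valuation (x j) := by
      intro h
      have h1 : V.valuation (mon x (Pi.single i 1 - Pi.single j 1)) = 1 := by
        rw [mon_sub hT.ne, mon_single, mon_single, map_div₀, h]
        exact div_self ((map_ne_zero _).mpr (hT.ne j))
      have h2 := congrFun (hT.ind _ h1) i
      rw [Pi.sub_apply, Pi.single_eq_same, Pi.single_eq_of_ne hij] at h2
      simp at h2
    rcases lt_or_gt_of_ne hne with hlt | hlt
    · -- replace x i by x i / x j
      refine Con.step hT.ne hij ?_
      refine ihd _ _ (hx.step hij hlt) ?_ ?_ ?_ ?_ ?_ hM0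
      · rwa [← mon_step hT.ne hij]
      · intro l
        by_cases hl : l = j
        · subst hl
          rw [Function.update_self, add_comm]
          exact habs.le
        · rw [Function.update_of_ne hl]
          exact hM l
      · refine (Finset.card_le_card fun l hl => ?_).trans hc
        rw [Finset.mem_filter] at hl ⊢
        refine ⟨Finset.mem_univ _, ?_⟩
        by_cases hlj : l = j
        · subst hlj
          rw [Function.update_self, add_comm] at hl
          exact absurd hl.2 habs.ne
        · rw [Function.update_of_ne hlj] at hl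
          exact hl.2
      · rwa [Function.update_of_ne hij]
      · rw [Function.update_of_ne hij]
        have h1 : (Finset.univ.filter fun l => Function.update e j (e j + e i) l * e i < 0)
            ⊂ Finset.univ.filter fun l => e l * e i < 0 := by
          rw [Finset.ssubset_iff_of_subset]
          · refine ⟨j, Finset.mem_filter.mpr ⟨Finset.mem_univ _, hj⟩, fun h => ?_⟩
            rw [Finset.mem_filter, Function.update_self] at h
            have h2 := h.2
            have h1 := hM j
            rcases lt_trichotomy (e i) 0 with h | h | h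
            · have h3 : 0 < e j := by by_contra h3; nlinarith [not_lt.mp h3]
              have h4 : e j + e i ≤ 0 := by omega
              nlinarith
            · rw [h] at hj; simp at hj
            · have h3 : e j < 0 := by by_contra h3; nlinarith [not_lt.mp h3]
              have h4 : 0 ≤ e j + e i := by omega
              nlinarith
          · intro l hl
            rw [Finset.mem_filter] at hl ⊢
            refine ⟨Finset.mem_univ _, ?_⟩
            by_cases hlj : l = j
            · rw [hlj]; exact hj
            · rw [Function.update_of_ne hlj] at hl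
              exact hl.2
        have h2 := Finset.card_lt_card h1
        omega
    · -- replace x j by x j / x i
      refine Con.step hT.ne hij.symm ?_
      refine ih _ _ (hx.step hij.symm hlt) ?_ ?_ ?_
      · rwa [← mon_step hT.ne hij.symm]
      · intro l
        by_cases hl : l = i
        · subst hl
          rw [Function.update_self]
          exact habs.le
        · rw [Function.update_of_ne hl]
          exact hM l
      · have h1 : (Finset.univ.filter fun l => (Function.update e i (e i + e j) l).natAbs = M)
            ⊂ Finset.univ.filter fun l => (e l).natAbs = M := by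
          rw [Finset.ssubset_iff_of_subset]
          · refine ⟨i, Finset.mem_filter.mpr ⟨Finset.mem_univ _, hi⟩, fun h => ?_⟩
            rw [Finset.mem_filter, Function.update_self] at h
            exact habs.ne h.2
          · intro l hl
            rw [Finset.mem_filter] at hl ⊢
            refine ⟨Finset.mem_univ _, ?_⟩
            by_cases hli : l = i
            · rw [hli]; exact hi
            · rw [Function.update_of_ne hli] at hl
              exact hl.2
        exact (Finset.card_lt_card h1).trans_le hc

open Classical in
private lemma outer : ∀ (M : ℕ) (x : Fin n → K) (e : Fin n → ℤ), St V z x →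
    V.valuation (mon x e) ≤ 1 → (∀ l, (e l).natAbs ≤ M) → Con V z x e := by
  intro M
  induction M with
  | zero =>
    intro x e hx _ hM
    refine con_nonneg hx fun l => ?_
    have := hM l
    omega
  | succ M ihM =>
    have key : ∀ (c : ℕ) (x : Fin n → K) (e : Fin n → ℤ), St V z x →
        V.valuation (mon x e) ≤ 1 → (∀ l, (e l).natAbs ≤ M + 1) →
        (Finset.univ.filter fun l => (e l).natAbs = M + 1).card ≤ c → Con V z x e := by
      intro c
      induction c with
      | zero =>
        intro x e hx hv hM hc
        refine ihM x e hx hv fun l => ?_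
        have h1 := hM l
        have h2 : (e l).natAbs ≠ M + 1 := by
          intro h
          have h0 : l ∈ Finset.univ.filter (fun l => (e l).natAbs = M + 1) :=
            Finset.mem_filter.mpr ⟨Finset.mem_univ l, h⟩
          have h3 := Finset.card_pos.mpr ⟨l, h0⟩
          have h4 := h3.trans_le hc
          exact lt_irrefl _ h4
        omega
      | succ c ihc =>
        intro x e hx hv hM hc
        by_cases h : ∃ i, (e i).natAbs = M + 1
        · obtain ⟨i, hi⟩ := h
          refine inner (M + 1) (c + 1) i (fun x' e' h1 h2 h3 h4 => ihc x' e' h1 h2 h3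
            (Nat.lt_succ_iff.mp h4)) _ x e hx hv hM hc hi le_rfl (Nat.succ_pos M)
        · refine ihM x e hx hv fun l => ?_
          have h1 := hM l
          have h2 : (e l).natAbs ≠ M + 1 := fun h' => h ⟨l, h'⟩
          omega
    intro x e hx hv hM
    exact key _ x e hx hv hM le_rfl

end US

theorem exists_toric (h0 : ∀ i, z i ≠ 0) (hpos : ∀ i, V.valuation (z i) < 1) (hind : Ind V z)
    (E : Finset (Fin n → ℤ)) (hE : ∀ e ∈ E, V.valuation (mon z e) ≤ 1) :
    ∃ (x : Fin n → K) (b : Fin n → Fin n → ℤ) (a : Fin n → Fin n → ℕ), Toric V z x b a ∧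
      ∀ e ∈ E, ∃ α : Fin n → ℕ, mon z e = mon x (zx α) := by
  classical
  have key : ∃ x : Fin n → K, US.St V z x ∧
      ∀ e ∈ E, ∃ α : Fin n → ℕ, mon z e = mon x (zx α) := by
    induction E using Finset.induction_on with
    | empty => exact ⟨z, US.St.refl h0 hpos hind, fun e he => absurd he (Finset.notMem_empty e)⟩
    | insert e E _ ih =>
      obtain ⟨x, hx, hxE⟩ := ih fun e he => hE e (Finset.mem_insert_of_mem he)
      obtain ⟨b, a, hT⟩ := id hx
      -- the exponents of `mon z e` in terms of `x`
      have h1 : mon z e = mon x (∑ j, e j • zx (a j)) := by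
        rw [US.mon_sum hT.ne]
        refine Finset.prod_congr rfl fun j _ => ?_
        rw [US.mon_zsmul, ← hT.za]
      have h2 : V.valuation (mon x (∑ j, e j • zx (a j))) ≤ 1 := by
        rw [← h1]
        exact hE e (Finset.mem_insert_self e E)
      obtain ⟨x', hx', hup, α, hα⟩ := US.outer
        (Finset.univ.sup fun l => ((∑ j, e j • zx (a j)) l).natAbs) x _ hx h2
        (fun l => Finset.le_sup (f := fun l => ((∑ j, e j • zx (a j)) l).natAbs)
          (Finset.mem_univ l))
      refine ⟨x', hx', fun f hf => ?_⟩
      rcases Finset.mem_insert.mp hf with rfl | hf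
      · exact ⟨α, h1.trans hα⟩
      · obtain ⟨β, hβ⟩ := hxE f hf
        obtain ⟨β', hβ'⟩ := hup β
        exact ⟨β', hβ.trans hβ'⟩
  obtain ⟨x, ⟨b, a, hT⟩, hx⟩ := key
  exact ⟨x, b, a, hT, hx⟩

end Pool.Agent.MP_b525bf_ag_E
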