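import Pool.Agent.Lib.MP_b525bf_ag_E.REP
import Pool.Agent.Lib.MP_b525bf_ag_E.US
import Pool.Agent.Lib.MP_b525bf_ag_E.TB

/-!
# Theorem E, row GST
Recipe. (0) `B` is generated by finitely many `c_i / d_i` with `c_i, d_i ∈ A` nonzero (`h.frac`),
`z j = a_j / b_j` with `a_j, b_j ∈ A` nonzero. Let `L ⊆ A` be the finite set of all
`a_j, b_j, c_i, d_i`. (1) For `l ∈ L` the `A`-submodule `orb G A l ≤ A` is finitely generated
(`A` is Noetherian), so it is generated by finitely many `g l`, `g ∈ Γ_l` (finite, `1 ∈ Γ_l`). For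
`g ∈ Γ_l`, `g l ∈ A ⊆ B`, `g l ≠ 0`; by `hB.exists_rep` (row REP) `g l = ∑ α ∈ S, c α * z^α` with
units `c α`; by `hind` the values of the `z^α`, `α ∈ S`, are pairwise distinct, so
`V.valuation (g l)` is the value of exactly one `z^(α₀)`, the largest. Since
`V.valuation (g l) = V.valuation l` the exponent `α₀ = α₀(l)` is the same for all `g` (by `hind`).
(2) Let `E` be the finite set of all `α - α₀(l)`; apply row US (`exists_toric`), get `x`, and row TB
(`Loc.toric`): `B' := B[x]`, `Loc V B' x`. Then `mon z (α - α₀(l)) = mon x (zx _) ∈ B'`, so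
`g l / z^(α₀(l)) ∈ locV V B'` has value one, is a unit of `R' := locV V B'`; so `g l / l ∈ R'` for
`g ∈ Γ_l`. For every `g ∈ G`, `g l = ∑ a_i (g_i l)` with `a_i ∈ A`, so `g l / l ∈ R'`, of value one,
so also `l / g l ∈ R'`. (3) Hence `g (c_i / d_i) ∈ R'`, `g (z j) / z j ∈ R'` (unit),
`g (x i) / x i = ∏ (g z_j / z_j)^(b i j) ∈ R'`; so `g B' ⊆ R'` and, because `g` preserves the
valuation, `g R' ⊆ R'`. `A ≤ B ≤ B'`.
-/

set_option autoImplicit false
set_option linter.unusedVariables false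

namespace Pool.Agent.MP_b525bf_ag_E

open Pool.Agent.LU2 Pool.Agent.MP_b525bf_ag Pool.Agent.MP_b525bf_ag_W

variable {k K : Type} [Field k] [Field K] [Algebra k K] {G : Subgroup (K ≃ₐ[k] K)}
  {A : Subalgebra k K}

variable {V : ValuationSubring K} {B : Subalgebra k K} {n : ℕ} {x z : Fin n → K}


private theorem gst_mon_add (hx : ∀ i, x i ≠ 0) (a b : Fin n → ℤ) :
    mon x (a + b) = mon x a * mon x b := by
  unfold mon
  rw [← Finset.prod_mul_distrib]
  exact Finset.prod_congr rfl fun i _ => zpow_add₀ (hx i) _ _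

private theorem gst_mon_ne (hx : ∀ i, x i ≠ 0) (a : Fin n → ℤ) : mon x a ≠ 0 :=
  Finset.prod_ne_zero_iff.2 fun i _ => zpow_ne_zero _ (hx i)

private theorem gst_mon_sub (hx : ∀ i, x i ≠ 0) (a b : Fin n → ℤ) :
    mon x (a - b) = mon x a / mon x b := by
  rw [eq_div_iff (gst_mon_ne hx b), ← gst_mon_add hx, sub_add_cancel]

private theorem gst_zpow {R : Subalgebra k K}
    (hR : ∀ f ∈ R, V.valuation f = 1 → f⁻¹ ∈ R) {a : K}
    (ha : a ∈ R) (h1 : V.valuation a = 1) (e : ℤ) : a ^ e ∈ R ∧ V.valuation (a ^ e) = 1 := by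
  refine ⟨?_, by rw [map_zpow₀, h1, one_zpow]⟩
  rcases Int.eq_nat_or_neg e with ⟨m, rfl | rfl⟩
  · rw [zpow_natCast]; exact R.pow_mem ha m
  · rw [zpow_neg, zpow_natCast, ← inv_pow]; exact R.pow_mem (hR a ha h1) m

/-- the leading monomial -/
private theorem gst_lead (hz : ∀ i, z i ≠ 0) (hind : Ind V z) {S : Finset (Fin n → ℕ)}
    (hS : S.Nonempty) {c : (Fin n → ℕ) → K} (hc : ∀ α ∈ S, V.valuation (c α) = 1) :
    ∃ α₀ ∈ S, V.valuation (∑ α ∈ S, c α * mon z (zx α)) = V.valuation (mon z (zx α₀)) ∧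
      ∀ α ∈ S, V.valuation (mon z (zx α)) ≤ V.valuation (mon z (zx α₀)) := by
  classical
  obtain ⟨α₀, h0, hmax⟩ := Finset.exists_max_image S (fun α => V.valuation (mon z (zx α))) hS
  refine ⟨α₀, h0, ?_, hmax⟩
  have hv0 : V.valuation (mon z (zx α₀)) ≠ 0 := (Valuation.ne_zero_iff _).2 (gst_mon_ne hz _)
  rw [← Finset.sum_erase_add S _ h0]
  have h1 : V.valuation (c α₀ * mon z (zx α₀)) = V.valuation (mon z (zx α₀)) := by
    rw [map_mul, hc α₀ h0, one_mul]
  rw [Valuation.map_add_eq_of_lt_right, h1]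
  rw [h1]
  refine Valuation.map_sum_lt _ hv0 fun α hα => ?_
  rw [Finset.mem_erase] at hα
  rw [map_mul, hc α hα.2, one_mul]
  refine lt_of_le_of_ne (hmax α hα.2) fun he => hα.1 ?_
  have h2 : V.valuation (mon z (zx α - zx α₀)) = 1 := by
    rw [gst_mon_sub hz, map_div₀, he, div_self hv0]
  have h3 := hind _ h2
  funext i
  have h4 := congrFun h3 i
  simp only [zx, Pi.sub_apply, Pi.zero_apply] at h4
  omega

/-- a finite generating set of the orbit ideal -/
private theorem gst_orbit (h : Hyp G A) {l : K} (hl : l ∈ A) :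
    ∃ T : Finset K, (∀ t ∈ T, ∃ g ∈ G, t = g l) ∧ ∀ g ∈ G, ∃ a : K → K,
      (∀ t ∈ T, a t ∈ A) ∧ g l = ∑ t ∈ T, a t * t := by
  classical
  have : Algebra.FiniteType k A := (Subalgebra.fg_iff_finiteType A).1 h.fg
  have : IsNoetherianRing A := Algebra.FiniteType.isNoetherianRing k A
  let s : Set A := {a | ∃ g ∈ G, (a : K) = g l}
  have hfg : (Submodule.span A s).FG := IsNoetherian.noetherian _
  obtain ⟨s', hs', he⟩ := (Submodule.fg_span_iff_fg_span_finset_subset s).1 hfg
  refine ⟨s'.image (fun a : A => (a : K)), ?_, fun g hg => ?_⟩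
  · intro t ht
    obtain ⟨a, ha, rfl⟩ := Finset.mem_image.1 ht
    exact hs' ha
  · have hmem : (⟨g l, h.stab g hg l hl⟩ : A) ∈ Submodule.span A (s' : Set A) := by
      rw [← he]
      exact Submodule.subset_span ⟨g, hg, rfl⟩
    obtain ⟨f, -, hf⟩ := Submodule.mem_span_finset.1 hmem
    refine ⟨fun t => if ht : t ∈ A then (f ⟨t, ht⟩ : K) else 0, ?_, ?_⟩
    · intro t ht
      obtain ⟨a, ha, rfl⟩ := Finset.mem_image.1 ht
      beta_reduce
      rw [dif_pos a.2]
      exact (f _).2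
    · rw [Finset.sum_image (fun a _ b _ hab => Subtype.ext hab)]
      have h2 := congrArg (fun a : A => (a : K)) hf
      simp only at h2
      rw [← h2, AddSubmonoidClass.coe_finsetSum]
      refine Finset.sum_congr rfl fun a _ => ?_
      beta_reduce
      rw [dif_pos a.2]
      rfl

theorem exists_chartAt (h : Hyp G A) (hV : Inv G A V) (hB : Loc V B z) (hAB : A ≤ B)
    (hind : Ind V z) : ∃ (B' : Subalgebra k K) (x : Fin n → K), ChartAt G A V B' x := by
  classical
  -- (0) numerators and denominators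
  obtain ⟨Bg, hBg⟩ := hB.fg
  choose nu hnu de hde hde0 hq using h.frac
  have hnu0 : ∀ f : K, f ≠ 0 → nu f ≠ 0 := by
    intro f hf h0
    apply hf
    rw [hq f, h0, zero_div]
  let E0 : Finset K := Bg ∪ Finset.univ.image z
  let L : Finset K := (E0.image nu ∪ E0.image de).filter (fun l => l ≠ 0)
  have hLA : ∀ l ∈ L, l ∈ A := by
    intro l hl
    rcases Finset.mem_union.1 (Finset.mem_filter.1 hl).1 with hl | hl
    · obtain ⟨f, -, rfl⟩ := Finset.mem_image.1 hl
      exact hnu f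
    · obtain ⟨f, -, rfl⟩ := Finset.mem_image.1 hl
      exact hde f
  have hL0 : ∀ l ∈ L, l ≠ 0 := fun l hl => (Finset.mem_filter.1 hl).2
  have hLq : ∀ f ∈ E0, f ≠ 0 → nu f ∈ L ∧ de f ∈ L := by
    intro f hf hf0
    exact ⟨Finset.mem_filter.2 ⟨Finset.mem_union_left _ (Finset.mem_image_of_mem _ hf),
      hnu0 f hf0⟩, Finset.mem_filter.2 ⟨Finset.mem_union_right _
        (Finset.mem_image_of_mem _ hf), hde0 f⟩⟩
  -- (1) generators of the orbit ideals
  have horb : ∀ l : K, ∃ T : Finset K, l ∈ A → (∀ t ∈ T, ∃ g ∈ G, t = g l) ∧ ∀ g ∈ G,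
      ∃ a : K → K, (∀ t ∈ T, a t ∈ A) ∧ g l = ∑ t ∈ T, a t * t := by
    intro l
    by_cases hl : l ∈ A
    · obtain ⟨T, hT⟩ := gst_orbit h hl
      exact ⟨T, fun _ => hT⟩
    · exact ⟨∅, fun h => absurd h hl⟩
  choose T hT using horb
  let TT : Finset K := L ∪ L.biUnion T
  have hTTA : ∀ t ∈ TT, t ∈ A ∧ t ≠ 0 := by
    intro t ht
    rcases Finset.mem_union.1 ht with ht | ht
    · exact ⟨hLA t ht, hL0 t ht⟩
    · obtain ⟨l, hl, ht⟩ := Finset.mem_biUnion.1 ht
      obtain ⟨g, hg, rfl⟩ := (hT l (hLA l hl)).1 t ht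
      refine ⟨h.stab g hg l (hLA l hl), ?_⟩
      rw [Ne, map_eq_zero_iff g g.injective]
      exact hL0 l hl
  -- (2) representations
  have hrep : ∀ t : K, ∃ (S : Finset (Fin n → ℕ)) (c : (Fin n → ℕ) → K) (α₀ : Fin n → ℕ),
      t ∈ TT → Rep (locV V B) z t S c ∧ α₀ ∈ S ∧
        V.valuation t = V.valuation (mon z (zx α₀)) ∧
        ∀ α ∈ S, V.valuation (mon z (zx α)) ≤ V.valuation (mon z (zx α₀)) := by
    intro t
    by_cases ht : t ∈ TT
    · obtain ⟨S, c, hr⟩ := hB.exists_rep (le_locV B (hAB (hTTA t ht).1)) (hTTA t ht).2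
      have hc : ∀ α ∈ S, V.valuation (c α) = 1 := by
        intro α hα
        have h1 : V.valuation (c α) ≤ 1 :=
          (V.valuation_le_one_iff _).2 (locV_mem hB.mem _ (hr.mem α hα))
        have h2 : V.valuation (c α)⁻¹ ≤ 1 :=
          (V.valuation_le_one_iff _).2 (locV_mem hB.mem _ (hr.inv α hα))
        refine le_antisymm h1 ?_
        rw [map_inv₀] at h2
        have h0 : 0 < V.valuation (c α) := by
          rw [Valuation.pos_iff]
          exact hr.ne0 α hα
        exact (inv_le_one₀ h0).1 h2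
      obtain ⟨α₀, h0, h1, h2⟩ := gst_lead hB.ne hind hr.ne hc
      exact ⟨S, c, α₀, fun _ => ⟨hr, h0, by rw [hr.sum]; exact h1, h2⟩⟩
    · exact ⟨∅, 0, 0, fun h => absurd h ht⟩
  choose S c α₀ hrep using hrep
  let E : Finset (Fin n → ℤ) := TT.biUnion fun t => (S t).image fun α => zx α - zx (α₀ t)
  have hE : ∀ e ∈ E, V.valuation (mon z e) ≤ 1 := by
    intro e he
    obtain ⟨t, ht, he⟩ := Finset.mem_biUnion.1 he
    obtain ⟨α, hα, rfl⟩ := Finset.mem_image.1 he
    obtain ⟨-, -, -, h3⟩ := hrep t ht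
    rw [gst_mon_sub hB.ne, map_div₀]
    exact div_le_one_of_le₀ (h3 α hα) zero_le
  obtain ⟨x, b, a, htor, hEx⟩ := exists_toric hB.ne hB.pos hind E hE
  have hloc := hB.toric hind htor
  set B' := Algebra.adjoin k ((B : Set K) ∪ Set.range x) with hB'
  have hBB' : B ≤ B' := fun f hf => Algebra.subset_adjoin (Or.inl hf)
  have hxB' : ∀ i, x i ∈ B' := fun i => Algebra.subset_adjoin (Or.inr ⟨i, rfl⟩)
  set R' := locV V B' with hR'
  have hinvR : ∀ f ∈ R', V.valuation f = 1 → f⁻¹ ∈ R' := fun f hf h1 => locV_inv hf h1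
  have hBR : B ≤ R' := hBB'.trans (le_locV _)
  have hAR : A ≤ R' := hAB.trans hBR
  -- t / z^α₀ is a unit of R'
  have hunit : ∀ t ∈ TT, t / mon z (zx (α₀ t)) ∈ R' ∧
      V.valuation (t / mon z (zx (α₀ t))) = 1 := by
    intro t ht
    obtain ⟨h1, h2, h3, h4⟩ := hrep t ht
    constructor
    · have e : t / mon z (zx (α₀ t)) = ∑ α ∈ S t, c t α * mon z (zx α - zx (α₀ t)) := by
        nth_rewrite 1 [h1.sum]
        rw [Finset.sum_div]
        refine Finset.sum_congr rfl fun α _ => ?_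
        rw [gst_mon_sub hB.ne, mul_div_assoc]
      rw [e]
      refine Subalgebra.sum_mem _ fun α hα => R'.mul_mem (locV_mono hBB' (h1.mem α hα)) ?_
      obtain ⟨β, hβ⟩ := hEx (zx α - zx (α₀ t)) (Finset.mem_biUnion.2 ⟨t, ht,
        Finset.mem_image.2 ⟨α, hα, rfl⟩⟩)
      rw [hβ]
      refine le_locV _ (Subalgebra.prod_mem _ fun i _ => ?_)
      simp only [zx, zpow_natCast]
      exact B'.pow_mem (hxB' i) _
    · rw [map_div₀, h3, div_self]
      exact (Valuation.ne_zero_iff _).2 (gst_mon_ne hB.ne _)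
  -- quotients of elements of the same value
  have hquot : ∀ t ∈ TT, ∀ l ∈ TT, V.valuation t = V.valuation l → t / l ∈ R' := by
    intro t ht l hl hv
    have e0 : zx (α₀ t) = zx (α₀ l) := by
      have h1 : V.valuation (mon z (zx (α₀ t) - zx (α₀ l))) = 1 := by
        rw [gst_mon_sub hB.ne, map_div₀, ← (hrep t ht).2.2.1, ← (hrep l hl).2.2.1, hv, div_self]
        exact (Valuation.ne_zero_iff _).2 (hTTA l hl).2
      exact sub_eq_zero.1 (hind _ h1)
    have hne := gst_mon_ne hB.ne (zx (α₀ l))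
    have hl0 := (hTTA l hl).2
    have e : t / l = (t / mon z (zx (α₀ t))) * (l / mon z (zx (α₀ l)))⁻¹ := by
      rw [e0]
      field_simp
    rw [e]
    exact R'.mul_mem (hunit t ht).1 (hinvR _ (hunit l hl).1 (hunit l hl).2)
  -- the units g l / l
  have hgl : ∀ g ∈ G, ∀ l ∈ L, g l / l ∈ R' ∧ V.valuation (g l / l) = 1 := by
    intro g hg l hl
    have hl0 := hL0 l hl
    constructor
    · obtain ⟨h1, h2⟩ := hT l (hLA l hl)
      obtain ⟨a, ha, e⟩ := h2 g hg
      rw [e, Finset.sum_div]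
      refine Subalgebra.sum_mem _ fun t ht => ?_
      rw [mul_div_assoc]
      refine R'.mul_mem (hAR (ha t ht)) (hquot t
        (Finset.mem_union_right _ (Finset.mem_biUnion.2 ⟨l, hl, ht⟩)) l
        (Finset.mem_union_left _ hl) ?_)
      obtain ⟨g', hg', rfl⟩ := h1 t ht
      exact hV.inv g' hg' l
    · rw [map_div₀, hV.inv g hg, div_self]
      exact (Valuation.ne_zero_iff _).2 hl0
  -- (3) quotients of numerators and denominators
  have hgq : ∀ g ∈ G, ∀ f ∈ E0, f ≠ 0 → g f / f ∈ R' ∧ V.valuation (g f / f) = 1 := by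
    intro g hg f hf hf0
    obtain ⟨h1, h2⟩ := hLq f hf hf0
    constructor
    · have hn0 := hL0 _ h1
      have hd0 := hL0 _ h2
      have hgd0 : g (de f) ≠ 0 := by
        rw [Ne, map_eq_zero_iff g g.injective]
        exact hd0
      have e : g f / f = (g (nu f) / nu f) * (g (de f) / de f)⁻¹ := by
        have e1 : g f = g (nu f) / g (de f) := by rw [← map_div₀, ← hq f]
        have e2 : f = nu f / de f := hq f
        generalize nu f = N at e1 e2 hn0 ⊢
        generalize de f = D at e1 e2 hd0 hgd0 ⊢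
        rw [e1, e2]
        field_simp
      rw [e]
      exact R'.mul_mem (hgl g hg _ h1).1 (hinvR _ (hgl g hg _ h2).1 (hgl g hg _ h2).2)
    · rw [map_div₀, hV.inv g hg, div_self]
      exact (Valuation.ne_zero_iff _).2 hf0
  have hgB : ∀ g ∈ G, ∀ f ∈ B, g f ∈ R' := by
    intro g hg f hf
    rw [← hBg] at hf
    induction hf using Algebra.adjoin_induction with
    | mem f hf =>
      have hfE : f ∈ E0 := Finset.mem_union_left _ hf
      by_cases hf0 : f = 0
      · rw [hf0, map_zero]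
        exact R'.zero_mem
      · have h1 := (hgq g hg f hfE hf0).1
        have h2 : f ∈ R' := hBR (by rw [← hBg]; exact Algebra.subset_adjoin hf)
        have := R'.mul_mem h1 h2
        rwa [div_mul_cancel₀ _ hf0] at this
    | algebraMap c =>
      rw [g.commutes]
      exact R'.algebraMap_mem c
    | add f f' _ _ h1 h2 =>
      rw [map_add]
      exact R'.add_mem h1 h2
    | mul f f' _ _ h1 h2 =>
      rw [map_mul]
      exact R'.mul_mem h1 h2
  have hgx : ∀ g ∈ G, ∀ i, g (x i) / x i ∈ R' := by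
    intro g hg i
    have e : g (x i) / x i = ∏ j, (g (z j) / z j) ^ b i j := by
      rw [htor.xb i]
      unfold mon
      rw [map_prod, ← Finset.prod_div_distrib]
      refine Finset.prod_congr rfl fun j _ => ?_
      rw [map_zpow₀, div_zpow]
    rw [e]
    refine Subalgebra.prod_mem _ fun j _ => ?_
    have hj := hgq g hg (z j) (Finset.mem_union_right _ (Finset.mem_image_of_mem _
      (Finset.mem_univ j))) (hB.ne j)
    exact (gst_zpow hinvR hj.1 hj.2 _).1
  have hgB' : ∀ g ∈ G, ∀ f ∈ B', g f ∈ R' := by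
    intro g hg f hf
    induction hf using Algebra.adjoin_induction with
    | mem f hf =>
      rcases hf with hf | ⟨i, rfl⟩
      · exact hgB g hg f hf
      · have := R'.mul_mem (hgx g hg i) (le_locV _ (hxB' i))
        rwa [div_mul_cancel₀ _ (htor.ne i)] at this
    | algebraMap c =>
      rw [g.commutes]
      exact R'.algebraMap_mem c
    | add f f' _ _ h1 h2 =>
      rw [map_add]
      exact R'.add_mem h1 h2
    | mul f f' _ _ h1 h2 =>
      rw [map_mul]
      exact R'.mul_mem h1 h2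
  refine ⟨B', x, { hloc with
    le := hAB.trans hBB'
    ind := htor.ind
    stab := ?_
    par := hgx }⟩
  rintro g hg f ⟨p, hp, q, hq, hq1, rfl⟩
  rw [map_div₀, div_eq_mul_inv]
  exact R'.mul_mem (hgB' g hg p hp) (hinvR _ (hgB' g hg q hq) (by rw [hV.inv g hg]; exact hq1))

end Pool.Agent.MP_b525bf_ag_E
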