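import Pool.Agent.Lib.MP_b525bf_ag_E.Defs

/-!
# Theorem E, row LOC
Recipe. `exists_loc_le M Q C hfg hge`: `y ∈ M.s c`, `M.el hy ∉ Q`, `C.s d ≤ (M.loc hy).s d` for all
`d`. With `hle` (and `y ∈ C.s c`): `(M.loc hy).s d = (C.loc _).s d` for all `d` (`≤`:
`y^n z ∈ M.s ≤ C.s`; `≥`: `y^n z ∈ C.s ≤ (M.loc hy).s`, so `y^(n+n') z ∈ M.s`), so the families are
equal (`Fam.ext`) and `formallySmooth_loc` applies (`y ≠ 0`).
-/

set_option autoImplicit false
set_option linter.unusedVariables false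

namespace Pool.Agent.MP_b525bf_ag_E

open Pool.Agent.LU2 Pool.Agent.MP_b525bf_ag Pool.Agent.MP_b525bf_ag_W

variable {k K : Type} [Field k] [Field K] [Algebra k K] {G : Subgroup (K ≃ₐ[k] K)}
  {A : Subalgebra k K}

variable {ι : Type} [AddCommGroup ι] {M : Fam k K ι}


theorem exists_smooth_loc (Q : Ideal M.alg) [Q.IsPrime] (C : Fam k K ι)
    (hle : ∀ d, M.s d ≤ C.s d) (hge : ∀ d, C.s d ≤ (atP M Q).s d) (hfg : C.alg.FG)
    (hsm : Algebra.FormallySmooth k C.alg) :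
    ∃ (c : ι) (y : K) (hy : y ∈ M.s c), M.el hy ∉ Q ∧
      Algebra.FormallySmooth k (M.loc hy).alg := by
  obtain ⟨c, y, hy, hyQ, hC⟩ := exists_loc_le M Q C hfg hge
  refine ⟨c, y, hy, hyQ, ?_⟩
  have hy0 : y ≠ 0 := ne_zero_of_el_notMem M Q hyQ
  have hyC : y ∈ C.s c := hle c hy
  have heq : M.loc hy = C.loc hyC := by
    refine Fam.ext fun d => le_antisymm ?_ ?_
    · rintro z ⟨n, hz⟩
      exact ⟨n, hle _ hz⟩
    · rintro z ⟨n, hz⟩
      obtain ⟨n', hz'⟩ := hC _ hz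
      refine ⟨n' + n, ?_⟩
      have e1 : n' • c + (n • c + d) = (n' + n) • c + d := by rw [add_nsmul]; abel
      rw [e1] at hz'
      convert hz' using 1
      ring
  rw [heq]
  exact Fam.formallySmooth_loc C hyC hy0 hsm

end Pool.Agent.MP_b525bf_ag_E
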