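import Pool.Agent.Lib.MP_b525bf_ag_E.Defs
import Pool.Agent.Lib.LU2G.Smooth

/-!
# Theorem E, row NBH
Recipe. `hF B hc.fg hc.le`: finitely many centers `P` on `B`. Let `P₀ = {b ∈ B : V.valuation b < 1}`.
For every center `P` (of some `W ∈ Inv`) not contained in `P₀` choose `h_P ∈ P \ P₀`; `h := ∏ h_P`,
`h ∈ B`, `V.valuation h = 1`. `E :=` generators of `B` together with `h⁻¹`. If `W ∈ Inv` contains
`E` then `B ⊆ W` and `W.valuation h = 1`, so `h_P ∉` center of `W` for all these `P`, so the center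
of `W` is contained in `P₀`: every `b ∈ B` with `V.valuation b = 1` has `W.valuation b = 1`, so
`locV V B ⊆ W`.
-/

set_option autoImplicit false
set_option linter.unusedVariables false

namespace Pool.Agent.MP_b525bf_ag_E

open Pool.Agent.LU2 Pool.Agent.MP_b525bf_ag Pool.Agent.MP_b525bf_ag_W

variable {k K : Type} [Field k] [Field K] [Algebra k K] {G : Subgroup (K ≃ₐ[k] K)}
  {A : Subalgebra k K}

variable {V : ValuationSubring K} {B : Subalgebra k K} {n : ℕ} {x z : Fin n → K}

/-- A valuation ring which contains the constants and the generators contains the algebra. -/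
private theorem NBH_adjoin {W : ValuationSubring K} (hW : ∀ c : k, algebraMap k K c ∈ W)
    (S : Set K) (hS : ∀ s ∈ S, s ∈ W) : ∀ b ∈ Algebra.adjoin k S, b ∈ W := by
  intro b hb
  induction hb using Algebra.adjoin_induction with
  | mem s hs => exact hS s hs
  | algebraMap c => exact hW c
  | add a b _ _ ha hb => exact W.add_mem _ _ ha hb
  | mul a b _ _ ha hb => exact W.mul_mem _ _ ha hb

theorem ChartAt.nbhd (hF : FinC G A) (hc : ChartAt G A V B x) (hV : Inv G A V) :
    ∃ E : Finset K, (∀ e ∈ E, e ∈ V) ∧ ∀ W : ValuationSubring K, Inv G A W →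
      (∀ e ∈ E, e ∈ W) → ∀ f ∈ locV V B, f ∈ W := by
  classical
  have hfin := hF B hc.fg hc.le
  set T : Finset (Set K) := hfin.toFinset with hT
  -- the elements `h_P`
  have hch : ∀ P : Set K, ∃ h : K, h ∈ B ∧ V.valuation h = 1 ∧
      ((∃ b ∈ P, b ∈ B ∧ V.valuation b = 1) → h ∈ P) := by
    intro P
    by_cases h : ∃ b ∈ P, b ∈ B ∧ V.valuation b = 1
    · obtain ⟨b, hbP, hbB, hb⟩ := h
      exact ⟨b, hbB, hb, fun _ => hbP⟩
    · exact ⟨1, B.one_mem, map_one _, fun h' => absurd h' h⟩
  choose h hB hV1 hP using hch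
  obtain ⟨S, hS⟩ := hc.fg
  have hprodB : ∏ P ∈ T, h P ∈ B := Subalgebra.prod_mem _ fun P _ => hB P
  have hprodV : V.valuation (∏ P ∈ T, h P) = 1 := by
    rw [map_prod]
    exact Finset.prod_eq_one fun P _ => hV1 P
  have hprod0 : (∏ P ∈ T, h P) ≠ 0 := by
    intro h0
    rw [h0, map_zero] at hprodV
    exact zero_ne_one hprodV
  refine ⟨insert (∏ P ∈ T, h P)⁻¹ S, ?_, ?_⟩
  · intro e he
    rcases Finset.mem_insert.1 he with rfl | he
    · rw [← V.valuation_le_one_iff, map_inv₀, hprodV, inv_one]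
    · exact hc.mem e (by rw [← hS]; exact Algebra.subset_adjoin he)
  · intro W hW hE f hf
    have hkW : ∀ c : k, algebraMap k K c ∈ W := fun c => hW.le _ (A.algebraMap_mem c)
    have hBW : ∀ b ∈ B, b ∈ W := by
      intro b hb
      rw [← hS] at hb
      exact NBH_adjoin hkW S (fun s hs => hE s (Finset.mem_insert_of_mem hs)) b hb
    have hinv : (∏ P ∈ T, h P)⁻¹ ∈ W := hE _ (Finset.mem_insert_self _ _)
    have hWh : ∀ P ∈ T, W.valuation (h P) = 1 := by
      intro P hPm
      have h1 : W.valuation (h P) ≤ 1 := (W.valuation_le_one_iff _).2 (hBW _ (hB P))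
      refine le_antisymm h1 ?_
      by_contra hlt
      rw [not_le] at hlt
      have h2 : W.valuation (∏ P ∈ T, h P) < 1 := by
        rw [← Finset.mul_prod_erase T h hPm, map_mul]
        have h3 : W.valuation (∏ Q ∈ T.erase P, h Q) ≤ 1 :=
          (W.valuation_le_one_iff _).2 (hBW _ (Subalgebra.prod_mem _ fun Q _ => hB Q))
        exact mul_lt_one_of_lt_of_le hlt h3
      have h4 : W.valuation (∏ P ∈ T, h P)⁻¹ ≤ 1 := (W.valuation_le_one_iff _).2 hinv
      have h5 : W.valuation (∏ P ∈ T, h P) * W.valuation (∏ P ∈ T, h P)⁻¹ = 1 := by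
        rw [← map_mul, mul_inv_cancel₀ hprod0, map_one]
      have h6 := mul_lt_one_of_lt_of_le h2 h4
      rw [h5] at h6
      exact lt_irrefl _ h6
    have hunit : ∀ b ∈ B, V.valuation b = 1 → W.valuation b = 1 := by
      intro b hb hb1
      have h1 : W.valuation b ≤ 1 := (W.valuation_le_one_iff _).2 (hBW b hb)
      refine le_antisymm h1 ?_
      by_contra hlt
      rw [not_le] at hlt
      set P : Set K := {b | b ∈ B ∧ W.valuation b < 1} with hPd
      have hPm : P ∈ T := by
        rw [hT, Set.Finite.mem_toFinset]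
        exact ⟨W, hW, hBW, rfl⟩
      have h2 : h P ∈ P := hP P ⟨b, ⟨hb, hlt⟩, hb, hb1⟩
      have h3 := h2.2
      rw [hWh P hPm] at h3
      exact lt_irrefl _ h3
    obtain ⟨a, ha, b, hb, hb1, rfl⟩ := hf
    rw [← W.valuation_le_one_iff, map_div₀, hunit b hb hb1, div_one]
    exact (W.valuation_le_one_iff _).2 (hBW a ha)

end Pool.Agent.MP_b525bf_ag_E
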