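import Pool.Agent.Lib.MP_b525bf_ag_E.Defs
import Pool.Agent.Lib.LU2G.Smooth

/-!
# Theorem E, row PAR
Recipe. Unfold `hdef`: `r d`, `trdeg K <= r + d`, `y : Fin r → K` with `IndVal V y`, `t : Fin d → K`
with `IndRes k V t`. Apply `hLU A hA hAV hfrac T` with `T` the finite set of all `y i` and all `t j`
(`t j ≠ 0` because its residue is transcendental; if `d = 0` nothing). This gives a chart `B` of `A`,
`B.FG`, `A ≤ B`, `B ⊆ V` (`IsChart.fg`, `IsChart.le`, `IsChart.mem`) and `z : Fin n → K` with
`IsPar V (locV V B) z` and `Mono V (locV V B) z t` for all `t ∈ T`.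
(1) `V.valuation (t j) = 1`, so the exponents of `t j` are all zero and `t j ∈ locV V B`.
(2) dimension inequality: `n + d ≤ trdeg K`, see the proof of `smooth_of_isPar_aux` in
`LU2G/SmoothA.lean` (`hheight`, `hindq`, `le_trdeg`); clear denominators of the `t j` first
(`exists_commonV`). Hence `n ≤ r`.
(3) `y i = mon z (e i) * w i` with `V.valuation (w i) = 1`; `IndVal V y` says that the vectors `e i`
are linearly independent over ℤ (ℚ), so `r ≤ n`, `r = n`, and the `e i` span a subgroup of finite
index: for every `c : Fin n → ℤ` some multiple `N • c`, `N > 0`, is a combination of the `e i`. If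
`V.valuation (mon z c) = 1` then the combination has value one, so it is zero by `IndVal V y`, so
`c = 0`.
-/

set_option autoImplicit false
set_option linter.unusedVariables false

namespace Pool.Agent.MP_b525bf_ag_E

open Pool.Agent.LU2 Pool.Agent.MP_b525bf_ag Pool.Agent.MP_b525bf_ag_W

variable {k K : Type} [Field k] [Field K] [Algebra k K] {G : Subgroup (K ≃ₐ[k] K)}
  {A : Subalgebra k K}


/-- The dimension inequality. -/
theorem par_add_le_trdeg {V : ValuationSubring K} {S : Subalgebra k K} (hS : ∀ f ∈ S, f ∈ V) {n : ℕ}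
    {z : Fin n → K} (hz : IsPar V (locV V S) z) {d : ℕ} (t : Fin d → K)
    (ht : ∀ j, t j ∈ locV V S)
    (hind : ∀ G : MvPolynomial (Fin d) k, V.valuation (MvPolynomial.aeval t G) < 1 → G = 0) :
    ((n + d : ℕ) : Cardinal) ≤ Algebra.trdeg k K := by
  have hR := locV_mem hS
  have hp := PI_prime V (locV V S) hR
  have hdim : ringKrullDim (locV V (locV V S)) = n := by
    rw [locV_locV]
    exact hz.dim
  have hheight : (n : ℕ∞) ≤ (PI V (locV V S) hR).height := by
    let _ : Algebra (locV V S) (locV V (locV V S)) :=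
      (Subalgebra.inclusion (le_locV (V := V) (locV V S))).toAlgebra
    have hl : IsLocalization.AtPrime (locV V (locV V S)) (PI V (locV V S) hR) :=
      isLocalization_locV V (locV V S) _ hR (le_locV (locV V S)) rfl
    have h1 := IsLocalization.AtPrime.ringKrullDim_eq_height (PI V (locV V S) hR)
      (locV V (locV V S))
    rw [hdim] at h1
    exact_mod_cast h1.le
  obtain ⟨t', ht'⟩ : ∃ t' : Fin d → locV V S, ∀ j, (t' j : K) = t j := ⟨fun j => ⟨t j, ht j⟩,
    fun j => rfl⟩
  have hcoe : ∀ G : MvPolynomial (Fin d) k,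
      ((MvPolynomial.aeval t' G : locV V S) : K) = MvPolynomial.aeval t G := by
    intro G
    have h1 : (locV V S).val (MvPolynomial.aeval t' G) =
        MvPolynomial.aeval (fun j => (locV V S).val (t' j)) G := by
      rw [← AlgHom.comp_apply, MvPolynomial.comp_aeval]
    have h2 : (fun j => (locV V S).val (t' j)) = t := funext ht'
    rw [h2] at h1
    exact h1
  have hindq : AlgebraicIndependent k fun j => Ideal.Quotient.mk (PI V (locV V S) hR) (t' j) := by
    rw [algebraicIndependent_iff_injective_aeval]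
    rw [injective_iff_map_eq_zero]
    intro G hG
    apply hind G
    have h6 : (Ideal.Quotient.mkₐ k (PI V (locV V S) hR)) (MvPolynomial.aeval t' G) =
        MvPolynomial.aeval (fun i => Ideal.Quotient.mk (PI V (locV V S) hR) (t' i)) G := by
      rw [← AlgHom.comp_apply, MvPolynomial.comp_aeval]
      rfl
    have h7 : Ideal.Quotient.mk (PI V (locV V S) hR) (MvPolynomial.aeval t' G) = 0 := h6.trans hG
    have h8 : V.valuation ((MvPolynomial.aeval t' G : locV V S) : K) < 1 :=
      Ideal.Quotient.eq_zero_iff_mem.1 h7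
    rwa [hcoe] at h8
  exact (LU2G.le_trdeg (PI V (locV V S) hR) hheight t' hindq).trans
    (trdeg_le_of_injective (locV V S).val Subtype.val_injective)

theorem par_mon_add {n : ℕ} {z : Fin n → K} (hz : ∀ i, z i ≠ 0) (e f : Fin n → ℤ) :
    mon z (e + f) = mon z e * mon z f := by
  rw [mon, mon, mon, ← Finset.prod_mul_distrib]
  exact Finset.prod_congr rfl fun i _ => by rw [Pi.add_apply, zpow_add₀ (hz i)]

theorem par_mon_zsmul {n : ℕ} {z : Fin n → K} (c : ℤ) (e : Fin n → ℤ) :
    mon z (c • e) = mon z e ^ c := by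
  rw [mon, mon, ← Finset.prod_zpow]
  exact Finset.prod_congr rfl fun i _ => by
    rw [Pi.smul_apply, smul_eq_mul, mul_comm, zpow_mul]

theorem par_mon_zero {n : ℕ} {z : Fin n → K} : mon z 0 = 1 := by
  simp [mon]

theorem par_mon_sum {n : ℕ} {z : Fin n → K} (hz : ∀ i, z i ≠ 0) {ι : Type*} (s : Finset ι)
    (e : ι → Fin n → ℤ) : mon z (∑ i ∈ s, e i) = ∏ i ∈ s, mon z (e i) := by
  classical
  induction s using Finset.induction_on with
  | empty => simp [par_mon_zero]
  | insert a s ha ih => rw [Finset.sum_insert ha, Finset.prod_insert ha, par_mon_add hz, ih]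

/-- Independence of the values of the parameters. -/
theorem par_ind_of_le {V : ValuationSubring K} {n r : ℕ} {z : Fin n → K} (hz : ∀ i, z i ≠ 0)
    (hnr : n ≤ r) {y : Fin r → K} (hy : IndVal V y)
    (hmono : ∀ i, ∃ (e : Fin n → ℤ) (w : K), V.valuation w = 1 ∧ y i = mon z e * w) :
    Ind V z := by
  intro c hc
  choose e w hw hyw using hmono
  have hdep : ¬ LinearIndependent ℤ (Fin.cons c e : Fin (r + 1) → Fin n → ℤ) := by
    intro h
    have h1 := h.fintype_card_le_finrank
    rw [Fintype.card_fin, Module.finrank_fin_fun] at h1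
    omega
  rw [Fintype.not_linearIndependent_iff] at hdep
  obtain ⟨g, hg, i0, hi0⟩ := hdep
  rw [Fin.sum_univ_succ] at hg
  simp only [Fin.cons_zero, Fin.cons_succ] at hg
  have hval : ∀ i, V.valuation (y i) = V.valuation (mon z (e i)) := by
    intro i
    rw [hyw i, map_mul, hw i, mul_one]
  have h1 : V.valuation (mon z (g 0 • c + ∑ i : Fin r, g i.succ • e i)) = 1 := by
    rw [hg, par_mon_zero, map_one]
  rw [par_mon_add hz, par_mon_zsmul, par_mon_sum hz, map_mul, map_zpow₀, hc, one_zpow, one_mul, map_prod] at h1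
  have h2 : V.valuation ((Finsupp.equivFunOnFinite.symm fun i : Fin r => g i.succ).prod
      fun i n => y i ^ n) = 1 := by
    rw [Finsupp.prod_fintype _ _ (fun i => zpow_zero _), map_prod, ← h1]
    refine Finset.prod_congr rfl fun i _ => ?_
    rw [map_zpow₀, par_mon_zsmul, map_zpow₀, hval]
    rfl
  have h3 := hy.2 _ h2
  have h4 : ∀ i : Fin r, g i.succ = 0 := fun i => by
    have := DFunLike.congr_fun h3 i
    simpa using this
  have h5 : g 0 ≠ 0 := by
    intro h0
    rcases Fin.eq_zero_or_eq_succ i0 with h | ⟨j, h⟩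
    · exact hi0 (h ▸ h0)
    · exact hi0 (h ▸ h4 j)
  simp only [h4, zero_smul, Finset.sum_const_zero, add_zero] at hg
  exact (smul_eq_zero.1 hg).resolve_left h5

theorem exists_isPar {V : ValuationSubring K} (hLU : LU k V) (hdef : DefLE k V 0) (hA : A.FG)
    (hAV : ∀ a ∈ A, a ∈ V) (hfrac : IsFrac A) :
    ∃ B : Subalgebra k K, B.FG ∧ A ≤ B ∧ (∀ b ∈ B, b ∈ V) ∧ ∃ (n : ℕ) (z : Fin n → K),
      IsPar V (locV V B) z ∧ Ind V z := by
  classical
  obtain ⟨r, d, htr, ⟨y, hy⟩, t, ht⟩ := hdef
  have ht1 : ∀ j, V.valuation (t j) = 1 := by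
    intro j
    refine le_antisymm ((V.valuation_le_one_iff _).2 (ht.1 j)) (not_lt.1 fun h => ?_)
    have h1 := ht.2 (MvPolynomial.X j) (by rwa [MvPolynomial.aeval_X])
    exact MvPolynomial.X_ne_zero j h1
  have ht0 : ∀ j, t j ≠ 0 := by
    intro j h
    have h1 := ht1 j
    rw [h, map_zero] at h1
    exact zero_ne_one h1
  obtain ⟨B, g, hB, n, z, hz, -, hT⟩ := hLU A hA hAV hfrac
    (Finset.univ.image y ∪ Finset.univ.image t) (by
      intro x hx
      rcases Finset.mem_union.1 hx with hx | hx
      · obtain ⟨i, -, rfl⟩ := Finset.mem_image.1 hx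
        exact hy.1 i
      · obtain ⟨i, -, rfl⟩ := Finset.mem_image.1 hx
        exact ht0 i)
  refine ⟨B, hB.fg hA, hB.le, hB.mem hAV, n, z, hz, ?_⟩
  have htB : ∀ j, t j ∈ locV V B := by
    intro j
    obtain ⟨e, w, hwR, hw1, hte, he1, he2⟩ := hT (t j)
      (Finset.mem_union_right _ (Finset.mem_image_of_mem _ (Finset.mem_univ j)))
    have h0 : ∀ i, e i = 0 := fun i => le_antisymm (he2 (ht1 j).ge i) (he1 (ht1 j).le i)
    rw [hte]
    simp only [h0, zpow_zero, Finset.prod_const_one, one_mul]
    exact hwR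
  have hle := (par_add_le_trdeg (hB.mem hAV) hz t htB ht.2).trans htr
  have hnr : n ≤ r := by
    have h1 : n + d ≤ r + d + 0 := by exact_mod_cast hle
    omega
  refine par_ind_of_le hz.ne hnr hy fun i => ?_
  obtain ⟨e, w, -, hw1, hte, -, -⟩ := hT (y i)
    (Finset.mem_union_left _ (Finset.mem_image_of_mem _ (Finset.mem_univ i)))
  exact ⟨e, w, hw1, hte⟩

end Pool.Agent.MP_b525bf_ag_E
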