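import Pool.Agent.Lib.MP_b525bf_ag_E.EFB

/-!
# Theorem E, row RED
Recipe. Let `𝔫` be the ideal of `M.alg` generated by all `M.el hy` (`y ∈ M.s c`, any `c`) with
`(M.loc hy).alg` formally smooth over `k`. `G` acts on `M.alg` by automorphisms `σ_g`
(coefficientwise, `hM`), `σ_g (M.el hy) = M.el _`, and `(M.loc hy).alg ≅ (M.loc (g y)).alg`, so
`σ_g 𝔫 = 𝔫`. Let `x ∈ M.s (n • a)`, `x ≠ 0`. CASE 1: `(M.el hx)^r ∈ 𝔫` for some `r`: for every prime
`q` with `M.el hx ∉ q` some generator `M.el hy ∉ q`; `formallySmooth_loc_of_cover` together with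
`formallySmooth_loc_mul` finish. CASE 2: `M.el hx` is not in the radical of `𝔫`: there is a minimal prime
`Q` of `𝔫` with `M.el hx ∉ Q` (`Ideal.sInf_minimalPrimes`); `M.alg` is Noetherian
(`finiteType_alg`), so there are finitely many minimal primes, permuted by `G`; stabilisers have finite
index, so (`hidx`) `σ_g Q = Q` for all `g`: `QStab G M Q`. `SemiS M a Q` by `x`. So `h` gives
`M.el hy ∉ Q` with `(M.loc hy).alg` smooth, but `M.el hy ∈ 𝔫 ≤ Q`: contradiction.
-/

set_option autoImplicit false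
set_option linter.unusedVariables false

namespace Pool.Agent.MP_b525bf_ag_E

open Pool.Agent.LU2 Pool.Agent.MP_b525bf_ag Pool.Agent.MP_b525bf_ag_W
open scoped Pointwise

variable {k K : Type} [Field k] [Field K] [Algebra k K] {G : Subgroup (K ≃ₐ[k] K)}
  {A : Subalgebra k K}

variable {ι : Type} [AddCommGroup ι] {M : Fam k K ι}

/-- an automorphism of the field, applied to the coefficients -/
private noncomputable def REDhom (g : K ≃ₐ[k] K) (M N : Fam k K ι)
    (h : ∀ (d : ι) (x : K), x ∈ M.s d → g x ∈ N.s d) : M.alg →ₐ[k] N.alg :=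
  ((AddMonoidAlgebra.mapAlgHom ι (g : K →ₐ[k] K)).comp M.alg.val).codRestrict N.alg (by
    intro F d
    change (AddMonoidAlgebra.mapAlgHom ι (g : K →ₐ[k] K) F.1).coeff d ∈ N.s d
    rw [AddMonoidAlgebra.coeff_mapAlgHom]
    exact h d _ (F.2 d))

private theorem REDhom_coeff (g : K ≃ₐ[k] K) (M N : Fam k K ι)
    (h : ∀ (d : ι) (x : K), x ∈ M.s d → g x ∈ N.s d) (F : M.alg) (d : ι) :
    (REDhom g M N h F).1.coeff d = g (F.1.coeff d) := by
  change (AddMonoidAlgebra.mapAlgHom ι (g : K →ₐ[k] K) F.1).coeff d = _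
  rw [AddMonoidAlgebra.coeff_mapAlgHom]
  rfl

private theorem REDhom_el (g : K ≃ₐ[k] K) (M N : Fam k K ι)
    (h : ∀ (d : ι) (x : K), x ∈ M.s d → g x ∈ N.s d) {d : ι} {x : K} (hx : x ∈ M.s d) :
    REDhom g M N h (M.el hx) = N.el (h d x hx) := by
  apply Subtype.ext
  change AddMonoidAlgebra.mapAlgHom ι (g : K →ₐ[k] K) (AddMonoidAlgebra.single d x) = _
  rw [AddMonoidAlgebra.mapAlgHom_single]
  rfl

private theorem RED_smooth (g : K ≃ₐ[k] K) (M N : Fam k K ι)
    (h : ∀ (d : ι) (x : K), x ∈ M.s d → g x ∈ N.s d)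
    (h' : ∀ (d : ι) (x : K), x ∈ N.s d → g.symm x ∈ M.s d)
    (hs : Algebra.FormallySmooth k M.alg) : Algebra.FormallySmooth k N.alg := by
  have e1 : (REDhom g M N h).comp (REDhom g.symm N M h') = AlgHom.id k _ := by
    refine AlgHom.ext fun F => Subtype.ext (AddMonoidAlgebra.ext (Finsupp.ext fun d => ?_))
    change (REDhom g M N h (REDhom g.symm N M h' F)).1.coeff d = F.1.coeff d
    rw [REDhom_coeff, REDhom_coeff, AlgEquiv.apply_symm_apply]
  exact formallySmooth_of_retract (REDhom g.symm N M h') (REDhom g M N h) e1 hs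

private theorem RED_loc_congr {a b : ι} {x y : K} (hx : x ∈ M.s a) (hy : y ∈ M.s b) (hab : a = b)
    (hxy : x = y) : M.loc hx = M.loc hy := by
  subst hab hxy; rfl

/-- the action of `G` on the algebra -/
@[reducible] private noncomputable def REDact (hM : FStab G M) : MulSemiringAction G M.alg where
  smul g F := REDhom (g : K ≃ₐ[k] K) M M (hM g g.2) F
  one_smul F := by
    refine Subtype.ext (AddMonoidAlgebra.ext (Finsupp.ext fun d => ?_))
    change (REDhom (1 : K ≃ₐ[k] K) M M _ F).1.coeff d = F.1.coeff d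
    rw [REDhom_coeff]
    rfl
  mul_smul g g' F := by
    refine Subtype.ext (AddMonoidAlgebra.ext (Finsupp.ext fun d => ?_))
    change (REDhom ((g : K ≃ₐ[k] K) * (g' : K ≃ₐ[k] K)) M M _ F).1.coeff d =
      (REDhom (g : K ≃ₐ[k] K) M M _ (REDhom (g' : K ≃ₐ[k] K) M M _ F)).1.coeff d
    rw [REDhom_coeff, REDhom_coeff, REDhom_coeff]
    rfl
  smul_zero g := map_zero _
  smul_add g F F' := map_add _ _ _
  smul_one g := map_one _
  smul_mul g F F' := map_mul _ _ _

theorem smooth_of_stab (hidx : ∀ H : Subgroup G, H.FiniteIndex → H = ⊤) (hfg : M.alg.FG)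
    (hM : FStab G M) {a : ι}
    (h : ∀ (Q : Ideal M.alg) [Q.IsPrime], SemiS M a Q → QStab G M Q →
      ∃ (c : ι) (y : K) (hy : y ∈ M.s c), M.el hy ∉ Q ∧
        Algebra.FormallySmooth k (M.loc hy).alg) (n : ℕ) (hn : 0 < n) (x : K)
    (hx : x ∈ M.s (n • a)) (hx0 : x ≠ 0) : Algebra.FormallySmooth k (M.loc hx).alg := by
  classical
  let _ : MulSemiringAction G M.alg := REDact hM
  have hact : ∀ (g : G) {d : ι} {y : K} (hy : y ∈ M.s d),
      g • M.el hy = M.el (hM g g.2 d y hy) := fun g d y hy => REDhom_el _ _ _ _ _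
  set S : Set M.alg := {F | ∃ (c : ι) (y : K) (hy : y ∈ M.s c),
    Algebra.FormallySmooth k (M.loc hy).alg ∧ F = M.el hy} with hS
  set 𝔫 : Ideal M.alg := Ideal.span S with h𝔫
  have hSact : ∀ (g : G), ∀ F ∈ S, g • F ∈ S := by
    rintro g _ ⟨c, y, hy, hs, rfl⟩
    refine ⟨c, (g : K ≃ₐ[k] K) y, hM g g.2 c y hy, ?_, hact g hy⟩
    refine RED_smooth (g : K ≃ₐ[k] K) (M.loc hy) (M.loc (hM g g.2 c y hy)) ?_ ?_ hs
    · rintro d z ⟨m, hm⟩
      refine ⟨m, ?_⟩
      have := hM g g.2 _ _ hm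
      rwa [map_mul, map_pow] at this
    · rintro d z ⟨m, hm⟩
      refine ⟨m, ?_⟩
      have h1 := hM _ (G.inv_mem g.2) _ _ hm
      rw [map_mul, map_pow] at h1
      have h2 : (g : K ≃ₐ[k] K)⁻¹ ((g : K ≃ₐ[k] K) y) = y :=
        AlgEquiv.symm_apply_apply (g : K ≃ₐ[k] K) y
      rw [h2] at h1
      exact h1
  have h𝔫le : ∀ g : G, g • 𝔫 ≤ 𝔫 := by
    intro g
    rw [Ideal.pointwise_smul_def, h𝔫, Ideal.map_span, Ideal.span_le]
    rintro _ ⟨F, hF, rfl⟩
    exact Ideal.subset_span (hSact g F hF)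
  have h𝔫eq : ∀ g : G, g • 𝔫 = 𝔫 := by
    intro g
    refine le_antisymm (h𝔫le g) ?_
    rw [Ideal.subset_pointwise_smul_iff]
    exact h𝔫le g⁻¹
  by_cases hr : M.el hx ∈ 𝔫.radical
  · refine M.formallySmooth_loc_of_cover hfg hx hx0 fun q hq hxq => ?_
    have h1 : ¬ 𝔫 ≤ q := fun hle => hxq (hq.radical_le_iff.2 hle hr)
    have h2 : ∃ F ∈ S, F ∉ q := by
      by_contra hcon
      push Not at hcon
      exact h1 (Ideal.span_le.2 hcon)
    obtain ⟨_, ⟨c, y, hy, hs, rfl⟩, hyq⟩ := h2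
    refine ⟨c, y, hy, hyq, ?_⟩
    have h3 := M.formallySmooth_loc_mul hy hx hx0 hs
    rwa [RED_loc_congr (M.mul' hy hx) (M.mul' hx hy) (add_comm _ _) (mul_comm _ _)] at h3
  · exfalso
    rw [← Ideal.sInf_minimalPrimes, Ideal.mem_sInf] at hr
    push Not at hr
    obtain ⟨Q, hQ, hxQ⟩ := hr
    have hQp : Q.IsPrime := hQ.1.1
    have hNoeth : IsNoetherianRing M.alg := by
      have := M.finiteType_alg hfg
      exact Algebra.FiniteType.isNoetherianRing k M.alg
    have hfin : 𝔫.minimalPrimes.Finite := Ideal.finite_minimalPrimes_of_isNoetherianRing _ 𝔫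
    have hmin : ∀ (g : G) (P : Ideal M.alg), P ∈ 𝔫.minimalPrimes → g • P ∈ 𝔫.minimalPrimes := by
      intro g P hP
      have hPp : P.IsPrime := hP.1.1
      refine ⟨⟨inferInstance, ?_⟩, ?_⟩
      · rw [← h𝔫eq g]
        exact Ideal.pointwise_smul_le_pointwise_smul_iff.2 hP.1.2
      · rintro P' ⟨hP'p, hP'⟩ hle
        have h1 : g⁻¹ • P' ≤ P := by
          rw [← Ideal.subset_pointwise_smul_iff]
          exact hle
        have h2 : 𝔫 ≤ g⁻¹ • P' := by
          rw [← h𝔫eq g⁻¹]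
          exact Ideal.pointwise_smul_le_pointwise_smul_iff.2 hP'
        have h3 := hP.2 ⟨inferInstance, h2⟩ h1
        exact Ideal.pointwise_smul_subset_iff.2 h3
    have hstab : MulAction.stabilizer G Q = ⊤ := by
      apply hidx
      constructor
      rw [MulAction.index_stabilizer]
      have h1 : (MulAction.orbit G Q).Finite := hfin.subset (by
        rintro _ ⟨g, rfl⟩
        exact hmin g Q hQ)
      have h2 : 0 < (MulAction.orbit G Q).ncard :=
        (Set.ncard_pos h1).2 ⟨Q, MulAction.mem_orbit_self Q⟩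
      exact h2.ne'
    have hQst : QStab G M Q := by
      intro g hg d y hy hgy hyQ
      have h1 : (⟨g, hg⟩ : G) ∈ MulAction.stabilizer G Q := by rw [hstab]; trivial
      have h2 : (⟨g, hg⟩ : G) • Q = Q := h1
      have h3 := Ideal.smul_mem_pointwise_smul (⟨g, hg⟩ : G) _ Q hyQ
      rw [h2, hact] at h3
      exact h3
    obtain ⟨c, y, hy, hyQ, hs⟩ := h Q ⟨n, hn, x, hx, hxQ⟩ hQst
    exact hyQ (hQ.1.2 (Ideal.subset_span ⟨c, y, hy, hs, rfl⟩))

end Pool.Agent.MP_b525bf_ag_E
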