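import Pool.Agent.Lib.MP_b525bf_ag_E.Defs
import Pool.Agent.Lib.LU2G.Smooth

/-!
# Theorem E, row REP
Recipe. `R = locV V B` is a Noetherian local ring (`locV_local`, localisation of a finitely generated
algebra) with maximal ideal generated by the `x i` (`h.gen`). For an up-set `U` of `Fin n → ℕ` let
`I U` be the ideal of `R` generated by the monomials with exponent in `U`. Let `U` be a minimal
up-set with `f ∈ I U` (Zorn: for a chain `U_i` with intersection `U`: for each `N` only finitely many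
exponents have degree `< N`, so `I U_i ≤ I U + m ^ N` for some `i`; Krull's intersection theorem in
`R / I U` gives `⨅ N, (I U + m ^ N) = I U`). `U ≠ ∅` because `f ≠ 0`. Let `S` be the finite set of
minimal elements of `U` (Dickson: `Set.IsPWO`, `Pi.isPWO`); `f = ∑ α ∈ S, c α * x^α` with `c α ∈ R`.
If `c α` is not a unit then `c α = ∑ a i * x i`, so `c α * x^α` is in the ideal of the exponents
`α + e_i ∈ U \ {α}`, and `f ∈ I (U \ {α})`, where `U \ {α}` is an up-set: contradiction.
(Alternative: well-founded choice of `U` through the finite set of minimal elements.)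
-/

set_option autoImplicit false
set_option linter.unusedVariables false

namespace Pool.Agent.MP_b525bf_ag_E

open Pool.Agent.LU2 Pool.Agent.MP_b525bf_ag Pool.Agent.MP_b525bf_ag_W

section REPabs

variable {R : Type} [CommRing R] {n : ℕ} (y : Fin n → R)

/-- The monomial. -/
private def REP_m (α : Fin n → ℕ) : R := ∏ i, y i ^ α i

private theorem REP_m_add (α β : Fin n → ℕ) : REP_m y (α + β) = REP_m y α * REP_m y β := by
  simp only [REP_m, Pi.add_apply, pow_add, Finset.prod_mul_distrib]

private theorem REP_m_single (i : Fin n) : REP_m y (Pi.single i 1) = y i := by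
  unfold REP_m
  rw [Finset.prod_eq_single i]
  · rw [Pi.single_eq_same, pow_one]
  · intro j _ hj
    rw [Pi.single_eq_of_ne hj, pow_zero]
  · intro h
    exact absurd (Finset.mem_univ i) h

private theorem REP_m_mem {I : Ideal R} (hy : ∀ i, y i ∈ I) (α : Fin n → ℕ) :
    REP_m y α ∈ I ^ (∑ i, α i) := by
  rw [← Finset.prod_pow_eq_pow_sum]
  exact Ideal.prod_mem_prod fun i _ => Ideal.pow_mem_pow (hy i) _

/-- The exponents of degree `N`. -/
private def REP_D (n N : ℕ) : Finset (Fin n → ℕ) := Finset.piAntidiag Finset.univ N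

private theorem REP_mem_D {N : ℕ} {α : Fin n → ℕ} : α ∈ REP_D n N ↔ ∑ i, α i = N := by
  simp [REP_D]

private theorem REP_span {I : Ideal R} (hI : I = Ideal.span (Set.range y)) (N : ℕ) :
    I ^ N ≤ Ideal.span (REP_m y '' (REP_D n N : Set (Fin n → ℕ))) := by
  induction N with
  | zero =>
    have h1 : (1 : R) ∈ Ideal.span (REP_m y '' (REP_D n 0 : Set (Fin n → ℕ))) := by
      refine Ideal.subset_span ⟨0, ?_, ?_⟩
      · exact Finset.mem_coe.2 (REP_mem_D.2 (by simp))
      · simp [REP_m]
    rw [(Ideal.eq_top_iff_one _).2 h1]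
    exact le_top
  | succ N ih =>
    rw [pow_succ]
    have h1 : I ^ N * I ≤ Ideal.span (REP_m y '' (REP_D n N : Set (Fin n → ℕ))) *
        Ideal.span (Set.range y) := Ideal.mul_mono ih (le_of_eq hI)
    refine h1.trans ?_
    rw [Ideal.span_mul_span', Ideal.span_le]
    rintro _ ⟨_, ⟨α, hα, rfl⟩, _, ⟨i, rfl⟩, rfl⟩
    refine Ideal.subset_span ⟨α + Pi.single i 1, ?_, ?_⟩
    · have h2 := REP_mem_D.1 (Finset.mem_coe.1 hα)
      refine Finset.mem_coe.2 (REP_mem_D.2 ?_)
      simp only [Pi.add_apply]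
      rw [Finset.sum_add_distrib, h2]
      simp
    · rw [REP_m_add, REP_m_single]

private theorem REP_step [IsLocalRing R]
    (hI : IsLocalRing.maximalIdeal R = Ideal.span (Set.range y)) (N : ℕ) (g : R)
    (hg : g ∈ IsLocalRing.maximalIdeal R ^ N) :
    ∃ C : (Fin n → ℕ) → R, (∀ α, C α = 0 ∨ IsUnit (C α)) ∧
      g - ∑ α ∈ REP_D n N, C α * REP_m y α ∈ IsLocalRing.maximalIdeal R ^ (N + 1) := by
  classical
  have hy : ∀ i, y i ∈ IsLocalRing.maximalIdeal R := by
    intro i
    rw [hI]
    exact Ideal.subset_span ⟨i, rfl⟩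
  obtain ⟨a, ha⟩ := (Submodule.mem_span_image_finset_iff_exists_fun' R).1 (REP_span y hI N hg)
  refine ⟨fun α => if IsUnit (a α) then a α else 0, fun α => ?_, ?_⟩
  · by_cases h : IsUnit (a α)
    · right
      simp only [if_pos h]
      exact h
    · left
      simp only [if_neg h]
  · rw [← ha, ← Finset.sum_sub_distrib]
    refine Ideal.sum_mem _ fun α hα => ?_
    beta_reduce
    by_cases h : IsUnit (a α)
    · rw [if_pos h, smul_eq_mul, sub_self]
      exact Ideal.zero_mem _
    · rw [if_neg h, smul_eq_mul, zero_mul, sub_zero, pow_succ, mul_comm (a α)]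
      refine Ideal.mul_mem_mul ?_ ((IsLocalRing.mem_maximalIdeal _).2 h)
      have := REP_m_mem y hy α
      rwa [REP_mem_D.1 hα] at this

private theorem REP_seq [IsLocalRing R]
    (hI : IsLocalRing.maximalIdeal R = Ideal.span (Set.range y)) (f : R) :
    ∃ c : (Fin n → ℕ) → R, (∀ α, c α = 0 ∨ IsUnit (c α)) ∧
      ∀ N, f - ∑ M ∈ Finset.range N, ∑ α ∈ REP_D n M, c α * REP_m y α ∈
        IsLocalRing.maximalIdeal R ^ N := by
  choose! C hC1 hC2 using REP_step y hI
  let F : ℕ → R := fun N => Nat.rec f (fun N g => g - ∑ α ∈ REP_D n N, C N g α * REP_m y α) N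
  have hF0 : F 0 = f := rfl
  have hF1 : ∀ N, F (N + 1) = F N - ∑ α ∈ REP_D n N, C N (F N) α * REP_m y α := fun N => rfl
  have hFm : ∀ N, F N ∈ IsLocalRing.maximalIdeal R ^ N := by
    intro N
    induction N with
    | zero => rw [pow_zero, Ideal.one_eq_top]; exact Submodule.mem_top
    | succ N ih => rw [hF1]; exact hC2 N (F N) ih
  refine ⟨fun α => C (∑ i, α i) (F (∑ i, α i)) α, fun α => hC1 _ _ (hFm _) α, ?_⟩
  intro N
  have h1 : f - ∑ M ∈ Finset.range N, ∑ α ∈ REP_D n M,
      C (∑ i, α i) (F (∑ i, α i)) α * REP_m y α = F N := by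
    induction N with
    | zero => simp [hF0]
    | succ N ih =>
      rw [Finset.sum_range_succ, ← sub_sub, ih, hF1]
      congr 1
      refine Finset.sum_congr rfl fun α hα => ?_
      rw [REP_mem_D.1 hα]
  rw [h1]
  exact hFm N


private theorem REP_krull [IsNoetherianRing R] [IsLocalRing R] (J : Ideal R) (g : R)
    (hg : ∀ N : ℕ, g ∈ J ⊔ IsLocalRing.maximalIdeal R ^ N) : g ∈ J := by
  have h1 := Ideal.iInf_pow_smul_eq_bot_of_isLocalRing (M := R ⧸ J)
    (IsLocalRing.maximalIdeal R) (Ideal.IsPrime.ne_top inferInstance)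
  have h2 : (Ideal.Quotient.mk J g : R ⧸ J) ∈
      (⨅ i : ℕ, IsLocalRing.maximalIdeal R ^ i • ⊤ : Submodule R (R ⧸ J)) := by
    rw [Submodule.mem_iInf]
    intro N
    obtain ⟨j, hj, r, hr, hjr⟩ := Submodule.mem_sup.1 (hg N)
    have h3 : (Ideal.Quotient.mk J g : R ⧸ J) = r • (1 : R ⧸ J) := by
      rw [← hjr, map_add, Ideal.Quotient.eq_zero_iff_mem.2 hj, zero_add, Algebra.smul_def,
        mul_one]
      rfl
    rw [h3]
    exact Submodule.smul_mem_smul hr Submodule.mem_top
  rw [h1, Submodule.mem_bot] at h2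
  exact Ideal.Quotient.eq_zero_iff_mem.1 h2

private theorem REP_abs [IsNoetherianRing R] [IsLocalRing R]
    (hI : IsLocalRing.maximalIdeal R = Ideal.span (Set.range y)) (f : R) (hf : f ≠ 0) :
    ∃ (S : Finset (Fin n → ℕ)) (c : (Fin n → ℕ) → R), S.Nonempty ∧ (∀ α ∈ S, IsUnit (c α)) ∧
      f = ∑ α ∈ S, c α * REP_m y α := by
  classical
  obtain ⟨c, hc, hN⟩ := REP_seq y hI f
  have hy : ∀ i, y i ∈ IsLocalRing.maximalIdeal R := by
    intro i
    rw [hI]
    exact Ideal.subset_span ⟨i, rfl⟩
  have hpwo : Set.IsPWO {α : Fin n → ℕ | c α ≠ 0} := Set.isPWO_of_wellQuasiOrderedLE _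
  have hfin : Set.Finite {α : Fin n → ℕ | Minimal (fun β => c β ≠ 0) α} :=
    (setOfPred_minimal_antichain _).finite_of_partiallyWellOrderedOn
      (hpwo.mono (fun α hα => hα.1))
  obtain ⟨S, hS⟩ := hfin.exists_finset
  have hmin : ∀ α, c α ≠ 0 → ∃ β ∈ S, β ≤ α := by
    intro α hα
    obtain ⟨β, hβ, hβm⟩ := exists_minimal_le_of_wellFoundedLT (fun β => c β ≠ 0) α hα
    exact ⟨β, (hS β).2 hβm, hβ⟩
  have hSc : ∀ α ∈ S, c α ≠ 0 := fun α hα => ((hS α).1 hα).1
  -- the ideal
  set J : Ideal R := IsLocalRing.maximalIdeal R • Submodule.span R (REP_m y '' (S : Set (Fin n → ℕ)))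
    with hJ
  have hg : f - ∑ α ∈ S, c α * REP_m y α ∈ J := by
    refine REP_krull J _ fun N => ?_
    have hsum : ∑ M ∈ Finset.range N, ∑ α ∈ REP_D n M, c α * REP_m y α =
        ∑ α ∈ (Finset.range N).biUnion (REP_D n), c α * REP_m y α := by
      rw [Finset.sum_biUnion]
      intro a _ b _ hab
      refine Finset.disjoint_left.2 fun α ha hb => hab ?_
      rw [← REP_mem_D.1 ha, ← REP_mem_D.1 hb]
    have h1 := hN N
    rw [hsum] at h1
    have h2 : f - ∑ α ∈ S, c α * REP_m y α =
        (f - ∑ α ∈ (Finset.range N).biUnion (REP_D n), c α * REP_m y α) +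
        (∑ α ∈ (Finset.range N).biUnion (REP_D n) \ S, c α * REP_m y α -
          ∑ α ∈ S \ (Finset.range N).biUnion (REP_D n), c α * REP_m y α) := by
      rw [Finset.sum_sdiff_sub_sum_sdiff]
      ring
    rw [h2]
    refine Ideal.add_mem _ (Ideal.mem_sup_right h1) (Ideal.sub_mem _ ?_ ?_)
    · refine Ideal.sum_mem _ fun α hα => ?_
      obtain ⟨hα1, hα2⟩ := Finset.mem_sdiff.1 hα
      by_cases h0 : c α = 0
      · rw [h0, zero_mul]
        exact Ideal.zero_mem _
      · obtain ⟨β, hβS, hβ⟩ := hmin α h0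
        refine Ideal.mem_sup_left (Ideal.mul_mem_left _ _ ?_)
        have h3 : α = (α - β) + β := by
          ext i
          exact (Nat.sub_add_cancel (hβ i)).symm
        rw [h3, REP_m_add, hJ, ← smul_eq_mul]
        refine Submodule.smul_mem_smul ?_ (Submodule.subset_span ⟨β, hβS, rfl⟩)
        have h4 := REP_m_mem y hy (α - β)
        refine Ideal.pow_le_self ?_ h4
        intro h5
        have h6 : α - β = 0 := by
          ext i
          exact (Finset.sum_eq_zero_iff.1 h5) i (Finset.mem_univ i)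
        apply hα2
        rw [h3, h6, zero_add]
        exact hβS
    · refine Ideal.sum_mem _ fun α hα => ?_
      obtain ⟨hα1, hα2⟩ := Finset.mem_sdiff.1 hα
      refine Ideal.mem_sup_right (Ideal.mul_mem_left _ _ ?_)
      have h3 : N ≤ ∑ i, α i := by
        by_contra h4
        rw [not_le] at h4
        exact hα2 (Finset.mem_biUnion.2 ⟨_, Finset.mem_range.2 h4, REP_mem_D.2 rfl⟩)
      exact Ideal.pow_le_pow_right h3 (REP_m_mem y hy α)
  obtain ⟨a, ha, hsum⟩ := (Submodule.mem_ideal_smul_span_iff_exists_sum' _ _ _ _).1 hg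
  rw [Finsupp.sum_fintype a (fun i c => c • REP_m y ↑i) (fun i => zero_smul _ _)] at hsum
  refine ⟨S, fun α => if h : α ∈ (S : Set (Fin n → ℕ)) then c α + a ⟨α, h⟩ else c α, ?_, ?_, ?_⟩
  · by_contra h
    rw [Finset.not_nonempty_iff_eq_empty] at h
    have h1 : ∀ α, c α = 0 := by
      intro α
      by_contra h0
      obtain ⟨β, hβ, -⟩ := hmin α h0
      rw [h] at hβ
      exact absurd hβ (Finset.notMem_empty β)
    apply hf
    refine (Submodule.mem_bot R).1 ?_
    refine REP_krull ⊥ f fun N => Ideal.mem_sup_right ?_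
    have h2 := hN N
    simpa only [h1, zero_mul, Finset.sum_const_zero, sub_zero] using h2
  · intro α hα
    have hα' : α ∈ (S : Set (Fin n → ℕ)) := hα
    beta_reduce
    rw [dif_pos hα']
    have h1 : IsUnit (c α) := (hc α).resolve_left (hSc α hα)
    by_contra h2
    have h3 : c α + a ⟨α, hα'⟩ ∈ IsLocalRing.maximalIdeal R :=
      (IsLocalRing.mem_maximalIdeal _).2 h2
    have h4 := Ideal.sub_mem _ h3 (ha ⟨α, hα'⟩)
    rw [add_sub_cancel_right] at h4
    exact (IsLocalRing.mem_maximalIdeal _).1 h4 h1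
  · have h1 : f = ∑ α ∈ S, c α * REP_m y α + ∑ i : (S : Set (Fin n → ℕ)), a i • REP_m y ↑i := by
      rw [hsum]
      ring
    have h2 : ∑ i : (S : Set (Fin n → ℕ)), a i • REP_m y ↑i =
        ∑ α ∈ S, (if h : α ∈ (S : Set (Fin n → ℕ)) then a ⟨α, h⟩ else 0) * REP_m y α := by
      have h3 := Finset.sum_coe_sort S
        (fun α => (if h : α ∈ (S : Set (Fin n → ℕ)) then a ⟨α, h⟩ else 0) * REP_m y α)
      rw [← h3]
      refine Finset.sum_congr rfl fun i _ => ?_
      rw [dif_pos i.2, smul_eq_mul]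
    rw [h1, h2, ← Finset.sum_add_distrib]
    refine Finset.sum_congr rfl fun α hα => ?_
    have hα' : α ∈ (S : Set (Fin n → ℕ)) := hα
    beta_reduce
    rw [dif_pos hα', dif_pos hα', add_mul]

end REPabs

variable {k K : Type} [Field k] [Field K] [Algebra k K] {G : Subgroup (K ≃ₐ[k] K)}
  {A : Subalgebra k K}

variable {V : ValuationSubring K} {B : Subalgebra k K} {n : ℕ} {x z : Fin n → K}


theorem Loc.exists_rep (h : Loc V B x) {f : K} (hf : f ∈ locV V B) (hf0 : f ≠ 0) :
    ∃ (S : Finset (Fin n → ℕ)) (c : (Fin n → ℕ) → K), Rep (locV V B) x f S c := by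
  classical
  have hnoe := locV_noeth V B h.mem h.fg
  have hloc := locV_local V B h.mem
  have hxB : ∀ i, x i ∈ locV V B := by
    obtain ⟨hx, -⟩ := h.sm
    exact fun i => le_locV B (hx i)
  have hval : ∀ g : locV V B, g ∈ IsLocalRing.maximalIdeal (locV V B) ↔
      V.valuation (g : K) < 1 := by
    intro g
    rw [IsLocalRing.mem_maximalIdeal, mem_nonunits_iff]
    constructor
    · intro hg
      by_contra hlt
      apply hg
      have h1 : V.valuation (g : K) = 1 :=
        le_antisymm ((V.valuation_le_one_iff _).2 (locV_mem h.mem g g.2)) (not_lt.1 hlt)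
      have hg0 : (g : K) ≠ 0 := by
        intro h0
        rw [h0, map_zero] at h1
        exact zero_ne_one h1
      exact IsUnit.of_mul_eq_one ⟨_, locV_inv g.2 h1⟩ (Subtype.ext (mul_inv_cancel₀ hg0))
    · intro hlt hg
      obtain ⟨b, hb⟩ := hg.exists_right_inv
      have h1 : V.valuation (g : K) * V.valuation (b : K) = 1 := by
        rw [← map_mul]
        have h2 : (g : K) * (b : K) = 1 := by
          have := congrArg (fun z : locV V B => (z : K)) hb
          simpa using this
        rw [h2, map_one]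
      have h2 : V.valuation (b : K) ≤ 1 := (V.valuation_le_one_iff _).2 (locV_mem h.mem b b.2)
      have h3 := mul_lt_one_of_lt_of_le hlt h2
      rw [h1] at h3
      exact lt_irrefl _ h3
  let y : Fin n → locV V B := fun i => ⟨x i, hxB i⟩
  have hI : IsLocalRing.maximalIdeal (locV V B) = Ideal.span (Set.range y) := by
    refine le_antisymm ?_ ?_
    · intro g hg
      obtain ⟨a, ha, hga⟩ := h.gen g g.2 ((hval g).1 hg)
      have h1 : g = ∑ i, (⟨a i, ha i⟩ : locV V B) * y i := by
        refine Subtype.ext ?_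
        rw [hga]
        push_cast
        rfl
      rw [h1]
      exact Ideal.sum_mem _ fun i _ => Ideal.mul_mem_left _ _ (Ideal.subset_span ⟨i, rfl⟩)
    · rw [Ideal.span_le]
      rintro _ ⟨i, rfl⟩
      exact (hval _).2 (h.pos i)
  obtain ⟨S, c, hSn, hc, hsum⟩ := REP_abs y hI ⟨f, hf⟩ (fun h0 => hf0 (congrArg Subtype.val h0))
  refine ⟨S, fun α => (c α : K), hSn, fun α _ => (c α).2, ?_, ?_, ?_⟩
  · intro α hα
    obtain ⟨b, hb⟩ := (hc α hα).exists_right_inv
    have h2 : (c α : K) * (b : K) = 1 := by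
      have := congrArg (fun z : locV V B => (z : K)) hb
      simpa using this
    rw [← eq_inv_of_mul_eq_one_right h2]
    exact b.2
  · intro α hα
    obtain ⟨b, hb⟩ := (hc α hα).exists_right_inv
    have h2 : (c α : K) * (b : K) = 1 := by
      have := congrArg (fun z : locV V B => (z : K)) hb
      simpa using this
    exact left_ne_zero_of_mul_eq_one h2
  · have h1 := congrArg (fun z : locV V B => (z : K)) hsum
    have h2 : ((∑ α ∈ S, c α * REP_m y α : locV V B) : K) =
        ∑ α ∈ S, (c α : K) * mon x (zx α) := by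
      rw [AddSubmonoidClass.coe_finsetSum]
      refine Finset.sum_congr rfl fun α _ => ?_
      rw [MulMemClass.coe_mul]
      congr 1
      simp only [REP_m, mon, zx, zpow_natCast]
      rw [SubmonoidClass.coe_finsetProd]
      rfl
    exact h1.trans h2

end Pool.Agent.MP_b525bf_ag_E
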