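import Pool.Agent.Lib.MP_b525bf_ag_E.EFB
import Pool.Agent.Lib.MP_b525bf_ag_h52d.Destack

/-!
# Theorem E, row SEM
Recipe. `M := EF G A f u`. `hQ`: some homogeneous element of degree `n • amp N θ`, `n > 0`, is not in
`Q`. `M.alg` is generated by `egens`; a homogeneous element outside `Q` forces a MONOMIAL in the
generators of the same degree outside `Q` (`GP.exists_mon` in `MP_b525bf_ag_h52d/GP.lean`, with the
finite generating set of `EF_fg`, or directly: `M.s d` is spanned by the products of generators of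
total degree `d`). Let `a j, b j, c i` be the numbers of factors of type `dF m j`, `dS u j`, `dR N i` in
it: `a j = b j`, `∑ j, b j * u i j - c i = n * θ i`. So `n * θ i ≤ ∑ j, b j * u i j`; every factor of the
monomial is outside `Q`, hence a unit of `atP M Q` (`isU_atP_iff`). `unF`, `unS`: `b j ≠ 0`, because
`u i = Pi.single j 1` for some `i` (`hC.std`) and `n * θ i > 0`. If `single (dR N i) 1 ∈ Q` then
`c i = 0`, so `i` is tight: `ind` and `sign` follow from `hC.ind n b`, `hC.sign n b` (restrict the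
linearly independent family to a subset).
-/

set_option autoImplicit false
set_option linter.unusedVariables false

namespace Pool.Agent.MP_b525bf_ag_E

open Pool.Agent.LU2 Pool.Agent.MP_b525bf_ag Pool.Agent.MP_b525bf_ag_W

variable {k K : Type} [Field k] [Field K] [Algebra k K] {G : Subgroup (K ≃ₐ[k] K)}
  {A : Subalgebra k K}

variable {N m : ℕ} {f : Fin N → K} {u : Fin m → Fin N → ℕ} {θ : Fin m → ℕ}
  {D : Set (Fin N → ℤ)}


/-- Degrees of products of generators outside `Q`. -/
private def SemGood (G : Subgroup (K ≃ₐ[k] K)) (A : Subalgebra k K) (f : Fin N → K)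
    (u : Fin m → Fin N → ℕ) (Q : Ideal (EF G A f u).alg) [Q.IsPrime] (d : Ix N m) : Prop :=
  ∃ (a b : Fin N → ℕ) (c : Fin m → ℕ),
    d = ∑ j, a j • dF m j + ∑ j, b j • dS u j + ∑ i, c i • dR N i ∧
    (∀ j, a j ≠ 0 → ∃ y ∈ orb G A (f j), IsU (atP (EF G A f u) Q) (dF m j) y) ∧
    (∀ j, b j ≠ 0 → IsU (atP (EF G A f u) Q) (dS u j) 1) ∧
    ∀ i, c i ≠ 0 → IsU (atP (EF G A f u) Q) (dR N i) 1

variable {Q : Ideal (EF G A f u).alg} [Q.IsPrime]

private theorem sem_zero : SemGood G A f u Q 0 :=
  ⟨0, 0, 0, by simp, fun _ h => absurd rfl h, fun _ h => absurd rfl h, fun _ h => absurd rfl h⟩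

private theorem sem_add {d e : Ix N m} (hd : SemGood G A f u Q d) (he : SemGood G A f u Q e) :
    SemGood G A f u Q (d + e) := by
  obtain ⟨a, b, c, h1, ha, hb, hc⟩ := hd
  obtain ⟨a', b', c', h1', ha', hb', hc'⟩ := he
  refine ⟨a + a', b + b', c + c', ?_, ?_, ?_, ?_⟩
  · rw [h1, h1']
    simp only [Pi.add_apply, add_smul, Finset.sum_add_distrib]
    abel
  · intro j hj
    by_cases h : a j = 0
    · refine ha' j fun h' => hj ?_
      rw [Pi.add_apply, h, h']
    · exact ha j h
  · intro j hj
    by_cases h : b j = 0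
    · refine hb' j fun h' => hj ?_
      rw [Pi.add_apply, h, h']
    · exact hb j h
  · intro j hj
    by_cases h : c j = 0
    · refine hc' j fun h' => hj ?_
      rw [Pi.add_apply, h, h']
    · exact hc j h

private theorem sem_single {d c : Ix N m} {y : K}
    (h : IsU (atP (EF G A f u) Q) d ((AddMonoidAlgebra.single c y : AddMonoidAlgebra K (Ix N m)).coeff d)) :
    c = d ∧ IsU (atP (EF G A f u) Q) c y := by
  classical
  rw [AddMonoidAlgebra.coeff_single, Finsupp.single_apply] at h
  by_cases hc : c = d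
  · rw [if_pos hc] at h
    refine ⟨hc, ?_⟩
    rw [hc]
    exact h
  · rw [if_neg hc] at h
    exact absurd rfl h.1

private theorem sem_sum {ι σ : Type} [AddCommGroup ι] {M : Fam k K ι} (q : Ideal M.alg) [q.IsPrime]
    {d : ι} (s : Finset σ) (x : σ → K) (hx : ∀ i ∈ s, x i ∈ (atP M q).s d)
    (hU : IsU (atP M q) d (∑ i ∈ s, x i)) : ∃ i ∈ s, IsU (atP M q) d (x i) := by
  classical
  induction s using Finset.induction_on with
  | empty =>
    rw [Finset.sum_empty] at hU
    exact absurd rfl hU.1
  | insert a s ha ih =>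
    rw [Finset.sum_insert ha] at hU
    rcases isU_add M q (hx a (Finset.mem_insert_self _ _))
      (Submodule.sum_mem _ fun i hi => hx i (Finset.mem_insert_of_mem hi)) hU with h | h
    · exact ⟨a, Finset.mem_insert_self _ _, h⟩
    · obtain ⟨i, hi, h'⟩ := ih (fun i hi => hx i (Finset.mem_insert_of_mem hi)) h
      exact ⟨i, Finset.mem_insert_of_mem hi, h'⟩

private theorem sem_alg : (EF G A f u).alg = Algebra.adjoin k (egens G A f u) := by
  unfold EF
  refine Fam.ofSub_adjoin_alg _ ?_
  rintro F (((⟨a, _, rfl⟩ | ⟨j, y, _, rfl⟩) | ⟨j, rfl⟩) | ⟨i, rfl⟩)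
  · exact ⟨_, _, rfl⟩
  · exact ⟨_, _, rfl⟩
  · exact ⟨_, _, rfl⟩
  · exact ⟨_, _, rfl⟩

private theorem sem_main {F : AddMonoidAlgebra K (Ix N m)}
    (hF : F ∈ Algebra.adjoin k (egens G A f u)) :
    ∀ d, IsU (atP (EF G A f u) Q) d (F.coeff d) → SemGood G A f u Q d := by
  classical
  induction hF using Algebra.adjoin_induction with
  | mem F hF =>
    intro d hd
    rcases hF with ((⟨a, _, rfl⟩ | ⟨j, y, hy, rfl⟩) | ⟨j, rfl⟩) | ⟨i, rfl⟩
    · obtain ⟨rfl, -⟩ := sem_single hd
      exact sem_zero
    · obtain ⟨rfl, h⟩ := sem_single hd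
      refine ⟨Pi.single j 1, 0, 0, ?_, ?_, fun _ h => absurd rfl h, fun _ h => absurd rfl h⟩
      · simp only [Pi.zero_apply, zero_smul, Finset.sum_const_zero, add_zero]
        rw [Finset.sum_eq_single j]
        · rw [Pi.single_eq_same, one_smul]
        · intro j' _ hj'
          rw [Pi.single_eq_of_ne hj', zero_smul]
        · intro h
          exact absurd (Finset.mem_univ j) h
      · intro j' hj'
        by_cases hjj : j' = j
        · subst hjj
          exact ⟨y, hy, h⟩
        · exact absurd (Pi.single_eq_of_ne hjj 1) hj'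
    · obtain ⟨rfl, h⟩ := sem_single hd
      refine ⟨0, Pi.single j 1, 0, ?_, fun _ h => absurd rfl h, ?_, fun _ h => absurd rfl h⟩
      · simp only [Pi.zero_apply, zero_smul, Finset.sum_const_zero, add_zero, zero_add]
        rw [Finset.sum_eq_single j]
        · rw [Pi.single_eq_same, one_smul]
        · intro j' _ hj'
          rw [Pi.single_eq_of_ne hj', zero_smul]
        · intro h
          exact absurd (Finset.mem_univ j) h
      · intro j' hj'
        by_cases hjj : j' = j
        · subst hjj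
          exact h
        · exact absurd (Pi.single_eq_of_ne hjj 1) hj'
    · obtain ⟨rfl, h⟩ := sem_single hd
      refine ⟨0, 0, Pi.single i 1, ?_, fun _ h => absurd rfl h, fun _ h => absurd rfl h, ?_⟩
      · simp only [Pi.zero_apply, zero_smul, Finset.sum_const_zero, zero_add]
        rw [Finset.sum_eq_single i]
        · rw [Pi.single_eq_same, one_smul]
        · intro j' _ hj'
          rw [Pi.single_eq_of_ne hj', zero_smul]
        · intro h
          exact absurd (Finset.mem_univ i) h
      · intro j' hj'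
        by_cases hjj : j' = i
        · subst hjj
          exact h
        · exact absurd (Pi.single_eq_of_ne hjj 1) hj'
  | algebraMap r =>
    intro d hd
    have e : algebraMap k (AddMonoidAlgebra K (Ix N m)) r
        = AddMonoidAlgebra.single 0 (algebraMap k K r) := by
      rw [AddMonoidAlgebra.coe_algebraMap]; rfl
    rw [e] at hd
    obtain ⟨rfl, -⟩ := sem_single hd
    exact sem_zero
  | add F F' hF hF' ih ih' =>
    intro d hd
    rw [← sem_alg] at hF hF'
    have e : (F + F').coeff d = F.coeff d + F'.coeff d := rfl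
    rw [e] at hd
    rcases isU_add _ Q (le_atP _ Q d (hF d)) (le_atP _ Q d (hF' d)) hd with h | h
    · exact ih d h
    · exact ih' d h
  | mul F F' hF hF' ih ih' =>
    intro d hd
    rw [← sem_alg] at hF hF'
    rw [AddMonoidAlgebra.coeff_mul] at hd
    unfold Finsupp.sum at hd
    obtain ⟨b, -, hb⟩ := sem_sum Q _ _ (fun b _ => Submodule.sum_mem _ fun c _ => by
      dsimp only
      split_ifs with h
      · rw [← h]
        exact le_atP _ Q _ ((EF G A f u).mul' (hF b) (hF' c))
      · exact Submodule.zero_mem _) hd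
    obtain ⟨c, -, hc⟩ := sem_sum Q _ _ (fun c _ => by
      dsimp only
      split_ifs with h
      · rw [← h]
        exact le_atP _ Q _ ((EF G A f u).mul' (hF b) (hF' c))
      · exact Submodule.zero_mem _) hb
    dsimp only at hc
    split_ifs at hc with h
    · rw [← h] at hc ⊢
      exact sem_add (ih b (IsU.of_mul_left (le_atP _ Q _ (hF b)) (le_atP _ Q _ (hF' c)) hc))
        (ih' c (IsU.of_mul_right (le_atP _ Q _ (hF b)) (le_atP _ Q _ (hF' c)) hc))
    · exact absurd rfl hc.1

omit Q [Q.IsPrime] in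
theorem semiD (h : Hyp G A) (hf : ∀ j, f j ∈ A) (hf0 : ∀ j, f j ≠ 0) (hC : Comb D u θ)
    (Q : Ideal (EF G A f u).alg) [Q.IsPrime] (hQ : SemiS (EF G A f u) (amp N θ) Q) :
    SemiD G A f u D Q := by
  classical
  obtain ⟨n, hn, x, hx, hxQ⟩ := hQ
  have hU : IsU (atP (EF G A f u) Q) (n • amp N θ) x := (isU_atP_iff _ Q hx).2 hxQ
  have hmem : (AddMonoidAlgebra.single (n • amp N θ) x : AddMonoidAlgebra K (Ix N m))
      ∈ Algebra.adjoin k (egens G A f u) := by
    rw [← sem_alg]
    exact Fam.single_mem_alg.2 hx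
  obtain ⟨a, b, c, hd, ha, hb, hc⟩ := sem_main (Q := Q) hmem (n • amp N θ) (by
    rw [AddMonoidAlgebra.coeff_single, Finsupp.single_eq_same]
    exact hU)
  have h1 : ∀ j, a j = b j := by
    intro j
    have h2 := congrArg (fun z : Ix N m => z.1 j) hd
    simp [amp, dF, dS, dR, Prod.fst_sum, Finset.sum_apply, Pi.single_apply] at h2
    omega
  have h3 : ∀ i, n * θ i + c i = ∑ j, b j * u i j := by
    intro i
    have h2 := congrArg (fun z : Ix N m => z.2 i) hd
    simp [amp, dF, dS, dR, Prod.snd_sum, Finset.sum_apply, Pi.single_apply] at h2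
    have h4 : ((n * θ i + c i : ℕ) : ℤ) = ((∑ j, b j * u i j : ℕ) : ℤ) := by
      push_cast
      linarith
    exact_mod_cast h4
  have hle : ∀ i, n * θ i ≤ ∑ j, b j * u i j := fun i => by rw [← h3 i]; exact Nat.le_add_right _ _
  have hbj : ∀ j, b j ≠ 0 := by
    intro j hj
    obtain ⟨i, hi⟩ := hC.std j
    have h4 := hle i
    rw [hi] at h4
    have h5 : ∑ j', b j' * (Pi.single j 1 : Fin N → ℕ) j' = 0 := by
      refine Finset.sum_eq_zero fun j' _ => ?_
      by_cases hjj : j' = j
      · rw [hjj, hj, zero_mul]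
      · rw [Pi.single_eq_of_ne hjj, mul_zero]
    rw [h5] at h4
    have h6 := Nat.mul_pos hn (hC.pos i)
    omega
  have htight : ∀ i, ¬ IsU (atP (EF G A f u) Q) (dR N i) 1 → n * θ i = ∑ j, b j * u i j := by
    intro i hi
    have h4 : c i = 0 := by
      by_contra h4
      exact hi (hc i h4)
    rw [← h3 i, h4, add_zero]
  refine ⟨fun j => ha j (by rw [h1 j]; exact hbj j), fun j => hb j (hbj j), ?_, ?_⟩
  · have h4 := hC.ind n b hn hle
    exact h4.comp (fun i : {i // ¬ IsU (atP (EF G A f u) Q) (dR N i) 1} =>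
      (⟨i.1, htight i.1 i.2⟩ : {i // n * θ i = ∑ j, b j * u i j}))
      (fun i i' hii => Subtype.ext (Subtype.mk.inj hii))
  · intro d hd
    rcases hC.sign n b hn hle d hd with h4 | h4
    · exact Or.inl fun i hi => h4 i (htight i hi)
    · exact Or.inr fun i hi => h4 i (htight i hi)

end Pool.Agent.MP_b525bf_ag_E
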