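import Pool.Agent.Lib.MP_b525bf_ag_E.EFB

/-!
# Theorem E, row SGN
Recipe. `M := EF G A f u`, `At := atP M Q`. `isU_mon`: `IsU At (dF m j + dS u j) (f j * 1)`
(`IsU.mul`), and `dF m j + dS u j = (0, fun i => u i j)`; take the product of the integer powers
`e j` (`IsU` is stable under products, inverses, powers). `mem_zero`: multiply `mon f e`, of degree
`(0, pr (u ·) e)`, by `1 = ∏ i, 1^..` in degree `∑ pr (u i) e • dR N i`: for `i` with
`IsU At (dR N i) 1` any integer multiple is allowed, for the others `pr (u i) e ≥ 0`, and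
`1 ∈ At.s (dR N i)` (generator). `pr_zero`: if `W.valuation (mon f e) = 1`, `e ∈ D`: by `sign` all
`pr (u i) e ≥ 0` or all `≤ 0` on the nonunit `i`; replace `e` by `-e` in the second case: so
`mon f e ∈ zeroSub At`, its inverse is in `zeroSub At` by `hW.inv`, so `IsU At 0 (mon f e)`; if
`pr (u i) e > 0` for a nonunit `i`, then `mon f e` is (unit) * 1_{dR N i} * (element): a product with a
nonunit factor (`IsU.of_mul_right`): contradiction. `pr_nonneg`: by `sign`; in the case `≤ 0`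
`mon f (-e) ∈ zeroSub At ⊆ W`, so `W.valuation (mon f e) ≥ 1`, so `= 1`, use `pr_zero`.
-/

set_option autoImplicit false
set_option linter.unusedVariables false

namespace Pool.Agent.MP_b525bf_ag_E

open Pool.Agent.LU2 Pool.Agent.MP_b525bf_ag Pool.Agent.MP_b525bf_ag_W

variable {k K : Type} [Field k] [Field K] [Algebra k K] {G : Subgroup (K ≃ₐ[k] K)}
  {A : Subalgebra k K}

variable {N m : ℕ} {f : Fin N → K} {u : Fin m → Fin N → ℕ} {θ : Fin m → ℕ}
  {D : Set (Fin N → ℤ)}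

variable {Q : Ideal (EF G A f u).alg} [Q.IsPrime]


private theorem sgn_zpow {ι : Type} [AddCommGroup ι] {M : Fam k K ι} {d : ι} {x : K}
    (hx : IsU M d x) (n : ℤ) : IsU M (n • d) (x ^ n) := by
  have hnat : ∀ n : ℕ, IsU M ((n : ℤ) • d) (x ^ (n : ℤ)) := by
    intro n
    induction n with
    | zero =>
      simp only [Nat.cast_zero, zero_smul, zpow_zero]
      exact ⟨one_ne_zero, M.one', by rw [inv_one, neg_zero]; exact M.one'⟩
    | succ n ih =>
      have h1 := ih.mul hx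
      have e1 : ((n : ℤ) • d + d) = (((n + 1 : ℕ) : ℤ) • d) := by
        push_cast
        rw [add_smul, one_smul]
      have e2 : x ^ (n : ℤ) * x = x ^ (((n + 1 : ℕ) : ℤ)) := by
        push_cast
        rw [zpow_add_one₀ hx.1]
      rwa [e1, e2] at h1
  rcases Int.eq_nat_or_neg n with ⟨m, rfl | rfl⟩
  · exact hnat m
  · have h1 := (hnat m).inv
    rwa [← neg_smul, ← zpow_neg] at h1

private theorem sgn_prod {ι σ : Type} [AddCommGroup ι] {M : Fam k K ι} (s : Finset σ)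
    (d : σ → ι) (x : σ → K) (hx : ∀ j ∈ s, IsU M (d j) (x j)) :
    IsU M (∑ j ∈ s, d j) (∏ j ∈ s, x j) := by
  classical
  induction s using Finset.induction_on with
  | empty =>
    simp only [Finset.sum_empty, Finset.prod_empty]
    exact ⟨one_ne_zero, M.one', by rw [inv_one, neg_zero]; exact M.one'⟩
  | insert a s ha ih =>
    rw [Finset.sum_insert ha, Finset.prod_insert ha]
    exact (hx a (Finset.mem_insert_self _ _)).mul
      (ih fun j hj => hx j (Finset.mem_insert_of_mem hj))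

private theorem sgn_one_sum {ι σ : Type} [AddCommGroup ι] {M : Fam k K ι} (s : Finset σ)
    (d : σ → ι) (hx : ∀ j ∈ s, (1 : K) ∈ M.s (d j)) : (1 : K) ∈ M.s (∑ j ∈ s, d j) := by
  classical
  induction s using Finset.induction_on with
  | empty =>
    rw [Finset.sum_empty]
    exact M.one'
  | insert a s ha ih =>
    rw [Finset.sum_insert ha]
    have := M.mul' (hx a (Finset.mem_insert_self _ _))
      (ih fun j hj => hx j (Finset.mem_insert_of_mem hj))
    rwa [one_mul] at this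

private theorem sgn_gen (i : Fin m) : (1 : K) ∈ (EF G A f u).s (dR N i) := by
  unfold EF
  rw [Fam.mem_ofSub]
  exact Algebra.subset_adjoin (Or.inr ⟨i, rfl⟩)

omit [Q.IsPrime] in
private theorem sgn_sum (c : Fin m → ℤ) :
    ∑ i, c i • dR N i = ((0 : Fin N → ℤ), fun i => -(c i)) := by
  unfold dR
  refine Prod.ext ?_ ?_
  · rw [Prod.fst_sum]
    simp
  · rw [Prod.snd_sum]
    funext i
    simp [Finset.sum_apply, Pi.single_apply]

private theorem sgn_one (c : Fin m → ℤ)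
    (hc : ∀ i, ¬ IsU (atP (EF G A f u) Q) (dR N i) 1 → 0 ≤ c i) :
    (1 : K) ∈ (atP (EF G A f u) Q).s ((0 : Fin N → ℤ), fun i => -(c i)) := by
  rw [← sgn_sum]
  refine sgn_one_sum _ _ fun i _ => ?_
  by_cases hi : IsU (atP (EF G A f u) Q) (dR N i) 1
  · have := (sgn_zpow hi (c i)).2.1
    rwa [one_zpow] at this
  · obtain ⟨n, hn⟩ := Int.eq_ofNat_of_zero_le (hc i hi)
    rw [hn]
    have h1 := (atP (EF G A f u) Q).pow' (le_atP (EF G A f u) Q _ (sgn_gen i)) n
    rw [one_pow] at h1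
    rwa [natCast_zsmul]

theorem SemiD.isU_mon (hQ : SemiD G A f u D Q) (hf0 : ∀ j, f j ≠ 0)
    (hU : ∀ j, IsU (atP (EF G A f u) Q) (dF m j) (f j)) (e : Fin N → ℤ) :
    IsU (atP (EF G A f u) Q) (0, fun i => pr (u i) e) (mon f e) := by
  have h1 := sgn_prod (M := atP (EF G A f u) Q) Finset.univ
    (fun j => e j • (dF m j + dS u j)) (fun j => (f j * 1) ^ e j)
    (fun j _ => sgn_zpow ((hU j).mul (hQ.unS j)) (e j))
  have e1 : (∑ j, e j • (dF m j + dS u j)) = ((0 : Fin N → ℤ), fun i => pr (u i) e) := by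
    refine Prod.ext ?_ ?_
    · rw [Prod.fst_sum]
      simp [dF, dS]
    · rw [Prod.snd_sum]
      funext i
      simp [dF, dS, pr, Finset.sum_apply, mul_comm]
  have e2 : (∏ j, (f j * 1) ^ e j) = mon f e := by
    unfold mon
    simp
  rw [e1, e2] at h1
  exact h1

theorem SemiD.mem_zero (hQ : SemiD G A f u D Q) (hf0 : ∀ j, f j ≠ 0)
    (hU : ∀ j, IsU (atP (EF G A f u) Q) (dF m j) (f j)) {e : Fin N → ℤ}
    (he : ∀ i, ¬ IsU (atP (EF G A f u) Q) (dR N i) 1 → 0 ≤ pr (u i) e) :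
    mon f e ∈ (atP (EF G A f u) Q).s 0 := by
  have h1 := (atP (EF G A f u) Q).mul' (hQ.isU_mon hf0 hU e).2.1 (sgn_one _ he)
  rw [mul_one] at h1
  have e1 : (((0 : Fin N → ℤ), fun i => pr (u i) e) : Ix N m) + (0, fun i => -(pr (u i) e)) = 0 := by
    refine Prod.ext ?_ ?_
    · simp
    · funext i
      simp
  rwa [e1] at h1

private theorem sgn_neg (hf0 : ∀ j, f j ≠ 0) (e : Fin N → ℤ) : mon f (-e) = (mon f e)⁻¹ := by
  unfold mon
  rw [← Finset.prod_inv_distrib]
  refine Finset.prod_congr rfl fun j _ => ?_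
  rw [Pi.neg_apply, zpow_neg]

private theorem sgn_pr_neg (a : Fin N → ℕ) (e : Fin N → ℤ) : pr a (-e) = -(pr a e) := by
  unfold pr
  rw [← Finset.sum_neg_distrib]
  refine Finset.sum_congr rfl fun j _ => ?_
  rw [Pi.neg_apply, mul_neg]

private theorem sgn_zero (hQ : SemiD G A f u D Q) (hf0 : ∀ j, f j ≠ 0)
    (hU : ∀ j, IsU (atP (EF G A f u) Q) (dF m j) (f j)) {W : ValuationSubring K}
    (hW : Dom W (zeroSub (atP (EF G A f u) Q))) {e : Fin N → ℤ}
    (he : ∀ i, ¬ IsU (atP (EF G A f u) Q) (dR N i) 1 → 0 ≤ pr (u i) e)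
    (hv : W.valuation (mon f e) = 1) (i : Fin m)
    (hi : ¬ IsU (atP (EF G A f u) Q) (dR N i) 1) : pr (u i) e = 0 := by
  by_contra hne
  have hpos : 0 < pr (u i) e := lt_of_le_of_ne (he i hi) (Ne.symm hne)
  have h0 : mon f e ∈ (atP (EF G A f u) Q).s 0 := hQ.mem_zero hf0 hU he
  have h1 : (mon f e)⁻¹ ∈ (atP (EF G A f u) Q).s 0 := hW.inv _ h0 hv
  have h2 := hQ.isU_mon hf0 hU e
  have h3 : IsU (atP (EF G A f u) Q) 0 (mon f e) := ⟨h2.1, h0, by rw [neg_zero]; exact h1⟩
  have h4 := h3.mul h2.inv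
  rw [mul_inv_cancel₀ h2.1] at h4
  apply hi
  have h5 : (1 : K) ∈ (atP (EF G A f u) Q).s
      ((0 : Fin N → ℤ), fun i' => -(pr (u i') e - (Pi.single i 1 : Fin m → ℤ) i')) := by
    refine sgn_one (fun i' => pr (u i') e - (Pi.single i 1 : Fin m → ℤ) i') fun i' hi' => ?_
    rcases eq_or_ne i' i with rfl | hii
    · rw [Pi.single_eq_same]
      linarith [Int.add_one_le_iff.mpr hpos]
    · rw [Pi.single_eq_of_ne hii, sub_zero]
      exact he i' hi'
  refine IsU.of_mul_left (y := 1) (le_atP (EF G A f u) Q _ (sgn_gen i)) h5 ?_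
  rw [mul_one]
  convert h4 using 1
  refine Prod.ext ?_ ?_
  · simp [dR]
  · funext i'
    simp [dR]
    ring

private theorem sgn_pr_zero (hQ : SemiD G A f u D Q) (hf0 : ∀ j, f j ≠ 0)
    (hU : ∀ j, IsU (atP (EF G A f u) Q) (dF m j) (f j)) {W : ValuationSubring K}
    (hW : Dom W (zeroSub (atP (EF G A f u) Q))) {e : Fin N → ℤ} (he : e ∈ D)
    (hv : W.valuation (mon f e) = 1) (i : Fin m)
    (hi : ¬ IsU (atP (EF G A f u) Q) (dR N i) 1) : pr (u i) e = 0 := by
  rcases hQ.sign e he with h | h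
  · exact sgn_zero hQ hf0 hU hW h hv i hi
  · have h1 := sgn_zero hQ hf0 hU hW (e := -e)
      (fun i' hi' => by rw [sgn_pr_neg]; have := h i' hi'; omega)
      (by rw [sgn_neg hf0, map_inv₀, hv, inv_one]) i hi
    rw [sgn_pr_neg] at h1
    omega

theorem SemiD.pr_nonneg (hQ : SemiD G A f u D Q) (hf0 : ∀ j, f j ≠ 0)
    (hU : ∀ j, IsU (atP (EF G A f u) Q) (dF m j) (f j)) {W : ValuationSubring K}
    (hW : Dom W (zeroSub (atP (EF G A f u) Q))) {e : Fin N → ℤ} (he : e ∈ D)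
    (hv : W.valuation (mon f e) ≤ 1) (i : Fin m)
    (hi : ¬ IsU (atP (EF G A f u) Q) (dR N i) 1) : 0 ≤ pr (u i) e := by
  rcases hQ.sign e he with h | h
  · exact h i hi
  · have h1 : mon f (-e) ∈ zeroSub (atP (EF G A f u) Q) :=
      hQ.mem_zero hf0 hU fun i' hi' => by rw [sgn_pr_neg]; have := h i' hi'; omega
    have h2 : W.valuation (mon f (-e)) ≤ 1 := (W.valuation_le_one_iff _).2 (hW.le _ h1)
    have h3 : W.valuation (mon f e) = 1 := by
      refine le_antisymm hv ?_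
      rw [sgn_neg hf0, map_inv₀] at h2
      have h4 : W.valuation (mon f e) ≠ 0 := by
        rw [Ne, map_eq_zero]
        exact (hQ.isU_mon hf0 hU e).1
      exact (inv_le_one₀ (zero_lt_iff.mpr h4)).1 h2
    exact (sgn_pr_zero hQ hf0 hU hW he h3 i hi).ge

theorem SemiD.pr_zero (hQ : SemiD G A f u D Q) (hf0 : ∀ j, f j ≠ 0)
    (hU : ∀ j, IsU (atP (EF G A f u) Q) (dF m j) (f j)) {W : ValuationSubring K}
    (hW : Dom W (zeroSub (atP (EF G A f u) Q))) {e : Fin N → ℤ} (he : e ∈ D)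
    (hv : W.valuation (mon f e) = 1) (i : Fin m)
    (hi : ¬ IsU (atP (EF G A f u) Q) (dR N i) 1) : pr (u i) e = 0 :=
  sgn_pr_zero hQ hf0 hU hW he hv i hi

end Pool.Agent.MP_b525bf_ag_E
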