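import Pool.Agent.Lib.MP_b525bf_ag_E.Defs
import Pool.Agent.Lib.LU2G.Smooth

/-!
# Theorem E, row SM0
Recipe. Copy the proofs of `smooth_of_isPar` and `smooth_of_isPar_aux` (`LU2G/SmoothA.lean`) and of
`exists_smooth_away'` (`LU2G/SmoothA2.lean`): there the localisation `S_f` is even smooth (étale)
over `MvPolynomial (Fin n ⊕ Fin d) k` by `z` and a separating transcendence basis `t` of the residue
field. Compose with `MvPolynomial (Fin n) k → MvPolynomial (Fin n ⊕ Fin d) k` (rename Sum.inl),
which is formally smooth (`MvPolynomial.sumAlgEquiv` / it is a polynomial ring over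
`MvPolynomial (Fin n) k`). Result: `B' = k[B, h⁻¹]` (`smooth_adjoin_invV`, `mem_adjoin_inv`) with
`z i ∈ B'` and `SmOver B' z`. The other fields of `Loc V B' z` come from `IsPar` and
`locV V B' = locV V B` (`locV_mono`, `locV_locV`).
-/

set_option autoImplicit false
set_option linter.unusedVariables false

namespace Pool.Agent.MP_b525bf_ag_E

open Pool.Agent.LU2 Pool.Agent.MP_b525bf_ag Pool.Agent.MP_b525bf_ag_W Pool.Agent.LU2G

/-- Adding variables is formally smooth. -/
private theorem SM0_rename {k : Type} [Field k] (n d : ℕ) :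
    (MvPolynomial.rename Sum.inl : MvPolynomial (Fin n) k →ₐ[k]
      MvPolynomial (Fin n ⊕ Fin d) k).toRingHom.FormallySmooth := by
  have h1 : (algebraMap (MvPolynomial (Fin n) k)
      (MvPolynomial (Fin d) (MvPolynomial (Fin n) k))).FormallySmooth :=
    RingHom.formallySmooth_algebraMap.2 inferInstance
  let e : MvPolynomial (Fin d) (MvPolynomial (Fin n) k) ≃+* MvPolynomial (Fin n ⊕ Fin d) k :=
    (MvPolynomial.sumRingEquiv k (Fin d) (Fin n)).symm.trans
      (MvPolynomial.renameEquiv k (Equiv.sumComm (Fin d) (Fin n))).toRingEquiv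
  have h2 : (e : MvPolynomial (Fin d) (MvPolynomial (Fin n) k) →+*
      MvPolynomial (Fin n ⊕ Fin d) k).FormallySmooth :=
    RingHom.FormallySmooth.of_bijective e.bijective
  have h3 := h1.comp h2
  have h4 : (e : MvPolynomial (Fin d) (MvPolynomial (Fin n) k) →+*
      MvPolynomial (Fin n ⊕ Fin d) k).comp (algebraMap (MvPolynomial (Fin n) k)
      (MvPolynomial (Fin d) (MvPolynomial (Fin n) k))) =
      (MvPolynomial.rename Sum.inl : MvPolynomial (Fin n) k →ₐ[k]
        MvPolynomial (Fin n ⊕ Fin d) k).toRingHom := by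
    apply MvPolynomial.ringHom_ext
    · intro c
      change MvPolynomial.rename (Equiv.sumComm (Fin d) (Fin n))
        ((MvPolynomial.sumRingEquiv k (Fin d) (Fin n)).symm (MvPolynomial.C (MvPolynomial.C c))) =
        MvPolynomial.rename Sum.inl (MvPolynomial.C c)
      rw [MvPolynomial.sumRingEquiv_symm_C_C, MvPolynomial.rename_C, MvPolynomial.rename_C]
    · intro i
      change MvPolynomial.rename (Equiv.sumComm (Fin d) (Fin n))
        ((MvPolynomial.sumRingEquiv k (Fin d) (Fin n)).symm (MvPolynomial.C (MvPolynomial.X i))) =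
        MvPolynomial.rename Sum.inl (MvPolynomial.X i)
      rw [MvPolynomial.sumRingEquiv_symm_C_X, MvPolynomial.rename_X, MvPolynomial.rename_X]
      rfl
  rwa [h4] at h3

section
open Polynomial Pool.Agent.LU1

variable {k S : Type} [Field k] [CommRing S] [IsDomain S] [Algebra k S]
  [Algebra.FiniteType k S] (q : Ideal S) [q.IsPrime] {n d : ℕ} (z : Fin n → S) (t : Fin d → S)
  (hzq : ∀ i, z i ∈ q)
  (hgen : ∀ s ∈ q, ∃ t, t ∉ q ∧ t * s ∈ Ideal.span (Set.range z))
  (hsep : ∀ s : S, ∃ F : Polynomial (MvPolynomial (Fin d) k),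
    F.eval₂ (MvPolynomial.aeval t : MvPolynomial (Fin d) k →ₐ[k] S).toRingHom s ∈ q ∧
    (derivative F).eval₂ (MvPolynomial.aeval t : MvPolynomial (Fin d) k →ₐ[k] S).toRingHom s ∉ q)
include hzq hgen hsep

private theorem SM0_away (hz : AlgebraicIndependent k (Sum.elim z t)) :
    ∃ h, h ∉ q ∧ ((algebraMap S (Localization.Away (h : S))).comp
      (MvPolynomial.aeval z : MvPolynomial (Fin n) k →ₐ[k] S).toRingHom).FormallySmooth := by
  let _ : Algebra (MvPolynomial (Fin n ⊕ Fin d) k) S :=
    (MvPolynomial.aeval (Sum.elim z t)).toAlgebra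
  have hsc : IsScalarTower k (MvPolynomial (Fin n ⊕ Fin d) k) S :=
    IsScalarTower.of_algebraMap_eq fun c => ((MvPolynomial.aeval (Sum.elim z t)).commutes c).symm
  have hX : ∀ i, algebraMap (MvPolynomial (Fin n ⊕ Fin d) k) S (MvPolynomial.X i) =
      Sum.elim z t i := fun i => MvPolynomial.aeval_X _ i
  have hunr : Algebra.IsUnramifiedAt (MvPolynomial (Fin n ⊕ Fin d) k) q :=
    unramifiedAt' q z t hzq hgen hsep (MvPolynomial (Fin n ⊕ Fin d) k)
      (fun i => ⟨_, hX (Sum.inl i)⟩) (fun j => ⟨_, hX (Sum.inr j)⟩)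
  have hft : Algebra.FiniteType (MvPolynomial (Fin n ⊕ Fin d) k) S :=
    .of_restrictScalars_finiteType k _ S
  obtain ⟨f, hfq, P, φ, hφ⟩ :=
    Algebra.IsUnramifiedAt.exists_hasStandardEtaleSurjectionOn
      (R := MvPolynomial (Fin n ⊕ Fin d) k) q
  have hf0 : f ≠ 0 := by
    rintro rfl
    exact hfq q.zero_mem
  have hle : Submonoid.powers f ≤ nonZeroDivisors S :=
    powers_le_nonZeroDivisors_of_noZeroDivisors hf0
  have hdom : IsDomain (Localization.Away f) := IsLocalization.isDomain_localization hle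
  have hinj : Function.Injective
      (algebraMap (MvPolynomial (Fin n ⊕ Fin d) k) (Localization.Away f)) := by
    rw [IsScalarTower.algebraMap_eq (MvPolynomial (Fin n ⊕ Fin d) k) S (Localization.Away f),
      RingHom.coe_comp]
    exact (IsLocalization.injective (Localization.Away f) hle).comp hz
  have htf : Module.IsTorsionFree (MvPolynomial (Fin n ⊕ Fin d) k) (Localization.Away f) :=
    Module.isTorsionFree_iff_algebraMap_injective.mpr hinj
  have hse := isStandardEtale_of_domain P φ hφ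
  have hsm : Algebra.Smooth (MvPolynomial (Fin n ⊕ Fin d) k) (Localization.Away f) :=
    inferInstance
  have hfs : (algebraMap (MvPolynomial (Fin n ⊕ Fin d) k)
      (Localization.Away f)).FormallySmooth :=
    RingHom.formallySmooth_algebraMap.2 inferInstance
  refine ⟨f, hfq, ?_⟩
  have h1 := (SM0_rename (k := k) n d).comp hfs
  have h2 : (algebraMap (MvPolynomial (Fin n ⊕ Fin d) k) (Localization.Away f)).comp
      (MvPolynomial.rename Sum.inl : MvPolynomial (Fin n) k →ₐ[k]
        MvPolynomial (Fin n ⊕ Fin d) k).toRingHom =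
      (algebraMap S (Localization.Away f)).comp
        (MvPolynomial.aeval z : MvPolynomial (Fin n) k →ₐ[k] S).toRingHom := by
    rw [IsScalarTower.algebraMap_eq (MvPolynomial (Fin n ⊕ Fin d) k) S (Localization.Away f),
      RingHom.comp_assoc]
    congr 1
    apply MvPolynomial.ringHom_ext
    · intro c
      change MvPolynomial.aeval (Sum.elim z t) (MvPolynomial.rename Sum.inl (MvPolynomial.C c)) =
        MvPolynomial.aeval z (MvPolynomial.C c)
      rw [MvPolynomial.rename_C, MvPolynomial.aeval_C, MvPolynomial.aeval_C]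
    · intro i
      change MvPolynomial.aeval (Sum.elim z t) (MvPolynomial.rename Sum.inl (MvPolynomial.X i)) =
        MvPolynomial.aeval z (MvPolynomial.X i)
      rw [MvPolynomial.rename_X, MvPolynomial.aeval_X, MvPolynomial.aeval_X]
      rfl
  rwa [h2] at h1

end

variable {k K : Type} [Field k] [Field K] [Algebra k K] {G : Subgroup (K ≃ₐ[k] K)}
  {A : Subalgebra k K}

private theorem SM0_smOver (S : Subalgebra k K) (h : S) (h0 : (h : K) ≠ 0) {n : ℕ} (z : Fin n → K)
    (hz : ∀ i, z i ∈ S)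
    (hs : ((algebraMap S (Localization.Away h)).comp
      (MvPolynomial.aeval (fun i => (⟨z i, hz i⟩ : S)) :
        MvPolynomial (Fin n) k →ₐ[k] S).toRingHom).FormallySmooth) :
    SmOver (Algebra.adjoin k ((S : Set K) ∪ {(h : K)⁻¹})) z := by
  obtain ⟨B, hB⟩ : ∃ B : Subalgebra k K, B = Algebra.adjoin k ((S : Set K) ∪ {(h : K)⁻¹}) :=
    ⟨_, rfl⟩
  rw [← hB]
  have hle : S ≤ B := fun x hx => hB ▸ Algebra.subset_adjoin (Or.inl hx)
  have hinv : (h : K)⁻¹ ∈ B := hB ▸ Algebra.subset_adjoin (Or.inr rfl)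
  let _ : Algebra S B := (Subalgebra.inclusion hle).toRingHom.toAlgebra
  have hcoe : ∀ s : S, ((algebraMap S B s : B) : K) = s := fun s => rfl
  have hloc : IsLocalization.Away h B := by
    refine ⟨⟨?_, ?_, ?_⟩⟩
    · rintro ⟨y, n, rfl⟩
      have h1 : IsUnit (algebraMap S B h) := by
        refine IsUnit.of_mul_eq_one ⟨(h : K)⁻¹, hinv⟩ ?_
        apply Subtype.ext
        change (h : K) * (h : K)⁻¹ = 1
        exact mul_inv_cancel₀ h0
      change IsUnit (algebraMap S B (h ^ n))
      rw [map_pow]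
      exact h1.pow n
    · rintro ⟨z, hz⟩
      obtain ⟨n, hn⟩ := mem_adjoin_inv S h.2 h0 z (hB ▸ hz)
      refine ⟨(⟨_, hn⟩, ⟨h ^ n, n, rfl⟩), ?_⟩
      apply Subtype.ext
      change z * ((h ^ n : S) : K) = z * (h : K) ^ n
      push_cast
      rfl
    · intro x y hxy
      refine ⟨1, ?_⟩
      have : (x : K) = y := congrArg (fun b : B => (b : K)) hxy
      rw [Subtype.ext this]
  let e : Localization.Away h ≃ₐ[S] B :=
    IsLocalization.algEquiv (Submonoid.powers h) (Localization.Away h) B
  have h1 : (e : Localization.Away h ≃+* B).toRingHom.FormallySmooth :=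
    RingHom.FormallySmooth.of_bijective e.bijective
  have h2 := hs.comp h1
  refine ⟨fun i => hle (hz i), ?_⟩
  have h3 : (e : Localization.Away h ≃+* B).toRingHom.comp
      ((algebraMap S (Localization.Away h)).comp
      (MvPolynomial.aeval (fun i => (⟨z i, hz i⟩ : S)) :
        MvPolynomial (Fin n) k →ₐ[k] S).toRingHom) =
      (MvPolynomial.aeval (fun i => (⟨z i, hle (hz i)⟩ : B)) :
        MvPolynomial (Fin n) k →ₐ[k] B).toRingHom := by
    apply MvPolynomial.ringHom_ext
    · intro c
      change e (algebraMap S (Localization.Away h) (MvPolynomial.aeval _ (MvPolynomial.C c))) =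
        MvPolynomial.aeval _ (MvPolynomial.C c)
      rw [e.commutes, MvPolynomial.aeval_C, MvPolynomial.aeval_C]
      rfl
    · intro i
      change e (algebraMap S (Localization.Away h) (MvPolynomial.aeval _ (MvPolynomial.X i))) =
        MvPolynomial.aeval _ (MvPolynomial.X i)
      rw [e.commutes, MvPolynomial.aeval_X, MvPolynomial.aeval_X]
      rfl
  rwa [h3] at h2

private theorem SM0_aux (V : ValuationSubring K) (S : Subalgebra k K)
    (hfg : S.FG) (hS : ∀ f ∈ S, f ∈ V) {n : ℕ} {z : Fin n → K} (hz : IsPar V (locV V S) z)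
    (hzS : ∀ i, z i ∈ S) {d : ℕ} (t : Fin d → S)
    (hind : ∀ G : MvPolynomial (Fin d) k,
        V.valuation ((MvPolynomial.aeval t G : S) : K) < 1 → G = 0)
    (hsep : ∀ f : S, ∃ F : Polynomial (MvPolynomial (Fin d) k),
        V.valuation ((F.eval₂ (MvPolynomial.aeval t : MvPolynomial (Fin d) k →ₐ[k]
          S).toRingHom f : S) : K) < 1 ∧
        ¬ V.valuation (((Polynomial.derivative F).eval₂ (MvPolynomial.aeval t :
          MvPolynomial (Fin d) k →ₐ[k] S).toRingHom f : S) : K) < 1) :
    ∃ h ∈ S, V.valuation h = 1 ∧ SmOver (Algebra.adjoin k ((S : Set K) ∪ {h⁻¹})) z := by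
  have hp := PI_prime V S hS
  have hfin : Algebra.FiniteType k S := (Subalgebra.fg_iff_finiteType S).1 hfg
  let z' : Fin n → S := fun i => ⟨z i, hzS i⟩
  have hzq : ∀ i, z' i ∈ PI V S hS := fun i => hz.pos i
  have hgen : ∀ s ∈ PI V S hS, ∃ u, u ∉ PI V S hS ∧ u * s ∈ Ideal.span (Set.range z') := by
    intro s hs
    obtain ⟨a, ha, hsum⟩ := hz.gen s (le_locV S s.2) hs
    obtain ⟨u, huS, hu1, hua⟩ := exists_commonV V S a ha
    refine ⟨⟨u, huS⟩, ?_, ?_⟩
    · intro h
      have h' : V.valuation u < 1 := h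
      rw [hu1] at h'
      exact lt_irrefl _ h'
    · have h1 : (⟨u, huS⟩ : S) * s = ∑ i, (⟨u * a i, hua i⟩ : S) * z' i := by
        apply Subtype.ext
        rw [AddSubmonoidClass.coe_finsetSum]
        change u * (s : K) = ∑ i, u * a i * z i
        rw [hsum, Finset.mul_sum]
        exact Finset.sum_congr rfl fun i _ => by ring
      rw [h1]
      exact Ideal.sum_mem _ fun i _ => Ideal.mul_mem_left _ _ (Ideal.subset_span ⟨i, rfl⟩)
  have hheight : (n : ℕ∞) ≤ (PI V S hS).height := by
    let _ : Algebra S (locV V S) := (Subalgebra.inclusion (le_locV (V := V) S)).toAlgebra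
    have hl : IsLocalization.AtPrime (locV V S) (PI V S hS) :=
      isLocalization_locV V S _ hS (le_locV S) rfl
    have h1 := IsLocalization.AtPrime.ringKrullDim_eq_height (PI V S hS) (locV V S)
    rw [hz.dim] at h1
    exact_mod_cast h1.le
  have hindq : AlgebraicIndependent k fun j => Ideal.Quotient.mk (PI V S hS) (t j) := by
    rw [algebraicIndependent_iff_injective_aeval]
    rw [injective_iff_map_eq_zero]
    intro G hG
    apply hind G
    have h6 : (Ideal.Quotient.mkₐ k (PI V S hS)) (MvPolynomial.aeval t G) =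
        MvPolynomial.aeval (fun i => Ideal.Quotient.mk (PI V S hS) (t i)) G := by
      rw [← AlgHom.comp_apply, MvPolynomial.comp_aeval]
      rfl
    have h7 : Ideal.Quotient.mk (PI V S hS) (MvPolynomial.aeval t G) = 0 := h6.trans hG
    exact Ideal.Quotient.eq_zero_iff_mem.1 h7
  have htr := le_trdeg (PI V S hS) hheight t hindq
  have hsep' : ∀ s : S, ∃ F : Polynomial (MvPolynomial (Fin d) k),
      F.eval₂ (MvPolynomial.aeval t : MvPolynomial (Fin d) k →ₐ[k] S).toRingHom s ∈ PI V S hS ∧
      (Polynomial.derivative F).eval₂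
        (MvPolynomial.aeval t : MvPolynomial (Fin d) k →ₐ[k] S).toRingHom s ∉ PI V S hS :=
    fun s => hsep s
  have hai := algebraicIndependent_of_trdeg' (PI V S hS) z' t hzq hgen hsep' htr
  obtain ⟨h, hq, hsm⟩ := SM0_away (PI V S hS) z' t hzq hgen hsep' hai
  have h1 : V.valuation (h : K) = 1 := (mem_primeCompl h).1 hq
  have h0 : (h : K) ≠ 0 := by
    intro h'
    rw [h', map_zero] at h1
    exact zero_ne_one h1
  exact ⟨h, h.2, h1, SM0_smOver S h h0 z hzS hsm⟩

private theorem SM0_fg {S : Subalgebra k K} (hfg : S.FG) (c : K) :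
    (Algebra.adjoin k ((S : Set K) ∪ {c})).FG := by
  obtain ⟨F, hF⟩ := hfg
  classical
  refine ⟨F ∪ {c}, ?_⟩
  apply le_antisymm
  · rw [Algebra.adjoin_le_iff]
    intro x hx
    rw [Finset.coe_union, Finset.coe_singleton] at hx
    rcases hx with hx | hx
    · exact Algebra.subset_adjoin (Or.inl (hF ▸ Algebra.subset_adjoin hx))
    · exact Algebra.subset_adjoin (Or.inr hx)
  · rw [Algebra.adjoin_le_iff]
    rintro x (hx | hx)
    · have h1 : S ≤ Algebra.adjoin k ((F ∪ {c} : Finset K) : Set K) := by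
        rw [← hF]
        refine Algebra.adjoin_mono ?_
        rw [Finset.coe_union]
        exact Set.subset_union_left
      exact h1 hx
    · refine Algebra.subset_adjoin ?_
      rw [Finset.coe_union, Finset.coe_singleton]
      exact Or.inr hx

/-- Adjoining the inverse of an element of value one. -/
private theorem SM0_adjoin {V : ValuationSubring K} {S : Subalgebra k K} {b : K} (hbS : b ∈ S)
    (hb1 : V.valuation b = 1) : S ≤ Algebra.adjoin k ((S : Set K) ∪ {b⁻¹}) ∧
      Algebra.adjoin k ((S : Set K) ∪ {b⁻¹}) ≤ locV V S ∧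
      locV V (Algebra.adjoin k ((S : Set K) ∪ {b⁻¹})) = locV V S := by
  have hle : S ≤ Algebra.adjoin k ((S : Set K) ∪ {b⁻¹}) :=
    fun x hx => Algebra.subset_adjoin (Or.inl hx)
  have hle' : Algebra.adjoin k ((S : Set K) ∪ {b⁻¹}) ≤ locV V S := by
    rw [Algebra.adjoin_le_iff]
    rintro x (hx | hx)
    · exact le_locV S hx
    · rw [Set.mem_singleton_iff.1 hx]
      exact locV_inv (le_locV S hbS) hb1
  refine ⟨hle, hle', le_antisymm ?_ (locV_mono hle)⟩
  have := locV_mono (V := V) hle'
  rwa [locV_locV] at this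

theorem exists_loc [PerfectField k] {V : ValuationSubring K} {B : Subalgebra k K} (hfg : B.FG)
    (hBV : ∀ b ∈ B, b ∈ V) {n : ℕ} {z : Fin n → K} (hz : IsPar V (locV V B) z) :
    ∃ B' : Subalgebra k K, B ≤ B' ∧ locV V B' = locV V B ∧ Loc V B' z := by
  obtain ⟨d, τ, hind, hsep⟩ := exists_sep_lift V B hfg hBV
  obtain ⟨b, hbS, hb1, hbc⟩ := exists_commonV V B (Sum.elim z fun j => (τ j : K)) (by
    rintro (i | j)
    · exact hz.mem i
    · exact (τ j).2)
  have hb0 : b ≠ 0 := by
    intro h'
    rw [h', map_zero] at hb1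
    exact zero_ne_one hb1
  obtain ⟨S', hS'⟩ : ∃ S' : Subalgebra k K, S' = Algebra.adjoin k ((B : Set K) ∪ {b⁻¹}) :=
    ⟨_, rfl⟩
  obtain ⟨hle, hle', hloc⟩ := SM0_adjoin (V := V) hbS hb1
  rw [← hS'] at hle hle' hloc
  have hinv : b⁻¹ ∈ S' := hS' ▸ Algebra.subset_adjoin (Or.inr rfl)
  have hfg' : S'.FG := hS' ▸ SM0_fg hfg b⁻¹
  have hSV' : ∀ f ∈ S', f ∈ V := fun f hf => locV_mem hBV f (hle' hf)
  have hmem : ∀ c : K, b * c ∈ B → c ∈ S' := by
    intro c hc
    have : c = b⁻¹ * (b * c) := by rw [inv_mul_cancel_left₀ hb0]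
    rw [this]
    exact S'.mul_mem hinv (hle hc)
  have hz' : IsPar V (locV V S') z := by rw [hloc]; exact hz
  have hτ : ∀ j, (τ j : K) ∈ S' := fun j => hmem _ (hbc (Sum.inr j))
  have hcomp : (Subalgebra.inclusion hle').toRingHom.comp
      (MvPolynomial.aeval (fun j => (⟨τ j, hτ j⟩ : S')) :
        MvPolynomial (Fin d) k →ₐ[k] S').toRingHom =
      (MvPolynomial.aeval τ : MvPolynomial (Fin d) k →ₐ[k] locV V B).toRingHom := by
    apply MvPolynomial.ringHom_ext
    · intro c
      change Subalgebra.inclusion hle' (MvPolynomial.aeval _ (MvPolynomial.C c)) =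
        MvPolynomial.aeval τ (MvPolynomial.C c)
      rw [MvPolynomial.aeval_C, MvPolynomial.aeval_C]
      rfl
    · intro j
      change Subalgebra.inclusion hle' (MvPolynomial.aeval _ (MvPolynomial.X j)) =
        MvPolynomial.aeval τ (MvPolynomial.X j)
      rw [MvPolynomial.aeval_X, MvPolynomial.aeval_X]
      rfl
  obtain ⟨h, hhS, hh1, hsm⟩ := SM0_aux V S' hfg' hSV' hz'
    (fun i => hmem _ (hbc (Sum.inl i))) (fun j => (⟨τ j, hτ j⟩ : S')) (by
      intro G hG
      apply hind G
      have h1 := congrArg (fun x : locV V B => (x : K)) (RingHom.congr_fun hcomp G)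
      change ((MvPolynomial.aeval (fun j => (⟨τ j, hτ j⟩ : S')) G : S') : K) =
        ((MvPolynomial.aeval τ G : locV V B) : K) at h1
      rw [← h1]
      exact hG) (by
      intro f
      obtain ⟨F, hF1, hF2⟩ := hsep (Subalgebra.inclusion hle' f)
      have key : ∀ G : Polynomial (MvPolynomial (Fin d) k),
          ((G.eval₂ (MvPolynomial.aeval (fun j => (⟨τ j, hτ j⟩ : S')) :
            MvPolynomial (Fin d) k →ₐ[k] S').toRingHom f : S') : K) =
          ((G.eval₂ (MvPolynomial.aeval τ : MvPolynomial (Fin d) k →ₐ[k]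
            locV V B).toRingHom (Subalgebra.inclusion hle' f) : locV V B) : K) := by
        intro G
        rw [← hcomp]
        have h1 := Polynomial.hom_eval₂ G (MvPolynomial.aeval (fun j => (⟨τ j, hτ j⟩ : S')) :
            MvPolynomial (Fin d) k →ₐ[k] S').toRingHom (Subalgebra.inclusion hle').toRingHom f
        exact congrArg (fun x : locV V B => (x : K)) h1
      refine ⟨F, ?_, ?_⟩
      · rw [key]
        exact hF1
      · rw [key]
        exact hF2)
  obtain ⟨k1, k2, k3⟩ := SM0_adjoin (V := V) hhS hh1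
  have hloc2 : locV V (Algebra.adjoin k ((S' : Set K) ∪ {h⁻¹})) = locV V B := by
    rw [k3, hloc]
  refine ⟨Algebra.adjoin k ((S' : Set K) ∪ {h⁻¹}), hle.trans k1, hloc2, ?_⟩
  exact
    { fg := SM0_fg hfg' h⁻¹
      mem := fun f hf => locV_mem hSV' f (k2 hf)
      ne := hz.ne
      pos := hz.pos
      gen := fun f hf hf1 => by
        rw [hloc2] at hf ⊢
        exact hz.gen f hf hf1
      sm := hsm }

end Pool.Agent.MP_b525bf_ag_E
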