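import Pool.Agent.Lib.MP_b525bf_ag_E.Defs

/-!
# Theorem E, row X1
Recipe. Zorn on the `G`-stable local subrings of `K` that contain `A`, ordered by domination
(Mathlib: `LocalSubring`, its order and the upper bound of a chain in
`LocalSubring.exists_le_valuationSubring`), above `O`. Let `O` be maximal.
CLAIM: for `a, b ∈ A` nonzero the ideal `J` of `O` generated by all `g a`, `g b`, `g ∈ G`, is
`a O` or `b O`. Then (`b = a`) `g a / a ∈ O` for all `g`, and (in general) `a ∣ b` or `b ∣ a` in `O`,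
so `O` is a valuation ring `W` of `K` (`h.frac`), `g z / z ∈ O` for all `z ≠ 0`, for `g` and `g⁻¹`,
so `W.valuation (g z) = W.valuation z`.
PROOF OF THE CLAIM. `J` is finitely generated: the ideal of the Noetherian ring `A` generated by the
`g a, g b` is. Let `𝓡 = reesAlgebra J`, `m` the maximal ideal of `O`, `P = 𝓡 / m 𝓡`, a finitely
generated algebra over the field `O / m` (`reesAlgebra.fg`), so Noetherian: there are finitely many
minimal primes over `m 𝓡`, `G` permutes them (`G` acts on `O[T]` coefficientwise and preserves `𝓡`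
and `m 𝓡`), stabilisers have finite index, so (`h.idx`) all of them are `G`-stable. If all of them
contained `J T`, then `(J T)^n ⊆ m 𝓡`, `J^n ≤ m J^n` for some `n`, and `J^n = 0` by Nakayama:
contradiction. So there is a `G`-stable prime `𝔮 ⊇ m 𝓡` with `f T ∉ 𝔮` for some `f ∈ J`. Put
`O' = {a / b : n, a, b ∈ J^n, b T^n ∉ 𝔮}`: a `G`-stable local subring (its nonunits are the `a / b`
with `a T^n ∈ 𝔮`) which contains `O` (`c = c f / f`) and dominates it (`c ∈ m ⇒ c f T ∈ m 𝓡`). By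
maximality `O' = O`, so `y / f ∈ O` for `y ∈ J`: `J = f O`. Since `O` is local and `J` is generated
by the `g a`, `g b`, one of them generates `J`: `J = (g a) O` or `(g b) O`; apply `g⁻¹`.
-/

set_option autoImplicit false
set_option linter.unusedVariables false

namespace Pool.Agent.MP_b525bf_ag_E

open Pool.Agent.LU2 Pool.Agent.MP_b525bf_ag Pool.Agent.MP_b525bf_ag_W

variable {k K : Type} [Field k] [Field K] [Algebra k K] {G : Subgroup (K ≃ₐ[k] K)}
  {A : Subalgebra k K}


namespace X1h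

section

open Ideal Polynomial

theorem minPrime_stable {Γ B : Type*} [Group Γ] [CommRing B]
    (hΓ : ∀ H : Subgroup Γ, H.FiniteIndex → H = ⊤)
    (φ : Γ →* (B →+* B)) (I : Ideal B) (hI : ∀ γ, I ≤ I.comap (φ γ))
    (hfin : I.minimalPrimes.Finite) {P : Ideal B} (hP : P ∈ I.minimalPrimes) (γ : Γ) :
    P ≤ P.comap (φ γ) := by
  have hcc : ∀ (γ δ : Γ) (Q : Ideal B), (Q.comap (φ γ)).comap (φ δ) = Q.comap (φ (γ * δ)) := by
    intro γ δ Q
    rw [Ideal.comap_comap]
    congr 1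
    rw [map_mul]
    rfl
  have hc1 : ∀ Q : Ideal B, Q.comap (φ 1) = Q := by
    intro Q
    rw [map_one]
    exact Ideal.comap_id Q
  have hmem : ∀ (γ : Γ) (Q : Ideal B), Q ∈ I.minimalPrimes → Q.comap (φ γ) ∈ I.minimalPrimes := by
    intro γ Q hQ
    have hQp : Q.IsPrime := hQ.1.1
    refine ⟨⟨Ideal.comap_isPrime _ _, (hI γ).trans (Ideal.comap_mono hQ.1.2)⟩, ?_⟩
    rintro R ⟨hRp, hRI⟩ hRQ
    have h1 : R.comap (φ γ⁻¹) ≤ Q := by
      have := Ideal.comap_mono (f := φ γ⁻¹) hRQ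
      rwa [hcc, mul_inv_cancel, hc1] at this
    have h2 := hQ.2 ⟨Ideal.comap_isPrime (φ γ⁻¹) R, (hI γ⁻¹).trans (Ideal.comap_mono hRI)⟩ h1
    have := Ideal.comap_mono (f := φ γ) h2
    rwa [hcc, inv_mul_cancel, hc1] at this
  have : Finite I.minimalPrimes := hfin
  let : MulAction Γ I.minimalPrimes :=
    { smul := fun γ Q => ⟨Q.1.comap (φ γ⁻¹), hmem _ _ Q.2⟩
      one_smul := by
        intro Q
        apply Subtype.ext
        change Q.1.comap (φ 1⁻¹) = Q.1
        rw [inv_one, hc1]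
      mul_smul := by
        intro a b Q
        apply Subtype.ext
        change Q.1.comap (φ (a * b)⁻¹) = (Q.1.comap (φ b⁻¹)).comap (φ a⁻¹)
        rw [hcc, mul_inv_rev] }
  have hker : (MulAction.toPermHom Γ I.minimalPrimes).ker = ⊤ :=
    hΓ _ (Subgroup.finiteIndex_ker _)
  have h3 : γ⁻¹ ∈ (MulAction.toPermHom Γ I.minimalPrimes).ker := by rw [hker]; trivial
  have h4 : (γ⁻¹ : Γ) • (⟨P, hP⟩ : I.minimalPrimes) = ⟨P, hP⟩ := by
    have := MonoidHom.mem_ker.mp h3
    have h5 := congrArg (fun e => e (⟨P, hP⟩ : I.minimalPrimes)) this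
    exact h5
  have h5 : P.comap (φ γ⁻¹⁻¹) = P := congrArg Subtype.val h4
  rw [inv_inv] at h5
  exact h5.ge

theorem fib_fin {R S : Type*} [CommRing R] [CommRing S] [Algebra R S] [Algebra.FiniteType R S]
    (m : Ideal R) [hm : m.IsMaximal] : (m.map (algebraMap R S)).minimalPrimes.Finite := by
  have h1 : Algebra.FiniteType R (S ⧸ m.map (algebraMap R S)) := inferInstance
  have h2 : Algebra.FiniteType (R ⧸ m) (S ⧸ m.map (algebraMap R S)) :=
    Algebra.FiniteType.of_restrictScalars_finiteType R (R ⧸ m) _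
  have h0 : IsNoetherianRing (R ⧸ m) := by
    let := Ideal.Quotient.field m
    exact (inferInstance : IsNoetherianRing (R ⧸ m))
  have h3 : IsNoetherianRing (S ⧸ m.map (algebraMap R S)) :=
    Algebra.FiniteType.isNoetherianRing (R ⧸ m) _
  rw [Ideal.minimalPrimes_eq_comap]
  exact Set.Finite.image _ (minimalPrimes.finite_of_isNoetherianRing _)

/-- A homogeneous prime of the Rees algebra, by its homogeneous elements. -/
structure HP {R : Type*} [CommRing R] (m J : Ideal R) (Q : ℕ → R → Prop) : Prop where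
  add : ∀ n x y, x ∈ J ^ n → y ∈ J ^ n → Q n x → Q n y → Q n (x + y)
  mul : ∀ n l x y, x ∈ J ^ n → y ∈ J ^ l → Q n x → Q (n + l) (x * y)
  prime : ∀ n l x y, x ∈ J ^ n → y ∈ J ^ l → Q (n + l) (x * y) → Q n x ∨ Q l y
  one : ¬ Q 0 1
  max : ∀ n c x, x ∈ J ^ n → c ∈ m → Q n (c * x)

/-- The action on the Rees algebra. -/
noncomputable def reesMap {R : Type*} [CommRing R] (J : Ideal R) (f : R →+* R)
    (hf : J ≤ J.comap f) : reesAlgebra J →+* reesAlgebra J :=
  ((Polynomial.mapRingHom f).comp (reesAlgebra J).val.toRingHom).codRestrict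
    (reesAlgebra J) (by
      intro p n
      change ((p.1.map f).coeff n) ∈ J ^ n
      rw [coeff_map]
      have h1 : J ^ n ≤ (J ^ n).comap f := (Ideal.pow_right_mono hf n).trans (Ideal.le_comap_pow f n)
      exact h1 (p.2 n))

theorem coe_reesMap {R : Type*} [CommRing R] (J : Ideal R) (f : R →+* R)
    (hf : J ≤ J.comap f) (p : reesAlgebra J) : (reesMap J f hf p : R[X]) = p.1.map f := rfl

theorem exists_rees_prime {Γ R : Type*} [Group Γ] [CommRing R] [IsDomain R] [IsLocalRing R]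
    (hΓ : ∀ H : Subgroup Γ, H.FiniteIndex → H = ⊤) (φ : Γ →* (R →+* R)) (J : Ideal R)
    (hJ0 : J ≠ ⊥) (hfg : J.FG) (hJ : ∀ γ, J ≤ J.comap (φ γ)) :
    ∃ Q : ℕ → R → Prop, HP (IsLocalRing.maximalIdeal R) J Q ∧
      (∀ γ n x, x ∈ J ^ n → Q n x → Q n (φ γ x)) ∧ ∃ y ∈ J, ¬ Q 1 y := by
  set m := IsLocalRing.maximalIdeal R with hm
  have hφm : ∀ γ, ∀ x ∈ m, φ γ x ∈ m := by
    intro γ x hx
    rw [hm, IsLocalRing.mem_maximalIdeal, mem_nonunits_iff] at hx ⊢
    intro hu
    apply hx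
    have h1 := hu.map (φ γ⁻¹)
    have h2 : φ γ⁻¹ (φ γ x) = x := by
      have : (φ γ⁻¹ * φ γ) x = x := by rw [← map_mul, inv_mul_cancel, map_one]; rfl
      exact this
    rwa [h2] at h1
  have hfgA : Algebra.FiniteType R (reesAlgebra J) :=
    ⟨(reesAlgebra J).fg_top.mpr (reesAlgebra.fg hfg)⟩
  let I : Ideal (reesAlgebra J) := m.map (algebraMap R (reesAlgebra J))
  have hfin : I.minimalPrimes.Finite := fib_fin m
  let Φ : Γ →* (reesAlgebra J →+* reesAlgebra J) :=
    { toFun := fun γ => reesMap J (φ γ) (hJ γ)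
      map_one' := by
        apply RingHom.ext
        intro p
        apply Subtype.ext
        rw [coe_reesMap, map_one]
        exact Polynomial.map_id
      map_mul' := by
        intro a b
        apply RingHom.ext
        intro p
        apply Subtype.ext
        rw [coe_reesMap, map_mul]
        change p.1.map ((φ a).comp (φ b)) = (p.1.map (φ b)).map (φ a)
        rw [Polynomial.map_map] }
  have hΦI : ∀ γ, I ≤ I.comap (Φ γ) := by
    intro γ
    rw [Ideal.map_le_iff_le_comap]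
    intro x hx
    change Φ γ (algebraMap R (reesAlgebra J) x) ∈ I
    have h1 : Φ γ (algebraMap R (reesAlgebra J) x) = algebraMap R (reesAlgebra J) (φ γ x) := by
      apply Subtype.ext
      change (C x).map (φ γ) = C (φ γ x)
      exact Polynomial.map_C _
    rw [h1]
    exact Ideal.mem_map_of_mem _ (hφm γ x hx)
  -- elements of `I` have coefficients in `m * J ^ n`
  have hIc : ∀ p ∈ I, ∀ n, (p : R[X]).coeff n ∈ m * J ^ n := by
    intro p hp
    have hp' : p ∈ Submodule.span (reesAlgebra J) (algebraMap R (reesAlgebra J) '' (m : Set R)) := hp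
    refine Submodule.span_induction
      (p := fun (p : reesAlgebra J) _ => ∀ n, (p : R[X]).coeff n ∈ m * J ^ n) ?_ ?_ ?_ ?_ hp'
    · rintro _ ⟨c, hc, rfl⟩ n
      change (C c : R[X]).coeff n ∈ _
      rw [coeff_C]
      split_ifs with h0
      · subst h0
        rw [pow_zero]
        simpa using hc
      · exact Ideal.zero_mem _
    · intro n
      simp
    · intro x y _ _ hx hy n
      change (x.1 + y.1).coeff n ∈ _
      rw [coeff_add]
      exact Ideal.add_mem _ (hx n) (hy n)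
    · intro a x _ hx n
      change (a.1 * x.1).coeff n ∈ _
      rw [coeff_mul]
      apply Ideal.sum_mem
      rintro ⟨i, j⟩ e
      rw [← Finset.HasAntidiagonal.mem_antidiagonal.mp e, pow_add, mul_left_comm]
      exact Ideal.mul_mem_mul (a.2 i) (hx j)
  have hmonI : ∀ (n : ℕ) (y : R) (hy : y ∈ J ^ n) (𝔄 : Ideal (reesAlgebra J)),
      (∀ z (hz : z ∈ J), (⟨monomial 1 z, reesAlgebra.monomial_mem.mpr (by rwa [pow_one])⟩ :
        reesAlgebra J) ∈ 𝔄) →
      (⟨monomial n y, reesAlgebra.monomial_mem.mpr hy⟩ : reesAlgebra J) ∈ 𝔄 ^ n := by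
    intro n
    induction n with
    | zero =>
      intro y hy 𝔄 _
      rw [pow_zero, Ideal.one_eq_top]
      trivial
    | succ n ih =>
      intro y hy 𝔄 h𝔄
      have hy' : y ∈ J ^ n * J := by rwa [← pow_succ]
      have key : ∀ y ∈ J ^ n * J, ∃ h : monomial (n + 1) y ∈ reesAlgebra J,
          (⟨monomial (n + 1) y, h⟩ : reesAlgebra J) ∈ 𝔄 ^ (n + 1) := by
        intro y hy
        refine Submodule.mul_induction_on hy ?_ ?_
        · intro a ha b hb
          refine ⟨reesAlgebra.monomial_mem.mpr (by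
            rw [pow_succ]; exact Ideal.mul_mem_mul ha hb), ?_⟩
          have h1 := Ideal.mul_mem_mul (ih a ha 𝔄 h𝔄) (h𝔄 b hb)
          rw [← pow_succ] at h1
          convert h1 using 1
          apply Subtype.ext
          change monomial (n + 1) (a * b) = monomial n a * monomial 1 b
          rw [monomial_mul_monomial]
        · rintro a b ⟨ha, ha'⟩ ⟨hb, hb'⟩
          refine ⟨by rw [map_add]; exact Subalgebra.add_mem _ ha hb, ?_⟩
          have := Ideal.add_mem _ ha' hb'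
          convert this using 1
          apply Subtype.ext
          change monomial (n + 1) (a + b) = monomial (n + 1) a + monomial (n + 1) b
          rw [map_add]
      obtain ⟨_, h⟩ := key y hy'
      exact h
  -- a minimal prime that does not contain `J T`
  have hex : ∃ P ∈ I.minimalPrimes, ∃ z, ∃ hz : z ∈ J,
      (⟨monomial 1 z, reesAlgebra.monomial_mem.mpr (by rwa [pow_one])⟩ :
        reesAlgebra J) ∉ P := by
    by_contra hno
    push Not at hno
    obtain ⟨s, hs⟩ := hfg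
    have hsJ : ∀ z ∈ s, z ∈ J := fun z hz => by rw [← hs]; exact Ideal.subset_span hz
    let 𝔄 : Ideal (reesAlgebra J) := Ideal.span (Set.range fun z : s =>
      (⟨monomial 1 z.1, reesAlgebra.monomial_mem.mpr (by
        rw [pow_one]; exact hsJ _ z.2)⟩ : reesAlgebra J))
    have h𝔄fg : 𝔄.FG := Submodule.fg_span (Set.finite_range _)
    have h𝔄J : ∀ z (hz : z ∈ J), (⟨monomial 1 z, reesAlgebra.monomial_mem.mpr (by rwa [pow_one])⟩ :
        reesAlgebra J) ∈ 𝔄 := by
      have key : ∀ z ∈ Submodule.span R (s : Set R), ∃ h : monomial 1 z ∈ reesAlgebra J,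
          (⟨monomial 1 z, h⟩ : reesAlgebra J) ∈ 𝔄 := by
        intro z hz
        refine Submodule.span_induction (p := fun (z : R) _ => ∃ h : monomial 1 z ∈ reesAlgebra J,
          (⟨monomial 1 z, h⟩ : reesAlgebra J) ∈ 𝔄) ?_ ?_ ?_ ?_ hz
        · intro z hz
          exact ⟨_, Ideal.subset_span ⟨⟨z, hz⟩, rfl⟩⟩
        · refine ⟨by rw [map_zero]; exact Subalgebra.zero_mem _, ?_⟩
          convert 𝔄.zero_mem using 1
          apply Subtype.ext
          exact map_zero _
        · rintro a b _ _ ⟨ha, ha'⟩ ⟨hb, hb'⟩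
          refine ⟨by rw [map_add]; exact Subalgebra.add_mem _ ha hb, ?_⟩
          have := Ideal.add_mem _ ha' hb'
          convert this using 1
          apply Subtype.ext
          exact map_add _ _ _
        · rintro a b _ ⟨hb, hb'⟩
          have h1 : monomial 1 (a • b) = C a * monomial 1 b := by
            rw [C_mul_monomial, smul_eq_mul]
          refine ⟨by
            rw [h1]; exact Subalgebra.mul_mem _ (Subalgebra.algebraMap_mem _ a) hb, ?_⟩
          have := 𝔄.mul_mem_left (algebraMap R (reesAlgebra J) a) hb'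
          convert this using 1
          apply Subtype.ext
          exact h1
      intro z hz
      obtain ⟨_, h⟩ := key z (by rw [← hs] at hz; exact hz)
      exact h
    have h𝔄r : 𝔄 ≤ I.radical := by
      rw [← Ideal.sInf_minimalPrimes]
      refine le_sInf fun P hP => ?_
      refine Ideal.span_le.mpr ?_
      rintro _ ⟨z, rfl⟩
      exact hno P hP z.1 (hsJ _ z.2)
    obtain ⟨n, hn⟩ := Ideal.exists_pow_le_of_le_radical_of_fg h𝔄r h𝔄fg
    have h1 : J ^ n ≤ m • J ^ n := by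
      intro y hy
      have h2 := hn (hmonI n y hy 𝔄 h𝔄J)
      have h3 := hIc _ h2 n
      change (monomial n y).coeff n ∈ _ at h3
      rwa [coeff_monomial_same] at h3
    have h2 : J ^ n = ⊥ := by
      refine Submodule.eq_bot_of_le_smul_of_le_jacobson_bot m _
        (Ideal.FG.pow ⟨s, hs⟩) h1 ?_
      exact (IsLocalRing.jacobson_eq_maximalIdeal ⊥ bot_ne_top).ge
    exact pow_ne_zero n hJ0 h2
  obtain ⟨P, hP, z, hz, hzP⟩ := hex
  have hPp : P.IsPrime := hP.1.1
  refine ⟨fun n x => ∃ h : x ∈ J ^ n, (⟨monomial n x, reesAlgebra.monomial_mem.mpr h⟩ :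
    reesAlgebra J) ∈ P, ⟨?_, ?_, ?_, ?_, ?_⟩, ?_, z, hz, ?_⟩
  · rintro n x y hx hy ⟨_, hx'⟩ ⟨_, hy'⟩
    refine ⟨Ideal.add_mem _ hx hy, ?_⟩
    have := P.add_mem hx' hy'
    convert this using 1
    apply Subtype.ext
    change monomial n (x + y) = monomial n x + monomial n y
    rw [map_add]
  · rintro n l x y hx hy ⟨_, hx'⟩
    refine ⟨by rw [pow_add]; exact Ideal.mul_mem_mul hx hy, ?_⟩
    have := P.mul_mem_right ⟨monomial l y, reesAlgebra.monomial_mem.mpr hy⟩ hx'
    convert this using 1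
    apply Subtype.ext
    change monomial (n + l) (x * y) = monomial n x * monomial l y
    rw [monomial_mul_monomial]
  · rintro n l x y hx hy ⟨h, h'⟩
    have h1 : (⟨monomial n x, reesAlgebra.monomial_mem.mpr hx⟩ : reesAlgebra J) *
        ⟨monomial l y, reesAlgebra.monomial_mem.mpr hy⟩ ∈ P := by
      convert h' using 1
      apply Subtype.ext
      change monomial n x * monomial l y = monomial (n + l) (x * y)
      rw [monomial_mul_monomial]
    rcases hPp.mem_or_mem h1 with h2 | h2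
    · exact Or.inl ⟨hx, h2⟩
    · exact Or.inr ⟨hy, h2⟩
  · rintro ⟨h, h'⟩
    apply hPp.ne_top
    rw [Ideal.eq_top_iff_one]
    convert h' using 1
    apply Subtype.ext
    rfl
  · intro n c x hx hc
    refine ⟨Ideal.mul_mem_left _ _ hx, ?_⟩
    have h1 : algebraMap R (reesAlgebra J) c ∈ P :=
      hP.1.2 (Ideal.mem_map_of_mem _ hc)
    have := P.mul_mem_right ⟨monomial n x, reesAlgebra.monomial_mem.mpr hx⟩ h1
    convert this using 1
    apply Subtype.ext
    change monomial n (c * x) = C c * monomial n x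
    rw [C_mul_monomial]
  · rintro γ n x hx ⟨_, h⟩
    have hx' : φ γ x ∈ J ^ n :=
      ((Ideal.pow_right_mono (hJ γ) n).trans (Ideal.le_comap_pow (φ γ) n)) hx
    refine ⟨hx', ?_⟩
    have h1 := minPrime_stable hΓ Φ I hΦI hfin hP γ h
    have h2 : Φ γ ⟨monomial n x, reesAlgebra.monomial_mem.mpr hx⟩ ∈ P := h1
    convert h2 using 1
    apply Subtype.ext
    change monomial n (φ γ x) = (monomial n x).map (φ γ)
    rw [Polynomial.map_monomial]
  · rintro ⟨_, h⟩
    exact hzP h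

end

theorem HP.zero {R : Type*} [CommRing R] {m J : Ideal R} {Q : ℕ → R → Prop} (h : HP m J Q)
    (n : ℕ) : Q n 0 := by
  have := h.max n 0 0 (Ideal.zero_mem _) (Ideal.zero_mem _)
  rwa [mul_zero] at this

theorem HP.ne {R : Type*} [CommRing R] {m J : Ideal R} {Q : ℕ → R → Prop} (h : HP m J Q)
    {n : ℕ} {b : R} (hb : ¬ Q n b) : b ≠ 0 := by
  rintro rfl
  exact hb (h.zero n)

/-- The homogeneous localization at the prime. -/
def stp {R : Subalgebra k K} {m J : Ideal R} {Q : ℕ → R → Prop} (h : HP m J Q) :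
    Subalgebra k K where
  carrier := {z | ∃ (n : ℕ) (a b : R), a ∈ J ^ n ∧ b ∈ J ^ n ∧ ¬ Q n b ∧ z = (a : K) / b}
  mul_mem' := by
    rintro _ _ ⟨n, a, b, ha, hb, hQ, rfl⟩ ⟨l, c, d, hc, hd, hQ', rfl⟩
    refine ⟨n + l, a * c, b * d, by rw [pow_add]; exact Ideal.mul_mem_mul ha hc,
      by rw [pow_add]; exact Ideal.mul_mem_mul hb hd, ?_, ?_⟩
    · intro hh
      rcases h.prime n l b d hb hd hh with h1 | h1
      · exact hQ h1
      · exact hQ' h1
    · push_cast
      rw [div_mul_div_comm]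
  add_mem' := by
    rintro _ _ ⟨n, a, b, ha, hb, hQ, rfl⟩ ⟨l, c, d, hc, hd, hQ', rfl⟩
    have hb0 : (b : K) ≠ 0 := by simpa using h.ne hQ
    have hd0 : (d : K) ≠ 0 := by simpa using h.ne hQ'
    refine ⟨n + l, a * d + b * c, b * d, by
      rw [pow_add]
      exact Ideal.add_mem _ (Ideal.mul_mem_mul ha hd) (Ideal.mul_mem_mul hb hc),
      by rw [pow_add]; exact Ideal.mul_mem_mul hb hd, ?_, ?_⟩
    · intro hh
      rcases h.prime n l b d hb hd hh with h1 | h1
      · exact hQ h1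
      · exact hQ' h1
    · push_cast
      rw [div_add_div _ _ hb0 hd0]
  algebraMap_mem' := by
    intro r
    refine ⟨0, algebraMap k R r, 1, by simp, by simp, h.one, ?_⟩
    simp

theorem le_stp {R : Subalgebra k K} {m J : Ideal R} {Q : ℕ → R → Prop} (h : HP m J Q) :
    R ≤ stp h := by
  intro z hz
  refine ⟨0, ⟨z, hz⟩, 1, by simp, by simp, h.one, ?_⟩
  simp

/-- Local and stable. -/
structure Lo (G : Subgroup (K ≃ₐ[k] K)) (R : Subalgebra k K) : Prop where
  st : ∀ g ∈ G, ∀ z ∈ R, g z ∈ R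
  lo : ∀ a ∈ R, a⁻¹ ∈ R ∨ (1 - a)⁻¹ ∈ R

/-- Domination. -/
def Do (R₁ R₂ : Subalgebra k K) : Prop := R₁ ≤ R₂ ∧ ∀ f ∈ R₁, f⁻¹ ∈ R₂ → f⁻¹ ∈ R₁

theorem Do.refl (R : Subalgebra k K) : Do R R := ⟨le_rfl, fun _ _ h => h⟩

theorem Do.trans {R₁ R₂ R₃ : Subalgebra k K} (h : Do R₁ R₂) (h' : Do R₂ R₃) : Do R₁ R₃ :=
  ⟨h.1.trans h'.1, fun f hf hf' => h.2 f hf (h'.2 f (h.1 hf) hf')⟩

theorem isUnit_iff (R : Subalgebra k K) (a : R) : IsUnit a ↔ (a : K) ≠ 0 ∧ (a : K)⁻¹ ∈ R := by
  constructor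
  · rintro ⟨u, rfl⟩
    have h1 : ((u : R) : K) * ((u⁻¹ : Rˣ) : R) = 1 := by
      have : (u : R) * ((u⁻¹ : Rˣ) : R) = 1 := u.mul_inv
      exact_mod_cast congrArg Subtype.val this
    refine ⟨left_ne_zero_of_mul_eq_one h1, ?_⟩
    rw [← eq_inv_of_mul_eq_one_right h1]
    exact Subtype.mem _
  · rintro ⟨h1, h2⟩
    refine IsUnit.of_mul_eq_one (⟨(a : K)⁻¹, h2⟩ : R) ?_
    apply Subtype.ext
    exact mul_inv_cancel₀ h1

theorem Lo.isLocalRing {R : Subalgebra k K} (h : Lo G R) : IsLocalRing R := by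
  refine IsLocalRing.of_isUnit_or_isUnit_one_sub_self fun a => ?_
  by_cases h0 : (a : K) = 0
  · right
    rw [isUnit_iff]
    push_cast
    rw [h0]
    simp
  by_cases h1 : (1 - a : K) = 0
  · left
    rw [isUnit_iff]
    have : (a : K) = 1 := (sub_eq_zero.mp h1).symm
    rw [this]
    simp
  rcases h.lo a a.2 with h2 | h2
  · left
    rw [isUnit_iff]
    exact ⟨h0, h2⟩
  · right
    rw [isUnit_iff]
    push_cast
    exact ⟨h1, h2⟩

theorem Lo.of_isLocalRing {R : Subalgebra k K} (hst : ∀ g ∈ G, ∀ z ∈ R, g z ∈ R)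
    (h : IsLocalRing R) : Lo G R := by
  refine ⟨hst, fun a ha => ?_⟩
  rcases IsLocalRing.isUnit_or_isUnit_one_sub_self (⟨a, ha⟩ : R) with h1 | h1
  · exact Or.inl ((isUnit_iff _ _).mp h1).2
  · exact Or.inr ((isUnit_iff _ _).mp h1).2

theorem exists_max (O : Subalgebra k K) (hO : Lo G O) :
    ∃ R, Lo G R ∧ Do O R ∧ ∀ R', Lo G R' → Do R R' → R' ≤ R := by
  have hch : ∀ c : Set {R : Subalgebra k K // Lo G R ∧ Do O R},
      IsChain (fun a b => Do a.1 b.1) c → ∃ ub : {R : Subalgebra k K // Lo G R ∧ Do O R},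
        ∀ a ∈ c, Do a.1 ub.1 := by
    intro c hc
    rcases c.eq_empty_or_nonempty with rfl | ⟨R₀, hR₀⟩
    · exact ⟨⟨O, hO, Do.refl O⟩, fun a ha => absurd ha (Set.notMem_empty a)⟩
    have hdir : ∀ a ∈ c, ∀ b ∈ c, Do a.1 b.1 ∨ Do b.1 a.1 := by
      intro a ha b hb
      by_cases hab : a = b
      · subst hab
        exact Or.inl (Do.refl _)
      · exact hc ha hb hab
    let U : Subalgebra k K :=
      { carrier := {z | ∃ a ∈ c, z ∈ a.1}
        mul_mem' := by
          rintro x y ⟨a, ha, hx⟩ ⟨b, hb, hy⟩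
          rcases hdir a ha b hb with h | h
          · exact ⟨b, hb, b.1.mul_mem (h.1 hx) hy⟩
          · exact ⟨a, ha, a.1.mul_mem hx (h.1 hy)⟩
        add_mem' := by
          rintro x y ⟨a, ha, hx⟩ ⟨b, hb, hy⟩
          rcases hdir a ha b hb with h | h
          · exact ⟨b, hb, b.1.add_mem (h.1 hx) hy⟩
          · exact ⟨a, ha, a.1.add_mem hx (h.1 hy)⟩
        algebraMap_mem' := fun r => ⟨R₀, hR₀, R₀.1.algebraMap_mem r⟩ }
    have hDU : ∀ a ∈ c, Do a.1 U := by
      intro a ha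
      refine ⟨fun z hz => ⟨a, ha, hz⟩, ?_⟩
      rintro f hf ⟨b, hb, hfb⟩
      rcases hdir a ha b hb with h | h
      · exact h.2 f hf hfb
      · exact h.1 hfb
    refine ⟨⟨U, ⟨?_, ?_⟩, R₀.2.2.trans (hDU R₀ hR₀)⟩, hDU⟩
    · rintro g hg z ⟨a, ha, hz⟩
      exact ⟨a, ha, a.2.1.st g hg z hz⟩
    · rintro z ⟨a, ha, hz⟩
      rcases a.2.1.lo z hz with h | h
      · exact Or.inl ⟨a, ha, h⟩
      · exact Or.inr ⟨a, ha, h⟩
  obtain ⟨R, hR⟩ := exists_maximal_of_chains_bounded hch (fun h h' => h.trans h')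
  exact ⟨R.1, R.2.1, R.2.2, fun R' hR' hD => (hR ⟨R', hR', R.2.2.trans hD⟩ hD).1⟩

/-- The action of `G` on a stable subalgebra. -/
def act (R : Subalgebra k K) (hst : ∀ g ∈ G, ∀ z ∈ R, g z ∈ R) : G →* (R →+* R) where
  toFun g :=
    { toFun := fun z => ⟨g.1 z, hst g.1 g.2 z z.2⟩
      map_one' := Subtype.ext (map_one g.1)
      map_mul' := fun a b => Subtype.ext (map_mul g.1 _ _)
      map_zero' := Subtype.ext (map_zero g.1)
      map_add' := fun a b => Subtype.ext (map_add g.1 _ _) }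
  map_one' := rfl
  map_mul' _ _ := rfl

theorem coe_act (R : Subalgebra k K) (hst : ∀ g ∈ G, ∀ z ∈ R, g z ∈ R) (g : G) (z : R) :
    ((act R hst g z : R) : K) = g.1 z := rfl

theorem step {R : Subalgebra k K} (hR : Lo G R)
    (hG : ∀ H : Subgroup G, H.FiniteIndex → H = ⊤)
    (hmax : ∀ R', Lo G R' → Do R R' → R' ≤ R) (J : Ideal R)
    (hJ0 : J ≠ ⊥) (hfg : J.FG) (hJ : ∀ g, J ≤ J.comap (act R hR.st g)) :
    ∃ I : Ideal R, I < J ∧ (∀ g, I ≤ I.comap (act R hR.st g)) ∧
      ∀ y ∈ J, ∀ f ∈ J, f ∉ I → (y : K) / f ∈ R := by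
  have : IsLocalRing R := hR.isLocalRing
  obtain ⟨Q, hQ, hst, y₀, hy₀, hQy⟩ := exists_rees_prime hG (act R hR.st) J hJ0 hfg hJ
  have hinv : ∀ g n x, x ∈ J ^ n → Q n (act R hR.st g x) → Q n x := by
    intro g n x hx h
    have hx' : act R hR.st g x ∈ J ^ n :=
      ((Ideal.pow_right_mono (hJ g) n).trans (Ideal.le_comap_pow _ n)) hx
    have := hst g⁻¹ n _ hx' h
    have h2 : act R hR.st g⁻¹ (act R hR.st g x) = x := by
      have : (act R hR.st g⁻¹ * act R hR.st g) x = x := by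
        rw [← map_mul, inv_mul_cancel, map_one]; rfl
      exact this
    rwa [h2] at this
  have hle : stp hQ ≤ R := by
    refine hmax _ ⟨?_, ?_⟩ ⟨le_stp hQ, ?_⟩
    · rintro g hg _ ⟨n, a, b, ha, hb, hQb, rfl⟩
      refine ⟨n, act R hR.st ⟨g, hg⟩ a, act R hR.st ⟨g, hg⟩ b,
        ((Ideal.pow_right_mono (hJ _) n).trans (Ideal.le_comap_pow _ n)) ha,
        ((Ideal.pow_right_mono (hJ _) n).trans (Ideal.le_comap_pow _ n)) hb,
        fun h => hQb (hinv _ _ _ hb h), ?_⟩
      rw [map_div₀]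
      rfl
    · rintro _ ⟨n, a, b, ha, hb, hQb, rfl⟩
      have hb0 : (b : K) ≠ 0 := by simpa using hQ.ne hQb
      by_cases h1 : Q n a
      · right
        refine ⟨n, b, b - a, hb, Ideal.sub_mem _ hb ha, ?_, ?_⟩
        · intro h2
          apply hQb
          have := hQ.add n _ _ ha (Ideal.sub_mem _ hb ha) h1 h2
          rwa [add_sub_cancel] at this
        · push_cast
          rw [one_sub_div hb0, inv_div]
      · left
        exact ⟨n, b, a, hb, ha, h1, by rw [inv_div]⟩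
    · rintro f hf ⟨n, a, b, ha, hb, hQb, hfe⟩
      by_contra hno
      have hf0 : f ≠ 0 := by
        rintro rfl
        exact hno (by rw [inv_zero]; exact R.zero_mem)
      have hfm : (⟨f, hf⟩ : R) ∈ IsLocalRing.maximalIdeal R := by
        rw [IsLocalRing.mem_maximalIdeal, mem_nonunits_iff, isUnit_iff]
        rintro ⟨_, h⟩
        exact hno h
      apply hQb
      have hb0 : (b : K) ≠ 0 := by simpa using hQ.ne hQb
      have : b = ⟨f, hf⟩ * a := by
        apply Subtype.ext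
        change (b : K) = f * a
        rw [eq_div_iff hb0] at hfe
        rw [← hfe, mul_inv_cancel_left₀ hf0]
      rw [this]
      exact hQ.max n _ a ha hfm
  refine ⟨{ carrier := {x | x ∈ J ∧ Q 1 x}, add_mem' := ?_, zero_mem' := ?_, smul_mem' := ?_ },
    ?_, ?_, ?_⟩
  · rintro a b ⟨ha, ha'⟩ ⟨hb, hb'⟩
    exact ⟨Ideal.add_mem _ ha hb, hQ.add 1 a b (by rwa [pow_one]) (by rwa [pow_one]) ha' hb'⟩
  · exact ⟨Ideal.zero_mem _, hQ.zero 1⟩
  · rintro c x ⟨hx, hx'⟩
    refine ⟨Ideal.mul_mem_left _ _ hx, ?_⟩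
    have := hQ.mul 1 0 x c (by rwa [pow_one]) (by simp) hx'
    rw [smul_eq_mul, mul_comm]
    exact this
  · refine lt_of_le_of_ne (fun x hx => hx.1) ?_
    intro he
    have : y₀ ∈ J := hy₀
    rw [← he] at this
    exact hQy this.2
  · rintro g x ⟨hx, hx'⟩
    exact ⟨hJ g hx, hst g 1 x (by rwa [pow_one]) hx'⟩
  · intro y hy f hf hfI
    apply hle
    exact ⟨1, y, f, by rwa [pow_one], by rwa [pow_one], fun h => hfI ⟨hf, h⟩, rfl⟩

theorem claim (h : Hyp G A) {R : Subalgebra k K} (hR : Lo G R) (hAR : A ≤ R)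
    (hmax : ∀ R', Lo G R' → Do R R' → R' ≤ R) (a b : K) (ha : a ∈ A) (hb : b ∈ A) (ha0 : a ≠ 0) :
    (∀ g ∈ G, g a / a ∈ R ∧ g b / a ∈ R) ∨ (∀ g ∈ G, g a / b ∈ R ∧ g b / b ∈ R) := by
  have hN : IsNoetherianRing A := by
    have : Algebra.FiniteType k A := A.fg_iff_finiteType.mp h.fg
    exact Algebra.FiniteType.isNoetherianRing k A
  let S : Set A := {s | ∃ g ∈ G, (s : K) = g a ∨ (s : K) = g b}
  let ι : A →+* R := (Subalgebra.inclusion hAR).toRingHom
  have hι : ∀ s : A, ((ι s : R) : K) = s := fun s => rfl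
  let J : Ideal R := (Ideal.span S).map ι
  have hJs : J = Ideal.span (ι '' S) := Ideal.map_span _ _
  have hgen : ∀ g (hg : g ∈ G), (∃ hh : g a ∈ R, (⟨g a, hh⟩ : R) ∈ J) ∧
      ∃ hh : g b ∈ R, (⟨g b, hh⟩ : R) ∈ J := by
    intro g hg
    constructor
    · refine ⟨hAR (h.stab g hg a ha), ?_⟩
      exact Ideal.mem_map_of_mem ι (x := ⟨g a, h.stab g hg a ha⟩)
        (Ideal.subset_span (s := S) ⟨g, hg, Or.inl rfl⟩)
    · refine ⟨hAR (h.stab g hg b hb), ?_⟩
      exact Ideal.mem_map_of_mem ι (x := ⟨g b, h.stab g hg b hb⟩)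
        (Ideal.subset_span (s := S) ⟨g, hg, Or.inr rfl⟩)
  have haJ : (⟨a, hAR ha⟩ : R) ∈ J := (hgen 1 G.one_mem).1.2
  have hbJ : (⟨b, hAR hb⟩ : R) ∈ J := (hgen 1 G.one_mem).2.2
  have hJ0 : J ≠ ⊥ := by
    intro h0
    rw [h0] at haJ
    exact ha0 (congrArg Subtype.val haJ)
  have hfg : J.FG := Ideal.FG.map (IsNoetherian.noetherian _) ι
  have hJ : ∀ g, J ≤ J.comap (act R hR.st g) := by
    intro g
    rw [hJs, Ideal.span_le]
    rintro _ ⟨s, ⟨g', hg', hs⟩, rfl⟩
    rw [← hJs]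
    rcases hs with hs | hs
    · obtain ⟨hh, hm⟩ := (hgen (g.1 * g') (G.mul_mem g.2 hg')).1
      have : act R hR.st g (ι s) = ⟨(g.1 * g') a, hh⟩ := by
        apply Subtype.ext
        rw [coe_act, hι, hs]
        rfl
      change act R hR.st g (ι s) ∈ J
      rw [this]
      exact hm
    · obtain ⟨hh, hm⟩ := (hgen (g.1 * g') (G.mul_mem g.2 hg')).2
      have : act R hR.st g (ι s) = ⟨(g.1 * g') b, hh⟩ := by
        apply Subtype.ext
        rw [coe_act, hι, hs]
        rfl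
      change act R hR.st g (ι s) ∈ J
      rw [this]
      exact hm
  obtain ⟨I, hIJ, hI, hdiv⟩ := step hR h.idx hmax J hJ0 hfg hJ
  by_cases haI : (⟨a, hAR ha⟩ : R) ∈ I
  · by_cases hbI : (⟨b, hAR hb⟩ : R) ∈ I
    · exfalso
      apply hIJ.not_ge
      rw [hJs, Ideal.span_le]
      rintro _ ⟨s, ⟨g', hg', hs⟩, rfl⟩
      rcases hs with hs | hs
      · have : act R hR.st ⟨g', hg'⟩ ⟨a, hAR ha⟩ = ι s := by
          apply Subtype.ext
          rw [coe_act, hι, hs]
        change ι s ∈ I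
        rw [← this]
        exact hI _ haI
      · have : act R hR.st ⟨g', hg'⟩ ⟨b, hAR hb⟩ = ι s := by
          apply Subtype.ext
          rw [coe_act, hι, hs]
        change ι s ∈ I
        rw [← this]
        exact hI _ hbI
    · right
      intro g hg
      obtain ⟨⟨h1, h2⟩, h3, h4⟩ := hgen g hg
      exact ⟨hdiv _ h2 _ hbJ hbI, hdiv _ h4 _ hbJ hbI⟩
  · left
    intro g hg
    obtain ⟨⟨h1, h2⟩, h3, h4⟩ := hgen g hg
    exact ⟨hdiv _ h2 _ haJ haI, hdiv _ h4 _ haJ haI⟩

end X1h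

theorem exists_dom (h : Hyp G A) (O : Subalgebra k K) (hAO : A ≤ O)
    (hst : ∀ g ∈ G, ∀ z ∈ O, g z ∈ O) (hloc : IsLocalRing O) :
    ∃ W : ValuationSubring K, Inv G A W ∧ Dom W O := by
  obtain ⟨R, hR, hD, hmax⟩ := X1h.exists_max O (X1h.Lo.of_isLocalRing hst hloc)
  have hAR : A ≤ R := hAO.trans hD.1
  have hfr : ∀ z : K, ∃ a ∈ A, ∃ b ∈ A, b ≠ 0 ∧ z = a / b := h.frac
  have h1 : ∀ a ∈ A, ∀ g ∈ G, g a / a ∈ R := by
    intro a ha g hg
    by_cases ha0 : a = 0
    · subst ha0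
      rw [div_zero]
      exact R.zero_mem
    rcases X1h.claim h hR hAR hmax a a ha ha ha0 with h | h
    · exact (h g hg).1
    · exact (h g hg).1
  have h2 : ∀ b ∈ A, ∀ g ∈ G, b / g b ∈ R := by
    intro b hb g hg
    have := hR.st g hg _ (h1 b hb g⁻¹ (G.inv_mem hg))
    rw [map_div₀] at this
    have e : g (g⁻¹ b) = b := AlgEquiv.apply_symm_apply g b
    rwa [e] at this
  have h3 : ∀ z : K, z ≠ 0 → ∀ g ∈ G, g z / z ∈ R := by
    intro z hz g hg
    obtain ⟨a, ha, b, hb, hb0, rfl⟩ := hfr z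
    have h4 := R.mul_mem (h1 a ha g hg) (h2 b hb g hg)
    have hgb : g b ≠ 0 := by simpa using hb0
    have ha0 : a ≠ 0 := by
      rintro rfl
      exact hz (zero_div _)
    have e : g (a / b) / (a / b) = g a / a * (b / g b) := by
      rw [map_div₀]
      field_simp
    rw [e]
    exact h4
  have h4 : ∀ z : K, z ∈ R ∨ z⁻¹ ∈ R := by
    intro z
    obtain ⟨a, ha, b, hb, hb0, rfl⟩ := hfr z
    by_cases ha0 : a = 0
    · left
      rw [ha0, zero_div]
      exact R.zero_mem
    rcases X1h.claim h hR hAR hmax a b ha hb ha0 with h | h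
    · right
      have := (h 1 G.one_mem).2
      rw [AlgEquiv.one_apply] at this
      rw [inv_div]
      exact this
    · left
      exact (h 1 G.one_mem).1
  let W : ValuationSubring K := ⟨R.toSubring, fun z => h4 z⟩
  have hW : ∀ z, z ∈ W ↔ z ∈ R := fun z => Iff.rfl
  refine ⟨W, ⟨fun a ha => hAR ha, ?_⟩, ⟨fun f hf => hD.1 hf, ?_⟩⟩
  · intro g hg z
    by_cases hz : z = 0
    · rw [hz, map_zero]
    have hgz : g z ≠ 0 := by simpa using hz
    have key : ∀ x : K, x ≠ 0 → ∀ g ∈ G, W.valuation (g x) ≤ W.valuation x := by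
      intro x hx g hg
      have := (W.valuation_le_one_iff _).mpr ((hW _).mpr (h3 x hx g hg))
      rw [map_div₀] at this
      exact (div_le_one₀ (by simpa [zero_lt_iff] using hx)).mp this
    apply le_antisymm (key z hz g hg)
    have := key (g z) hgz g⁻¹ (G.inv_mem hg)
    have e : g⁻¹ (g z) = z := AlgEquiv.symm_apply_apply g z
    rwa [e] at this
  · intro f hf hv
    apply hD.2 f hf
    rw [← hW, ← W.valuation_le_one_iff, map_inv₀, hv, inv_one]

end Pool.Agent.MP_b525bf_ag_E
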