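import Pool.Agent.Lib.MP_b525bf_ag_E.LUA
import Pool.Agent.Lib.MP_b525bf_ag_E.PAR
import Pool.Agent.Lib.MP_b525bf_ag_E.SM0
import Pool.Agent.Lib.MP_b525bf_ag_E.REP
import Pool.Agent.Lib.MP_b525bf_ag_E.US
import Pool.Agent.Lib.MP_b525bf_ag_E.TB
import Pool.Agent.Lib.MP_b525bf_ag_E.GST
import Pool.Agent.Lib.MP_b525bf_ag_E.X1
import Pool.Agent.Lib.MP_b525bf_ag_E.X2
import Pool.Agent.Lib.MP_b525bf_ag_E.CMP
import Pool.Agent.Lib.MP_b525bf_ag_E.ML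
import Pool.Agent.Lib.MP_b525bf_ag_E.SB1
import Pool.Agent.Lib.MP_b525bf_ag_E.SB2
import Pool.Agent.Lib.MP_b525bf_ag_E.MONO
import Pool.Agent.Lib.MP_b525bf_ag_E.NBH
import Pool.Agent.Lib.MP_b525bf_ag_E.CPT
import Pool.Agent.Lib.MP_b525bf_ag_E.GOOD
import Pool.Agent.Lib.MP_b525bf_ag_E.CMB
import Pool.Agent.Lib.MP_b525bf_ag_E.EFB
import Pool.Agent.Lib.MP_b525bf_ag_E.SEM
import Pool.Agent.Lib.MP_b525bf_ag_E.IDX
import Pool.Agent.Lib.MP_b525bf_ag_E.QZ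
import Pool.Agent.Lib.MP_b525bf_ag_E.SGN
import Pool.Agent.Lib.MP_b525bf_ag_E.RED
import Pool.Agent.Lib.MP_b525bf_ag_E.SMT
import Pool.Agent.Lib.MP_b525bf_ag_E.TW
import Pool.Agent.Lib.MP_b525bf_ag_E.LOC
import Pool.Agent.Lib.MP_b525bf_ag_E.CH1
import Pool.Agent.Lib.MP_b525bf_ag_E.CH2
import Pool.Agent.Lib.MP_b525bf_ag_E.ADP
import Pool.Agent.Lib.MP_b525bf_ag_E.FH1
import Pool.Agent.Lib.MP_b525bf_ag_E.FH3
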