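import Pool.Agent.Lib.MP_b525bf_ag_E.PDefs

/-!
# Theorem E, projective part, row CHS: the degree zero part of a chart is smooth

Recipe. Write `K := FractionRing A`, `C` for the algebra in the statement (it contains `c / f ^ m` for `c ∈ 𝒜 m`,
since `c b ∈ I`), `S ⊆ K` for the algebra generated by `chart I b` and `f⁻¹`: a localization of the
formally smooth `chart I b`, so formally smooth over `k`; `C ⊆ S`. It is enough to give a
homomorphism `ρ : S → C` of `k`-algebras which is the identity on `C`: a retract of a formally smooth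
algebra is formally smooth (`Algebra.FormallySmooth.of_split` or directly by the lifting property).
`ρ₀ : A → K`, `∑ a_i ↦ ∑ a_i / f ^ i` is a ring homomorphism with `ρ₀ f = 1`, `ρ₀ b = b / f ^ n ≠ 0`; it
extends to `ρ : A_(b f) → K` (`IsLocalization.lift`), and `A_(b f) ⊆ K` contains `S`. `ρ (a / b) = ρ₀ a / ρ₀ b ∈ C` for
`a ∈ I` because the components of `a` are in `I` (`hI`), `ρ (f⁻¹) = 1`, `ρ a ∈ C` for `a ∈ A`. For
`z = (a / f ^ m) / (b / f ^ n)`, `a ∈ I` of degree `m`: `ρ z = z`.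
-/

set_option autoImplicit false
set_option linter.unusedVariables false

namespace Pool.Agent.MP_b525bf_ag_E

open Pool.Agent.LU2 Pool.Agent.MP_b525bf_ag

variable {k A : Type} [Field k] [CommRing A] [IsDomain A] [Algebra k A]
  (𝒜 : ℕ → Submodule k A) [GradedAlgebra 𝒜]

namespace CHS

theorem retract {k C S : Type} [CommRing k] [CommRing C] [CommRing S] [Algebra k C] [Algebra k S]
    [Algebra.FormallySmooth k S] (i : C →ₐ[k] S) (ρ : S →ₐ[k] C) (h : ρ.comp i = AlgHom.id k C) :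
    Algebra.FormallySmooth k C := by
  refine Algebra.FormallySmooth.of_comp_surjective fun B _ _ I hI f => ?_
  obtain ⟨g, hg⟩ := Algebra.FormallySmooth.comp_surjective k S I hI (f.comp ρ)
  refine ⟨g.comp i, ?_⟩
  change (Ideal.Quotient.mkₐ k I).comp g = f.comp ρ at hg
  rw [← AlgHom.comp_assoc, hg, AlgHom.comp_assoc, h, AlgHom.comp_id]

/-- `∑ a_i ↦ ∑ a_i / f ^ i` -/
theorem exists_dehom {f : A} (hf : f ∈ 𝒜 1) (hf0 : f ≠ 0) :
    ∃ ρ : A →ₐ[k] FractionRing A, ∀ (m : ℕ) (a : A), a ∈ 𝒜 m →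
      ρ a = algebraMap A (FractionRing A) a / algebraMap A (FractionRing A) f ^ m := by
  classical
  let K := FractionRing A
  have hfK : algebraMap A K f ≠ 0 := fun h => hf0 (IsFractionRing.injective A K (by rw [h, map_zero]))
  let F : ∀ i, 𝒜 i →ₗ[k] K := fun i =>
    (LinearMap.mulRight k ((algebraMap A K f ^ i)⁻¹)) ∘ₗ
      (IsScalarTower.toAlgHom k A K).toLinearMap ∘ₗ (𝒜 i).subtype
  have hF : ∀ i (x : 𝒜 i), F i x = algebraMap A K x / algebraMap A K f ^ i := fun i x => by
    simp [F, div_eq_mul_inv]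
  have hone : F 0 (GradedMonoid.GOne.one (A := fun i => ↥(𝒜 i))) = 1 := by
    rw [hF]
    have : ((GradedMonoid.GOne.one (A := fun i => ↥(𝒜 i)) : 𝒜 0) : A) = 1 := rfl
    rw [this]; simp
  have hmul : ∀ {i j} (ai : 𝒜 i) (aj : 𝒜 j),
      F (i + j) (GradedMonoid.GMul.mul (A := fun i => ↥(𝒜 i)) ai aj) = F i ai * F j aj := by
    intro i j ai aj
    rw [hF, hF, hF]
    have : ((GradedMonoid.GMul.mul (A := fun i => ↥(𝒜 i)) ai aj : 𝒜 (i + j)) : A) = (ai : A) * aj := rfl
    rw [this, map_mul, pow_add, mul_div_mul_comm]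
  refine ⟨(DirectSum.toAlgebra k (fun i => ↥(𝒜 i)) F hone hmul).comp
    (DirectSum.decomposeAlgEquiv 𝒜).toAlgHom, fun m a ha => ?_⟩
  have h1 : (DirectSum.decomposeAlgEquiv 𝒜).toAlgHom a = DirectSum.of (fun i => ↥(𝒜 i)) m ⟨a, ha⟩ := by
    change DirectSum.decompose 𝒜 a = _
    exact DirectSum.decompose_of_mem 𝒜 ha
  rw [AlgHom.comp_apply, h1]
  change DirectSum.toSemiring (fun i => (F i).toAddMonoidHom) hone hmul _ = _
  exact (DirectSum.toSemiring_of _ _ _ _ _).trans (hF m ⟨a, ha⟩)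

/-- the extension to the localization away from `b f` -/
theorem exists_ext {f b : A} (hf0 : f ≠ 0) (hb0 : b ≠ 0) (ρ₀ : A →ₐ[k] FractionRing A)
    (hρf : ρ₀ f = 1) (hρb0 : ρ₀ b ≠ 0) :
    ∃ (R : Subalgebra k (FractionRing A)) (ρ₁ : R →ₐ[k] FractionRing A),
      (∀ x : A, ∃ h : algebraMap A (FractionRing A) x ∈ R, ρ₁ ⟨_, h⟩ = ρ₀ x) ∧
      (algebraMap A (FractionRing A) f)⁻¹ ∈ R ∧ (algebraMap A (FractionRing A) b)⁻¹ ∈ R := by
  classical
  have hfK : algebraMap A (FractionRing A) f ≠ 0 :=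
    fun h => hf0 (IsFractionRing.injective A (FractionRing A) (by rw [h, map_zero]))
  have hbK : algebraMap A (FractionRing A) b ≠ 0 :=
    fun h => hb0 (IsFractionRing.injective A (FractionRing A) (by rw [h, map_zero]))
  let M : Submonoid A := Submonoid.powers (b * f)
  have hM0 : M ≤ nonZeroDivisors A := by
    refine Submonoid.powers_le.mpr (mem_nonZeroDivisors_of_ne_zero (mul_ne_zero hb0 hf0))
  let L := Localization M
  have huK : ∀ y : M, IsUnit ((IsScalarTower.toAlgHom k A (FractionRing A)) y) := by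
    rintro ⟨y, hy⟩
    refine IsUnit.mk0 _ fun h => ?_
    have : y = 0 := IsFractionRing.injective A (FractionRing A) (by rw [map_zero]; exact h)
    exact nonZeroDivisors.ne_zero (hM0 hy) this
  have huρ : ∀ y : M, IsUnit (ρ₀ y) := by
    rintro ⟨y, ⟨r, rfl⟩⟩
    simp only [map_pow, map_mul, hρf, mul_one]
    exact (IsUnit.mk0 _ hρb0).pow r
  let jL : L →ₐ[k] FractionRing A := IsLocalization.liftAlgHom (M := M) huK
  let rL : L →ₐ[k] FractionRing A := IsLocalization.liftAlgHom (M := M) huρ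
  have hjA : ∀ x : A, jL (algebraMap A L x) = algebraMap A (FractionRing A) x := fun x =>
    IsLocalization.lift_eq (M := M) _ x
  have hrA : ∀ x : A, rL (algebraMap A L x) = ρ₀ x := fun x => IsLocalization.lift_eq (M := M) _ x
  have hjinj : Function.Injective jL := by
    rw [injective_iff_map_eq_zero]
    intro z hz
    obtain ⟨⟨x, y⟩, hxy⟩ := IsLocalization.surj (M := M) z
    have h1 : jL z * jL (algebraMap A L y) = jL (algebraMap A L x) := by rw [← map_mul, hxy]
    rw [hz, zero_mul, hjA] at h1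
    have hx : x = 0 := IsFractionRing.injective A (FractionRing A) (by rw [← h1, map_zero])
    rw [hx, map_zero] at hxy
    exact (IsLocalization.map_units L y).mul_left_eq_zero.mp hxy
  let EL : L ≃ₐ[k] jL.range := AlgEquiv.ofInjective jL hjinj
  have hAmem : ∀ x : A, algebraMap A (FractionRing A) x ∈ jL.range := fun x => ⟨_, hjA x⟩
  have h2 : jL (IsLocalization.mk' L (1 : A) (⟨b * f, Submonoid.mem_powers _⟩ : M)) *
      algebraMap A (FractionRing A) (b * f) = 1 := by
    rw [← hjA, ← map_mul, IsLocalization.mk'_spec, map_one, map_one]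
  rw [map_mul] at h2
  refine ⟨jL.range, rL.comp EL.symm.toAlgHom, fun x => ⟨hAmem x, ?_⟩, ?_, ?_⟩
  · have h1 : EL (algebraMap A L x) = ⟨algebraMap A (FractionRing A) x, hAmem x⟩ :=
      Subtype.ext (hjA x)
    change rL (EL.symm _) = _
    rw [← h1, EL.symm_apply_apply, hrA]
  · refine ⟨algebraMap A L b * IsLocalization.mk' L (1 : A) ⟨b * f, Submonoid.mem_powers _⟩, ?_⟩
    change jL _ = _
    rw [map_mul, hjA]
    field_simp
    linear_combination h2
  · refine ⟨algebraMap A L f * IsLocalization.mk' L (1 : A) ⟨b * f, Submonoid.mem_powers _⟩, ?_⟩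
    change jL _ = _
    rw [map_mul, hjA]
    field_simp
    linear_combination h2

/-- the localized chart -/
theorem exists_loc {I : Ideal A} {f b : A} (hf0 : f ≠ 0)
    (hsm : Algebra.FormallySmooth k (chart I b)) :
    ∃ S : Subalgebra k (FractionRing A), Algebra.FormallySmooth k S ∧
      ∀ z, z ∈ S ↔ ∃ m : ℕ, z * algebraMap A (FractionRing A) f ^ m ∈ chart I b := by
  classical
  have hfK : algebraMap A (FractionRing A) f ≠ 0 :=
    fun h => hf0 (IsFractionRing.injective A (FractionRing A) (by rw [h, map_zero]))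
  let fc : chart I b := algebraMap A (chart I b) f
  have hfc : (fc : FractionRing A) = algebraMap A (FractionRing A) f := rfl
  let S' := Localization.Away fc
  have : Algebra.FormallySmooth (chart I b) S' :=
    Algebra.FormallySmooth.of_isLocalization (Submonoid.powers fc)
  have hS' : Algebra.FormallySmooth k S' := Algebra.FormallySmooth.comp k (chart I b) S'
  have huS : ∀ y : Submonoid.powers fc,
      IsUnit ((IsScalarTower.toAlgHom k (chart I b) (FractionRing A)) y) := by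
    rintro ⟨y, ⟨r, rfl⟩⟩
    simp only [map_pow]
    exact (IsUnit.mk0 _ hfK).pow r
  let jS : S' →ₐ[k] FractionRing A := IsLocalization.liftAlgHom (M := Submonoid.powers fc) huS
  have hjS : ∀ c : chart I b, jS (algebraMap (chart I b) S' c) = c := fun c =>
    IsLocalization.lift_eq (M := Submonoid.powers fc) _ c
  have hjSinj : Function.Injective jS := by
    rw [injective_iff_map_eq_zero]
    intro z hz
    obtain ⟨⟨x, y⟩, hxy⟩ := IsLocalization.surj (M := Submonoid.powers fc) z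
    have h1 : jS z * jS (algebraMap (chart I b) S' y) = jS (algebraMap (chart I b) S' x) := by
      rw [← map_mul, hxy]
    rw [hz, zero_mul, hjS] at h1
    have hx : x = 0 := Subtype.ext h1.symm
    rw [hx, map_zero] at hxy
    exact (IsLocalization.map_units S' y).mul_left_eq_zero.mp hxy
  refine ⟨jS.range, Algebra.FormallySmooth.of_equiv (AlgEquiv.ofInjective jS hjSinj), fun z => ?_⟩
  constructor
  · rintro ⟨s, rfl⟩
    obtain ⟨⟨x, ⟨y, r, rfl⟩⟩, hxy⟩ := IsLocalization.surj (M := Submonoid.powers fc) s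
    refine ⟨r, ?_⟩
    have h1 : jS s * jS (algebraMap (chart I b) S' (fc ^ r)) = jS (algebraMap (chart I b) S' x) := by
      rw [← map_mul]; exact congrArg jS hxy
    rw [hjS, hjS, SubmonoidClass.coe_pow, hfc] at h1
    change jS s * _ ∈ _
    rw [h1]
    exact x.2
  · rintro ⟨m, hm⟩
    refine ⟨IsLocalization.mk' S' (⟨_, hm⟩ : chart I b) (⟨fc ^ m, m, rfl⟩ : Submonoid.powers fc), ?_⟩
    change jS _ = z
    have h1 : jS (IsLocalization.mk' S' (⟨_, hm⟩ : chart I b)
        (⟨fc ^ m, m, rfl⟩ : Submonoid.powers fc)) *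
        jS (algebraMap (chart I b) S' (fc ^ m)) =
        jS (algebraMap (chart I b) S' (⟨_, hm⟩ : chart I b)) := by
      rw [← map_mul]; exact congrArg jS (IsLocalization.mk'_spec S' _ _)
    rw [hjS, hjS, SubmonoidClass.coe_pow, hfc] at h1
    exact mul_right_cancel₀ (pow_ne_zero m hfK) h1

theorem main {I : Ideal A} (hI : I.IsHomogeneous 𝒜) {f : A} (hf : f ∈ 𝒜 1)
    (hf0 : f ≠ 0) {n : ℕ} {b : A} (hb : b ∈ 𝒜 n) (hbI : b ∈ I) (hb0 : b ≠ 0)
    (hsm : Algebra.FormallySmooth k (chart I b)) :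
    Algebra.FormallySmooth k (Algebra.adjoin k
      {z : FractionRing A | ∃ (m : ℕ) (a : A), a ∈ 𝒜 m ∧ a ∈ I ∧
        z = (algebraMap A (FractionRing A) a / algebraMap A (FractionRing A) f ^ m) /
          (algebraMap A (FractionRing A) b / algebraMap A (FractionRing A) f ^ n)}) := by
  classical
  obtain ⟨ρ₀, hρ₀⟩ := exists_dehom 𝒜 hf hf0
  have hfK : algebraMap A (FractionRing A) f ≠ 0 :=
    fun h => hf0 (IsFractionRing.injective A (FractionRing A) (by rw [h, map_zero]))
  have hbK : algebraMap A (FractionRing A) b ≠ 0 :=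
    fun h => hb0 (IsFractionRing.injective A (FractionRing A) (by rw [h, map_zero]))
  have hρf : ρ₀ f = 1 := by rw [hρ₀ 1 f hf, pow_one, div_self hfK]
  have hρb : ρ₀ b = algebraMap A (FractionRing A) b / algebraMap A (FractionRing A) f ^ n :=
    hρ₀ n b hb
  have hρb0 : ρ₀ b ≠ 0 := by rw [hρb]; exact div_ne_zero hbK (pow_ne_zero _ hfK)
  obtain ⟨R, ρ₁, hA, hfinv, hbinv⟩ := exists_ext hf0 hb0 ρ₀ hρf hρb0
  obtain ⟨S, hSs, hSmem⟩ := exists_loc hf0 hsm
  choose hAmem hEA using hA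
  have hgen : ∀ a ∈ I, algebraMap A (FractionRing A) a / algebraMap A (FractionRing A) b ∈ R := by
    intro a ha
    rw [div_eq_mul_inv]
    exact R.mul_mem (hAmem a) hbinv
  have hf1 : ∀ m : ℕ, algebraMap A (FractionRing A) f ^ m ∈ R := fun m => by
    rw [← map_pow]; exact hAmem _
  have hρf1 : ∀ m : ℕ, ρ₁ ⟨_, hf1 m⟩ = 1 := by
    intro m
    have h1 : ρ₁ ⟨algebraMap A (FractionRing A) (f ^ m), hAmem _⟩ = 1 := by
      rw [hEA, map_pow, hρf, one_pow]
    rw [← h1]
    congr 1
    exact Subtype.ext (map_pow _ _ _).symm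
  have hadd : ∀ x y (hx : x ∈ R) (hy : y ∈ R),
      ρ₁ ⟨x + y, R.add_mem hx hy⟩ = ρ₁ ⟨x, hx⟩ + ρ₁ ⟨y, hy⟩ := fun x y hx hy => by
    rw [← map_add]; rfl
  have hmul : ∀ x y (hx : x ∈ R) (hy : y ∈ R),
      ρ₁ ⟨x * y, R.mul_mem hx hy⟩ = ρ₁ ⟨x, hx⟩ * ρ₁ ⟨y, hy⟩ := fun x y hx hy => by
    rw [← map_mul]; rfl
  set C := Algebra.adjoin k
      {z : FractionRing A | ∃ (m : ℕ) (a : A), a ∈ 𝒜 m ∧ a ∈ I ∧
        z = (algebraMap A (FractionRing A) a / algebraMap A (FractionRing A) f ^ m) /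
          (algebraMap A (FractionRing A) b / algebraMap A (FractionRing A) f ^ n)} with hC
  have hCgen : ∀ (m : ℕ) (a : A), a ∈ 𝒜 m → a ∈ I →
      (algebraMap A (FractionRing A) a / algebraMap A (FractionRing A) f ^ m) /
        (algebraMap A (FractionRing A) b / algebraMap A (FractionRing A) f ^ n) ∈ C :=
    fun m a ha haI => Algebra.subset_adjoin ⟨m, a, ha, haI, rfl⟩
  have hCA : ∀ x : A, ρ₀ x ∈ C := by
    intro x
    rw [← DirectSum.sum_support_decompose 𝒜 x, map_sum]
    refine C.sum_mem fun i _ => ?_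
    rw [hρ₀ i _ (SetLike.coe_mem _)]
    have h3 := hCgen (i + n) (((DirectSum.decompose 𝒜 x i : A)) * b)
      (SetLike.GradedMul.mul_mem (SetLike.coe_mem _) hb) (I.mul_mem_left _ hbI)
    have h4 : (algebraMap A (FractionRing A) ((DirectSum.decompose 𝒜 x i : A) * b) /
        algebraMap A (FractionRing A) f ^ (i + n)) /
        (algebraMap A (FractionRing A) b / algebraMap A (FractionRing A) f ^ n) =
        algebraMap A (FractionRing A) (DirectSum.decompose 𝒜 x i : A) /
          algebraMap A (FractionRing A) f ^ i := by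
      rw [map_mul, pow_add, mul_div_mul_comm, mul_div_assoc, div_self, mul_one]
      exact div_ne_zero hbK (pow_ne_zero _ hfK)
    rwa [h4] at h3
  -- the chart
  have hCh : ∀ z ∈ chart I b, ∃ h : z ∈ R, ρ₁ ⟨z, h⟩ ∈ C := by
    intro z hz
    induction hz using Algebra.adjoin_induction with
    | mem z hz =>
      obtain ⟨a, ha, rfl⟩ := hz
      refine ⟨hgen a ha, ?_⟩
      have h1 : ρ₁ ⟨_, hgen a ha⟩ * ρ₀ b = ρ₀ a := by
        rw [← hEA b, ← hEA a, ← hmul]
        congr 1
        exact Subtype.ext (div_mul_cancel₀ _ hbK)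
      have h2 : ρ₁ ⟨_, hgen a ha⟩ = ρ₀ a / ρ₀ b := by rw [← h1, mul_div_cancel_right₀ _ hρb0]
      rw [h2, ← DirectSum.sum_support_decompose 𝒜 a, map_sum, Finset.sum_div]
      refine C.sum_mem fun i _ => ?_
      rw [hρ₀ i _ (SetLike.coe_mem _), hρb]
      exact hCgen i _ (SetLike.coe_mem _) (hI i ha)
    | algebraMap x =>
      exact ⟨hAmem x, by rw [hEA]; exact hCA x⟩
    | add x y _ _ hx hy =>
      obtain ⟨h1, h2⟩ := hx
      obtain ⟨h3, h4⟩ := hy
      exact ⟨R.add_mem h1 h3, by rw [hadd x y h1 h3]; exact C.add_mem h2 h4⟩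
    | mul x y _ _ hx hy =>
      obtain ⟨h1, h2⟩ := hx
      obtain ⟨h3, h4⟩ := hy
      exact ⟨R.mul_mem h1 h3, by rw [hmul x y h1 h3]; exact C.mul_mem h2 h4⟩
  have hSL : S ≤ R := by
    intro z hz
    obtain ⟨m, hm⟩ := (hSmem z).mp hz
    obtain ⟨h1, -⟩ := hCh _ hm
    have h2 : z = z * algebraMap A (FractionRing A) f ^ m * (algebraMap A (FractionRing A) f)⁻¹ ^ m := by
      rw [mul_assoc, ← mul_pow, mul_inv_cancel₀ hfK, one_pow, mul_one]
    rw [h2]
    exact R.mul_mem h1 (R.pow_mem hfinv m)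
  have hSC : ∀ z (hz : z ∈ S), ρ₁ ⟨z, hSL hz⟩ ∈ C := by
    intro z hz
    obtain ⟨m, hm⟩ := (hSmem z).mp hz
    obtain ⟨h1, h2⟩ := hCh _ hm
    rw [hmul z _ (hSL hz) (hf1 m), hρf1, mul_one] at h2
    exact h2
  have hCS : C ≤ S := by
    refine Algebra.adjoin_le ?_
    rintro z ⟨m, a, ha, haI, rfl⟩
    refine (hSmem _).mpr ⟨m, ?_⟩
    have h1 : (algebraMap A (FractionRing A) a / algebraMap A (FractionRing A) f ^ m) /
          (algebraMap A (FractionRing A) b / algebraMap A (FractionRing A) f ^ n) *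
          algebraMap A (FractionRing A) f ^ m =
        (algebraMap A (FractionRing A) a / algebraMap A (FractionRing A) b) *
          algebraMap A (FractionRing A) (f ^ n) := by
      rw [map_pow]
      field_simp
    rw [h1]
    exact (chart I b).mul_mem (Algebra.subset_adjoin ⟨a, haI, rfl⟩) ((chart I b).algebraMap_mem _)
  have hfix : ∀ z (hz : z ∈ C), ∃ h : z ∈ R, ρ₁ ⟨z, h⟩ = z := by
    intro z hz
    induction hz using Algebra.adjoin_induction with
    | mem z hz =>
      obtain ⟨m, a, ha, haI, rfl⟩ := hz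
      refine ⟨hSL (hCS (hCgen m a ha haI)), ?_⟩
      set w := (algebraMap A (FractionRing A) a / algebraMap A (FractionRing A) f ^ m) /
        (algebraMap A (FractionRing A) b / algebraMap A (FractionRing A) f ^ n) with hw
      have hwR : w ∈ R := hSL (hCS (hCgen m a ha haI))
      have e1 : w * algebraMap A (FractionRing A) b * algebraMap A (FractionRing A) f ^ m =
          algebraMap A (FractionRing A) a * algebraMap A (FractionRing A) f ^ n := by
        rw [hw]; field_simp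
      have e2 : ρ₁ ⟨w, hwR⟩ * ρ₀ b * 1 = ρ₀ a * 1 := by
        rw [← hEA b, ← hEA a]
        nth_rewrite 1 [← hρf1 m]
        rw [← hρf1 n, ← hmul, ← hmul, ← hmul]
        congr 1
        exact Subtype.ext e1
      rw [mul_one, mul_one, hρb, hρ₀ m a ha] at e2
      have hq : algebraMap A (FractionRing A) b / algebraMap A (FractionRing A) f ^ n ≠ 0 :=
        div_ne_zero hbK (pow_ne_zero _ hfK)
      rw [eq_div_iff hq] at hw
      exact mul_right_cancel₀ hq (e2.trans hw.symm)
    | algebraMap x =>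
      exact ⟨R.algebraMap_mem x, ρ₁.commutes x⟩
    | add x y _ _ hx hy =>
      obtain ⟨h1, h2⟩ := hx
      obtain ⟨h3, h4⟩ := hy
      exact ⟨R.add_mem h1 h3, by rw [hadd x y h1 h3, h2, h4]⟩
    | mul x y _ _ hx hy =>
      obtain ⟨h1, h2⟩ := hx
      obtain ⟨h3, h4⟩ := hy
      exact ⟨R.mul_mem h1 h3, by rw [hmul x y h1 h3, h2, h4]⟩
  refine @retract k C S _ _ _ _ _ hSs (Subalgebra.inclusion hCS)
    ((ρ₁.comp (Subalgebra.inclusion hSL)).codRestrict C fun z => hSC z.1 z.2) ?_
  refine AlgHom.ext fun z => Subtype.ext ?_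
  obtain ⟨h, e⟩ := hfix z.1 z.2
  exact e

end CHS

/-- row CHS -/
theorem chart_away_smooth {I : Ideal A} (hI : I.IsHomogeneous 𝒜) {f : A} (hf : f ∈ 𝒜 1)
    (hf0 : f ≠ 0) {n : ℕ} {b : A} (hb : b ∈ 𝒜 n) (hbI : b ∈ I) (hb0 : b ≠ 0)
    (hsm : Algebra.FormallySmooth k (chart I b)) :
    Algebra.FormallySmooth k (Algebra.adjoin k
      {z : FractionRing A | ∃ (m : ℕ) (a : A), a ∈ 𝒜 m ∧ a ∈ I ∧
        z = (algebraMap A (FractionRing A) a / algebraMap A (FractionRing A) f ^ m) /
          (algebraMap A (FractionRing A) b / algebraMap A (FractionRing A) f ^ n)}) :=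
  CHS.main 𝒜 hI hf hf0 hb hbI hb0 hsm

end Pool.Agent.MP_b525bf_ag_E
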