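import Pool.Agent.Lib.LU2_h15.Defs
import Pool.Agent.Lib.MP_b525bf_ag_W.AtP

/-!
# Theorem E: resolution of singularities for group actions of complexity zero: definitions
-/

set_option autoImplicit false

namespace Pool.Agent.MP_b525bf_ag_E

open Pool.Agent.LU2 Pool.Agent.MP_b525bf_ag

variable {k K : Type} [Field k] [Field K] [Algebra k K]

/-- `K` is the field of fractions of the finitely generated `k`-algebra `A`, which is stable under
the group `G` of automorphisms of `K` over `k`; every subgroup of finite index of `G` is `G`. -/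
structure Hyp (G : Subgroup (K ≃ₐ[k] K)) (A : Subalgebra k K) : Prop where
  fg : A.FG
  frac : IsFrac A
  stab : ∀ g ∈ G, ∀ a ∈ A, g a ∈ A
  idx : ∀ H : Subgroup G, H.FiniteIndex → H = ⊤

/-- `V` is a valuation ring that contains `A`, with `G`-invariant valuation. -/
structure Inv (G : Subgroup (K ≃ₐ[k] K)) (A : Subalgebra k K) (V : ValuationSubring K) : Prop where
  le : ∀ a ∈ A, a ∈ V
  inv : ∀ g ∈ G, ∀ z : K, V.valuation (g z) = V.valuation z

/-- The valuation ring `W` dominates the ring `R`. -/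
structure Dom (W : ValuationSubring K) (R : Subalgebra k K) : Prop where
  le : ∀ f ∈ R, f ∈ W
  inv : ∀ f ∈ R, W.valuation f = 1 → f⁻¹ ∈ R

/-- The Laurent monomial with exponents `e`. -/
def mon {n : ℕ} (x : Fin n → K) (e : Fin n → ℤ) : K := ∏ i, x i ^ e i

/-- The exponents as integers. -/
def zx {n : ℕ} (α : Fin n → ℕ) : Fin n → ℤ := fun i => (α i : ℤ)

/-- `B` is (formally) smooth over the polynomial ring `k[X_1, ..., X_n]`, by `X_i ↦ x_i`. -/
def SmOver (B : Subalgebra k K) {n : ℕ} (x : Fin n → K) : Prop :=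
  ∃ h : ∀ i, x i ∈ B, (MvPolynomial.aeval (fun i => (⟨x i, h i⟩ : B)) :
    MvPolynomial (Fin n) k →ₐ[k] B).toRingHom.FormallySmooth

/-- The `x i` are obtained from the `z j` by a unimodular substitution; the `z j` are monomials in
the `x i` with exponents `a j ≥ 0`. -/
structure Toric (V : ValuationSubring K) {n : ℕ} (z x : Fin n → K) (b : Fin n → Fin n → ℤ)
    (a : Fin n → Fin n → ℕ) : Prop where
  xb : ∀ i, x i = mon z (b i)
  za : ∀ j, z j = mon x (zx (a j))
  ne : ∀ i, x i ≠ 0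
  pos : ∀ i, V.valuation (x i) < 1
  ind : ∀ e : Fin n → ℤ, V.valuation (mon x e) = 1 → e = 0

/-- `f` is a sum of monomials in the `x i` with coefficients that are units of `R`. -/
structure Rep (R : Subalgebra k K) {n : ℕ} (x : Fin n → K) (f : K) (S : Finset (Fin n → ℕ))
    (c : (Fin n → ℕ) → K) : Prop where
  ne : S.Nonempty
  mem : ∀ α ∈ S, c α ∈ R
  inv : ∀ α ∈ S, (c α)⁻¹ ∈ R
  ne0 : ∀ α ∈ S, c α ≠ 0
  sum : f = ∑ α ∈ S, c α * mon x (zx α)

/-- The local ring of `B` at the center of `V`, with `x` a system of parameters. -/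
structure Loc (V : ValuationSubring K) (B : Subalgebra k K) {n : ℕ} (x : Fin n → K) : Prop where
  fg : B.FG
  mem : ∀ b ∈ B, b ∈ V
  ne : ∀ i, x i ≠ 0
  pos : ∀ i, V.valuation (x i) < 1
  gen : ∀ f ∈ locV V B, V.valuation f < 1 →
    ∃ a : Fin n → K, (∀ i, a i ∈ locV V B) ∧ f = ∑ i, a i * x i
  sm : SmOver B x

/-- The values of the `x i` are rationally independent. -/
def Ind (V : ValuationSubring K) {n : ℕ} (x : Fin n → K) : Prop :=
  ∀ e : Fin n → ℤ, V.valuation (mon x e) = 1 → e = 0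

/-- A `G`-stable chart at `V`. -/
structure ChartAt (G : Subgroup (K ≃ₐ[k] K)) (A : Subalgebra k K) (V : ValuationSubring K)
    (B : Subalgebra k K) {n : ℕ} (x : Fin n → K) : Prop extends Loc V B x where
  le : A ≤ B
  ind : Ind V x
  stab : ∀ g ∈ G, ∀ f ∈ locV V B, g f ∈ locV V B
  par : ∀ g ∈ G, ∀ i, g (x i) / x i ∈ locV V B

/-- A ring in which every element is a sum of monomials with unit coefficients, compatible with
all invariant valuation rings. -/
structure Good (G : Subgroup (K ≃ₐ[k] K)) (A : Subalgebra k K) (R : Subalgebra k K) {n : ℕ}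
    (x : Fin n → K) : Prop where
  le : A ≤ R
  ne : ∀ i, x i ≠ 0
  mem : ∀ i, x i ∈ R
  stab : ∀ g ∈ G, ∀ f ∈ R, g f ∈ R
  par : ∀ g ∈ G, ∀ i, g (x i) / x i ∈ R
  frac : ∃ F : Finset K, (F : Set K) ⊆ R ∧ ∀ f ∈ R, ∃ a ∈ Algebra.adjoin k (F : Set K),
    ∃ b ∈ Algebra.adjoin k (F : Set K), b ≠ 0 ∧ b⁻¹ ∈ R ∧ f = a / b
  sm : ∀ E : Finset K, (E : Set K) ⊆ R →
    ∃ B : Subalgebra k K, B.FG ∧ (E : Set K) ⊆ B ∧ B ≤ R ∧ SmOver B x
  mono : ∀ f ∈ R, f ≠ 0 → ∃ (S : Finset (Fin n → ℕ)) (c : (Fin n → ℕ) → K), Rep R x f S c ∧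
    ∀ W : ValuationSubring K, Inv G A W → (∀ f ∈ R, f ∈ W) →
      (∃ α ∈ S, W.valuation (mon x (zx α)) = W.valuation f) ∧
        ∀ α ∈ S, W.valuation (mon x (zx α)) ≤ W.valuation f

/-- The invariant valuation rings on each model have finitely many centers. -/
def FinC (G : Subgroup (K ≃ₐ[k] K)) (A : Subalgebra k K) : Prop :=
  ∀ B : Subalgebra k K, B.FG → A ≤ B →
    {P : Set K | ∃ W : ValuationSubring K, Inv G A W ∧ (∀ b ∈ B, b ∈ W) ∧
      P = {b | b ∈ B ∧ W.valuation b < 1}}.Finite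

/-- The `A`-module generated by the orbit of `f`. -/
def orb (G : Subgroup (K ≃ₐ[k] K)) (A : Subalgebra k K) (f : K) : Submodule A K :=
  Submodule.span A {z | ∃ g ∈ G, z = g f}

section Fam

variable {N m : ℕ}

/-- The grading group. -/
abbrev Ix (N m : ℕ) : Type := (Fin N → ℤ) × (Fin m → ℤ)

/-- The degree of the elements of the ideal generated by the orbit of `f j`. -/
def dF (m : ℕ) (j : Fin N) : Ix N m := (Pi.single j 1, 0)

/-- The degree of the section `s j`. -/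
def dS (u : Fin m → Fin N → ℕ) (j : Fin N) : Ix N m := (-(Pi.single j 1), fun i => (u i j : ℤ))

/-- The degree of the section `r i`. -/
def dR (N : ℕ) (i : Fin m) : Ix N m := (0, -(Pi.single i 1))

/-- The generators of the multigraded algebra. -/
def egens (G : Subgroup (K ≃ₐ[k] K)) (A : Subalgebra k K) (f : Fin N → K)
    (u : Fin m → Fin N → ℕ) : Set (AddMonoidAlgebra K (Ix N m)) :=
  {F | ∃ a ∈ A, F = AddMonoidAlgebra.single 0 a} ∪
  {F | ∃ j, ∃ y ∈ orb G A (f j), F = AddMonoidAlgebra.single (dF m j) y} ∪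
  {F | ∃ j, F = AddMonoidAlgebra.single (dS u j) 1} ∪
  {F | ∃ i, F = AddMonoidAlgebra.single (dR N i) 1}

/-- The multigraded family. -/
noncomputable def EF (G : Subgroup (K ≃ₐ[k] K)) (A : Subalgebra k K) (f : Fin N → K)
    (u : Fin m → Fin N → ℕ) : Fam k K (Ix N m) :=
  Fam.ofSub (Algebra.adjoin k (egens G A f u))

/-- The ample degree. -/
def amp (N : ℕ) (θ : Fin m → ℕ) : Ix N m := (0, fun i => (θ i : ℤ))

/-- The pairing of a ray with an exponent vector. -/
def pr (a : Fin N → ℕ) (d : Fin N → ℤ) : ℤ := ∑ j, (a j : ℤ) * d j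

/-- The combinatorial data: rays `u i`, heights `θ i`, such that for every vector `b` which is
nonnegative on the heights the tight rays are linearly independent and every `d ∈ D` has constant
sign on them. -/
structure Comb (D : Set (Fin N → ℤ)) (u : Fin m → Fin N → ℕ) (θ : Fin m → ℕ) : Prop where
  pos : ∀ i, 0 < θ i
  ne : ∀ i, u i ≠ 0
  std : ∀ j : Fin N, ∃ i, u i = Pi.single j 1
  ind : ∀ (n : ℕ) (b : Fin N → ℕ), 0 < n → (∀ i, n * θ i ≤ ∑ j, b j * u i j) →
    LinearIndependent ℚ fun i : {i // n * θ i = ∑ j, b j * u i j} => fun j => (u i.1 j : ℚ)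
  sign : ∀ (n : ℕ) (b : Fin N → ℕ), 0 < n → (∀ i, n * θ i ≤ ∑ j, b j * u i j) → ∀ d ∈ D,
    (∀ i, n * θ i = ∑ j, b j * u i j → 0 ≤ pr (u i) d) ∨
      ∀ i, n * θ i = ∑ j, b j * u i j → pr (u i) d ≤ 0

/-- The input of the destackification theorem. -/
structure Stk {ι : Type} [AddCommGroup ι] (M : Fam k K ι) (θ : ι) : Prop where
  fg : M.alg.FG
  smooth : ∀ n : ℕ, 0 < n → ∀ (x : K) (hx : x ∈ M.s (n • θ)), x ≠ 0 →
    Algebra.FormallySmooth k (M.loc hx).alg
  idx : ∃ w : ℕ, 0 < w ∧ ∀ (Q : Ideal M.alg) [Q.IsPrime],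
    (∃ n : ℕ, 0 < n ∧ ∃ (x : K) (hx : x ∈ M.s (n • θ)), M.el hx ∉ Q) →
      ∀ d : ι, w • d ∈ M.grp Q
  neg : ∀ n : ℕ, (1 : K) ∈ M.s (-(n • θ))
  nontriv : ∃ n : ℕ, 0 < n ∧ ∃ x ∈ M.s (n • θ), x ≠ 0
  gen : ∀ d : ι, ∃ a, (∃ x ∈ M.s a, x ≠ 0) ∧ ∃ y ∈ M.s (a + d), y ≠ 0

/-- Semistable primes. -/
def SemiS {ι : Type} [AddCommGroup ι] (M : Fam k K ι) (θ : ι) (Q : Ideal M.alg) : Prop :=
  ∃ n : ℕ, 0 < n ∧ ∃ (x : K) (hx : x ∈ M.s (n • θ)), M.el hx ∉ Q

/-- All pieces of the family are stable under `G`. -/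
def FStab {ι : Type} [AddCommGroup ι] (G : Subgroup (K ≃ₐ[k] K)) (M : Fam k K ι) : Prop :=
  ∀ g ∈ G, ∀ (d : ι) (x : K), x ∈ M.s d → g x ∈ M.s d

/-- The homogeneous elements of the prime form a set which is stable under `G`. -/
def QStab {ι : Type} [AddCommGroup ι] (G : Subgroup (K ≃ₐ[k] K)) (M : Fam k K ι)
    (Q : Ideal M.alg) : Prop :=
  ∀ g ∈ G, ∀ (d : ι) (x : K) (hx : x ∈ M.s d) (hgx : g x ∈ M.s d), M.el hx ∈ Q → M.el hgx ∈ Q

open MP_b525bf_ag_W in
/-- The facts on a semistable prime `Q`; the rays whose section is not a unit are in `Q`. -/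
structure SemiD (G : Subgroup (K ≃ₐ[k] K)) (A : Subalgebra k K) (f : Fin N → K)
    (u : Fin m → Fin N → ℕ) (D : Set (Fin N → ℤ)) (Q : Ideal (EF G A f u).alg) [Q.IsPrime] :
    Prop where
  unF : ∀ j, ∃ y ∈ orb G A (f j), IsU (atP (EF G A f u) Q) (dF m j) y
  unS : ∀ j, IsU (atP (EF G A f u) Q) (dS u j) 1
  ind : LinearIndependent ℚ fun i : {i // ¬ IsU (atP (EF G A f u) Q) (dR N i) 1} =>
    fun j => (u i.1 j : ℚ)
  sign : ∀ d ∈ D, (∀ i, ¬ IsU (atP (EF G A f u) Q) (dR N i) 1 → 0 ≤ pr (u i) d) ∨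
    ∀ i, ¬ IsU (atP (EF G A f u) Q) (dR N i) 1 → pr (u i) d ≤ 0

/-- The exponent vector of `f p / f q`. -/
def dv (p q : Fin N) : Fin N → ℤ := Pi.single p 1 - Pi.single q 1

/-- The exponent vector of a monomial in the `x l = f (P l) / f (Q l)`. -/
def ev {n : ℕ} (P Q : Fin n → Fin N) (e : Fin n → ℤ) : Fin N → ℤ := ∑ l, e l • dv (P l) (Q l)

/-- The chart `R, x` is adapted to the finite set of elements `f j` and to the finite set `D` of
exponent vectors. -/
structure Adapt (G : Subgroup (K ≃ₐ[k] K)) (A R : Subalgebra k K) {n : ℕ} (x : Fin n → K)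
    (f : Fin N → K) (D : Set (Fin N → ℤ)) : Prop where
  par : ∃ P Q : Fin n → Fin N, (∀ l, x l = f (P l) / f (Q l)) ∧
    (∀ l, dv (P l) (Q l) ∈ D) ∧
    ∀ j, ∃ (S : Finset (Fin n → ℕ)) (c : (Fin n → ℕ) → K), Rep R x (f j) S c ∧
      (∀ W : ValuationSubring K, Inv G A W → (∀ f ∈ R, f ∈ W) →
        (∃ α ∈ S, W.valuation (mon x (zx α)) = W.valuation (f j)) ∧
          ∀ α ∈ S, W.valuation (mon x (zx α)) ≤ W.valuation (f j)) ∧
      ∀ α ∈ S, ev P Q (zx α) - Pi.single j 1 ∈ D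
  frac : ∃ F : Finset K, (F : Set K) ⊆ R ∧
    (∀ c ∈ F, ∃ p q : Fin N, c = f p / f q ∧ dv p q ∈ D) ∧
    ∀ c ∈ R, ∃ a ∈ Algebra.adjoin k (F : Set K), ∃ b ∈ Algebra.adjoin k (F : Set K),
      b ≠ 0 ∧ b⁻¹ ∈ R ∧ c = a / b

/-- The subalgebra of the elements of degree zero. -/
def zeroSub {ι : Type} [AddCommGroup ι] (M : Fam k K ι) : Subalgebra k K where
  carrier := {z | z ∈ M.s 0}
  mul_mem' := by
    intro a b ha hb
    have := M.mul' ha hb
    rwa [add_zero] at this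
  add_mem' := fun ha hb => Submodule.add_mem _ ha hb
  algebraMap_mem' := by
    intro r
    rw [Algebra.algebraMap_eq_smul_one]
    exact Submodule.smul_mem _ _ M.one'

/-- The family `N` with the units `f j` in new degrees added. -/
def tw {ι : Type} [AddCommGroup ι] (M : Fam k K ι) (f : Fin N → K) (hf : ∀ j, f j ≠ 0) :
    Fam k K ((Fin N → ℤ) × ι) where
  s d :=
    { carrier := {z | z * mon f (-d.1) ∈ M.s d.2}
      add_mem' := by
        intro a b ha hb
        change (a + b) * mon f (-d.1) ∈ M.s d.2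
        rw [add_mul]
        exact Submodule.add_mem _ ha hb
      zero_mem' := by
        change 0 * mon f (-d.1) ∈ M.s d.2
        rw [zero_mul]
        exact Submodule.zero_mem _
      smul_mem' := by
        intro c a ha
        change (c • a) * mon f (-d.1) ∈ M.s d.2
        rw [smul_mul_assoc]
        exact Submodule.smul_mem _ _ ha }
  one' := by
    change 1 * mon f (-0) ∈ M.s 0
    have : mon f (-(0 : Fin N → ℤ)) = 1 := by simp [mon]
    rw [this, one_mul]
    exact M.one'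
  mul' := by
    intro a b y z hy hz
    change y * z * mon f (-(a.1 + b.1)) ∈ M.s (a.2 + b.2)
    have h1 : mon f (-(a.1 + b.1)) = mon f (-a.1) * mon f (-b.1) := by
      rw [mon, mon, mon, ← Finset.prod_mul_distrib]
      refine Finset.prod_congr rfl fun j _ => ?_
      rw [← zpow_add₀ (hf j)]
      congr 1
      simp only [Pi.neg_apply, Pi.add_apply]
      ring
    rw [h1]
    have := M.mul' hy hz
    convert this using 1
    ring

/-- The generators of the algebra in the smoothness lemma. -/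
def sgens {J : Type} [DecidableEq J] (B : Subalgebra k K) {n : ℕ} (x : Fin n → K) (T : Set J)
    (v : Fin n → J → ℤ) : Set (AddMonoidAlgebra K (J → ℤ)) :=
  {F | ∃ b ∈ B, F = AddMonoidAlgebra.single 0 b} ∪
  {F | ∃ i, F = AddMonoidAlgebra.single (-(Pi.single i 1)) 1} ∪
  {F | ∃ i, i ∉ T ∧ F = AddMonoidAlgebra.single (Pi.single i 1) 1} ∪
  {F | ∃ l, F = AddMonoidAlgebra.single (v l) (x l)} ∪
  {F | ∃ l, F = AddMonoidAlgebra.single (-(v l)) (x l)⁻¹}

end Fam

end Pool.Agent.MP_b525bf_ag_E
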