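import Pool.Agent.Lib.MP_b525bf_ag_E.Defs
import Pool.Agent.Lib.MP_b525bf_ag_h52d.Destack

/-!
# Theorem E: destackification of families with pieces stable under a group
-/

set_option autoImplicit false

namespace Pool.Agent.MP_b525bf_ag_E

open Pool.Agent.MP_b525bf_ag AddMonoidAlgebra

variable {k K ι : Type} [Field k] [Field K] [Algebra k K] [AddCommGroup ι]
  {G : Subgroup (K ≃ₐ[k] K)}

/-- The automorphism of the group algebra induced by an automorphism of the coefficients. -/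
theorem EQ1.exists_hom (ι : Type) [AddCommGroup ι] (g : K ≃ₐ[k] K) :
    ∃ φ : AddMonoidAlgebra K ι →ₐ[k] AddMonoidAlgebra K ι,
      ∀ (a : ι) (x : K), φ (AddMonoidAlgebra.single a x) = AddMonoidAlgebra.single a (g x) := by
  exact ⟨AddMonoidAlgebra.mapAlgHom ι (g : K →ₐ[k] K), fun a x => by simp⟩

theorem EQ1.fstab_ofSub {S : Set (AddMonoidAlgebra K ι)}
    (hS : ∀ g ∈ G, ∀ F ∈ S, ∃ (a : ι) (x : K), F = single a x ∧ single a (g x) ∈ S) :
    FStab G (Fam.ofSub (Algebra.adjoin k S)) := by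
  intro g hg d x hx
  obtain ⟨φ, hφ⟩ := EQ1.exists_hom ι g
  have h1 : Algebra.adjoin k S ≤ (Algebra.adjoin k S).comap φ := by
    refine Algebra.adjoin_le fun F hF => ?_
    obtain ⟨a, x, rfl, h⟩ := hS g hg F hF
    change φ (single a x) ∈ Algebra.adjoin k S
    rw [hφ]
    exact Algebra.subset_adjoin h
  have h2 : φ (single d x) ∈ Algebra.adjoin k S := h1 hx
  rw [hφ] at h2
  exact h2

theorem FStab.wr {M : Fam k K ι} (h : FStab G M) (c : ι →+ ℤ) (l : ℕ) : FStab G (M.wr c l) := by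
  refine EQ1.fstab_ofSub ?_
  rintro g hg F (⟨d, x, hx, rfl⟩ | hF)
  · exact ⟨_, _, rfl, Or.inl ⟨d, g x, h g hg d x hx, rfl⟩⟩
  · exact ⟨_, _, hF, Or.inr (by rw [map_one]; rfl)⟩

theorem FStab.comap {κ : Type} [AddCommGroup κ] {M : Fam k K ι} (h : FStab G M) (f : κ →+ ι) :
    FStab G (M.comap f) := fun g hg d x hx => h g hg (f d) x hx

/-- The induction. -/
theorem exists_goodC_stab (G : Subgroup (K ≃ₐ[k] K)) : ∀ (w n : ℕ) (ι : Type) [AddCommGroup ι]
    [Module.Free ℤ ι] [Module.Finite ℤ ι] (M : Fam k K ι) (θ : ι), GoodI M θ w → FStab G M →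
    (occ M θ w).ncard ≤ n →
    ∃ M' : Fam k K ℤ, GoodC M' 1 ∧ M'.s 0 = M.s 0 ∧ FStab G M' := by
  intro w
  induction w with
  | zero =>
    intro n ι _ _ _ M θ hM _ _
    obtain ⟨h1, h2⟩ := hM.idx _ hM.nontriv
    omega
  | succ w ihw =>
    intro n
    induction n with
    | zero =>
      intro ι _ _ _ M θ hM hG hn
      rcases Nat.eq_zero_or_pos w with rfl | hw
      · refine ⟨M.comap (ray θ), GoodI.goodC (by simpa using hM), ?_, hG.comap _⟩
        rw [Fam.comap_s, map_zero]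
      · have hempty : occ M θ (w + 1) = ∅ := by
          rw [← Set.ncard_eq_zero (occ_finite hM.fg θ (w + 1))]
          omega
        have hM' : GoodI M θ w := by
          refine ⟨hM.fg, hM.smooth, fun P hP => ?_, hM.neg, hM.nontriv, hM.gen⟩
          obtain ⟨h1, h2⟩ := hM.idx P hP
          refine ⟨h1, ?_⟩
          have h3 : P.grp.index ≠ w + 1 := by
            intro h
            have : P.grp ∈ occ M θ (w + 1) := ⟨h, P, hP, rfl⟩
            rw [hempty] at this
            exact this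
          omega
        exact ihw _ ι M θ hM' hG le_rfl
    | succ n ihn =>
      intro ι _ _ _ M θ hM hG hn
      rcases Nat.eq_zero_or_pos w with rfl | hw
      · refine ⟨M.comap (ray θ), GoodI.goodC (by simpa using hM), ?_, hG.comap _⟩
        rw [Fam.comap_s, map_zero]
      · by_cases hne : (occ M θ (w + 1)).Nonempty
        · obtain ⟨H₀, hH₀⟩ := hne
          have htop : H₀ ≠ ⊤ := by
            rintro rfl
            have := hH₀.1
            rw [AddSubgroup.index_top] at this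
            omega
          obtain ⟨c, l, hc, hl, hcH⟩ := exists_functional H₀ htop
          have hdom := isDomain_of_free K ι
          obtain ⟨θ', h1, h2, h3⟩ := hM.step hH₀ hc hl hcH
          have hfree : Module.Free ℤ (ι × ℤ) := inferInstance
          have hfin : Module.Finite ℤ (ι × ℤ) := inferInstance
          obtain ⟨M', h4, h5, h6⟩ := ihn (ι × ℤ) (M.wr c l) θ' h1 (hG.wr c l) (by omega)
          exact ⟨M', h4, h5.trans h3, h6⟩
        · refine ihn ι M θ hM hG ?_
          rw [Set.not_nonempty_iff_eq_empty.1 hne, Set.ncard_empty]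
          omega

/-- Destackification with stable pieces. -/
theorem destack_stab [Module.Free ℤ ι] [Module.Finite ℤ ι] (M : Fam k K ι) (θ : ι)
    (h : Stk M θ) (hG : FStab G M) :
    ∃ M' : Fam k K ℤ, GoodC M' 1 ∧ M'.s 0 = M.s 0 ∧ FStab G M' := by
  obtain ⟨w, hw, hidx⟩ := h.idx
  have hfi := finiteIndex_range_nsmul (ι := ι) hw
  have hbot : ∀ (a : ι) (x : K), x ≠ 0 → x ∉ (GP.bot M).I a := by
    intro a x hx h
    change x ∈ (⊥ : Submodule k K) at h
    rw [Submodule.mem_bot] at h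
    exact hx h
  have hM : GoodI M θ ((nsmulAddMonoidHom w : ι →+ ι).range).index := by
    refine ⟨h.fg, h.smooth, ?_, h.neg, ?_, ?_⟩
    · intro P hP
      obtain ⟨Q, hQ, hQP⟩ := P.exists_ideal
      have h1 : (∃ n : ℕ, 0 < n ∧ ∃ (x : K) (hx : x ∈ M.s (n • θ)), M.el hx ∉ Q) := by
        obtain ⟨n, hn, x, hx, hx'⟩ := hP
        exact ⟨n, hn, x, hx, fun h => hx' ((hQP _ x hx).1 h)⟩
      have h2 : ∀ a, a ∈ M.degs Q → a ∈ P.degs := by
        rintro a ⟨x, hx, hx'⟩
        exact ⟨x, hx, fun h => hx' ((hQP _ x hx).2 h)⟩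
      have h3 : (nsmulAddMonoidHom w : ι →+ ι).range ≤ P.grp := by
        rintro _ ⟨d, rfl⟩
        obtain ⟨l', h4, h5⟩ := hidx Q h1 d
        exact ⟨l', h2 _ h4, h2 _ h5⟩
      refine ⟨?_, AddSubgroup.index_antitone h3⟩
      intro h0
      have h4 := AddSubgroup.index_dvd_of_le h3
      rw [h0, zero_dvd_iff] at h4
      exact hfi.index_ne_zero h4
    · obtain ⟨n, hn, x, hx, hx0⟩ := h.nontriv
      exact ⟨n, hn, x, hx, hbot _ _ hx0⟩
    · rw [eq_top_iff]
      intro d _
      obtain ⟨a, ⟨x, hx, hx0⟩, y, hy, hy0⟩ := h.gen d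
      exact ⟨a, ⟨x, hx, hbot _ _ hx0⟩, by rw [add_comm]; exact ⟨y, hy, hbot _ _ hy0⟩⟩
  exact exists_goodC_stab G _ _ ι M θ hM hG le_rfl

end Pool.Agent.MP_b525bf_ag_E
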