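import Pool.Agent.Lib.MP_b525bf_ag_E.MAIN2

/-!
# Theorem E: the final form
-/

set_option autoImplicit false

namespace Pool.Agent.MP_b525bf_ag_E

open AlgebraicGeometry CategoryTheory Pool.Agent.LU2 Pool.Agent.MPb525bf

/-- The charts of the blowing up are of finite type. -/
theorem finiteType_chart {k A : Type} [Field k] [CommRing A] [IsDomain A] [Algebra k A]
    [Algebra.FiniteType k A] (I : Ideal A) (b : A) : Algebra.FiniteType k (chart I b) := by
  have hN : IsNoetherianRing A := Algebra.FiniteType.isNoetherianRing k A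
  obtain ⟨s, hs⟩ := (isNoetherianRing_iff_ideal_fg A).1 hN I
  have h1 : (chart I b).FG := by
    classical
    refine ⟨s.image fun a => algebraMap A (FractionRing A) a / algebraMap A (FractionRing A) b, ?_⟩
    apply le_antisymm
    · refine Algebra.adjoin_le ?_
      intro z hz
      rw [Finset.mem_coe, Finset.mem_image] at hz
      obtain ⟨a, ha, rfl⟩ := hz
      exact Algebra.subset_adjoin ⟨a, by rw [← hs]; exact Ideal.subset_span ha, rfl⟩
    · refine Algebra.adjoin_le ?_
      rintro z ⟨a, ha, rfl⟩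
      rw [← hs] at ha
      refine Submodule.span_induction (p := fun a _ => algebraMap A (FractionRing A) a /
        algebraMap A (FractionRing A) b ∈ Algebra.adjoin A _) ?_ ?_ ?_ ?_ ha
      · intro x hx
        exact Algebra.subset_adjoin (Finset.mem_coe.2 (Finset.mem_image_of_mem _ hx))
      · rw [map_zero, zero_div]
        exact Subalgebra.zero_mem _
      · intro x y _ _ hx hy
        rw [map_add, add_div]
        exact Subalgebra.add_mem _ hx hy
      · intro c x _ hx
        rw [smul_eq_mul, map_mul, mul_div_assoc]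
        exact Subalgebra.mul_mem _ (Subalgebra.algebraMap_mem _ c) hx
  have h2 : Algebra.FiniteType A (chart I b) := (Subalgebra.fg_iff_finiteType _).1 h1
  exact Algebra.FiniteType.trans (S := A) inferInstance h2

/-- The final theorem. -/
theorem group_actions (p : ℕ) [Fact p.Prime] (k : Type) [Field k] [PerfectField k]
    [Infinite k] [CharP k p] (A : Type) [CommRing A] [IsDomain A] [Algebra k A]
    [Algebra.FiniteType k A] (G : Subgroup (A ≃ₐ[k] A))
    (hG : ∀ H : Subgroup G, H.FiniteIndex → H = ⊤) (hA : AllAbhyankar G)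
    (hF : ∀ I : Ideal A, I ≠ ⊥ → (∀ g ∈ G, ∀ a ∈ I, g a ∈ I) → (invariantCenters G I).Finite) :
    HasResolution (Spec.map (CommRingCat.ofHom (algebraMap k A))) ∧
      (∃ I : Ideal A, I ≠ ⊥ ∧ (∀ g ∈ G, ∀ a ∈ I, g a ∈ I) ∧
        ∀ b ∈ I, b ≠ 0 → Algebra.Smooth k (chart I b)) ∧
      ∀ (𝒜 : ℕ → Submodule k A) [GradedAlgebra 𝒜], Algebra.adjoin k (𝒜 1 : Set A) = ⊤ →
        𝒜 1 ≠ ⊥ → (∀ t : kˣ, ∃ g ∈ G, ∀ (d : ℕ), ∀ a ∈ 𝒜 d, g a = (t : k) ^ d • a) →
        HasResolution (projTo 𝒜) := by
  obtain ⟨h1, ⟨I, hI, hst, hsm⟩, h3⟩ := final_group p k A G hG hA hF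
  refine ⟨h1, ⟨I, hI, hst, fun b hb hb0 => ?_⟩, h3⟩
  have h4 := hsm b hb hb0
  have h5 := finiteType_chart (k := k) I b
  exact { formallySmooth := h4
          finitePresentation := Algebra.FinitePresentation.of_finiteType.mp h5 }

end Pool.Agent.MP_b525bf_ag_E
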