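import Pool.Agent.Lib.MP_b525bf_ag_E.PDefs

/-!
# Theorem E, projective part, row HOM: ideals stable under the torus are homogeneous

Recipe. Let `a ∈ I` with components `a_d`. For all `t : kˣ`: `∑ t ^ d a_d = g_t a ∈ I`. For a `k`-linear
functional `φ` on `A ⧸ I` the polynomial `∑ φ (a_d) T ^ d` over `k` vanishes at all `t ≠ 0`, infinitely
many, so it is zero (`Polynomial.eq_zero_of_infinite_isRoot`), `φ (a_d) = 0` for all `φ`, so `a_d ∈ I`
(`Module.forall_dual_apply_eq_zero_iff`).
-/

set_option autoImplicit false
set_option linter.unusedVariables false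

namespace Pool.Agent.MP_b525bf_ag_E

open Pool.Agent.LU2 Pool.Agent.MP_b525bf_ag

/-- row HOM -/
theorem isHomogeneous_of_torus {k A : Type} [Field k] [Infinite k] [CommRing A] [Algebra k A]
    (𝒜 : ℕ → Submodule k A) [GradedAlgebra 𝒜] (I : Ideal A)
    (hI : ∀ t : kˣ, ∃ g : A ≃ₐ[k] A, (∀ a ∈ I, g a ∈ I) ∧
      ∀ d : ℕ, ∀ a ∈ 𝒜 d, g a = (t : k) ^ d • a) : I.IsHomogeneous 𝒜 := by
  classical
  intro i a ha
  set s := (DirectSum.decompose 𝒜 a).support with hs
  have hsum : ∑ j ∈ s, (DirectSum.decompose 𝒜 a j : A) = a := DirectSum.sum_support_decompose 𝒜 a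
  let J : Submodule k A := I.restrictScalars k
  have hJ : ∀ x : A, x ∈ J ↔ x ∈ I := fun x => Iff.rfl
  have key : ∀ φ : Module.Dual k (A ⧸ J), φ (J.mkQ (DirectSum.decompose 𝒜 a i : A)) = 0 := by
    intro φ
    let P : Polynomial k := ∑ j ∈ s, Polynomial.monomial j
      (φ (J.mkQ (DirectSum.decompose 𝒜 a j : A)))
    have hev : ∀ t : kˣ, P.eval (t : k) = 0 := by
      intro t
      obtain ⟨g, hg, hgd⟩ := hI t
      have h1 : g a = ∑ j ∈ s, (t : k) ^ j • (DirectSum.decompose 𝒜 a j : A) := by
        conv_lhs => rw [← hsum]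
        rw [map_sum]
        exact Finset.sum_congr rfl fun j _ => hgd j _ (SetLike.coe_mem _)
      have h2 : φ (J.mkQ (g a)) = 0 := by
        have : J.mkQ (g a) = 0 := by
          rw [Submodule.mkQ_apply, Submodule.Quotient.mk_eq_zero]
          exact hg a ha
        rw [this, map_zero]
      rw [h1, map_sum, map_sum] at h2
      rw [Polynomial.eval_finsetSum, ← h2]
      refine Finset.sum_congr rfl fun j _ => ?_
      rw [Polynomial.eval_monomial, map_smul, map_smul, smul_eq_mul, mul_comm]
    have hP : P = 0 := by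
      apply Polynomial.eq_zero_of_infinite_isRoot
      have hinf : (Set.range (fun t : kˣ => (t : k))).Infinite := by
        have : Set.range (fun t : kˣ => (t : k)) = {0}ᶜ := by
          ext x
          simp only [Set.mem_range, Set.mem_compl_iff, Set.mem_singleton_iff]
          constructor
          · rintro ⟨t, rfl⟩
            exact t.ne_zero
          · intro hx
            exact ⟨Units.mk0 x hx, rfl⟩
        rw [this]
        exact (Set.finite_singleton (0 : k)).infinite_compl
      refine hinf.mono ?_
      rintro _ ⟨t, rfl⟩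
      exact hev t
    have hc : P.coeff i = φ (J.mkQ (DirectSum.decompose 𝒜 a i : A)) := by
      simp only [P, Polynomial.finsetSum_coeff, Polynomial.coeff_monomial]
      rw [Finset.sum_ite_eq' s i]
      split_ifs with h
      · rfl
      · have : DirectSum.decompose 𝒜 a i = 0 := by
          rw [hs, DFinsupp.mem_support_iff, not_not] at h
          exact h
        rw [this]
        simp
    rw [← hc, hP, Polynomial.coeff_zero]
  have hz := (Module.forall_dual_apply_eq_zero_iff k _).1 key
  rw [Submodule.mkQ_apply, Submodule.Quotient.mk_eq_zero] at hz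
  exact hz

end Pool.Agent.MP_b525bf_ag_E
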