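import Pool.Agent.Lib.MP_b525bf_ag_E.VER
import Pool.Agent.Lib.MP_b525bf_ag_E.StmtDefs
import Pool.Agent.Lib.MP_b525bf_ag_helper30.FinalC

/-!
# Theorem E, projective part, row IDL: the resolution is the blowing up of an ideal

Recipe. Follow the proof of `hasResolution_of_goodC_one` (`MP_b525bf_ag_helper30/FinalC.lean`): `c` from
`hM.one_neg`, `f := c *`, `F := Good.idealFam h0'` (so `x ∈ F.I n ↔ x ∈ M.s (c n)`), its three bullets give: `F.rees`
is of finite type over `k` (hence over `A`), some `F.I n`, `n > 0`, is not zero, and the chart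
`F.chart k K hx` is formally smooth for `x ∈ F.I n`, `x ≠ 0`, `n > 0`. Now `exists_veronese` gives `N`; let
`I := F.I N`, `d := c N`. `I ≠ ⊥`: `F.I (N n) = I ^ n` contains `x ^ N ≠ 0`. For `b ∈ I`, `b ≠ 0`, the elements
of `chart I b` (a subalgebra over `A`) and of `F.chart k K hb` (over `k`) are the same: the quotients
`y / b ^ m` with `y ∈ I ^ m = F.I (N m)` (compare `chart_eq`, `div_pow_mem_adjoin` in `LU1G/Chart.lean`), so
they are isomorphic as `k`-algebras.
-/

set_option autoImplicit false
set_option linter.unusedVariables false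

namespace Pool.Agent.MP_b525bf_ag_E

open Pool.Agent.LU2 Pool.Agent.MP_b525bf_ag

namespace IDL

open Pool.Agent.LU2

variable {k A : Type} [Field k] [CommRing A] [IsDomain A] [Algebra k A]

theorem div_pow_mem_chart (I : Ideal A) {g : A} (hg : g ∈ I) (hg0 : g ≠ 0) (m : ℕ) :
    ∀ y ∈ I ^ m, algebraMap A (FractionRing A) y / algebraMap A (FractionRing A) g ^ m ∈
      chart I g := by
  have h0 : algebraMap A (FractionRing A) g ≠ 0 := fun h =>
    hg0 (IsFractionRing.injective A (FractionRing A) (by rw [h, map_zero]))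
  induction m with
  | zero =>
    intro y _
    rw [pow_zero, div_one]
    exact Subalgebra.algebraMap_mem _ y
  | succ m ih =>
    intro y hy
    rw [pow_succ] at hy
    refine Submodule.mul_induction_on hy ?_ ?_
    · intro a ha b hb
      rw [map_mul, pow_succ, mul_div_mul_comm]
      exact mul_mem (ih a ha) (Algebra.subset_adjoin ⟨b, hb, rfl⟩)
    · intro a b ha hb
      rw [map_add, add_div]
      exact add_mem ha hb

/-- The chart of the Veronese family is the chart of the ideal. -/
theorem mem_chart_iff (F : IdealFam A) (N : ℕ) (hN : ∀ d : ℕ, F.I (N * d) = F.I N ^ d)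
    {b : A} (hb : b ∈ F.I N) (hb0 : b ≠ 0) (z : FractionRing A) :
    z ∈ F.chart k (FractionRing A) hb ↔ z ∈ chart (F.I N) b := by
  have h0 : algebraMap A (FractionRing A) b ≠ 0 := fun h =>
    hb0 (IsFractionRing.injective A (FractionRing A) (by rw [h, map_zero]))
  constructor
  · rintro ⟨m, y, hy, hz⟩
    rw [mul_comm m N, hN m] at hy
    have h1 : z = algebraMap A (FractionRing A) y / algebraMap A (FractionRing A) b ^ m := by
      rw [← hz, mul_div_assoc, div_self (pow_ne_zero m h0), mul_one]
    rw [h1]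
    exact div_pow_mem_chart (F.I N) hb hb0 m y hy
  · intro hz
    unfold chart at hz
    induction hz using Algebra.adjoin_induction with
    | mem z hz =>
      obtain ⟨a, ha, rfl⟩ := hz
      refine ⟨1, a, by rwa [one_mul], ?_⟩
      rw [pow_one, div_mul_cancel₀ _ h0]
    | algebraMap r =>
      refine ⟨0, r, by rw [Nat.zero_mul, F.zero']; trivial, ?_⟩
      rw [pow_zero, mul_one]
    | add x y _ _ hx hy => exact add_mem hx hy
    | mul x y _ _ hx hy => exact mul_mem hx hy

end IDL

/-- row IDL -/
theorem exists_ideal_of_goodC {k A : Type} [Field k] [CommRing A] [IsDomain A] [Algebra k A]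
    (M : Fam k (FractionRing A) ℤ) (hM : GoodC M 1)
    (h0 : ∀ z : FractionRing A, z ∈ M.s 0 ↔ ∃ x : A, algebraMap A (FractionRing A) x = z) :
    ∃ I : Ideal A, I ≠ ⊥ ∧ (∀ b ∈ I, b ≠ 0 → Algebra.FormallySmooth k (chart I b)) ∧
      ∃ d : ℤ, ∀ x : A, x ∈ I ↔ algebraMap A (FractionRing A) x ∈ M.s d := by
  classical
  have hinj : Function.Injective (algebraMap A (FractionRing A)) :=
    IsFractionRing.injective A (FractionRing A)
  obtain ⟨c, hc, hneg⟩ := hM.one_neg
  have hcZ : (0 : ℤ) < c := by exact_mod_cast hc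
  let f : ℤ →+ ℤ := AddMonoidHom.mulLeft (c : ℤ)
  have hfa : ∀ n, f n = c * n := fun _ => rfl
  have hf : Function.Injective f := fun a b h => mul_left_cancel₀ hcZ.ne' h
  have h0' : ∀ z : FractionRing A, z ∈ (M.comap f).s 0 ↔
      ∃ x : A, algebraMap A (FractionRing A) x = z := by
    intro z
    rw [Fam.comap_s, map_zero]
    exact h0 z
  have hle : ∀ (n : ℤ), 0 ≤ n → ∀ z : FractionRing A, z ∈ M.s (c * n) → z ∈ M.s 0 := by
    intro n hn z hz
    have h := M.mul' hz (hneg (-(c * n)) (by nlinarith) ⟨-n, by ring⟩)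
    rwa [mul_one, add_neg_cancel] at h
  let F : IdealFam A := Good.idealFam h0'
  have hfin : Algebra.FiniteType k F.rees := by
    refine Fam.finiteType_rees hinj (M.comap f) (Fam.fg_comap f hf M hM.fg) _ (fun _ _ => Iff.rfl)
      fun n z hz => (h0 z).1 (hle n (Int.natCast_nonneg n) z ?_)
    rw [Fam.comap_s, hfa] at hz
    exact hz
  have hne : ∃ n : ℕ, 0 < n ∧ ∃ x ∈ F.I n, x ≠ 0 := by
    obtain ⟨d, hd, x, hx, hx0⟩ := hM.nontriv
    have hxc : x ^ c ∈ M.s (c * d) := by
      have := M.pow' hx c
      rwa [nsmul_eq_mul] at this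
    obtain ⟨y, hy⟩ := (h0 _).1 (hle d hd.le _ hxc)
    refine ⟨d.toNat, by omega, y, ?_, ?_⟩
    · rw [Good.mem_idealFam, Int.toNat_of_nonneg hd.le, Fam.comap_s, hfa, hy]; exact hxc
    · rintro rfl
      rw [map_zero] at hy
      exact pow_ne_zero c hx0 hy.symm
  have hsmooth : ∀ (n : ℕ), 0 < n → ∀ (x : A) (hx : x ∈ F.I n), x ≠ 0 →
      Algebra.FormallySmooth k (F.chart k (FractionRing A) hx) := by
    intro n hn x hx hx0
    have hX : algebraMap A (FractionRing A) x ∈ M.s ((c * n : ℕ) : ℤ) := by
      have h1 : algebraMap A (FractionRing A) x ∈ (M.comap f).s n := hx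
      rw [Fam.comap_s, hfa] at h1
      rw [Nat.cast_mul]; exact h1
    have hX0 : algebraMap A (FractionRing A) x ≠ 0 := fun h => hx0 (hinj (by rw [h, map_zero]))
    have hsm := hM.formallySmooth_comap_loc (Nat.mul_pos hc hn) hX hX0
    have hmem : ∀ z : FractionRing A, z ∈ F.chart k (FractionRing A) hx ↔ z ∈ (M.loc hX).s 0 := by
      intro z
      constructor
      · rintro ⟨m, y, hy, hz⟩
        refine ⟨m, ?_⟩
        rw [Good.mem_idealFam, Fam.comap_s, hfa] at hy
        rw [mul_comm (algebraMap A (FractionRing A) x ^ m) z, hz, add_zero, nsmul_eq_mul]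
        have e1 : (m : ℤ) * ((c * n : ℕ) : ℤ) = c * ((m * n : ℕ) : ℤ) := by push_cast; ring
        rw [e1]; exact hy
      · rintro ⟨m, hm⟩
        have e1 : (m : ℤ) * ((c * n : ℕ) : ℤ) = c * ((m * n : ℕ) : ℤ) := by push_cast; ring
        rw [add_zero, nsmul_eq_mul, e1] at hm
        obtain ⟨y, hy⟩ := (h0 _).1 (hle _ (Int.natCast_nonneg _) _ hm)
        refine ⟨m, y, ?_, ?_⟩
        · rw [Good.mem_idealFam, Fam.comap_s, hfa, hy]; exact hm
        · rw [hy, mul_comm]
    let g : F.chart k (FractionRing A) hx →ₐ[k]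
        ((M.loc hX).comap (0 : PUnit.{1} →+ ℤ)).alg :=
      (((Algebra.ofId (FractionRing A)
          (AddMonoidAlgebra (FractionRing A) PUnit.{1})).restrictScalars k).comp
        (F.chart k (FractionRing A) hx).val).codRestrict _ fun z => by
          have h1 : ((Algebra.ofId (FractionRing A)
            (AddMonoidAlgebra (FractionRing A) PUnit.{1})).restrictScalars k)
            ((F.chart k (FractionRing A) hx).val z) =
              AddMonoidAlgebra.single 0 (z : FractionRing A) := rfl
          rw [AlgHom.comp_apply, h1]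
          exact Fam.single_mem_alg.2 ((hmem z).1 z.2)
    have hg : ∀ z, (g z : AddMonoidAlgebra (FractionRing A) PUnit.{1}) =
        AddMonoidAlgebra.single 0 (z : FractionRing A) := fun _ => rfl
    have hbij : Function.Bijective g := by
      constructor
      · intro y z hyz
        have h1 := congrArg
          (fun F : AddMonoidAlgebra (FractionRing A) PUnit.{1} => F.coeff 0)
          (congrArg Subtype.val hyz)
        simp only [hg] at h1
        exact Subtype.ext (by simpa using h1)
      · rintro ⟨F', hF'⟩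
        refine ⟨⟨F'.coeff 0, (hmem _).2 (hF' 0)⟩, Subtype.ext ?_⟩
        rw [hg]
        refine AddMonoidAlgebra.ext (Finsupp.ext fun a => ?_)
        obtain rfl : a = 0 := Subsingleton.elim _ _
        simp
    exact Algebra.FormallySmooth.of_equiv (AlgEquiv.ofBijective g hbij).symm
  have hfinA : Algebra.FiniteType A F.rees := Algebra.FiniteType.of_restrictScalars_finiteType k A _
  obtain ⟨N, hN0, hN⟩ := exists_veronese F hfinA
  refine ⟨F.I N, ?_, ?_, (c : ℤ) * (N : ℤ), ?_⟩
  · obtain ⟨n, hn, x, hx, hx0⟩ := hne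
    intro hbot
    have h1 : x ^ N ∈ F.I (N * n) := F.pow_mem' hx N
    rw [hN n, hbot] at h1
    have h2 : x ^ N ∈ (⊥ : Ideal A) := Ideal.pow_le_self hn.ne' h1
    rw [Ideal.mem_bot] at h2
    exact pow_ne_zero N hx0 h2
  · intro b hb hb0
    have hs := hsmooth N hN0 b hb hb0
    have hmem := IDL.mem_chart_iff (k := k) F N hN hb hb0
    let g : F.chart k (FractionRing A) hb →ₐ[k] chart (F.I N) b :=
      { toFun := fun z => ⟨z.1, (hmem z.1).1 z.2⟩
        map_one' := rfl
        map_mul' := fun _ _ => rfl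
        map_zero' := rfl
        map_add' := fun _ _ => rfl
        commutes' := fun r => Subtype.ext rfl }
    have hg : Function.Bijective g := by
      constructor
      · intro y z hyz
        exact Subtype.ext (congrArg (fun w : chart (F.I N) b => (w : FractionRing A)) hyz)
      · intro z
        exact ⟨⟨z.1, (hmem z.1).2 z.2⟩, rfl⟩
    exact Algebra.FormallySmooth.of_equiv (AlgEquiv.ofBijective g hg)
  · intro x
    rw [Good.mem_idealFam, Fam.comap_s, hfa]

end Pool.Agent.MP_b525bf_ag_E
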