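import Pool.Agent.Lib.MP_b525bf_ag_E.Defs
import Pool.Agent.Lib.LU2G.LogAll

/-!
# Theorem E, row LUA
Recipe: `AllComp.of_defLE hk h : AllComp k V 0`, weaken to `AllComp k V 1` (`CompLE`, `DefLE.mono`),
then `lu_comp hreal K hfin V hk`.
-/

set_option autoImplicit false
set_option linter.unusedVariables false

namespace Pool.Agent.MP_b525bf_ag_E

open Pool.Agent.LU2 Pool.Agent.MP_b525bf_ag Pool.Agent.MP_b525bf_ag_W

variable {k K : Type} [Field k] [Field K] [Algebra k K] {G : Subgroup (K ≃ₐ[k] K)}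
  {A : Subalgebra k K}


theorem lu_of_defLE (hreal : RealCase k) (hfin : Algebra.trdeg k K < Cardinal.aleph0)
    {V : ValuationSubring K} (hk : ∀ c : k, algebraMap k K c ∈ V) (h : DefLE k V 0) : LU k V := by
  refine LU2G.lu_comp hreal K hfin V hk ?_
  intro V₂ V₁ h₂ hc
  obtain ⟨K₁, i₁, i₂, φ, W, hres, hD⟩ := LU2G.AllComp.of_defLE hk h V₂ V₁ h₂ hc
  exact ⟨K₁, i₁, i₂, φ, W, hres, hD.mono (by omega)⟩

end Pool.Agent.MP_b525bf_ag_E
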