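import Pool.Agent.Lib.MP_b525bf_ag_E.AllRows
import Pool.Agent.Lib.MP_b525bf_ag_h52d.Destack
import Pool.Agent.Lib.MP_b525bf_ag_helper30.FinalC
import Pool.Agent.Lib.LU2G.RealTo
import Pool.Agent.Lib.LU2_h15z.Final

/-!
# Theorem E: assembly
-/

set_option autoImplicit false

namespace Pool.Agent.MP_b525bf_ag_E

open Pool.Agent.LU2 Pool.Agent.MP_b525bf_ag Pool.Agent.MP_b525bf_ag_W

variable {k K : Type} [Field k] [Field K] [Algebra k K] {G : Subgroup (K ≃ₐ[k] K)}
  {A : Subalgebra k K}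

/-- The finite atlas. -/
theorem exists_atlas [PerfectField k] [Infinite k] (hreal : RealCase k) (h : Hyp G A)
    (hA : ∀ V : ValuationSubring K, Inv G A V → DefLE k V 0) (hF : FinC G A)
    (hfin : Algebra.trdeg k K < Cardinal.aleph0) :
    ∃ (m : ℕ) (n : Fin m → ℕ) (R : Fin m → Subalgebra k K) (x : ∀ i, Fin (n i) → K),
      (∀ i, Good G A (R i) (x i)) ∧
        ∀ W : ValuationSubring K, Inv G A W → ∃ i, ∀ f ∈ R i, f ∈ W := by
  classical
  have key : ∀ V : ValuationSubring K, Inv G A V → ∃ (n : ℕ) (B : Subalgebra k K)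
      (x : Fin n → K) (E : Finset K), ChartAt G A V B x ∧ (∀ e ∈ E, e ∈ V) ∧
        ∀ W : ValuationSubring K, Inv G A W → (∀ e ∈ E, e ∈ W) → ∀ f ∈ locV V B, f ∈ W := by
    intro V hV
    have hk : ∀ c : k, algebraMap k K c ∈ V := fun c => hV.le _ (A.algebraMap_mem c)
    obtain ⟨B, hBfg, hAB, hBV, n, z, hz, hind⟩ :=
      exists_isPar (lu_of_defLE hreal hfin hk (hA V hV)) (hA V hV) h.fg hV.le h.frac
    obtain ⟨B', hBB, -, hloc⟩ := exists_loc hBfg hBV hz
    obtain ⟨B'', x, hc⟩ := exists_chartAt h hV hloc (hAB.trans hBB) hind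
    obtain ⟨E, hE, hEW⟩ := hc.nbhd hF hV
    exact ⟨n, B'', x, E, hc, hE, hEW⟩
  choose! n B x E hc hE hEW using key
  obtain ⟨m, V, hV, hcov⟩ := exists_cover (G := G) (A := A) E hE
  refine ⟨m, fun i => n (V i), fun i => locV (V i) (B (V i)), fun i => x (V i),
    fun i => (hc _ (hV i)).good h hF, fun W hW => ?_⟩
  obtain ⟨i, hi⟩ := hcov W hW
  exact ⟨i, hEW _ (hV i) W hW hi⟩

/-- The smooth multigraded family. -/
theorem exists_stk (h : Hyp G A) {m : ℕ} {n : Fin m → ℕ} {R : Fin m → Subalgebra k K}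
    {x : ∀ i, Fin (n i) → K} (hR : ∀ i, Good G A (R i) (x i))
    (hcov : ∀ W : ValuationSubring K, Inv G A W → ∃ i, ∀ f ∈ R i, f ∈ W) :
    ∃ (N m : ℕ) (M : Fam k K (Ix N m)) (a : Ix N m), Stk M a ∧
      M.s 0 = Subalgebra.toSubmodule A ∧ (∀ d, M.s d ≤ Subalgebra.toSubmodule A) ∧ FStab G M := by
  obtain ⟨N, f, D, hD, hf, hf0, had⟩ := exists_adapt h hR
  obtain ⟨m', u, θ, hC⟩ := exists_comb D hD
  refine ⟨N, m', EF G A f u, amp N θ, ?_, EF_zero h hf, EF_le h hf, EF_stab h⟩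
  refine ⟨EF_fg h hf, ?_, ?_, EF_neg hC, ⟨1, one_pos, ?_⟩, fun d => ⟨0, ?_, ?_⟩⟩
  · refine smooth_of_stab h.idx (EF_fg h hf) (EF_stab h) ?_
    intro Q _ hQ hst
    have hQ' := semiD h hf hf0 hC Q hQ
    have hU := hQ'.isU_f h hf hst
    obtain ⟨W, hWi, hW⟩ := exists_dom h (zeroSub (atP (EF G A f u) Q)) (by
      intro a ha
      exact le_atP _ _ _ (by rw [EF_zero h hf]; exact ha))
      (zeroSub_stab (EF_stab h) Q hst) (isLocalRing_zeroSub Q)
    obtain ⟨i, hi⟩ := hcov W hWi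
    obtain ⟨C, h1, h2, h3, h4⟩ := hQ'.exists_chart h hf hf0 hU hWi hW (hR i) hi (had i)
    exact exists_smooth_loc Q C h1 h2 h3 h4
  · obtain ⟨w, hw, hidx⟩ := EF_idx (u := u) (D := D) h hf
    exact ⟨w, hw, fun Q _ hQ => hidx Q (semiD h hf hf0 hC Q hQ)⟩
  · exact EF_ne hC hf0 _
  · exact EF_ne hC hf0 _
  · exact EF_ne hC hf0 _

/-- The theorem, on the level of fields. -/
theorem hasResolution_of_hyp [PerfectField k] [Infinite k] (hreal : RealCase k) (h : Hyp G A)
    (hA : ∀ V : ValuationSubring K, Inv G A V → DefLE k V 0) (hF : FinC G A)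
    (hfin : Algebra.trdeg k K < Cardinal.aleph0) (A₀ : Type) [CommRing A₀] [IsDomain A₀]
    [Algebra k A₀] [Algebra A₀ K] [IsScalarTower k A₀ K]
    (hinj : Function.Injective (algebraMap A₀ K))
    (h₀ : ∀ z : K, z ∈ A ↔ ∃ x : A₀, algebraMap A₀ K x = z) : HasResolution k A₀ := by
  obtain ⟨m, n, R, x, hR, hcov⟩ := exists_atlas hreal h hA hF hfin
  obtain ⟨N, m', M, a, hM, h0, -, -⟩ := exists_stk h hR hcov
  obtain ⟨M', hM', h0'⟩ := destack M a hM.fg hM.smooth hM.idx hM.neg hM.nontriv hM.gen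
  refine hasResolution_of_goodC_one k A₀ K hinj M' hM' fun z => ?_
  rw [h0', h0]
  exact h₀ z

/-- The final theorem. -/
theorem hasResolution_of_group (p : ℕ) [Fact p.Prime] (k : Type) [Field k] [PerfectField k]
    [Infinite k] [CharP k p] (A : Type) [CommRing A] [IsDomain A] [Algebra k A]
    [Algebra.FiniteType k A] (G : Subgroup (A ≃ₐ[k] A))
    (hG : ∀ H : Subgroup G, H.FiniteIndex → H = ⊤) (hA : AllAbhyankar G)
    (hF : ∀ I : Ideal A, I ≠ ⊥ → (∀ g ∈ G, ∀ a ∈ I, g a ∈ I) → (invariantCenters G I).Finite) :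
    HasResolution k A := by
  have hfin : Algebra.trdeg k (FractionRing A) < Cardinal.aleph0 := by
    have h1 : Algebra.EssFiniteType A (FractionRing A) :=
      Algebra.EssFiniteType.of_isLocalization _ (nonZeroDivisors A)
    have h2 : Algebra.EssFiniteType k (FractionRing A) :=
      Algebra.EssFiniteType.comp k A (FractionRing A)
    exact trdeg_lt_aleph0 k (FractionRing A)
  refine hasResolution_of_hyp (G := liftG G) (A := rangeA k A)
    (realCaseR p Fact.out).realCase (hyp_liftG G hG) (defLE_of_inv G hA) (finC_of_centers G hF) hfin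
    A (IsFractionRing.injective A (FractionRing A)) fun z => ?_
  exact Iff.rfl

end Pool.Agent.MP_b525bf_ag_E
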