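import Pool.Agent.Lib.MP_b525bf_ag_E.PDefs

/-!
# Theorem E, projective part, row PIN: the projective scheme

Recipe. `isIntegral_proj`: compare `isIntegral_bl` (`MP_b525bf_ag/Proj.lean`) and `isIntegral_proj` in
`MP_b525bf_ag_h42/Resolve.lean`: irreducible since the nonempty opens all contain the point of the zero ideal
(`⊥` is a homogeneous prime that does not contain the irrelevant ideal), reduced since the stalks are
(subrings of localizations of the domain `A`); or cover by `D₊(f)`, `f ≠ 0` homogeneous of positive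
degree, with `Away 𝒜 f` a domain. `finiteType_away`: `Away 𝒜 f` is generated over `k` by the `a_i / f ^ (m_i)`,
`a_i` homogeneous generators of `A` (Mathlib has `Away.finiteType` or similar over `𝒜 0`; `𝒜 0` is a quotient of
`A`). `isLocallyNoetherian_proj`: `Away 𝒜 f` is Noetherian. `exists_cover_proj`: a finite spanning family of
nonzero vectors of `𝒜 1` (finite dimensional, or: finitely many elements of `𝒜 1` whose `k`-algebra
contains the finitely many generators of `A`), `Proj.iSup_basicOpen_eq_top'`.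
-/

set_option autoImplicit false
set_option linter.unusedVariables false

namespace Pool.Agent.MP_b525bf_ag_E

open Pool.Agent.LU2 Pool.Agent.MP_b525bf_ag

open AlgebraicGeometry CategoryTheory HomogeneousLocalization

variable {k A : Type} [Field k] [CommRing A] [IsDomain A] [Algebra k A]
  (𝒜 : ℕ → Submodule k A) [GradedAlgebra 𝒜]

namespace PIN

/-- the generic point -/
noncomputable def genPt {f : A} (hf : f ∈ 𝒜 1) (hf0 : f ≠ 0) : ProjectiveSpectrum 𝒜 where
  asHomogeneousIdeal := ⊥
  isPrime := by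
    rw [HomogeneousIdeal.toIdeal_bot]
    exact Ideal.isPrime_bot
  not_irrelevant_le := by
    intro h
    have h1 : f ∈ (HomogeneousIdeal.irrelevant 𝒜) := by
      rw [HomogeneousIdeal.mem_irrelevant_iff, GradedRing.proj_apply,
        DirectSum.decompose_of_mem_ne 𝒜 hf one_ne_zero]
    have h2 := h h1
    rw [← HomogeneousIdeal.mem_iff, HomogeneousIdeal.toIdeal_bot, Ideal.mem_bot] at h2
    exact hf0 h2

theorem finiteType_zero [Algebra.FiniteType k A] : Algebra.FiniteType k (𝒜 0) := by
  let π : A →ₐ[k] (𝒜 0) :=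
    { GradedRing.projZeroRingHom' 𝒜 with
      commutes' := fun c => by
        have h := GradedRing.projZeroRingHom'_apply_coe 𝒜 (algebraMap k (𝒜 0) c)
        exact h }
  exact Algebra.FiniteType.of_surjective π (GradedRing.projZeroRingHom'_surjective 𝒜)

theorem tower_zero :
    @IsScalarTower k (𝒜 0) A Algebra.toSMul Algebra.toSMul Algebra.toSMul :=
  IsScalarTower.of_algebraMap_eq fun _ => rfl

theorem finiteType_over_zero [Algebra.FiniteType k A] : Algebra.FiniteType (𝒜 0) A :=
  have := tower_zero (k := k) 𝒜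
  Algebra.FiniteType.of_restrictScalars_finiteType k (𝒜 0) A

theorem exists_finset {S : Set A} {x : A} (hx : x ∈ Algebra.adjoin k S) :
    ∃ t : Finset A, (t : Set A) ⊆ S ∧ x ∈ Algebra.adjoin k (t : Set A) := by
  classical
  induction hx using Algebra.adjoin_induction with
  | mem x hx => exact ⟨{x}, by simpa using hx, Algebra.subset_adjoin (by simp)⟩
  | algebraMap r => exact ⟨∅, by simp, Subalgebra.algebraMap_mem _ _⟩
  | add x y hx hy h1 h2 =>
    obtain ⟨t1, a1, b1⟩ := h1
    obtain ⟨t2, a2, b2⟩ := h2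
    refine ⟨t1 ∪ t2, by rw [Finset.coe_union]; exact Set.union_subset a1 a2, ?_⟩
    exact add_mem (Algebra.adjoin_mono (by simp) b1) (Algebra.adjoin_mono (by simp) b2)
  | mul x y hx hy h1 h2 =>
    obtain ⟨t1, a1, b1⟩ := h1
    obtain ⟨t2, a2, b2⟩ := h2
    refine ⟨t1 ∪ t2, by rw [Finset.coe_union]; exact Set.union_subset a1 a2, ?_⟩
    exact mul_mem (Algebra.adjoin_mono (by simp) b1) (Algebra.adjoin_mono (by simp) b2)

theorem exists_gens [Algebra.FiniteType k A] {S : Set A} (hS : Algebra.adjoin k S = ⊤) :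
    ∃ t : Finset A, (t : Set A) ⊆ S ∧ Algebra.adjoin k (t : Set A) = ⊤ := by
  classical
  obtain ⟨s, hs⟩ := (Algebra.FiniteType.out : (⊤ : Subalgebra k A).FG)
  have h1 : ∀ x : A, ∃ t : Finset A, (t : Set A) ⊆ S ∧ x ∈ Algebra.adjoin k (t : Set A) :=
    fun x => exists_finset (by rw [hS]; trivial)
  choose t ht1 ht2 using h1
  refine ⟨s.biUnion t, ?_, ?_⟩
  · intro x hx
    simp only [Finset.coe_biUnion, Set.mem_iUnion] at hx
    obtain ⟨y, _, hy⟩ := hx
    exact ht1 y hy
  · rw [eq_top_iff, ← hs, Algebra.adjoin_le_iff]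
    intro x hx
    refine Algebra.adjoin_mono ?_ (ht2 x)
    intro y hy
    simp only [Finset.coe_biUnion, Set.mem_iUnion]
    exact ⟨x, hx, hy⟩

end PIN

/-- row PIN -/
theorem isIntegral_proj {f : A} (hf : f ∈ 𝒜 1) (hf0 : f ≠ 0) : IsIntegral (Proj 𝒜) := by
  rw [isIntegral_iff_irreducibleSpace_and_isReduced]
  constructor
  · have hη : ∀ U : Set (Proj 𝒜), IsOpen U → U.Nonempty → (PIN.genPt 𝒜 hf hf0 : Proj 𝒜) ∈ U := by
      rintro U hU ⟨x, hx⟩
      obtain ⟨_, ⟨f, rfl⟩, hxf, hfU⟩ :=
        (ProjectiveSpectrum.isTopologicalBasis_basic_opens 𝒜).exists_subset_of_mem_open hx hU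
      apply hfU
      change f ∉ (⊥ : HomogeneousIdeal 𝒜)
      rw [← HomogeneousIdeal.mem_iff, HomogeneousIdeal.toIdeal_bot, Ideal.mem_bot]
      rintro rfl
      exact hxf (Ideal.zero_mem _)
    have : PreirreducibleSpace (Proj 𝒜) := ⟨by
      intro U V hU hV h1 h2
      simp only [Set.univ_inter] at h1 h2 ⊢
      exact ⟨_, hη U hU h1, hη V hV h2⟩⟩
    exact { toNonempty := ⟨PIN.genPt 𝒜 hf hf0⟩ }
  · have : ∀ x : Proj 𝒜, _root_.IsReduced ((Proj 𝒜).presheaf.stalk x) := by
      intro x
      have hxp : x.asHomogeneousIdeal.toIdeal.IsPrime := x.isPrime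
      have h1 : _root_.IsReduced (AtPrime 𝒜 x.asHomogeneousIdeal.toIdeal) := by
        have : IsDomain (Localization.AtPrime x.asHomogeneousIdeal.toIdeal) :=
          IsLocalization.isDomain_localization (Ideal.primeCompl_le_nonZeroDivisors _)
        let f : AtPrime 𝒜 x.asHomogeneousIdeal.toIdeal →+*
          Localization.AtPrime x.asHomogeneousIdeal.toIdeal := algebraMap _ _
        refine isReduced_of_injective f ?_
        intro a b hab
        exact HomogeneousLocalization.val_injective _ hab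
      exact isReduced_of_injective (Proj.stalkIso 𝒜 x).commRingCatIsoToRingEquiv
        (Proj.stalkIso 𝒜 x).commRingCatIsoToRingEquiv.injective
    exact isReduced_of_isReduced_stalk _

/-- row PIN -/
theorem finiteType_away [Algebra.FiniteType k A] {f : A} (hf : f ∈ 𝒜 1) :
    ((fromZeroRingHom 𝒜 (Submonoid.powers f)).comp (algebraMap k (𝒜 0))).FiniteType := by
  have h1 := PIN.finiteType_zero (k := k) 𝒜
  have h2 := PIN.finiteType_over_zero (k := k) 𝒜
  have h3 : Algebra.FiniteType (𝒜 0) (Away 𝒜 f) := Away.finiteType f 1 hf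
  have h4 : (algebraMap (𝒜 0) (Away 𝒜 f)).FiniteType :=
    RingHom.finiteType_algebraMap.2 h3
  have h5 : (algebraMap k (𝒜 0)).FiniteType := RingHom.finiteType_algebraMap.2 h1
  exact RingHom.FiniteType.comp h4 h5

/-- row PIN -/
theorem isLocallyNoetherian_proj [Algebra.FiniteType k A]
    (hgen : Algebra.adjoin k (𝒜 1 : Set A) = ⊤) : IsLocallyNoetherian (Proj 𝒜) := by
  have h1 := PIN.finiteType_zero (k := k) 𝒜
  have h2 := PIN.finiteType_over_zero (k := k) 𝒜
  have h3 : IsNoetherianRing (𝒜 0) := Algebra.FiniteType.isNoetherianRing k _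
  have h4 : IsLocallyNoetherian (Spec (CommRingCat.of (𝒜 0))) := by
    rw [isLocallyNoetherian_Spec]
    exact h3
  exact LocallyOfFiniteType.isLocallyNoetherian (Proj.toSpecZero 𝒜)

/-- row PIN -/
theorem exists_cover_proj [Algebra.FiniteType k A]
    (hgen : Algebra.adjoin k (𝒜 1 : Set A) = ⊤) :
    ∃ (r : ℕ) (f : Fin r → A), (∀ i, f i ∈ 𝒜 1) ∧ (∀ i, f i ≠ 0) ∧
      ⨆ i, Proj.basicOpen 𝒜 (f i) = ⊤ := by
  classical
  obtain ⟨t, ht1, ht2⟩ := PIN.exists_gens hgen
  let s : Finset A := t.erase 0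
  let e := s.equivFin.symm
  refine ⟨s.card, fun i => (e i : A), ?_, ?_, ?_⟩
  · intro i
    exact ht1 (Finset.mem_of_mem_erase (e i).2)
  · intro i
    exact Finset.ne_of_mem_erase (e i).2
  · refine Proj.iSup_basicOpen_eq_top' 𝒜 _ (fun i => ⟨1, ht1 (Finset.mem_of_mem_erase (e i).2)⟩) ?_
    have hr : Set.range (fun i => (e i : A)) = (s : Set A) := by
      ext x
      constructor
      · rintro ⟨i, rfl⟩
        exact (e i).2
      · intro hx
        exact ⟨e.symm ⟨x, hx⟩, by simp⟩
    rw [hr]
    have h1 : Algebra.adjoin k (s : Set A) = ⊤ := by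
      rw [eq_top_iff, ← ht2, Algebra.adjoin_le_iff]
      intro x hx
      by_cases hx0 : x = 0
      · rw [hx0]
        exact zero_mem _
      · exact Algebra.subset_adjoin (Finset.mem_erase.2 ⟨hx0, hx⟩)
    have htower := PIN.tower_zero (k := k) 𝒜
    rw [eq_top_iff]
    intro x _
    have hx : x ∈ Algebra.adjoin k (s : Set A) := by rw [h1]; trivial
    have h2 : Algebra.adjoin k (s : Set A) ≤
        (Algebra.adjoin (𝒜 0) (s : Set A)).restrictScalars k := by
      rw [Algebra.adjoin_le_iff]
      exact Algebra.subset_adjoin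
    exact h2 hx

end Pool.Agent.MP_b525bf_ag_E
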