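import Pool.Agent.Lib.MP_b525bf_ag_E.PDefs

/-!
# Theorem E, projective part, row SBL: the blowing up is smooth if its charts are

Recipe. The proof is a part of the proof of `hasResolution_of_idealFam` (`MP_b525bf_ag/Proj.lean`, the bullet
after `refine ⟨F.Bl, F.blMap, ...`), with `F := powFam J`; there the cover is by all `(n, x)`, here the charts of
degree one cover: `F.I n = J ^ n`, so a homogeneous prime that contains all `F.mono 1 x hx`, `x ∈ J`,
contains all `F.mono n x hx`, `n > 0` (compare `LU1G/Chart.lean`, `blow_chart`, and `hasResolution_of_charts` in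
`MP_b525bf_ag_h42/Resolve.lean`).
-/

set_option autoImplicit false
set_option linter.unusedVariables false

namespace Pool.Agent.MP_b525bf_ag_E

open Pool.Agent.LU2 Pool.Agent.MP_b525bf_ag

open AlgebraicGeometry CategoryTheory
open Pool.Agent.LU1G (powFam)

namespace SBL

open HomogeneousLocalization

variable {R : Type} [CommRing R] (J : Ideal R)

private lemma mono_mem_of_all (P : Ideal (powFam J).rees)
    (hP : ∀ (x : R) (hx : x ∈ (powFam J).I 1), (powFam J).mono 1 x hx ∈ P) (n : ℕ) :
    ∀ (a : R) (ha : a ∈ (powFam J).I (n + 1)), (powFam J).mono (n + 1) a ha ∈ P := by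
  induction n with
  | zero =>
    intro a ha
    exact hP a ha
  | succ n ih =>
    have key : ∀ a ∈ J ^ (n + 1) * J, ∃ ha : a ∈ (powFam J).I (n + 1 + 1),
        (powFam J).mono (n + 1 + 1) a ha ∈ P := by
      intro a h
      refine Submodule.mul_induction_on h ?_ ?_
      · intro b hb c hc
        have hc' : c ∈ (powFam J).I 1 := by
          change c ∈ J ^ 1
          rwa [pow_one]
        have ha : b * c ∈ (powFam J).I (n + 1 + 1) := by
          change b * c ∈ J ^ (n + 1 + 1)
          rw [pow_succ J (n + 1)]
          exact Ideal.mul_mem_mul hb hc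
        refine ⟨ha, ?_⟩
        have h1 : (powFam J).mono (n + 1 + 1) (b * c) ha =
            (powFam J).mono (n + 1) b hb * (powFam J).mono 1 c hc' := by
          apply Subtype.ext
          change Polynomial.monomial (n + 1 + 1) (b * c) =
            Polynomial.monomial (n + 1) b * Polynomial.monomial 1 c
          rw [Polynomial.monomial_mul_monomial]
        rw [h1]
        exact P.mul_mem_left _ (hP c hc')
      · rintro b c ⟨hb, hb'⟩ ⟨hc, hc'⟩
        refine ⟨Ideal.add_mem _ hb hc, ?_⟩
        have h1 : (powFam J).mono (n + 1 + 1) (b + c) (Ideal.add_mem _ hb hc) =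
            (powFam J).mono (n + 1 + 1) b hb + (powFam J).mono (n + 1 + 1) c hc := by
          apply Subtype.ext
          change Polynomial.monomial (n + 1 + 1) (b + c) =
            Polynomial.monomial (n + 1 + 1) b + Polynomial.monomial (n + 1 + 1) c
          rw [map_add]
        rw [h1]
        exact P.add_mem hb' hc'
    intro a ha
    have h2 : a ∈ J ^ (n + 1) * J := by
      rw [← pow_succ]
      exact ha
    obtain ⟨_, h⟩ := key a h2
    exact h

private lemma exists_mono_one (z : Proj (powFam J).grade) :
    ∃ (a : R) (ha : a ∈ (powFam J).I 1),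
    a ≠ 0 ∧ z ∈ Proj.basicOpen (powFam J).grade ((powFam J).mono 1 a ha) := by
  by_contra hcon
  push Not at hcon
  obtain ⟨n, hn, b, hb, hb0, hz⟩ := (powFam J).exists_mono z
  rw [Proj.mem_basicOpen] at hz
  obtain ⟨m, rfl⟩ : ∃ m, n = m + 1 := ⟨n - 1, by omega⟩
  have h1 := mono_mem_of_all J z.asHomogeneousIdeal.toIdeal (fun x hx => by
    by_cases hx0 : x = 0
    · have h3 : (powFam J).mono 1 x hx = 0 := by
        apply Subtype.ext
        rw [IdealFam.mono_coe, hx0, map_zero]
        rfl
      rw [h3]
      exact Ideal.zero_mem _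
    · have h4 := hcon x hx hx0
      rw [Proj.mem_basicOpen] at h4
      by_contra h5
      exact h4 h5) m b hb
  exact hz h1

end SBL

open HomogeneousLocalization

/-- row SBL -/
theorem smooth_blMap (k R K : Type) [Field k] [CommRing R] [IsDomain R] [Algebra k R]
    [Algebra.FiniteType k R] [Field K] [Algebra R K] [Algebra k K] [IsScalarTower k R K]
    (hinj : Function.Injective (algebraMap R K)) (J : Ideal R)
    (hsm : ∀ (x : R) (hx : x ∈ (powFam J).I 1), x ≠ 0 →
      Algebra.FormallySmooth k ((powFam J).chart k K hx)) :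
    Smooth ((powFam J).blMap ≫ Spec.map (CommRingCat.ofHom (algebraMap k R))) := by
  have hnoeth : IsNoetherianRing R := Algebra.FiniteType.isNoetherianRing k R
  have hprop : IsProper (powFam J).blMap :=
    (powFam J).isProper_blMap (LU1G.powFam_fg J (IsNoetherian.noetherian J))
  have hAk : Algebra.FiniteType k R := inferInstance
  set F : IdealFam R := powFam J with hF
  let ι := {p : R // p ∈ F.I 1 ∧ p ≠ 0}
  have hcov : ⨆ i : ι, (Proj.basicOpen F.grade (F.mono 1 i.1 i.2.1) : F.Bl.Opens) = ⊤ := by
    rw [eq_top_iff]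
    rintro z -
    obtain ⟨b, hb, hb0, hj⟩ := SBL.exists_mono_one J z
    exact TopologicalSpace.Opens.mem_iSup.mpr ⟨⟨b, hb, hb0⟩, hj⟩
  refine (IsZariskiLocalAtSource.iff_of_iSup_eq_top (P := @AlgebraicGeometry.Smooth)
    (X := F.Bl) _ hcov).mpr ?_
  rintro ⟨b, hb, hb0⟩
  have hm : 0 < 1 := Nat.one_pos
  have hK0 : algebraMap R K b ≠ 0 := fun h => hb0 (hinj (by rw [h, map_zero]))
  have hform := hsm b hb hb0
  -- the chart ring
  let ψ : Away F.grade (F.mono 1 b hb) →+* F.chart k K hb :=
    (F.psi hb hK0).codRestrict (F.chart k K hb) (fun z => F.psi_mem_chart hb hK0 z)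
  have hψ : Function.Bijective ψ := by
    constructor
    · intro y z hyz
      apply F.psi_injective hb hinj hK0
      exact congrArg Subtype.val hyz
    · rintro ⟨z, hz⟩
      obtain ⟨w, hw⟩ := F.exists_psi hb hK0 hz
      exact ⟨w, Subtype.ext hw⟩
  let e := RingEquiv.ofBijective ψ hψ
  have hcomm : ψ.comp ((F.chartHom hb).comp (algebraMap k R)) =
      algebraMap k (F.chart k K hb) := by
    refine RingHom.ext fun c => ?_
    apply Subtype.ext
    change F.psi hb hK0 (F.chartHom hb (algebraMap k R c)) = algebraMap k K c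
    rw [LU1G.psi_chartHom F hb hK0, ← IsScalarTower.algebraMap_apply k R K]
  have hft : ((F.chartHom hb).comp (algebraMap k R)).FiniteType := by
    have h1 : LocallyOfFiniteType (F.chartι hm hb ≫ F.blMap ≫
      Spec.map (CommRingCat.ofHom (algebraMap k R))) := by
      have h2 : LocallyOfFiniteType (Spec.map (CommRingCat.ofHom (algebraMap k R))) := by
        rw [HasRingHomProperty.Spec_iff (P := @LocallyOfFiniteType)]
        exact RingHom.finiteType_algebraMap.mpr hAk
      have h3 : LocallyOfFiniteType F.blMap := inferInstance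
      infer_instance
    rw [← Category.assoc, F.chartι_comp, ← Spec.map_comp, HasRingHomProperty.Spec_iff
      (P := @LocallyOfFiniteType)] at h1
    exact h1
  have hftc : Algebra.FiniteType k (F.chart k K hb) := by
    rw [← RingHom.finiteType_algebraMap, ← hcomm]
    exact hft.comp_surjective hψ.2
  have hsmc : Algebra.Smooth k (F.chart k K hb) :=
    { formallySmooth := hform
      finitePresentation := Algebra.FinitePresentation.of_finiteType.mp hftc }
  have key : AlgebraicGeometry.Smooth (F.chartι hm hb ≫ F.blMap ≫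
      Spec.map (CommRingCat.ofHom (algebraMap k R))) := by
    rw [← Category.assoc, F.chartι_comp, ← Spec.map_comp, HasRingHomProperty.Spec_iff
      (P := @AlgebraicGeometry.Smooth)]
    have h1 : (CommRingCat.ofHom (algebraMap k R) ≫ CommRingCat.ofHom (F.chartHom hb)).hom =
        (e.symm.toRingHom).comp (algebraMap k (F.chart k K hb)) := by
      rw [← hcomm]
      refine RingHom.ext fun z => ?_
      change F.chartHom hb (algebraMap k R z) = e.symm (e (F.chartHom hb (algebraMap k R z)))
      rw [RingEquiv.symm_apply_apply]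
    rw [h1]
    have h2 : RingHom.Smooth (algebraMap k (F.chart k K hb)) := RingHom.smooth_algebraMap.mpr hsmc
    exact RingHom.Smooth.respectsIso.1 _ e.symm h2
  have h3 : (Proj.basicOpenIsoSpec F.grade (F.mono 1 b hb) (F.mono_mem 1 b hb) hm).hom ≫
      F.chartι hm hb = (Proj.basicOpen F.grade (F.mono 1 b hb)).ι := by
    change (Proj.basicOpenIsoSpec F.grade (F.mono 1 b hb) (F.mono_mem 1 b hb) hm).hom ≫
      Proj.awayι F.grade (F.mono 1 b hb) (F.mono_mem 1 b hb) hm = _
    rw [← Proj.basicOpenIsoSpec_inv_ι, Iso.hom_inv_id_assoc]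
  have h4 : AlgebraicGeometry.Smooth ((Proj.basicOpenIsoSpec F.grade (F.mono 1 b hb)
      (F.mono_mem 1 b hb) hm).hom ≫ (F.chartι hm hb ≫ F.blMap ≫
      Spec.map (CommRingCat.ofHom (algebraMap k R)))) :=
    MorphismProperty.comp_mem (W := @AlgebraicGeometry.Smooth) _ _ inferInstance key
  rw [← Category.assoc, h3] at h4
  exact h4

end Pool.Agent.MP_b525bf_ag_E
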