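import Pool.Agent.Lib.MP_b525bf_ag_E.SHF
import Pool.Agent.Lib.MP_b525bf_ag_E.SBL
import Pool.Agent.Lib.MP_b525bf_ag_E.CHS
import Pool.Agent.Lib.MP_b525bf_ag_E.PIN

/-!
# Theorem E, projective part, row PAS: the assembly of the projective part
-/

set_option autoImplicit false
set_option linter.unusedSectionVars false

namespace Pool.Agent.MP_b525bf_ag_E

open Pool.Agent.LU2 Pool.Agent.MP_b525bf_ag

open AlgebraicGeometry CategoryTheory HomogeneousLocalization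
open Pool.Agent.LU1G (powFam restrict_eq gens chart_eq)
open Pool.Agent.LU2G

variable {k A : Type} [Field k] [CommRing A] [IsDomain A] [Algebra k A]
  (𝒜 : ℕ → Submodule k A) [GradedAlgebra 𝒜]

namespace PAS

theorem toFrac_zero {f : A} (hf0 : f ≠ 0) (c : 𝒜 0) :
    toFrac 𝒜 hf0 (fromZeroRingHom 𝒜 (Submonoid.powers f) c) =
      algebraMap A (FractionRing A) c := by
  rw [toFrac, RingHom.comp_apply]
  have h1 : algebraMap (Away 𝒜 f) (Localization.Away f)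
      (fromZeroRingHom 𝒜 (Submonoid.powers f) c) = algebraMap A (Localization.Away f) c := by
    rw [← algebraMap_eq, ← IsScalarTower.algebraMap_apply]
    rfl
  rw [h1, IsLocalization.Away.lift_eq]

/-- The open set `D₊(f)`. -/
noncomputable def UU {f : A} (hf : f ∈ 𝒜 1) : (Proj 𝒜).AffineZariskiSite :=
  ⟨Proj.basicOpen 𝒜 f, Proj.isAffineOpen_basicOpen 𝒜 f hf one_pos⟩

theorem isIso_awayToSection {f : A} (hf : f ∈ 𝒜 1) : IsIso (Proj.awayToSection 𝒜 f) := by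
  rw [← Proj.basicOpenIsoAway_hom 𝒜 f hf one_pos]
  infer_instance

theorem fromSpec_eq {f : A} (hf : f ∈ 𝒜 1) :
    (Proj.isAffineOpen_basicOpen 𝒜 f hf one_pos).fromSpec =
      Spec.map (Proj.awayToSection 𝒜 f) ≫ Proj.awayι 𝒜 f hf one_pos := by
  have h1 : (Proj.isAffineOpen_basicOpen 𝒜 f hf one_pos).isoSpec.hom ≫
      Spec.map (Proj.awayToSection 𝒜 f) = (Proj.basicOpenIsoSpec 𝒜 f hf one_pos).hom := by
    rw [Proj.basicOpenIsoSpec_hom, Proj.basicOpenToSpec]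
    rfl
  rw [← cancel_epi (Proj.isAffineOpen_basicOpen 𝒜 f hf one_pos).isoSpec.hom, ← Category.assoc, h1,
    IsAffineOpen.isoSpec_hom_fromSpec, Proj.awayι, Iso.hom_inv_id_assoc]

theorem fromSpec_projTo {f : A} (hf : f ∈ 𝒜 1) :
    (Proj.isAffineOpen_basicOpen 𝒜 f hf one_pos).fromSpec ≫ projTo 𝒜 = Spec.map (CommRingCat.ofHom
      ((Proj.awayToSection 𝒜 f).hom.comp ((fromZeroRingHom 𝒜 (Submonoid.powers f)).comp
        (algebraMap k (𝒜 0))))) := by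
  rw [fromSpec_eq 𝒜 hf, projTo, Category.assoc, Proj.awayι_toSpecZero_assoc, ← Spec.map_comp,
    ← Spec.map_comp]
  rfl

/-- The smoothness over one open set. -/
theorem smooth_one [Algebra.FiniteType k A] {I : Ideal A} (hI : I.IsHomogeneous 𝒜)
    (hsm : ∀ b ∈ I, b ≠ 0 → Algebra.FormallySmooth k (chart I b)) {f : A} (hf : f ∈ 𝒜 1)
    (hf0 : f ≠ 0) (J : Ideal Γ(Proj 𝒜, Proj.basicOpen 𝒜 f))
    (hJ : J.comap (Proj.awayToSection 𝒜 f).hom = awayIdeal 𝒜 I f) :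
    Smooth ((powFam J).blMap ≫ Spec.map (CommRingCat.ofHom
      ((Proj.awayToSection 𝒜 f).hom.comp ((fromZeroRingHom 𝒜 (Submonoid.powers f)).comp
        (algebraMap k (𝒜 0)))))) := by
  have hiso := isIso_awayToSection 𝒜 hf
  have hbij : Function.Bijective (Proj.awayToSection 𝒜 f).hom :=
    ConcreteCategory.bijective_of_isIso (Proj.awayToSection 𝒜 f)
  let e : Away 𝒜 f ≃+* Γ(Proj 𝒜, Proj.basicOpen 𝒜 f) := RingEquiv.ofBijective _ hbij
  have he : ∀ z, e z = (Proj.awayToSection 𝒜 f).hom z := fun _ => rfl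
  let ρ : k →+* Γ(Proj 𝒜, Proj.basicOpen 𝒜 f) := (Proj.awayToSection 𝒜 f).hom.comp
    ((fromZeroRingHom 𝒜 (Submonoid.powers f)).comp (algebraMap k (𝒜 0)))
  let _ : Algebra k Γ(Proj 𝒜, Proj.basicOpen 𝒜 f) := ρ.toAlgebra
  let _ : Algebra Γ(Proj 𝒜, Proj.basicOpen 𝒜 f) (FractionRing A) :=
    ((toFrac 𝒜 hf0).comp e.symm.toRingHom).toAlgebra
  have halg : ∀ z, algebraMap Γ(Proj 𝒜, Proj.basicOpen 𝒜 f) (FractionRing A) z =
    toFrac 𝒜 hf0 (e.symm z) := fun _ => rfl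
  have hinj : Function.Injective
      (algebraMap Γ(Proj 𝒜, Proj.basicOpen 𝒜 f) (FractionRing A)) :=
    (toFrac_injective 𝒜 hf0).comp e.symm.injective
  have htow : IsScalarTower k Γ(Proj 𝒜, Proj.basicOpen 𝒜 f) (FractionRing A) := by
    refine IsScalarTower.of_algebraMap_eq fun c => ?_
    have h1 : algebraMap k Γ(Proj 𝒜, Proj.basicOpen 𝒜 f) c =
        e (fromZeroRingHom 𝒜 (Submonoid.powers f) (algebraMap k (𝒜 0) c)) := rfl
    rw [halg, h1, RingEquiv.symm_apply_apply, toFrac_zero,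
      IsScalarTower.algebraMap_apply k A (FractionRing A)]
    rfl
  have hdom : IsDomain Γ(Proj 𝒜, Proj.basicOpen 𝒜 f) :=
    hinj.isDomain (algebraMap Γ(Proj 𝒜, Proj.basicOpen 𝒜 f) (FractionRing A))
  have hft : Algebra.FiniteType k Γ(Proj 𝒜, Proj.basicOpen 𝒜 f) := by
    rw [← RingHom.finiteType_algebraMap]
    exact (finiteType_away 𝒜 hf).comp_surjective hbij.2
  refine smooth_blMap k Γ(Proj 𝒜, Proj.basicOpen 𝒜 f) (FractionRing A) hinj J ?_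
  intro x hx hx0
  have hxJ : x ∈ J := by
    have h1 : x ∈ J ^ 1 := hx
    rwa [pow_one] at h1
  have hmem : ∀ y, y ∈ J ↔ e.symm y ∈ awayIdeal 𝒜 I f := by
    intro y
    rw [← hJ, Ideal.mem_comap, ← he, RingEquiv.apply_symm_apply]
  have hx1 : algebraMap Γ(Proj 𝒜, Proj.basicOpen 𝒜 f) (FractionRing A) x ≠ 0 := fun h =>
    hx0 (hinj (by rw [h, map_zero]))
  rw [chart_eq J hx hx1]
  obtain ⟨n, b, hb, hbI, hxb⟩ := (mem_awayIdeal 𝒜 hf _).1 ((hmem x).1 hxJ)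
  have hxK : algebraMap Γ(Proj 𝒜, Proj.basicOpen 𝒜 f) (FractionRing A) x =
      algebraMap A (FractionRing A) b / algebraMap A (FractionRing A) f ^ n := by
    rw [halg, hxb, toFrac_mk]
  have hb0 : b ≠ 0 := by
    rintro rfl
    rw [hxK, map_zero, zero_div] at hx1
    exact hx1 rfl
  have hb' : b ∈ 𝒜 n := by simpa using hb
  have hset : gens Γ(Proj 𝒜, Proj.basicOpen 𝒜 f) (FractionRing A) J x =
      {z : FractionRing A | ∃ (m : ℕ) (a : A), a ∈ 𝒜 m ∧ a ∈ I ∧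
        z = (algebraMap A (FractionRing A) a / algebraMap A (FractionRing A) f ^ m) /
          (algebraMap A (FractionRing A) b / algebraMap A (FractionRing A) f ^ n)} := by
    ext z
    constructor
    · rintro ⟨y, hy, rfl⟩
      obtain ⟨m, a, ha, haI, hya⟩ := (mem_awayIdeal 𝒜 hf _).1 ((hmem y).1 hy)
      refine ⟨m, a, by simpa using ha, haI, ?_⟩
      rw [hxK, halg, hya, toFrac_mk]
    · rintro ⟨m, a, ha, haI, rfl⟩
      have ha' : a ∈ 𝒜 (m • 1) := by simpa using ha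
      refine ⟨e (Away.mk 𝒜 hf m a ha'), ?_, ?_⟩
      · rw [hmem, RingEquiv.symm_apply_apply, mem_awayIdeal 𝒜 hf]
        exact ⟨m, a, ha', haI, rfl⟩
      · rw [hxK, halg, RingEquiv.symm_apply_apply, toFrac_mk]
  rw [hset]
  exact chart_away_smooth 𝒜 hI hf hf0 hb' hbI hb0 (hsm b hbI hb0)

/-- A unit section in the ideal on a smaller open set. -/
theorem ideal_basicOpen_eq_top {X : Scheme.{0}} (𝓘 : X.IdealSheafData) (U : X.AffineZariskiSite)
    {x : Γ(X, U.1)} (hx : x ∈ 𝓘.ideal ⟨U.1, U.2⟩) :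
    𝓘.ideal ⟨(U.basicOpen x).1, (U.basicOpen x).2⟩ = ⊤ := by
  rw [← ideal_map 𝓘 (U.basicOpen_le x)]
  refine Ideal.eq_top_of_isUnit_mem _ (Ideal.mem_map_of_mem _ hx) ?_
  exact (RingedSpace.isUnit_res_basicOpen X.toRingedSpace x :)

end PAS

open PAS in
/-- row PAS -/
theorem hasResolution_proj [Algebra.FiniteType k A] (hgen : Algebra.adjoin k (𝒜 1 : Set A) = ⊤)
    (hne : 𝒜 1 ≠ ⊥) {I : Ideal A} (hI0 : I ≠ ⊥) (hI : I.IsHomogeneous 𝒜)
    (hsm : ∀ b ∈ I, b ≠ 0 → Algebra.FormallySmooth k (chart I b)) :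
    MPb525bf.HasResolution (projTo 𝒜) := by
  classical
  obtain ⟨f₀, hf₀, hf₀0⟩ := Submodule.exists_mem_ne_zero_of_ne_bot hne
  have hint : IsIntegral (Proj 𝒜) := isIntegral_proj 𝒜 hf₀ hf₀0
  have hnoeth : IsLocallyNoetherian (Proj 𝒜) := isLocallyNoetherian_proj 𝒜 hgen
  obtain ⟨r, f, hf, hf0, hcov⟩ := exists_cover_proj 𝒜 hgen
  obtain ⟨𝓘, h𝓘⟩ := exists_sheaf 𝒜 hI f hf hf0
  -- a homogeneous element
  obtain ⟨n, a, ha, haI, ha0⟩ : ∃ (n : ℕ) (a : A), a ∈ 𝒜 n ∧ a ∈ I ∧ a ≠ 0 := by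
    obtain ⟨c, hc, hc0⟩ := Submodule.exists_mem_ne_zero_of_ne_bot hI0
    by_contra hcon
    push Not at hcon
    apply hc0
    rw [← DirectSum.sum_support_decompose 𝒜 c]
    refine Finset.sum_eq_zero fun i _ => ?_
    exact hcon i _ (SetLike.coe_mem _) (hI i hc)
  obtain ⟨i₀⟩ : Nonempty (Fin r) := by
    by_contra hr
    rw [not_nonempty_iff] at hr
    rw [iSup_of_empty] at hcov
    obtain ⟨x⟩ : Nonempty (Proj 𝒜) := inferInstance
    have h1 : x ∈ (⊤ : (Proj 𝒜).Opens) := trivial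
    rw [← hcov] at h1
    exact h1
  have hiso := isIso_awayToSection 𝒜 (hf i₀)
  have hbij : Function.Bijective (Proj.awayToSection 𝒜 (f i₀)).hom :=
    ConcreteCategory.bijective_of_isIso (Proj.awayToSection 𝒜 (f i₀))
  have ha' : a ∈ 𝒜 (n • 1) := by simpa using ha
  set x : Γ(Proj 𝒜, Proj.basicOpen 𝒜 (f i₀)) :=
    (Proj.awayToSection 𝒜 (f i₀)).hom (Away.mk 𝒜 (hf i₀) n a ha') with hx
  have hxI : x ∈ 𝓘.ideal ⟨(UU 𝒜 (hf i₀)).1, (UU 𝒜 (hf i₀)).2⟩ := by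
    have h1 : Away.mk 𝒜 (hf i₀) n a ha' ∈ awayIdeal 𝒜 I (f i₀) :=
      (mem_awayIdeal 𝒜 (hf i₀) _).2 ⟨n, a, ha', haI, rfl⟩
    rw [← h𝓘 i₀] at h1
    exact h1
  have hx0 : x ≠ 0 := by
    intro h
    have h1 : Away.mk 𝒜 (hf i₀) n a ha' = 0 := hbij.1 (by rw [← hx, h, map_zero])
    have h2 := toFrac_mk 𝒜 (hf0 i₀) (hf i₀) n a ha'
    rw [h1, map_zero] at h2
    have hf' : algebraMap A (FractionRing A) (f i₀) ≠ 0 := fun h =>
      hf0 i₀ (IsFractionRing.injective A (FractionRing A) (by rw [h, map_zero]))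
    have h3 : algebraMap A (FractionRing A) a = 0 := by
      rcases div_eq_zero_iff.1 h2.symm with h3 | h3
      · exact h3
      · exact absurd h3 (pow_ne_zero n hf')
    exact ha0 (IsFractionRing.injective A (FractionRing A) (by rw [h3, map_zero]))
  have hne0 : 𝓘.ideal ⟨(UU 𝒜 (hf i₀)).1, (UU 𝒜 (hf i₀)).2⟩ ≠ ⊥ := by
    intro h
    rw [h] at hxI
    exact hx0 hxI
  refine ⟨Blow 𝓘, blow 𝓘, blow_isIntegral 𝓘 (UU 𝒜 (hf i₀)) hne0, blow_isProper 𝓘, ?_,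
    (Proj 𝒜).basicOpen x, ?_, blow_isIso 𝓘 _ fun y hy => ?_⟩
  · -- smoothness
    have hcov' : ⨆ i, (blow 𝓘) ⁻¹ᵁ (UU 𝒜 (hf i)).1 = ⊤ := by
      rw [← Scheme.Hom.preimage_iSup]
      change (blow 𝓘) ⁻¹ᵁ (⨆ i, Proj.basicOpen 𝒜 (f i)) = ⊤
      rw [hcov]
      rfl
    rw [IsZariskiLocalAtSource.iff_of_iSup_eq_top (P := @Smooth) _ hcov']
    intro i
    obtain ⟨e, -, he⟩ := restrict_eq (UU 𝒜 (hf i)).1 _ _ _ (isPullback_blow 𝓘 (UU 𝒜 (hf i))).flip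
    rw [← he, Category.assoc]
    refine MorphismProperty.comp_mem (W := @Smooth) _ _ inferInstance ?_
    have h1 := smooth_one 𝒜 hI hsm (hf i) (hf0 i) _ (h𝓘 i)
    rw [← fromSpec_projTo 𝒜 (hf i)] at h1
    rw [← Category.assoc, blowι_blow, Category.assoc]
    exact h1
  · refine IsOpen.dense ((Proj 𝒜).basicOpen x).isOpen ?_
    rw [← TopologicalSpace.Opens.ne_bot_iff_nonempty, Ne, basicOpen_eq_bot_iff]
    exact hx0
  · exact ⟨(UU 𝒜 (hf i₀)).basicOpen x, hy, ideal_basicOpen_eq_top 𝓘 (UU 𝒜 (hf i₀)) hxI⟩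

end Pool.Agent.MP_b525bf_ag_E
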