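import Pool.Agent.Lib.MP_b525bf_ag_E.MAIN
import Pool.Agent.Lib.MP_b525bf_ag_E.EQ1
import Pool.Agent.Lib.MP_b525bf_ag_E.IDL
import Pool.Agent.Lib.MP_b525bf_ag_E.HOM
import Pool.Agent.Lib.MP_b525bf_ag_E.PAS

/-!
# Theorem E: the equivariant and the projective form
-/

set_option autoImplicit false

namespace Pool.Agent.MP_b525bf_ag_E

open Pool.Agent.LU2 Pool.Agent.MP_b525bf_ag

/-- The equivariant resolution. -/
theorem exists_ideal_of_group (p : ℕ) [Fact p.Prime] (k : Type) [Field k] [PerfectField k]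
    [Infinite k] [CharP k p] (A : Type) [CommRing A] [IsDomain A] [Algebra k A]
    [Algebra.FiniteType k A] (G : Subgroup (A ≃ₐ[k] A))
    (hG : ∀ H : Subgroup G, H.FiniteIndex → H = ⊤) (hA : AllAbhyankar G)
    (hF : ∀ I : Ideal A, I ≠ ⊥ → (∀ g ∈ G, ∀ a ∈ I, g a ∈ I) → (invariantCenters G I).Finite) :
    HasResolution k A ∧ ∃ I : Ideal A, I ≠ ⊥ ∧ (∀ g ∈ G, ∀ a ∈ I, g a ∈ I) ∧
      ∀ b ∈ I, b ≠ 0 → Algebra.FormallySmooth k (chart I b) := by
  have hfin : Algebra.trdeg k (FractionRing A) < Cardinal.aleph0 := by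
    have h1 : Algebra.EssFiniteType A (FractionRing A) :=
      Algebra.EssFiniteType.of_isLocalization _ (nonZeroDivisors A)
    have h2 : Algebra.EssFiniteType k (FractionRing A) :=
      Algebra.EssFiniteType.comp k A (FractionRing A)
    exact trdeg_lt_aleph0 k (FractionRing A)
  have hhyp := hyp_liftG G hG
  obtain ⟨m, n, R, x, hR, hcov⟩ := exists_atlas (realCaseR p Fact.out).realCase hhyp
    (defLE_of_inv G hA) (finC_of_centers G hF) hfin
  obtain ⟨N, m', M, a, hM, h0, -, hst⟩ := exists_stk hhyp hR hcov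
  obtain ⟨M', hM', h0', hst'⟩ := destack_stab M a hM hst
  have h00 : ∀ z : FractionRing A, z ∈ M'.s 0 ↔ ∃ x : A, algebraMap A (FractionRing A) x = z := by
    intro z
    rw [h0', h0]
    exact Iff.rfl
  refine ⟨hasResolution_of_goodC_one k A (FractionRing A)
    (IsFractionRing.injective A (FractionRing A)) M' hM' h00, ?_⟩
  obtain ⟨I, hI, hsm, d, hd⟩ := exists_ideal_of_goodC M' hM' h00
  refine ⟨I, hI, fun g hg a ha => ?_, hsm⟩
  rw [hd] at ha ⊢
  have h1 := hst' (IsFractionRing.fieldEquivOfAlgEquivHom k (FractionRing A) g)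
    ⟨g, hg, rfl⟩ d _ ha
  rwa [IsFractionRing.fieldEquivOfAlgEquivHom_apply,
    IsFractionRing.fieldEquivOfAlgEquiv_algebraMap] at h1

/-- The final theorem, with the projective case. -/
theorem final_group (p : ℕ) [Fact p.Prime] (k : Type) [Field k] [PerfectField k]
    [Infinite k] [CharP k p] (A : Type) [CommRing A] [IsDomain A] [Algebra k A]
    [Algebra.FiniteType k A] (G : Subgroup (A ≃ₐ[k] A))
    (hG : ∀ H : Subgroup G, H.FiniteIndex → H = ⊤) (hA : AllAbhyankar G)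
    (hF : ∀ I : Ideal A, I ≠ ⊥ → (∀ g ∈ G, ∀ a ∈ I, g a ∈ I) → (invariantCenters G I).Finite) :
    HasResolution k A ∧
      (∃ I : Ideal A, I ≠ ⊥ ∧ (∀ g ∈ G, ∀ a ∈ I, g a ∈ I) ∧
        ∀ b ∈ I, b ≠ 0 → Algebra.FormallySmooth k (chart I b)) ∧
      ∀ (𝒜 : ℕ → Submodule k A) [GradedAlgebra 𝒜], Algebra.adjoin k (𝒜 1 : Set A) = ⊤ →
        𝒜 1 ≠ ⊥ → (∀ t : kˣ, ∃ g ∈ G, ∀ (d : ℕ), ∀ a ∈ 𝒜 d, g a = (t : k) ^ d • a) →
        MPb525bf.HasResolution (projTo 𝒜) := by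
  obtain ⟨h1, I, hI, hst, hsm⟩ := exists_ideal_of_group p k A G hG hA hF
  refine ⟨h1, ⟨I, hI, hst, hsm⟩, ?_⟩
  intro 𝒜 _ hgen hne hT
  refine hasResolution_proj 𝒜 hgen hne hI (isHomogeneous_of_torus 𝒜 I fun t => ?_) hsm
  obtain ⟨g, hg, hgd⟩ := hT t
  exact ⟨g, hst g hg, hgd⟩

end Pool.Agent.MP_b525bf_ag_E
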