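import Pool.Agent.Lib.MP_b525bf_ag_E.Defs
import Pool.Agent.Lib.LU2G.Smooth

/-!
# Theorem E, row ML
Recipe. Suppose no `i ∈ E` is `≤ e`. Then each `i ∈ E` has a coordinate `j` with `i j ≥ e j + 1`, so
`x^e ∈ J R`, `J := (X_1^(e_1+1), ..., X_n^(e_n+1)) ⊆ k[X]`, `R := locV V B`. `R` is flat over `k[X]`:
`B` is smooth over `k[X]` (`h.sm`, finitely presented because `k[X]` is Noetherian), so flat
(`Algebra.Smooth.flat`), and `R` is a localisation of `B`. The `k[X]`-linear map
`k[X] / (X_1, ..., X_n) → k[X] / J`, `1 ↦ X^e`, is injective (monomials); tensor with the flat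
module `R`: `R / (x_1, ..., x_n) → R / J R`, `1 ↦ x^e = 0`, is injective, so `1 ∈ (x_1, ..., x_n) R`,
contradiction to `h.pos`.
-/

set_option autoImplicit false
set_option linter.unusedVariables false

namespace Pool.Agent.MP_b525bf_ag_E

open Pool.Agent.LU2 Pool.Agent.MP_b525bf_ag Pool.Agent.MP_b525bf_ag_W

variable {k K : Type} [Field k] [Field K] [Algebra k K] {G : Subgroup (K ≃ₐ[k] K)}
  {A : Subalgebra k K}

variable {V : ValuationSubring K} {B : Subalgebra k K} {n : ℕ} {x z : Fin n → K}

open MvPolynomial in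
private theorem ml_val (hB : ∀ b ∈ B, b ∈ V) (hx : ∀ i, x i ∈ B)
    (hpos : ∀ i, V.valuation (x i) < 1) (p : MvPolynomial (Fin n) k) :
    V.valuation (((aeval (fun i => (⟨x i, hx i⟩ : B)) p : B) : K) -
      algebraMap k K (constantCoeff p)) < 1 := by
  induction p using MvPolynomial.induction_on with
  | C a => simp
  | add p q hp hq =>
    have h1 : ((aeval (fun i => (⟨x i, hx i⟩ : B)) (p + q) : B) : K) -
        algebraMap k K (constantCoeff (p + q)) =
        (((aeval (fun i => (⟨x i, hx i⟩ : B)) p : B) : K) - algebraMap k K (constantCoeff p)) +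
        (((aeval (fun i => (⟨x i, hx i⟩ : B)) q : B) : K) -
          algebraMap k K (constantCoeff q)) := by
      simp only [map_add, AddMemClass.coe_add]
      ring
    rw [h1]
    exact Valuation.map_add_lt _ hp hq
  | mul_X p i hp =>
    have h1 : ((aeval (fun i => (⟨x i, hx i⟩ : B)) (p * X i) : B) : K) -
        algebraMap k K (constantCoeff (p * X i)) =
        ((aeval (fun i => (⟨x i, hx i⟩ : B)) p : B) : K) * x i := by
      simp
    rw [h1, map_mul]
    have h2 : V.valuation ((aeval (fun i => (⟨x i, hx i⟩ : B)) p : B) : K) ≤ 1 :=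
      (V.valuation_le_one_iff _).2 (hB _ (Subtype.property _))
    exact (mul_le_of_le_one_left' h2).trans_lt (hpos i)

open MvPolynomial in
private theorem ml_flat (hfg : B.FG) (hx : ∀ i, x i ∈ B)
    (hs : (MvPolynomial.aeval (fun i => (⟨x i, hx i⟩ : B)) :
      MvPolynomial (Fin n) k →ₐ[k] B).toRingHom.FormallySmooth) :
    (MvPolynomial.aeval (fun i => (⟨x i, hx i⟩ : B)) :
      MvPolynomial (Fin n) k →ₐ[k] B).toRingHom.Flat := by
  set f : MvPolynomial (Fin n) k →ₐ[k] B := MvPolynomial.aeval (fun i => (⟨x i, hx i⟩ : B))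
  let _ : Algebra (MvPolynomial (Fin n) k) B := f.toRingHom.toAlgebra
  have : IsScalarTower k (MvPolynomial (Fin n) k) B := IsScalarTower.of_algHom f
  have : Algebra.FiniteType k B := B.fg_iff_finiteType.1 hfg
  have : Algebra.FiniteType (MvPolynomial (Fin n) k) B :=
    Algebra.FiniteType.of_restrictScalars_finiteType k _ B
  have : Algebra.FinitePresentation (MvPolynomial (Fin n) k) B :=
    Algebra.FinitePresentation.of_finiteType.1 inferInstance
  have : Algebra.FormallySmooth (MvPolynomial (Fin n) k) B := hs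
  have : Algebra.Smooth (MvPolynomial (Fin n) k) B := ⟨inferInstance, inferInstance⟩
  exact (inferInstance : Module.Flat (MvPolynomial (Fin n) k) B)

private theorem ml_rel {P S ι : Type} [CommRing P] [CommRing S] [Fintype ι] (φ : P →+* S)
    (hφ : φ.Flat) (F : ι → P) (Y : ι → S) (h : ∑ o, φ (F o) * Y o = 0) :
    ∃ (m : ℕ) (a : ι → Fin m → P) (y : Fin m → S), (∀ o, Y o = ∑ j, φ (a o j) * y j) ∧
      ∀ j, ∑ o, F o * a o j = 0 := by
  algebraize [φ]
  have hrel : ∑ o, F o • Y o = 0 := by
    simp only [Algebra.smul_def]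
    exact h
  obtain ⟨m, a, y, h1, h2⟩ := Module.Flat.isTrivialRelation_of_sum_smul_eq_zero (R := P) (M := S)
    (f := F) (x := Y) hrel
  refine ⟨m, a, y, fun o => ?_, h2⟩
  rw [h1 o]
  simp only [Algebra.smul_def]
  rfl

private theorem ml_mon (hx : ∀ i, x i ∈ B) (i : Fin n → ℕ) :
    ((MvPolynomial.aeval (fun i => (⟨x i, hx i⟩ : B))
      (MvPolynomial.monomial (Finsupp.equivFunOnFinite.symm i) (1 : k)) : B) : K) =
      mon x (zx i) := by
  rw [MvPolynomial.aeval_monomial, map_one, one_mul, mon, Finsupp.prod_fintype]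
  · rw [SubmonoidClass.coe_finsetProd]
    refine Finset.prod_congr rfl fun j _ => ?_
    simp [zx]
  · intro j
    simp

private noncomputable def mlF (k : Type) [Field k] {n : ℕ} {ι : Type} (e : Fin n → ℕ)
    (i : ι → Fin n → ℕ) : Option ι → MvPolynomial (Fin n) k
  | none => MvPolynomial.monomial (Finsupp.equivFunOnFinite.symm e) (1 : k)
  | some o => MvPolynomial.monomial (Finsupp.equivFunOnFinite.symm (i o)) (1 : k)

open MvPolynomial in
private theorem ml_coeff {ι : Type} [Fintype ι] (e : Fin n → ℕ) (i : ι → Fin n → ℕ)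
    (hi : ∀ o, ¬ i o ≤ e) (a : Option ι → MvPolynomial (Fin n) k)
    (h : ∑ o, mlF k e i o * a o = 0) :
    constantCoeff (a none) = 0 := by
  have h4 := congrArg (coeff (Finsupp.equivFunOnFinite.symm e)) h
  rw [Fintype.sum_option, coeff_add, coeff_sum, coeff_zero] at h4
  have h5 : ∀ o : ι, coeff (Finsupp.equivFunOnFinite.symm e)
      (monomial (Finsupp.equivFunOnFinite.symm (i o)) 1 * a (some o)) = 0 := by
    intro o
    rw [coeff_monomial_mul', if_neg]
    intro hle
    exact hi o (fun j => hle j)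
  simp only [mlF] at h4
  rw [Finset.sum_eq_zero fun o _ => h5 o, add_zero] at h4
  rw [coeff_monomial_mul', if_pos le_rfl, one_mul, tsub_self] at h4
  exact h4

theorem Loc.monomial_mem (h : Loc V B x) (E : Finset (Fin n → ℕ)) (e : Fin n → ℕ)
    (b : (Fin n → ℕ) → K) (hb : ∀ i ∈ E, b i ∈ locV V B)
    (hsum : mon x (zx e) = ∑ i ∈ E, b i * mon x (zx i)) : ∃ i ∈ E, i ≤ e := by
  classical
  by_contra hcon
  push Not at hcon
  obtain ⟨hx, hs⟩ := h.sm
  have hflat := ml_flat h.fg hx hs
  obtain ⟨s, hsB, hsv, hsb⟩ := LU2G.exists_commonV V B (fun i : E => b i.1)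
    (fun i => hb i.1 i.2)
  obtain ⟨m, a, y, h1, h2⟩ := ml_rel _ hflat
    (mlF k e (fun i : E => i.1))
    (fun o : Option E => match o with
      | none => (⟨s, hsB⟩ : B)
      | some i => -⟨s * b i.1, hsb i⟩) (by
      apply Subtype.ext
      rw [AddSubmonoidClass.coe_finsetSum, Fintype.sum_option]
      simp only [mlF]
      rw [MulMemClass.coe_mul]
      have h0 : ∀ i : Fin n → ℕ, ((((MvPolynomial.aeval (fun i => (⟨x i, hx i⟩ : B)) :
          MvPolynomial (Fin n) k →ₐ[k] B).toRingHom
          (MvPolynomial.monomial (Finsupp.equivFunOnFinite.symm i) (1 : k)) : B) : K)) =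
          mon x (zx i) := ml_mon hx
      rw [h0]
      have h1 : ∀ i : E, ((((MvPolynomial.aeval (fun i => (⟨x i, hx i⟩ : B)) :
          MvPolynomial (Fin n) k →ₐ[k] B).toRingHom
          (MvPolynomial.monomial (Finsupp.equivFunOnFinite.symm i.1) (1 : k)) : B) *
            (-⟨s * b i.1, hsb i⟩ : B) : B) : K) = -(s * (b i.1 * mon x (zx i.1))) := by
        intro i
        rw [MulMemClass.coe_mul, h0, NegMemClass.coe_neg]
        ring
      rw [Finset.sum_congr rfl fun i _ => h1 i]
      rw [hsum, Finset.sum_neg_distrib, ← Finset.mul_sum]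
      rw [Finset.sum_coe_sort E (fun i => b i * mon x (zx i))]
      rw [ZeroMemClass.coe_zero]
      ring)
  have h3 : ∀ j, MvPolynomial.constantCoeff (a none j) = 0 := by
    intro j
    exact ml_coeff e (fun i : E => i.1) (fun i => hcon i.1 i.2) (fun o => a o j) (h2 j)
  have h6 : V.valuation s < 1 := by
    have h7 : s = ∑ j, ((MvPolynomial.aeval (fun i => (⟨x i, hx i⟩ : B)) (a none j) : B) : K) *
        (y j : K) := by
      have h8 := congrArg (Subtype.val : B → K) (h1 none)
      rw [AddSubmonoidClass.coe_finsetSum] at h8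
      exact h8
    rw [h7]
    refine Valuation.map_sum_lt _ one_ne_zero fun j _ => ?_
    rw [map_mul]
    have h9 := ml_val h.mem hx h.pos (a none j)
    rw [h3 j, map_zero, sub_zero] at h9
    exact (mul_le_of_le_one_right' ((V.valuation_le_one_iff _).2 (h.mem _ (y j).2))).trans_lt h9
  rw [hsv] at h6
  exact lt_irrefl _ h6

end Pool.Agent.MP_b525bf_ag_E
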