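import Pool.Agent.Lib.MP_b525bf_ag_E.StmtDefs
import Pool.Agent.Lib.MP_b525bf_ag_E.Defs
import Pool.Agent.Lib.LU2G.BlT
import Pool.Agent.Lib.LU1G.Chart
import Pool.Agent.Lib.MP_b525bf_ag_h42.Resolve

/-!
# Theorem E, projective part: definitions
-/

set_option autoImplicit false

namespace Pool.Agent.MP_b525bf_ag_E

open AlgebraicGeometry CategoryTheory HomogeneousLocalization

variable {k A : Type} [Field k] [CommRing A] [IsDomain A] [Algebra k A]

section Graded

variable (𝒜 : ℕ → Submodule k A) [GradedAlgebra 𝒜]

/-- The ideal of the ring `A_(f)` defined by the ideal `I`. -/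
noncomputable def awayIdeal (I : Ideal A) (f : A) : Ideal (Away 𝒜 f) :=
  (I.map (algebraMap A (Localization.Away f))).comap
    (algebraMap (Away 𝒜 f) (Localization.Away f))

/-- The embedding of `A_(f)` into the field of fractions of `A`. -/
noncomputable def toFrac {f : A} (hf : f ≠ 0) : Away 𝒜 f →+* FractionRing A :=
  (IsLocalization.Away.lift (S := Localization.Away f) f (g := algebraMap A (FractionRing A))
    ((IsUnit.mk0 _ fun h => hf (IsFractionRing.injective A (FractionRing A)
      (by rw [h, map_zero]))))).comp (algebraMap (Away 𝒜 f) (Localization.Away f))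

/-- The structure morphism of the projective scheme of a graded algebra over `k`. -/
noncomputable def projTo : Proj 𝒜 ⟶ Spec (CommRingCat.of k) :=
  Proj.toSpecZero 𝒜 ≫ Spec.map (CommRingCat.ofHom (algebraMap k (𝒜 0)))

end Graded

end Pool.Agent.MP_b525bf_ag_E
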