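import Pool.Agent.Lib.MP_b525bf_ag_E.EFB

/-!
# Theorem E, row QZ
See the statements. (a) `SemiD.isU_f`: `unF` gives `y ∈ orb G A (f j)`, `y = ∑ a_g (g f_j)`, with
`single (dF m j) y ∉ Q`; some `single (dF m j) (g f_j) ∉ Q` (ideal), and by `hst` (apply `g⁻¹`)
`single (dF m j) (f j) ∉ Q`. (b) `isLocalRing_zeroSub`: sums of nonunits are nonunits
(`isU_add` in `MP_b525bf_ag_W/AtP.lean`, degree 0; note `-0 = 0`). (c) `zeroSub_stab`: unfold
`atP`: `z ∈ (atP M Q).s 0` iff `f z ∈ M.s c` for some `f ∈ M.s c`, `el f ∉ Q`; apply `g`, use `hM` and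
`hQ` for `g⁻¹`.
-/

set_option autoImplicit false
set_option linter.unusedVariables false

namespace Pool.Agent.MP_b525bf_ag_E

open Pool.Agent.LU2 Pool.Agent.MP_b525bf_ag Pool.Agent.MP_b525bf_ag_W

variable {k K : Type} [Field k] [Field K] [Algebra k K] {G : Subgroup (K ≃ₐ[k] K)}
  {A : Subalgebra k K}


section EF

variable {N m : ℕ} {f : Fin N → K} {u : Fin m → Fin N → ℕ} {D : Set (Fin N → ℤ)}
  {Q : Ideal (EF G A f u).alg} [Q.IsPrime]

theorem SemiD.isU_f (hQ : SemiD G A f u D Q) (h : Hyp G A) (hf : ∀ j, f j ∈ A)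
    (hst : QStab G (EF G A f u) Q) (j : Fin N) : IsU (atP (EF G A f u) Q) (dF m j) (f j) := by
  have hmem : ∀ z ∈ orb G A (f j), z ∈ (EF G A f u).s (dF m j) := by
    intro z hz
    refine Fam.mem_ofSub.2 (Algebra.subset_adjoin ?_)
    exact Or.inl (Or.inl (Or.inr ⟨j, z, hz, rfl⟩))
  have hA : ∀ a ∈ A, a ∈ (EF G A f u).s 0 := by
    intro a ha
    refine Fam.mem_ofSub.2 (Algebra.subset_adjoin ?_)
    exact Or.inl (Or.inl (Or.inl ⟨a, ha, rfl⟩))
  have horb : ∀ g ∈ G, g (f j) ∈ orb G A (f j) := fun g hg =>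
    Submodule.subset_span ⟨g, hg, rfl⟩
  obtain ⟨y, hy, hyU⟩ := hQ.unF j
  have key : ∀ z ∈ orb G A (f j), IsU (atP (EF G A f u) Q) (dF m j) z →
      ∃ g ∈ G, IsU (atP (EF G A f u) Q) (dF m j) (g (f j)) := by
    intro z hz
    induction hz using Submodule.span_induction with
    | mem t ht =>
      obtain ⟨g, hg, rfl⟩ := ht
      exact fun h1 => ⟨g, hg, h1⟩
    | zero => exact fun h1 => absurd rfl h1.1
    | add a b ha hb iha ihb =>
      intro h1
      rcases isU_add (EF G A f u) Q (le_atP _ Q _ (hmem a ha)) (le_atP _ Q _ (hmem b hb)) h1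
        with h2 | h2
      · exact iha h2
      · exact ihb h2
    | smul a b hb ih =>
      intro h1
      refine ih ?_
      have h2 : IsU (atP (EF G A f u) Q) (0 + dF m j) ((a : K) * b) := by
        rw [zero_add]
        exact h1
      exact IsU.of_mul_right (le_atP _ Q _ (hA _ a.2)) (le_atP _ Q _ (hmem b hb)) h2
  obtain ⟨g, hg, hgU⟩ := key y hy hyU
  have h1 : g (f j) ∈ (EF G A f u).s (dF m j) := hmem _ (horb g hg)
  have h2 : f j ∈ (EF G A f u).s (dF m j) := by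
    have := hmem _ (horb 1 (one_mem G))
    rwa [AlgEquiv.one_apply] at this
  rw [isU_atP_iff (EF G A f u) Q h2]
  intro h3
  exact (isU_atP_iff (EF G A f u) Q h1).1 hgU (hst g hg (dF m j) (f j) h2 h1 h3)

end EF

section General

variable {ι : Type} [AddCommGroup ι] {M : Fam k K ι}

private theorem QZ_isUnit_iff (Q : Ideal M.alg) [Q.IsPrime] (a : zeroSub (atP M Q)) :
    IsUnit a ↔ IsU (atP M Q) 0 (a : K) := by
  constructor
  · intro ha
    obtain ⟨b, hb⟩ := ha.exists_right_inv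
    have hb' : (a : K) * (b : K) = 1 := by
      have := congrArg (fun z : zeroSub (atP M Q) => (z : K)) hb
      simpa using this
    have ha0 : (a : K) ≠ 0 := left_ne_zero_of_mul_eq_one hb'
    refine ⟨ha0, a.2, ?_⟩
    rw [neg_zero, ← eq_inv_of_mul_eq_one_right hb']
    exact b.2
  · rintro ⟨h0, h1, h2⟩
    rw [neg_zero] at h2
    refine IsUnit.of_mul_eq_one ⟨(a : K)⁻¹, h2⟩ (Subtype.ext ?_)
    exact mul_inv_cancel₀ h0

theorem isLocalRing_zeroSub (Q : Ideal M.alg) [Q.IsPrime] : IsLocalRing (zeroSub (atP M Q)) := by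
  refine IsLocalRing.of_isUnit_or_isUnit_of_isUnit_add fun a b hab => ?_
  rw [QZ_isUnit_iff] at hab ⊢
  rw [QZ_isUnit_iff]
  exact isU_add M Q a.2 b.2 hab

theorem zeroSub_stab (hM : FStab G M) (Q : Ideal M.alg) [Q.IsPrime] (hQ : QStab G M Q) (g : K ≃ₐ[k] K)
    (hg : g ∈ G) (z : K) (hz : z ∈ zeroSub (atP M Q)) : g z ∈ zeroSub (atP M Q) := by
  obtain ⟨c, f, hf, hfQ, h⟩ := hz
  have h1 : g f ∈ M.s c := hM g hg c f hf
  refine ⟨c, g f, h1, ?_, ?_⟩
  · intro h2
    apply hfQ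
    have h3 : g⁻¹ (g f) = f := by
      rw [← AlgEquiv.mul_apply, inv_mul_cancel, AlgEquiv.one_apply]
    have h4 : g⁻¹ (g f) ∈ M.s c := by rw [h3]; exact hf
    have h5 := hQ g⁻¹ (inv_mem hg) c (g f) h1 h4 h2
    have h6 : M.el h4 = M.el hf := by
      refine Subtype.ext ?_
      change AddMonoidAlgebra.single c _ = AddMonoidAlgebra.single c _
      rw [h3]
    rwa [h6] at h5
  · rw [← map_mul]
    exact hM g hg (c + 0) (f * z) h

end General

end Pool.Agent.MP_b525bf_ag_E
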