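import Pool.Agent.Lib.MP_b525bf_ag_E.AWI

/-!
# Theorem E, projective part, row SHF: the ideal sheaf of a homogeneous ideal
-/

set_option autoImplicit false
set_option linter.unusedSectionVars false
set_option linter.unusedVariables false

namespace Pool.Agent.MP_b525bf_ag_E

open Pool.Agent.LU2 Pool.Agent.MP_b525bf_ag

open AlgebraicGeometry CategoryTheory HomogeneousLocalization

namespace SHF

section

variable {X : Scheme.{0}} {U : X.Opens} (hU : IsAffineOpen U) (J : Ideal Γ(X, U))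

/-- The closed subscheme of an affine open set. -/
noncomputable def psi : Spec (CommRingCat.of (Γ(X, U) ⧸ J)) ⟶ X :=
  Spec.map (CommRingCat.ofHom (Ideal.Quotient.mk J)) ≫ hU.fromSpec

instance [X.IsSeparated] : QuasiCompact (psi hU J) := by
  infer_instance

theorem psi_preimage : psi hU J ⁻¹ᵁ U = ⊤ := by
  rw [psi, Scheme.Hom.comp_preimage, hU.fromSpec_preimage_self]
  rfl

theorem res_injective {Y : Scheme.{0}} {V W : Y.Opens} (h : W ≤ V) (h' : V ≤ W) :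
    Function.Injective (Y.presheaf.map (homOfLE h).op).hom := by
  obtain rfl : W = V := le_antisymm h h'
  have h1 : (homOfLE h).op = 𝟙 (Opposite.op W) := rfl
  rw [h1, Y.presheaf.map_id]
  exact fun a b hab => hab

theorem psi_app : (psi hU J).app U = CommRingCat.ofHom (Ideal.Quotient.mk J) ≫
    (Scheme.ΓSpecIso (CommRingCat.of (Γ(X, U) ⧸ J))).inv ≫
      (Spec (CommRingCat.of (Γ(X, U) ⧸ J))).presheaf.map (homOfLE le_top).op := by
  rw [psi, Scheme.Hom.comp_app, hU.fromSpec_app_of_le U le_rfl]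
  have h1 : X.presheaf.map (homOfLE (le_refl U)).op = 𝟙 _ := X.presheaf.map_id _
  rw [h1, Category.id_comp, Category.assoc, Scheme.Hom.naturality, ← Category.assoc]
  rw [Scheme.ΓSpecIso_inv_naturality_assoc]
  rfl

theorem ker_psi [X.IsSeparated] : (psi hU J).ker.ideal ⟨U, hU⟩ = J := by
  rw [Scheme.Hom.ker_apply]
  ext s
  rw [RingHom.mem_ker]
  change ((psi hU J).app U).hom s = 0 ↔ s ∈ J
  rw [psi_app hU J]
  change ((Spec (CommRingCat.of (Γ(X, U) ⧸ J))).presheaf.map (homOfLE le_top).op).hom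
    ((Scheme.ΓSpecIso (CommRingCat.of (Γ(X, U) ⧸ J))).inv.hom (Ideal.Quotient.mk J s)) = 0 ↔ s ∈ J
  have h1 := res_injective (Y := Spec (CommRingCat.of (Γ(X, U) ⧸ J)))
    (V := ⊤) (W := psi hU J ⁻¹ᵁ U) le_top (psi_preimage hU J).ge
  have h2 : Function.Injective (Scheme.ΓSpecIso (CommRingCat.of (Γ(X, U) ⧸ J))).inv.hom :=
    (ConcreteCategory.bijective_of_isIso (Scheme.ΓSpecIso (CommRingCat.of (Γ(X, U) ⧸ J))).inv).1
  rw [← Ideal.Quotient.eq_zero_iff_mem]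
  constructor
  · intro h
    exact h2 (h1 (by rw [h, map_zero, map_zero]))
  · intro h
    rw [h, map_zero, map_zero]

theorem mem_ker_psi [X.IsSeparated] {V W : X.Opens} (hV : IsAffineOpen V) (hW : IsAffineOpen W)
    (hWV : W ≤ V) (hVW : V ⊓ U ≤ W) {σ : Γ(X, V)}
    (hσ : (X.presheaf.map (homOfLE hWV).op).hom σ ∈ (psi hU J).ker.ideal ⟨W, hW⟩) :
    σ ∈ (psi hU J).ker.ideal ⟨V, hV⟩ := by
  rw [Scheme.Hom.ker_apply, RingHom.mem_ker] at hσ ⊢
  have h1 : psi hU J ⁻¹ᵁ V ≤ psi hU J ⁻¹ᵁ W := by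
    intro y hy
    have h2 : y ∈ psi hU J ⁻¹ᵁ U := by
      rw [psi_preimage]
      trivial
    exact hVW ⟨hy, h2⟩
  have h3 : psi hU J ⁻¹ᵁ W ≤ psi hU J ⁻¹ᵁ V := fun y hy => hWV hy
  refine res_injective h3 h1 ?_
  rw [map_zero, ← hσ]
  have h4 := (psi hU J).naturality (homOfLE hWV).op
  have h5 := congrArg (fun f => f.hom σ) h4
  exact h5.symm

theorem map_le_ker_psi [X.IsSeparated] {W : X.Opens} (hW : IsAffineOpen W) (hWU : W ≤ U) :
    J.map (X.presheaf.map (homOfLE hWU).op).hom ≤ (psi hU J).ker.ideal ⟨W, hW⟩ := by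
  have h1 := (psi hU J).ker.map_ideal (U := ⟨W, hW⟩) (V := ⟨U, hU⟩) hWU
  rw [ker_psi] at h1
  exact h1.le

end

end SHF

open SHF

variable {k A : Type} [Field k] [CommRing A] [IsDomain A] [Algebra k A]
  (𝒜 : ℕ → Submodule k A) [GradedAlgebra 𝒜]

/-- row SHF -/
theorem exists_sheaf {I : Ideal A} (hI : I.IsHomogeneous 𝒜) {r : ℕ} (f : Fin r → A)
    (hf : ∀ i, f i ∈ 𝒜 1) (hf0 : ∀ i, f i ≠ 0) :
    ∃ 𝓘 : (Proj 𝒜).IdealSheafData, ∀ i,
      (𝓘.ideal ⟨Proj.basicOpen 𝒜 (f i), Proj.isAffineOpen_basicOpen 𝒜 (f i) (hf i) one_pos⟩).comap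
        (Proj.awayToSection 𝒜 (f i)).hom = awayIdeal 𝒜 I (f i) := by
  classical
  have hbij : ∀ i, Function.Bijective (Proj.awayToSection 𝒜 (f i)).hom := by
    intro i
    have : IsIso (Proj.awayToSection 𝒜 (f i)) := by
      rw [← Proj.basicOpenIsoAway_hom 𝒜 (f i) (hf i) one_pos]
      infer_instance
    exact ConcreteCategory.bijective_of_isIso (Proj.awayToSection 𝒜 (f i))
  let J : ∀ i, Ideal Γ(Proj 𝒜, Proj.basicOpen 𝒜 (f i)) := fun i =>
    (awayIdeal 𝒜 I (f i)).map (Proj.awayToSection 𝒜 (f i)).hom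
  have hJ : ∀ i, (J i).comap (Proj.awayToSection 𝒜 (f i)).hom = awayIdeal 𝒜 I (f i) := fun i =>
    Ideal.comap_map_of_bijective _ (hbij i)
  have hU := fun i => Proj.isAffineOpen_basicOpen 𝒜 (f i) (hf i) one_pos
  refine ⟨⨅ i, (psi (hU i) (J i)).ker, fun l => ?_⟩
  rw [Scheme.IdealSheafData.ideal_iInf, iInf_apply, Ideal.comap_iInf]
  apply le_antisymm
  · refine (iInf_le _ l).trans ?_
    rw [ker_psi, hJ]
  · refine le_iInf fun i => ?_
    intro s hs
    rw [Ideal.mem_comap]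
    have hfg : f i * f l ∈ 𝒜 (1 + 1) := SetLike.mul_mem_graded (hf i) (hf l)
    have hW : IsAffineOpen (Proj.basicOpen 𝒜 (f i * f l)) :=
      Proj.isAffineOpen_basicOpen 𝒜 (f i * f l) hfg (by norm_num)
    have hWl : Proj.basicOpen 𝒜 (f i * f l) ≤ Proj.basicOpen 𝒜 (f l) :=
      Proj.basicOpen_mono 𝒜 _ _ ⟨_, mul_comm _ _⟩
    have hWi : Proj.basicOpen 𝒜 (f i * f l) ≤ Proj.basicOpen 𝒜 (f i) :=
      Proj.basicOpen_mono 𝒜 _ _ ⟨_, rfl⟩
    refine mem_ker_psi (hU i) (J i) (hU l) hW hWl ?_ (map_le_ker_psi (hU i) (J i) hW hWi ?_)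
    · rw [Proj.basicOpen_mul, inf_comm]
    · have h1 := congrArg (fun φ => φ.hom s)
        (Proj.awayMap_awayToSection 𝒜 (f := f l) (hf i) (mul_comm (f i) (f l)))
      have h2 : ((Proj 𝒜).presheaf.map (homOfLE hWl).op).hom ((Proj.awayToSection 𝒜 (f l)).hom s) =
        (Proj.awayToSection 𝒜 (f i * f l)).hom (awayMap 𝒜 (hf i) (mul_comm (f i) (f l)) s) :=
        h1.symm
      rw [h2]
      have h3 : awayMap 𝒜 (hf i) (mul_comm (f i) (f l)) s ∈ awayIdeal 𝒜 I (f i * f l) := by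
        obtain ⟨n, a, ha, haI, rfl⟩ := (mem_awayIdeal 𝒜 (hf l) s).1 hs
        rw [awayMap_mk, mem_awayIdeal 𝒜 hfg]
        exact ⟨n, _, _, I.mul_mem_right _ haI, rfl⟩
      rw [← awayIdeal_map 𝒜 (hf i) (hf l)] at h3
      have h4 := Ideal.mem_map_of_mem (Proj.awayToSection 𝒜 (f i * f l)).hom h3
      rw [Ideal.map_map] at h4
      change _ ∈ ((awayIdeal 𝒜 I (f i)).map (Proj.awayToSection 𝒜 (f i)).hom).map _
      rw [Ideal.map_map]
      have h5 := congrArg (fun φ => φ.hom)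
        (Proj.awayMap_awayToSection 𝒜 (f := f i) (hf l) (rfl : f i * f l = f i * f l))
      convert h4 using 2
      exact h5.symm

end Pool.Agent.MP_b525bf_ag_E
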