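import Pool.Agent.Lib.MP_b525bf_ag.Good
import Pool.Agent.Lib.MP_b525bf_ag.Proj

/-!
# Theorem E, projective part, row VER: a Veronese subalgebra of the Rees algebra is generated in degree one

Recipe. `F.rees` is generated over `R` by finitely many monomials `x_i T ^ (d_i)`, `x_i ∈ F.I d_i`,
`i < r`, `d_i > 0` (the homogeneous components of generators; those of degree zero are scalars). Let
`e := ∏ d_i` (or the lcm). For `n ≥ r e`: `F.I n ≤ F.I (n - e) * F.I e`, because `F.I n` is generated by the
products `∏ x_i ^ α_i` with `∑ α_i d_i = n` (if `r > 0` some `α_i d_i ≥ e`, so `∏ x_i ^ α_i` is a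
multiple of `x_i ^ (e / d_i) ∈ F.I e` with cofactor in `F.I (n - e)`; if `r = 0` then `F.I n = ⊥` for `n > 0`).
Take `N := r e` (or `(r + 1) e`): `F.I (N (d + 1)) ≤ F.I (N d + N) ≤ F.I N * (F.I e) ^ (r d) ≤ ...`, precisely
`F.I (N d) ≤ F.I N * F.I e ^ (r (d - 1)) ≤ F.I N ^ d`, since `F.I e ^ r ≤ F.I N`. The other
inclusion is `mul'`.
-/

set_option autoImplicit false
set_option linter.unusedVariables false

namespace Pool.Agent.MP_b525bf_ag_E



open Pool.Agent.MP_b525bf_ag

namespace VER

open Polynomial

variable {R : Type} [CommRing R]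

theorem pow_le (F : IdealFam R) (m n : ℕ) : F.I n ^ m ≤ F.I (m * n) := by
  induction m with
  | zero => rw [Nat.zero_mul, F.zero']; exact le_top
  | succ m ih =>
    rw [pow_succ, Nat.succ_mul]
    exact (Ideal.mul_mono_left ih).trans (F.mul' _ _)

theorem prod_mem {ι : Type} (F : IdealFam R) (x : ι → R) (d : ι → ℕ)
    (hx : ∀ i, x i ∈ F.I (d i)) (α : ι → ℕ) (s : Finset ι) :
    ∏ i ∈ s, x i ^ α i ∈ F.I (∑ i ∈ s, α i * d i) := by
  classical
  induction s using Finset.induction_on with
  | empty => rw [Finset.prod_empty, Finset.sum_empty, F.zero']; trivial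
  | insert a s ha ih =>
    rw [Finset.prod_insert ha, Finset.sum_insert ha]
    exact F.mul_mem' (F.pow_mem' (hx a) _) ih

/-- The family generated by finitely many monomials. -/
noncomputable def genFam {ι : Type} [Fintype ι] (x : ι → R) (d : ι → ℕ) : IdealFam R where
  I n := Ideal.span {y | ∃ α : ι → ℕ, ∑ i, α i * d i = n ∧ y = ∏ i, x i ^ α i}
  zero' := by
    rw [Ideal.eq_top_iff_one]
    apply Ideal.subset_span
    exact ⟨0, by simp, by simp⟩
  mul' m n := by
    rw [Ideal.span_mul_span', Ideal.span_le]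
    rintro _ ⟨a, ⟨α, hα, rfl⟩, b, ⟨β, hβ, rfl⟩, rfl⟩
    apply Ideal.subset_span
    refine ⟨α + β, ?_, ?_⟩
    · rw [← hα, ← hβ, ← Finset.sum_add_distrib]
      exact Finset.sum_congr rfl fun i _ => by rw [Pi.add_apply, Nat.add_mul]
    · show (∏ i, x i ^ α i) * (∏ i, x i ^ β i) = _
      rw [← Finset.prod_mul_distrib]
      exact Finset.prod_congr rfl fun i _ => by rw [Pi.add_apply, pow_add]

/-- Homogeneous generators. -/
theorem exists_gens (F : IdealFam R) (hfg : Algebra.FiniteType R F.rees) :
    ∃ (ι : Type) (_ : Fintype ι) (_ : Nonempty ι) (x : ι → R) (d : ι → ℕ), (∀ i, 0 < d i) ∧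
      (∀ i, x i ∈ F.I (d i)) ∧ ∀ n, F.I n ≤ (genFam x d).I n := by
  classical
  obtain ⟨s, hs⟩ := (Subalgebra.fg_top F.rees).mp hfg.out
  let ι : Type := Option (Σ g : s, Fin g.1.natDegree)
  let x : ι → R := fun i => match i with
    | none => 0
    | some p => p.1.1.coeff (p.2.1 + 1)
  let d : ι → ℕ := fun i => match i with
    | none => 1
    | some p => p.2.1 + 1
  have hmem : ∀ g ∈ s, g ∈ F.rees := fun g hg => by
    rw [← hs]; exact Algebra.subset_adjoin hg
  have hx : ∀ i, x i ∈ F.I (d i) := by
    rintro (_ | ⟨g, j⟩)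
    · exact Ideal.zero_mem _
    · exact hmem g.1 g.2 _
  refine ⟨ι, inferInstance, ⟨none⟩, x, d, ?_, hx, ?_⟩
  · rintro (_ | ⟨g, j⟩)
    · exact Nat.one_pos
    · exact Nat.succ_pos _
  · have h1 : F.rees ≤ (genFam x d).rees := by
      rw [← hs]
      apply Algebra.adjoin_le
      intro g hg n
      rcases Nat.eq_zero_or_pos n with rfl | hn
      · rw [(genFam x d).zero']; trivial
      · by_cases hd : n ≤ g.natDegree
        · apply Ideal.subset_span
          let j : Fin g.natDegree := ⟨n - 1, by omega⟩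
          let i0 : ι := some ⟨⟨g, hg⟩, j⟩
          have hd0 : d i0 = n := by
            show n - 1 + 1 = n
            omega
          have hx0 : x i0 = g.coeff n := by
            show g.coeff (n - 1 + 1) = g.coeff n
            rw [show n - 1 + 1 = n by omega]
          refine ⟨Pi.single i0 1, ?_, ?_⟩
          · rw [Finset.sum_eq_single i0]
            · rw [Pi.single_eq_same, one_mul, hd0]
            · intro b _ hb
              rw [Pi.single_eq_of_ne hb, Nat.zero_mul]
            · intro h; exact absurd (Finset.mem_univ _) h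
          · rw [Finset.prod_eq_single i0]
            · rw [Pi.single_eq_same, pow_one, hx0]
            · intro b _ hb
              rw [Pi.single_eq_of_ne hb, pow_zero]
            · intro h; exact absurd (Finset.mem_univ _) h
        · rw [coeff_eq_zero_of_natDegree_lt (by omega)]
          exact Ideal.zero_mem _
    intro n y hy
    have h2 : monomial n y ∈ F.rees := by
      intro m
      rw [coeff_monomial]
      split_ifs with h
      · rw [← h]; exact hy
      · exact Ideal.zero_mem _
    have h3 := h1 h2 n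
    rwa [coeff_monomial, if_pos rfl] at h3

theorem step {ι : Type} [Fintype ι] [Nonempty ι] (F : IdealFam R) (x : ι → R) (d : ι → ℕ)
    (hd : ∀ i, 0 < d i) (hx : ∀ i, x i ∈ F.I (d i)) (hg : ∀ n, F.I n ≤ (genFam x d).I n)
    (n : ℕ) (hn : Fintype.card ι * ∏ i, d i ≤ n + ∏ i, d i) :
    F.I (n + ∏ i, d i) ≤ F.I n * F.I (∏ i, d i) := by
  classical
  refine (hg _).trans ?_
  show Ideal.span _ ≤ _
  rw [Ideal.span_le]
  rintro _ ⟨α, hα, rfl⟩
  obtain ⟨i, hi⟩ : ∃ i, ∏ i, d i ≤ α i * d i := by
    by_contra hcon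
    simp only [not_exists, not_le] at hcon
    have h1 : ∑ i, α i * d i < ∑ _i : ι, ∏ j, d j :=
      Finset.sum_lt_sum_of_nonempty Finset.univ_nonempty fun i _ => hcon i
    rw [hα, Finset.sum_const, Finset.card_univ, smul_eq_mul] at h1
    omega
  obtain ⟨c, hc⟩ : ∃ c, ∏ j, d j = c * d i := by
    obtain ⟨c, hc⟩ := Finset.dvd_prod_of_mem d (Finset.mem_univ i)
    exact ⟨c, by rw [hc, mul_comm]⟩
  have hci : c ≤ α i := by
    rw [hc] at hi
    exact Nat.le_of_mul_le_mul_right hi (hd i)
  have h2 : ∏ j, x j ^ α j = (∏ j, x j ^ (Function.update α i (α i - c)) j) * x i ^ c := by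
    rw [← Finset.mul_prod_erase _ _ (Finset.mem_univ i),
      ← Finset.mul_prod_erase _ (fun j => x j ^ (Function.update α i (α i - c)) j)
        (Finset.mem_univ i), Function.update_self]
    have h3 : ∏ j ∈ Finset.univ.erase i, x j ^ (Function.update α i (α i - c)) j =
        ∏ j ∈ Finset.univ.erase i, x j ^ α j :=
      Finset.prod_congr rfl fun j hj => by
        rw [Function.update_of_ne (Finset.ne_of_mem_erase hj)]
    rw [h3]
    have h4 : x i ^ α i = x i ^ (α i - c) * x i ^ c := by
      rw [← pow_add, Nat.sub_add_cancel hci]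
    rw [h4]
    ring
  have h5 : ∑ j, (Function.update α i (α i - c)) j * d j = n := by
    have h6 : ∑ j, α j * d j = (∑ j, (Function.update α i (α i - c)) j * d j) + c * d i := by
      rw [← Finset.add_sum_erase _ _ (Finset.mem_univ i),
        ← Finset.add_sum_erase _ (fun j => (Function.update α i (α i - c)) j * d j)
          (Finset.mem_univ i), Function.update_self]
      have h3 : ∑ j ∈ Finset.univ.erase i, (Function.update α i (α i - c)) j * d j =
          ∑ j ∈ Finset.univ.erase i, α j * d j :=
        Finset.sum_congr rfl fun j hj => by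
          rw [Function.update_of_ne (Finset.ne_of_mem_erase hj)]
      rw [h3]
      have h4 : α i * d i = (α i - c) * d i + c * d i := by
        rw [← Nat.add_mul, Nat.sub_add_cancel hci]
      rw [h4]
      ring
    rw [hα, hc] at h6
    omega
  rw [h2]
  refine Ideal.mul_mem_mul ?_ ?_
  · have h7 := prod_mem F x d hx (Function.update α i (α i - c)) Finset.univ
    rwa [h5] at h7
  · rw [hc]
    exact F.pow_mem' (hx i) c

end VER

/-- row VER -/
theorem exists_veronese {R : Type} [CommRing R] (F : IdealFam R)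
    (hfg : Algebra.FiniteType R F.rees) :
    ∃ N : ℕ, 0 < N ∧ ∀ d : ℕ, F.I (N * d) = F.I N ^ d := by
  obtain ⟨ι, hι, hne, x, d, hd, hx, hg⟩ := VER.exists_gens F hfg
  let e : ℕ := ∏ i, d i
  have he : 0 < e := Finset.prod_pos fun i _ => hd i
  let r : ℕ := Fintype.card ι
  have hr : 0 < r := Fintype.card_pos
  have hstep : ∀ n, r * e ≤ n + e → F.I (n + e) ≤ F.I n * F.I e :=
    fun n hn => VER.step F x d hd hx hg n hn
  have hiter : ∀ m, F.I (r * e + m * e) ≤ F.I (r * e) * F.I e ^ m := by
    intro m
    induction m with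
    | zero => rw [Nat.zero_mul, Nat.add_zero, pow_zero, mul_one]
    | succ m ih =>
      rw [Nat.succ_mul, ← Nat.add_assoc, pow_succ, ← mul_assoc]
      exact (hstep _ (by omega)).trans (Ideal.mul_mono_left ih)
  refine ⟨r * e, Nat.mul_pos hr he, fun n => ?_⟩
  apply le_antisymm
  · rcases n with _ | n
    · rw [pow_zero, Ideal.one_eq_top]; exact le_top
    · have h1 : r * e * (n + 1) = r * e + (r * n) * e := by ring
      rw [h1, pow_succ']
      refine (hiter (r * n)).trans (Ideal.mul_mono_right ?_)
      rw [pow_mul]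
      exact Ideal.pow_right_mono (VER.pow_le F r e) n
  · have h2 := VER.pow_le F n (r * e)
    rwa [mul_comm n (r * e)] at h2

end Pool.Agent.MP_b525bf_ag_E
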